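import Pool.Agent.N76.RG.Stm

set_option autoImplicit false

/-!
# Project RG, leaf CMP: integral elements with bounded conjugates have few components
-/

namespace Pool.Agent.N76.RG.CMP

open Polynomial IntermediateField Module
open scoped ComplexConjugate

/-- the finite Parseval identity -/
theorem pars {M : ℕ} {ω : ℂ} (hω : IsPrimitiveRoot ω M) (hM : 0 < M) (c : Fin M → ℂ) :
    ∑ s : Fin M, ‖∑ j, c j * (ω ^ (s : ℕ)) ^ (j : ℕ)‖ ^ 2 = M * ∑ j, ‖c j‖ ^ 2 := by
  have hω0 : ω ≠ 0 := hω.ne_zero hM.ne'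
  have hconj : conj ω = ω⁻¹ := by
    have h1 : ‖ω‖ = 1 := Complex.norm_eq_one_of_pow_eq_one hω.pow_eq_one hM.ne'
    rw [Complex.inv_def, Complex.normSq_eq_norm_sq, h1]
    simp
  have hgeom : ∀ j j' : Fin M, ∑ s : Fin M, (ω ^ (j : ℕ) * (ω⁻¹) ^ (j' : ℕ)) ^ (s : ℕ) =
      if j = j' then (M : ℂ) else 0 := by
    intro j j'
    set x : ℂ := ω ^ (j : ℕ) * (ω⁻¹) ^ (j' : ℕ) with hx
    split_ifs with h
    · have : x = 1 := by
        rw [hx, h, ← mul_pow, mul_inv_cancel₀ hω0, one_pow]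
      simp [this]
    · have hx1 : x ≠ 1 := by
        intro h1
        apply h
        have h2 : ω ^ (j : ℕ) = ω ^ (j' : ℕ) := by
          rw [hx, inv_pow, ← div_eq_mul_inv, div_eq_one_iff_eq (pow_ne_zero _ hω0)] at h1
          exact h1
        exact Fin.ext (hω.pow_inj j.2 j'.2 h2)
      have hxM : x ^ M = 1 := by
        rw [hx, mul_pow, ← pow_mul, ← pow_mul, mul_comm (j : ℕ), mul_comm (j' : ℕ), pow_mul,
          pow_mul, inv_pow, hω.pow_eq_one]
        simp
      rw [Fin.sum_univ_eq_sum_range (fun s => x ^ s) M]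
      have := geom_sum_eq hx1 M
      rw [this, hxM, sub_self, zero_div]
  have key : ∀ s : Fin M, ((‖∑ j, c j * (ω ^ (s : ℕ)) ^ (j : ℕ)‖ ^ 2 : ℝ) : ℂ) =
      ∑ j, ∑ j', c j * conj (c j') * (ω ^ (j : ℕ) * (ω⁻¹) ^ (j' : ℕ)) ^ (s : ℕ) := by
    intro s
    have h1 : ((‖∑ j, c j * (ω ^ (s : ℕ)) ^ (j : ℕ)‖ ^ 2 : ℝ) : ℂ) =
        (∑ j, c j * (ω ^ (s : ℕ)) ^ (j : ℕ)) * conj (∑ j, c j * (ω ^ (s : ℕ)) ^ (j : ℕ)) := by
      rw [Complex.mul_conj, Complex.normSq_eq_norm_sq]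
    rw [h1, map_sum, Finset.sum_mul_sum]
    refine Finset.sum_congr rfl fun j _ => Finset.sum_congr rfl fun j' _ => ?_
    rw [map_mul, map_pow, map_pow, hconj, mul_pow, ← pow_mul, ← pow_mul, ← pow_mul, ← pow_mul,
      mul_comm (s : ℕ) (j : ℕ), mul_comm (s : ℕ) (j' : ℕ)]
    ring
  have h3 : ((∑ s : Fin M, ‖∑ j, c j * (ω ^ (s : ℕ)) ^ (j : ℕ)‖ ^ 2 : ℝ) : ℂ) =
      ((M * ∑ j, ‖c j‖ ^ 2 : ℝ) : ℂ) := by
    rw [Complex.ofReal_sum]
    simp only [key]
    rw [Finset.sum_comm]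
    have : ∀ j : Fin M, ∑ s : Fin M, ∑ j', c j * conj (c j') *
        (ω ^ (j : ℕ) * (ω⁻¹) ^ (j' : ℕ)) ^ (s : ℕ) = (M : ℂ) * ((‖c j‖ ^ 2 : ℝ) : ℂ) := by
      intro j
      rw [Finset.sum_comm]
      simp only [← Finset.mul_sum, hgeom]
      simp only [mul_ite, mul_zero, Finset.sum_ite_eq, Finset.mem_univ, if_true]
      rw [Complex.mul_conj, Complex.normSq_eq_norm_sq, mul_comm]
    rw [Finset.sum_congr rfl fun j _ => this j, ← Finset.mul_sum]
    push_cast
    rfl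
  exact_mod_cast h3

/-- nonzero algebraic integers have large conjugates -/
theorem amgm {F : Type*} [Field F] [NumberField F] {b : F} (hb : IsIntegral ℤ b) (h0 : b ≠ 0) :
    (Fintype.card (F →ₐ[ℚ] ℂ) : ℝ) ≤ ∑ t : F →ₐ[ℚ] ℂ, ‖t b‖ ^ 2 := by
  have hn : (1 : ℝ) ≤ ∏ t : F →ₐ[ℚ] ℂ, ‖t b‖ := by
    have h1 := Algebra.norm_eq_prod_embeddings ℚ ℂ b
    have h2 : IsIntegral ℤ (Algebra.norm ℚ b) := Algebra.isIntegral_norm ℚ hb
    obtain ⟨n, hn⟩ := IsIntegrallyClosed.isIntegral_iff.mp h2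
    have h3 : Algebra.norm ℚ b ≠ 0 := Algebra.norm_ne_zero_iff.mpr h0
    have hn0 : n ≠ 0 := by
      rintro rfl
      apply h3
      rw [← hn, map_zero]
    rw [← norm_prod, ← h1, ← hn]
    have h4 : ‖algebraMap ℚ ℂ (algebraMap ℤ ℚ n)‖ = |(n : ℝ)| := by
      simp
    rw [h4]
    exact_mod_cast Int.one_le_abs hn0
  have hpos : ∀ t : F →ₐ[ℚ] ℂ, 0 < ‖t b‖ := fun t => norm_pos_iff.mpr (by
    rw [Ne, map_eq_zero_iff t t.toRingHom.injective]
    exact h0)
  have h5 : ∀ t : F →ₐ[ℚ] ℂ, 1 + 2 * Real.log ‖t b‖ ≤ ‖t b‖ ^ 2 := by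
    intro t
    have := Real.log_le_sub_one_of_pos (pow_pos (hpos t) 2)
    rw [Real.log_pow] at this
    push_cast at this
    linarith
  have h6 := Finset.sum_le_sum fun (t : F →ₐ[ℚ] ℂ) (_ : t ∈ Finset.univ) => h5 t
  rw [Finset.sum_add_distrib, ← Finset.mul_sum, ← Real.log_prod (fun t _ => (hpos t).ne')] at h6
  have h7 := Real.log_nonneg hn
  simp only [Finset.sum_const, Finset.card_univ, nsmul_eq_mul, mul_one] at h6
  linarith

end Pool.Agent.N76.RG.CMP

namespace Pool.Agent.N76.RG.CMP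

open Polynomial IntermediateField Module
open scoped ComplexConjugate

theorem minp {F E : Type*} [Field F] [Field E] [Algebra F E] {M : ℕ} (hM : 0 < M) {ζ : E} {a : F}
    (ha : algebraMap F E a = ζ ^ M) (hli : LinearIndependent F fun j : Fin M => ζ ^ (j : ℕ)) :
    (X ^ M - C a : F[X]) = minpoly F ζ := by
  refine minpoly.unique' F ζ (monic_X_pow_sub_C a hM.ne') ?_ ?_
  · rw [map_sub, map_pow, aeval_X, aeval_C, ha, sub_self]
  · intro q hq
    rw [degree_X_pow_sub_C hM] at hq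
    by_cases h0 : aeval ζ q = 0
    · left
      have h1 : aeval ζ q = ∑ j : Fin M, q.coeff j • ζ ^ (j : ℕ) := by
        have hdeg : q.natDegree < M := by
          by_cases hq0 : q = 0
          · rw [hq0, natDegree_zero]; exact hM
          · exact (natDegree_lt_iff_degree_lt hq0).mpr hq
        rw [aeval_eq_sum_range' hdeg, Fin.sum_univ_eq_sum_range (fun j => q.coeff j • ζ ^ j) M]
      rw [h1] at h0
      have h2 := Fintype.linearIndependent_iff.mp hli _ h0
      ext j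
      rw [coeff_zero]
      by_cases hj : j < M
      · exact h2 ⟨j, hj⟩
      · apply coeff_eq_zero_of_degree_lt
        refine lt_of_lt_of_le hq ?_
        exact_mod_cast not_lt.mp hj
    · right
      exact h0

theorem cnt {F E : Type*} [Field F] [NumberField F] [Field E] [NumberField E] [Algebra F E] {M : ℕ}
    (hM : 0 < M) {ζ : E} {a : F} (ha : algebraMap F E a = ζ ^ M) {n : ℕ} (hn : 0 < n)
    (hζ : ζ ^ n = 1) (hli : LinearIndependent F fun j : Fin M => ζ ^ (j : ℕ)) (b : Fin M → F)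
    [DecidablePred fun j => b j ≠ 0] (hb : ∀ j, IsIntegral ℤ (b j)) {B : ℝ}
    (hB : ∀ τ : E →+* ℂ, ‖τ (∑ j, algebraMap F E (b j) * ζ ^ (j : ℕ))‖ ≤ B) :
    ((Finset.univ.filter fun j => b j ≠ 0).card : ℝ) ≤ B ^ 2 := by
  have halg : Algebra.IsAlgebraic F E := Algebra.IsAlgebraic.tower_top (K := ℚ) F
  have hmp := minp hM ha hli
  have han : a ^ n = 1 := by
    apply (algebraMap F E).injective
    rw [map_pow, ha, map_one, ← pow_mul, mul_comm, pow_mul, hζ, one_pow]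
  have key : ∀ t : F →ₐ[ℚ] ℂ, ∑ j, ‖t (b j)‖ ^ 2 ≤ B ^ 2 := by
    intro t
    let _ : Algebra F ℂ := t.toRingHom.toAlgebra
    have htalg : ∀ x : F, algebraMap F ℂ x = t x := fun x => rfl
    obtain ⟨w, hw⟩ := IsAlgClosed.exists_pow_nat_eq (t a) hM
    have hw1 : ‖w‖ = 1 := by
      apply Complex.norm_eq_one_of_pow_eq_one (n := M * n) _ (Nat.mul_pos hM hn).ne'
      rw [pow_mul, hw, ← map_pow, han, map_one]
    have hω := Complex.isPrimitiveRoot_exp M hM.ne'
    set ω : ℂ := Complex.exp (2 * Real.pi * Complex.I / M) with hωdef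
    have h1 : ∀ s : Fin M, ‖∑ j, (t (b j) * w ^ (j : ℕ)) * (ω ^ (s : ℕ)) ^ (j : ℕ)‖ ≤ B := by
      intro s
      have hz : (w * ω ^ (s : ℕ)) ∈ (minpoly F ζ).rootSet ℂ := by
        rw [← hmp, mem_rootSet]
        refine ⟨(monic_X_pow_sub_C a hM.ne').ne_zero, ?_⟩
        rw [map_sub, map_pow, aeval_X, aeval_C, htalg, mul_pow, hw, ← pow_mul, mul_comm (s : ℕ) M,
          pow_mul, hω.pow_eq_one, one_pow, mul_one, sub_self]
      rw [← Algebra.IsAlgebraic.range_eval_eq_rootSet_minpoly ℂ ζ] at hz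
      obtain ⟨ψ, hψ⟩ := hz
      have h2 := hB (ψ : E →+* ℂ)
      have h3 : (ψ : E →+* ℂ) (∑ j, algebraMap F E (b j) * ζ ^ (j : ℕ)) =
          ∑ j, (t (b j) * w ^ (j : ℕ)) * (ω ^ (s : ℕ)) ^ (j : ℕ) := by
        rw [map_sum]
        refine Finset.sum_congr rfl fun j _ => ?_
        rw [map_mul, map_pow]
        have e1 : (ψ : E →+* ℂ) (algebraMap F E (b j)) = t (b j) := by
          rw [← htalg]
          exact ψ.commutes (b j)
        have e2 : (ψ : E →+* ℂ) ζ = w * ω ^ (s : ℕ) := hψ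
        rw [e1, e2, mul_pow]
        ring
      rw [h3] at h2
      exact h2
    have h4 := pars hω hM fun j => t (b j) * w ^ (j : ℕ)
    have h5 : ∑ s : Fin M, ‖∑ j, (t (b j) * w ^ (j : ℕ)) * (ω ^ (s : ℕ)) ^ (j : ℕ)‖ ^ 2 ≤
        ∑ _s : Fin M, B ^ 2 :=
      Finset.sum_le_sum fun s _ => pow_le_pow_left₀ (norm_nonneg _) (h1 s) 2
    rw [h4, Finset.sum_const, Finset.card_univ, Fintype.card_fin, nsmul_eq_mul] at h5
    have h6 : ∀ j : Fin M, ‖t (b j) * w ^ (j : ℕ)‖ ^ 2 = ‖t (b j)‖ ^ 2 := by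
      intro j
      rw [norm_mul, norm_pow, hw1, one_pow, mul_one]
    simp only [h6] at h5
    exact le_of_mul_le_mul_left h5 (by exact_mod_cast hM)
  have hcard : 0 < Fintype.card (F →ₐ[ℚ] ℂ) := by
    rw [AlgHom.card]
    exact finrank_pos
  have h1 : ((Finset.univ.filter fun j => b j ≠ 0).card : ℝ) * Fintype.card (F →ₐ[ℚ] ℂ) ≤
      Fintype.card (F →ₐ[ℚ] ℂ) * B ^ 2 := by
    calc ((Finset.univ.filter fun j => b j ≠ 0).card : ℝ) * Fintype.card (F →ₐ[ℚ] ℂ)
        = ∑ _j ∈ Finset.univ.filter fun j => b j ≠ 0, (Fintype.card (F →ₐ[ℚ] ℂ) : ℝ) := by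
          rw [Finset.sum_const, nsmul_eq_mul]
      _ ≤ ∑ j ∈ Finset.univ.filter fun j => b j ≠ 0, ∑ t : F →ₐ[ℚ] ℂ, ‖t (b j)‖ ^ 2 := by
          refine Finset.sum_le_sum fun j hj => amgm (hb j) ?_
          exact (Finset.mem_filter.mp hj).2
      _ ≤ ∑ j, ∑ t : F →ₐ[ℚ] ℂ, ‖t (b j)‖ ^ 2 :=
          Finset.sum_le_sum_of_subset_of_nonneg (Finset.filter_subset _ _) fun j _ _ =>
            Finset.sum_nonneg fun t _ => sq_nonneg _
      _ = ∑ t : F →ₐ[ℚ] ℂ, ∑ j, ‖t (b j)‖ ^ 2 := Finset.sum_comm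
      _ ≤ ∑ _t : F →ₐ[ℚ] ℂ, B ^ 2 := Finset.sum_le_sum fun t _ => key t
      _ = Fintype.card (F →ₐ[ℚ] ℂ) * B ^ 2 := by
          rw [Finset.sum_const, Finset.card_univ, nsmul_eq_mul]
  have h2 : (0 : ℝ) < Fintype.card (F →ₐ[ℚ] ℂ) := by exact_mod_cast hcard
  rw [mul_comm] at h1
  exact le_of_mul_le_mul_left h1 h2

end Pool.Agent.N76.RG.CMP

namespace Pool.Agent.N76.RG

open Polynomial IntermediateField Module

theorem cmp.{u, v} (h1 : S_IRR.{u, v}) (h2 : S_INT.{u, v}) : S_CMP.{u, v} := by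
  classical
  intro K _ _ p hp
  obtain ⟨c1, hc1, H1⟩ := h1 K p hp
  obtain ⟨c2, hc2, H2⟩ := h2 K p hp
  set c := max c1 c2 with hc
  obtain ⟨D, hD, HD⟩ := H2 c (le_max_right _ _)
  refine ⟨c, fun B => ⟨⌈((D : ℝ) * B) ^ 2⌉₊, fun k hk E _ _ _ ζ hζ => ?_⟩⟩
  set M : ℕ := p ^ (k - c) with hM
  have hM0 : 0 < M := pow_pos hp.pos _
  have hli := H1 c (le_max_left _ _) k hk E ζ hζ
  rw [← hM] at hli
  refine ⟨?_, ?_⟩
  · intro _ f hf hsum
    choose a ha hfa using hf
    set e : ZMod M → Fin M := fun j => ⟨j.val, ZMod.val_lt j⟩ with he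
    have hinj : Function.Injective e := by
      intro x y hxy
      exact ZMod.val_injective M (congrArg Fin.val hxy)
    have hli2 := hli.comp e hinj
    have h3 := Fintype.linearIndependent_iff.mp hli2 (fun j => ⟨a j, ha j⟩) (by
      rw [← hsum]
      refine Finset.sum_congr rfl fun j _ => ?_
      rw [hfa j]
      rfl)
    intro j
    have h4 : a j = 0 := congrArg Subtype.val (h3 j)
    rw [hfa j, h4, zero_mul]
  · intro y hy hint hB
    have : NeZero M := ⟨hM0.ne'⟩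
    set F : IntermediateField K E := K⟮ζ ^ M⟯ with hF
    have hζn : ζ ^ (p ^ k) = 1 := hζ.pow_eq_one
    set aF : F := ⟨ζ ^ M, mem_adjoin_simple_self K _⟩ with haF
    -- the components
    have hcomp : ∃ α : Fin M → F, y = ∑ j, (α j : E) * ζ ^ (j : ℕ) := by
      have halgK : IsAlgebraic K ζ := by
        have : Algebra.IsAlgebraic K E := Algebra.IsAlgebraic.tower_top (K := ℚ) K
        exact Algebra.IsAlgebraic.isAlgebraic ζ
      have hy' : y ∈ K⟮ζ⟯.toSubalgebra := hy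
      rw [adjoin_simple_toSubalgebra_of_isAlgebraic halgK, Algebra.adjoin_singleton_eq_range_aeval] at hy'
      obtain ⟨q, hq⟩ := hy'
      have hmon : (X ^ M - C aF : F[X]).Monic := monic_X_pow_sub_C aF hM0.ne'
      set r : F[X] := (q.map (algebraMap K F)) %ₘ (X ^ M - C aF) with hr
      have hroot : aeval ζ (X ^ M - C aF : F[X]) = 0 := by
        rw [map_sub, map_pow, aeval_X, aeval_C]
        exact sub_self _
      have h5 : aeval ζ r = y := by
        rw [hr, aeval_modByMonic_eq_self_of_root hroot, aeval_map_algebraMap]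
        exact hq
      have hdeg : r.natDegree < M := by
        have h6 := degree_modByMonic_lt (q.map (algebraMap K F)) hmon
        rw [degree_X_pow_sub_C hM0, ← hr] at h6
        by_cases hr0 : r = 0
        · rw [hr0, natDegree_zero]; exact hM0
        · exact (natDegree_lt_iff_degree_lt hr0).mpr h6
      refine ⟨fun j => r.coeff j, ?_⟩
      rw [← h5, aeval_eq_sum_range' hdeg, ← Fin.sum_univ_eq_sum_range (fun j => r.coeff j • ζ ^ j) M]
      rfl
    obtain ⟨α, hα⟩ := hcomp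
    have hint2 := HD k hk E ζ hζ (fun j => (α j : E)) (fun j => (α j).2) (by
      rw [← hα]
      exact hint)
    have hcnt := CMP.cnt (F := F) (E := E) hM0 (ζ := ζ) (a := aF) rfl (pow_pos hp.pos k) hζn hli
      (fun j => (D : F) * α j) (fun j => by
        have h7 : IsIntegral ℤ (((D : F) * α j : F) : E) := by
          have := hint2 j
          simpa using this
        exact (isIntegral_algebraMap_iff (algebraMap F E).injective).mp h7) (B := D * B) (by
        intro τ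
        have h8 : (∑ j, algebraMap F E ((D : F) * α j) * ζ ^ (j : ℕ)) = (D : E) * y := by
          rw [hα, Finset.mul_sum]
          refine Finset.sum_congr rfl fun j _ => ?_
          rw [map_mul, map_natCast, mul_assoc]
          rfl
        rw [h8, map_mul, map_natCast, norm_mul, Complex.norm_natCast]
        exact mul_le_mul_of_nonneg_left (hB τ) (Nat.cast_nonneg D))
    have hval : ∀ i : Fin M, ((i : ℕ) : ZMod M).val = i := fun i => ZMod.val_natCast_of_lt i.2
    have hinj : Function.Injective (fun i : Fin M => ((i : ℕ) : ZMod M)) := by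
      intro x x' hxx
      have hxx' : ((x : ℕ) : ZMod M) = ((x' : ℕ) : ZMod M) := hxx
      exact Fin.ext (by rw [← hval x, ← hval x', hxx'])
    refine ⟨(Finset.univ.filter fun j : Fin M => (D : F) * α j ≠ 0).image
      (fun i : Fin M => ((i : ℕ) : ZMod M)), fun j => (α ⟨j.val, ZMod.val_lt j⟩ : E) * ζ ^ j.val, ?_, ?_, ?_⟩
    · refine Finset.card_image_le.trans ?_
      have h9 := hcnt.trans (Nat.le_ceil _)
      exact_mod_cast h9
    · intro j
      exact ⟨_, (α ⟨j.val, ZMod.val_lt j⟩).2, rfl⟩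
    · rw [Finset.sum_image hinj.injOn]
      have h10 : ∀ i : Fin M, (α ⟨((i : ℕ) : ZMod M).val, ZMod.val_lt _⟩ : E) *
          ζ ^ ((i : ℕ) : ZMod M).val = (α i : E) * ζ ^ (i : ℕ) := by
        intro i
        have : (⟨((i : ℕ) : ZMod M).val, ZMod.val_lt _⟩ : Fin M) = i := Fin.ext (hval i)
        rw [this, hval]
      simp only [h10]
      rw [hα]
      symm
      apply Finset.sum_subset (Finset.filter_subset _ _)
      intro j _ hj
      rw [Finset.mem_filter, not_and, not_not] at hj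
      have h11 := hj (Finset.mem_univ _)
      rcases mul_eq_zero.mp h11 with h12 | h12
      · exact absurd (Nat.cast_eq_zero.mp h12) hD.ne'
      · rw [h12, ZeroMemClass.coe_zero, zero_mul]

end Pool.Agent.N76.RG
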