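import Pool.Agent.N76.RG.Stm

/-!
RG/DET (helper562, project RG of helper76): a nonvanishing minor.
-/

set_option autoImplicit false

namespace Pool.Agent.N76.RG

namespace Det

theorem det_aux.{u} (S : Type u) [Finite S] (r : ℕ) (f : Fin r → S → ℝ)
    (hf : LinearIndependent ℝ f) :
    ∃ e : Fin r → S, Function.Injective e ∧ (Matrix.of fun i j => f j (e i)).det ≠ 0 := by
  classical
  let v : S → (Fin r → ℝ) := fun s i => f i s
  have hspan : Submodule.span ℝ (Set.range v) = ⊤ := by
    by_contra hne
    obtain ⟨φ, hφ, hle⟩ := Submodule.exists_le_ker_of_lt_top _ (lt_top_iff_ne_top.2 hne)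
    apply hφ
    have h1 : ∀ i, φ (fun j => if i = j then 1 else 0) = 0 := by
      refine Fintype.linearIndependent_iff.1 hf (fun i => φ (fun j => if i = j then 1 else 0)) ?_
      funext s
      have h3 : φ (v s) = 0 := hle (Submodule.subset_span ⟨s, rfl⟩)
      rw [LinearMap.pi_apply_eq_sum_univ φ (v s)] at h3
      refine Eq.trans ?_ h3
      rw [Finset.sum_apply]
      refine Finset.sum_congr rfl fun i _ => ?_
      rw [Pi.smul_apply, smul_eq_mul, smul_eq_mul, mul_comm]
    refine LinearMap.ext fun x => ?_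
    rw [LinearMap.pi_apply_eq_sum_univ φ x]
    simp [h1]
  obtain ⟨κ, a, ha, hs, hli⟩ := exists_linearIndependent' ℝ v
  have hfin : Finite κ := Finite.of_injective a ha
  have hft : Fintype κ := Fintype.ofFinite κ
  let b : Module.Basis κ ℝ (Fin r → ℝ) := Module.Basis.mk hli (by rw [hs, hspan])
  have hcard : Fintype.card κ = r := by
    rw [← Module.finrank_eq_card_basis b, Module.finrank_fin_fun]
  let E : κ ≃ Fin r := Fintype.equivFinOfCardEq hcard
  refine ⟨a ∘ E.symm, ha.comp E.symm.injective, ?_⟩
  have h4 : LinearIndependent ℝ (Matrix.of fun i j => f j ((a ∘ E.symm) i)).row :=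
    hli.comp E.symm E.symm.injective
  have h5 := Matrix.linearIndependent_rows_iff_isUnit.1 h4
  exact ((Matrix.isUnit_iff_isUnit_det _).1 h5).ne_zero

end Det

theorem det_.{u} : S_DET.{u} := by
  intro S _ r f hf
  exact Det.det_aux S r f hf

end Pool.Agent.N76.RG
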