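import Pool.Agent.N76.RG.Stm

set_option autoImplicit false

/-!
# Project RG, leaf DIR (helper814): simultaneous approximation
-/

namespace Pool.Agent.N76.RG

theorem dir_aux {M : ℕ} [NeZero M] (R : Finset (ZMod M)) {v₁ v₂ : ℕ} (h12 : v₁ < v₂) (h2 : v₂ < M)
    (hbox : ∀ r ∈ R, 16 * ((v₁ : ZMod M) * r).val / M = 16 * ((v₂ : ZMod M) * r).val / M) :
    ∃ v : ℕ, 0 < v ∧ v < M ∧ ∀ r ∈ R, 8 * |((v : ZMod M) * r).valMinAbs| < M := by
  refine ⟨v₂ - v₁, by omega, by omega, fun r hr => ?_⟩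
  have hM : 0 < M := NeZero.pos M
  set a := ((v₁ : ZMod M) * r).val with ha
  set b := ((v₂ : ZMod M) * r).val with hb
  have h3 : 16 * a / M = 16 * b / M := hbox r hr
  have h4 : |(b : ℤ) - a| * 16 < M := by
    have ea := Nat.div_add_mod (16 * a) M
    have eb := Nat.div_add_mod (16 * b) M
    have la := Nat.mod_lt (16 * a) hM
    have lb := Nat.mod_lt (16 * b) hM
    rw [h3] at ea
    rcases abs_cases ((b : ℤ) - a) with ⟨h5, _⟩ | ⟨h5, _⟩ <;> rw [h5] <;> omega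
  have h5 : ((((b : ℤ) - a : ℤ)) : ZMod M) = (((v₂ - v₁ : ℕ) : ZMod M) * r) := by
    rw [Nat.cast_sub h12.le, sub_mul]
    push_cast
    rw [ha, hb, ZMod.natCast_zmod_val, ZMod.natCast_zmod_val]
  have h6 : ((((v₂ - v₁ : ℕ) : ZMod M) * r).valMinAbs).natAbs ≤ ((b : ℤ) - a).natAbs := by
    refine ZMod.natAbs_min_of_le_div_two M _ _ ?_ (ZMod.natAbs_valMinAbs_le _)
    rw [ZMod.coe_valMinAbs, h5]
  have h7 : |((((v₂ - v₁ : ℕ) : ZMod M) * r).valMinAbs)| ≤ |(b : ℤ) - a| := by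
    rw [Int.abs_eq_natAbs, Int.abs_eq_natAbs]
    exact_mod_cast h6
  have h8 := abs_nonneg ((b : ℤ) - a)
  omega

theorem dir_ : S_DIR := by
  intro N
  refine ⟨16 ^ N + 1, fun M hM R hR => ?_⟩
  have hM0 : 0 < M := lt_of_lt_of_le (Nat.succ_pos _) hM
  have : NeZero M := ⟨hM0.ne'⟩
  have hlt : ∀ (v : ℕ) (r : ZMod M), 16 * ((v : ZMod M) * r).val / M < 16 := fun v r =>
    Nat.div_lt_of_lt_mul (by
      have := ZMod.val_lt ((v : ZMod M) * r)
      omega)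
  obtain ⟨v₁, v₂, hne, heq⟩ := Fintype.exists_ne_map_eq_of_card_lt
    (fun (v : Fin M) (r : R) => (⟨16 * (((v : ℕ) : ZMod M) * r).val / M, hlt v r⟩ : Fin 16)) (by
      rw [Fintype.card_fun, Fintype.card_fin, Fintype.card_fin, Fintype.card_coe]
      exact lt_of_le_of_lt (Nat.pow_le_pow_right (by norm_num) hR) (by omega))
  have hbox : ∀ r ∈ R, 16 * (((v₁ : ℕ) : ZMod M) * r).val / M =
      16 * (((v₂ : ℕ) : ZMod M) * r).val / M := fun r hr => by
    have h1 := congrFun heq ⟨r, hr⟩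
    exact congrArg Fin.val h1
  rcases lt_trichotomy (v₁ : ℕ) (v₂ : ℕ) with h | h | h
  · exact dir_aux R h v₂.2 hbox
  · exact absurd (Fin.ext h) hne
  · exact dir_aux R h v₁.2 fun r hr => (hbox r hr).symm

end Pool.Agent.N76.RG
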