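import Pool.Agent.N76.RG.Stm

/-!
Project RG (helper76), leaf INT, written by helper218.
-/

set_option autoImplicit false

namespace Pool.Agent.N76.RG

open Polynomial IntermediateField Module
open scoped NumberField

/-- denominators of integral elements of a simple extension -/
theorem denom {F E : Type*} [Field F] [NumberField F] [Field E] [CharZero E] [Algebra F E]
    {θ : E}
    {f : ℤ[X]} (hf : f.Monic) (hθ : aeval θ f = 0) {w : E} (hw : IsIntegral ℤ w) {D : ℕ}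
    (hD0 : D ≠ 0) (hD : (D : E) = aeval θ (derivative f) * w) (y : F⟮θ⟯) (hy : IsIntegral ℤ y) :
    (D : F⟮θ⟯) ^ f.natDegree * y ∈
      Algebra.adjoin (𝓞 F) ({AdjoinSimple.gen F θ} : Set F⟮θ⟯) := by
  have hθZ : IsIntegral ℤ θ := ⟨f, hf, by rwa [← aeval_def]⟩
  have hθF : IsIntegral F θ := hθZ.tower_top
  obtain ⟨s, hs⟩ : ∃ s, s = AdjoinSimple.gen F θ := ⟨_, rfl⟩
  rw [← hs]
  have hsE : algebraMap F⟮θ⟯ E s = θ := by rw [hs]; exact AdjoinSimple.algebraMap_gen F θ
  have hinj : Function.Injective (algebraMap F⟮θ⟯ E) := (algebraMap F⟮θ⟯ E).injective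
  have hsZ : IsIntegral ℤ s := by
    rw [← isIntegral_algebraMap_iff hinj, hsE]
    exact hθZ
  have : IsScalarTower ℤ (𝓞 F) F⟮θ⟯ := IsScalarTower.of_algebraMap_eq' (RingHom.ext_int _ _)
  have hsO : IsIntegral (𝓞 F) s := hsZ.tower_top
  let pb : PowerBasis F F⟮θ⟯ := adjoin.powerBasis hθF
  have hgen : pb.gen = s := by rw [hs]; exact adjoin.powerBasis_gen hθF
  have hfin : FiniteDimensional F F⟮θ⟯ := pb.finite
  obtain ⟨g, hg⟩ : ∃ g, g = minpoly (𝓞 F) s := ⟨_, rfl⟩
  have hgF : minpoly F s = g.map (algebraMap (𝓞 F) F) := by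
    rw [hg]
    exact minpoly.isIntegrallyClosed_eq_field_fractions' F hsO
  have hfs : aeval s f = 0 := by
    apply hinj
    rw [map_zero, ← aeval_algebraMap_apply, hsE, hθ]
  have hdvd : g ∣ f.map (algebraMap ℤ (𝓞 F)) := by
    rw [hg]
    apply minpoly.isIntegrallyClosed_dvd hsO
    rw [aeval_map_algebraMap]
    exact hfs
  obtain ⟨h, hh⟩ := hdvd
  have hgs : aeval s g = 0 := by rw [hg]; exact minpoly.aeval _ _
  have hder : aeval s (derivative f) = aeval s (derivative g) * aeval s h := by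
    have h1 : aeval s (derivative (f.map (algebraMap ℤ (𝓞 F)))) =
        aeval s (derivative g) * aeval s h := by
      rw [hh, derivative_mul, map_add, map_mul, map_mul, hgs, zero_mul, add_zero]
    rw [← h1, derivative_map, aeval_map_algebraMap]
  -- the element `wL`
  have hfs0 : aeval s (derivative f) ≠ 0 := by
    intro h0
    have h1 : aeval θ (derivative f) = 0 := by
      rw [← hsE, aeval_algebraMap_apply, h0, map_zero]
    rw [h1, zero_mul] at hD
    exact hD0 (by exact_mod_cast hD)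
  obtain ⟨wL, hwL⟩ : ∃ wL : F⟮θ⟯, (D : F⟮θ⟯) = aeval s (derivative f) * wL :=
    ⟨(D : F⟮θ⟯) * (aeval s (derivative f))⁻¹, by field_simp⟩
  have hwLE : algebraMap F⟮θ⟯ E wL = w := by
    have h1 := congrArg (algebraMap F⟮θ⟯ E) hwL
    rw [map_mul, ← aeval_algebraMap_apply, hsE, map_natCast, hD] at h1
    have h2 : aeval θ (derivative f) ≠ 0 := by
      rw [← hsE, aeval_algebraMap_apply]
      exact (_root_.map_ne_zero _).2 hfs0
    exact (mul_left_cancel₀ h2 h1).symm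
  have hwLZ : IsIntegral ℤ wL := by
    rw [← isIntegral_algebraMap_iff hinj, hwLE]
    exact hw
  have hOZ : ∀ c : 𝓞 F, IsIntegral ℤ (algebraMap (𝓞 F) F⟮θ⟯ c) := fun c =>
    (Algebra.IsIntegral.isIntegral (R := ℤ) c).algebraMap
  have hhZ : IsIntegral ℤ (aeval s h) := by
    rw [aeval_eq_sum_range]
    refine IsIntegral.sum _ fun i _ => ?_
    rw [Algebra.smul_def]
    exact (hOZ _).mul (hsZ.pow i)
  -- the discriminant
  have hdisc := Algebra.discr_powerBasis_eq_norm F pb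
  rw [hgen, hgF, derivative_map, aeval_map_algebraMap] at hdisc
  have hm : finrank F F⟮θ⟯ ≤ f.natDegree := by
    rw [adjoin.finrank hθF]
    have h1 : minpoly F θ = minpoly F s := by
      rw [hs]
      exact (minpoly_gen F θ).symm
    rw [h1, hgF]
    have h2 : (f.map (algebraMap ℤ (𝓞 F))).natDegree = f.natDegree := hf.natDegree_map _
    have h3 : (f.map (algebraMap ℤ (𝓞 F))) ≠ 0 := (hf.map _).ne_zero
    calc (g.map (algebraMap (𝓞 F) F)).natDegree ≤ g.natDegree := natDegree_map_le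
      _ ≤ (f.map (algebraMap ℤ (𝓞 F))).natDegree := natDegree_le_of_dvd ⟨h, hh⟩ h3
      _ = _ := h2
  have hnorm : (D : F) ^ finrank F F⟮θ⟯ = Algebra.norm F (aeval s (derivative g)) *
      Algebra.norm F (aeval s h) * Algebra.norm F wL := by
    have h1 : Algebra.norm F (algebraMap F F⟮θ⟯ (D : F)) = (D : F) ^ finrank F F⟮θ⟯ :=
      Algebra.norm_algebraMap (D : F)
    rw [← h1, map_natCast, hwL, hder, map_mul, map_mul]
  obtain ⟨ε, hε⟩ : ∃ ε : F, ε = (-1) ^ (finrank F F⟮θ⟯ * (finrank F F⟮θ⟯ - 1) / 2) := ⟨_, rfl⟩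
  rw [← hε] at hdisc
  have hε2 : ε * ε = 1 := by
    rw [hε, ← mul_pow]
    norm_num
  have hεZ : IsIntegral ℤ ε := by
    rw [hε]
    exact (isIntegral_one.neg).pow _
  obtain ⟨v, hv⟩ : ∃ v : F, v = ε * Algebra.norm F (aeval s h) * Algebra.norm F wL *
    (D : F) ^ (f.natDegree - finrank F F⟮θ⟯) := ⟨_, rfl⟩
  have hvZ : IsIntegral ℤ v := by
    rw [hv]
    refine ((hεZ.mul (Algebra.isIntegral_norm F hhZ)).mul (Algebra.isIntegral_norm F hwLZ)).mul
      (IsIntegral.pow ?_ _)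
    exact isIntegral_natCast D
  have hDN : (D : F) ^ f.natDegree = v * Algebra.discr F pb.basis := by
    have h1 : (D : F) ^ f.natDegree = (D : F) ^ finrank F F⟮θ⟯ *
        (D : F) ^ (f.natDegree - finrank F F⟮θ⟯) := by
      rw [← pow_add, Nat.add_sub_cancel' hm]
    rw [h1, hnorm, hdisc, hv]
    linear_combination (-(Algebra.norm F (aeval s (derivative g)) *
      Algebra.norm F (aeval s h) * Algebra.norm F wL *
      (D : F) ^ (f.natDegree - finrank F F⟮θ⟯))) * hε2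
  have hmem := Algebra.discr_mul_isIntegral_mem_adjoin F (R := 𝓞 F) (B := pb)
    (by rw [hgen]; exact hsO) (z := y) hy.tower_top
  rw [hgen] at hmem
  obtain ⟨v', hv'⟩ : ∃ v' : 𝓞 F, algebraMap (𝓞 F) F v' = v := ⟨⟨v, hvZ⟩, rfl⟩
  have h5 : (D : F⟮θ⟯) ^ f.natDegree * y = v' • (Algebra.discr F pb.basis • y) := by
    have h6 : (D : F⟮θ⟯) ^ f.natDegree = algebraMap F F⟮θ⟯ ((D : F) ^ f.natDegree) := by
      rw [map_pow, map_natCast]
    rw [h6, hDN, ← hv', Algebra.smul_def, Algebra.smul_def, map_mul,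
      IsScalarTower.algebraMap_apply (𝓞 F) F F⟮θ⟯, mul_assoc]
  rw [h5]
  exact Subalgebra.smul_mem _ hmem v'

/-- an integral primitive element, and a denominator -/
theorem exists_data (K : Type*) [Field K] [NumberField K] :
    ∃ (θ : K) (f : ℤ[X]) (D : ℕ) (w : K), f.Monic ∧ aeval θ f = 0 ∧ IsIntegral ℤ w ∧ D ≠ 0 ∧
      (D : K) = aeval θ (derivative f) * w ∧ IsIntegral ℤ θ ∧
      ∀ C : IntermediateField ℚ K, θ ∈ C → C = ⊤ := by
  obtain ⟨α, hα⟩ := Field.exists_primitive_element ℚ K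
  have halg : IsAlgebraic ℤ α :=
    (IsFractionRing.isAlgebraic_iff ℤ ℚ K).2 (Algebra.IsAlgebraic.isAlgebraic α)
  obtain ⟨n, hn0, hn⟩ := halg.exists_integral_multiple
  obtain ⟨θ, hθ⟩ : ∃ θ, θ = n • α := ⟨_, rfl⟩
  rw [← hθ] at hn
  have hm := minpoly.monic hn
  have hQ : minpoly ℚ θ = (minpoly ℤ θ).map (algebraMap ℤ ℚ) :=
    minpoly.isIntegrallyClosed_eq_field_fractions' ℚ hn
  have hsep : (minpoly ℚ θ).Separable := Algebra.IsSeparable.isSeparable ℚ θ
  have hne : aeval θ (derivative (minpoly ℤ θ)) ≠ 0 := by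
    have h1 := hsep.aeval_derivative_ne_zero (minpoly.aeval ℚ θ)
    rw [hQ, derivative_map, aeval_map_algebraMap] at h1
    exact h1
  have hxZ : IsIntegral ℤ (aeval θ (derivative (minpoly ℤ θ))) := by
    rw [aeval_eq_sum_range]
    refine IsIntegral.sum _ fun i _ => ?_
    exact (hn.pow i).smul _
  obtain ⟨X, hX⟩ : ∃ X : 𝓞 K, (X : K) = aeval θ (derivative (minpoly ℤ θ)) :=
    ⟨⟨_, hxZ⟩, rfl⟩
  have hX0 : X ≠ 0 := by
    rintro rfl
    exact hne (by rw [← hX]; rfl)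
  have hmem := Ideal.absNorm_mem (Ideal.span {X})
  rw [Ideal.mem_span_singleton] at hmem
  obtain ⟨W, hW⟩ := hmem
  refine ⟨θ, minpoly ℤ θ, Ideal.absNorm (Ideal.span {X}), (W : K), hm, minpoly.aeval _ _,
    W.2, ?_, ?_, hn, ?_⟩
  · rw [Ne, Ideal.absNorm_eq_zero_iff, Ideal.span_singleton_eq_bot]
    exact hX0
  · have h1 := congrArg (fun z : 𝓞 K => (z : K)) hW
    simp only [map_natCast, map_mul] at h1
    rw [← hX]
    exact h1
  · intro C hC
    rw [eq_top_iff, ← hα, adjoin_simple_le_iff]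
    have h1 : α = (n : K)⁻¹ * θ := by
      rw [hθ, zsmul_eq_mul]
      field_simp
    rw [h1]
    exact C.mul_mem (C.inv_mem (intCast_mem C n)) hC

/-- polynomials in a root of `X ^ M - z` -/
theorem adj_root {E : Type*} [Field E] (A : Subring E) (ζ : E) {M : ℕ} (hM : 0 < M)
    (hζ : ζ ^ M ∈ A) {z : E} (hz : z ∈ Algebra.adjoin A ({ζ} : Set E)) :
    ∃ a : Fin M → E, (∀ j, a j ∈ A) ∧ z = ∑ j, a j * ζ ^ (j : ℕ) := by
  rw [Algebra.adjoin_singleton_eq_range_aeval] at hz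
  obtain ⟨q, rfl⟩ := hz
  obtain ⟨m, hm⟩ : ∃ m : A[X], m = X ^ M - C (⟨ζ ^ M, hζ⟩ : A) := ⟨_, rfl⟩
  have hmon : m.Monic := by rw [hm]; exact monic_X_pow_sub_C _ hM.ne'
  have hdeg : m.natDegree = M := by rw [hm]; exact natDegree_X_pow_sub_C
  have hroot : aeval ζ m = 0 := by
    rw [hm, map_sub, map_pow, aeval_X, aeval_C]
    exact sub_self _
  have hm1 : m ≠ 1 := by
    intro h
    rw [h, natDegree_one] at hdeg
    omega
  refine ⟨fun j => ((q %ₘ m).coeff j : E), fun j => ((q %ₘ m).coeff j).2, ?_⟩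
  have h1 : aeval ζ q = aeval ζ (q %ₘ m) := (aeval_modByMonic_eq_self_of_root hroot).symm
  change aeval ζ q = _
  rw [h1, aeval_eq_sum_range' (n := M) (by rw [← hdeg]; exact natDegree_modByMonic_lt q hmon hm1),
    Finset.sum_range]
  rfl

/-- INT: bounded denominators of the coefficients of integral elements -/
theorem int_.{u, v} (h : S_IRR.{u, v}) : S_INT.{u, v} := by
  intro K _ _ p hp
  obtain ⟨c₀, hc₀, hirr⟩ := h K p hp
  refine ⟨c₀, hc₀, fun c hc => ?_⟩
  obtain ⟨θ, f, D, w, hf, hfθ, hw, hD0, hD, hθ, hgen⟩ := exists_data K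
  refine ⟨D ^ f.natDegree, Nat.pos_of_ne_zero (pow_ne_zero _ hD0),
    fun k hk E _ _ _ ζ hζ α hα hint => ?_⟩
  have hli := hirr c hc k hk E ζ hζ
  have hpf : Fact p.Prime := ⟨hp⟩
  have hpk : NeZero (p ^ k) := ⟨pow_ne_zero _ hp.ne_zero⟩
  have hM : 0 < p ^ (k - c) := pow_pos hp.pos _
  generalize p ^ (k - c) = M at hli hM α
  have hζZ : IsIntegral ℤ ζ := hζ.isIntegral (NeZero.pos _)
  -- the ring `A`
  obtain ⟨A, hA⟩ : ∃ A : Subring E, A = (K⟮ζ ^ M⟯).toSubfield.toSubring ⊓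
    (integralClosure ℤ E).toSubring := ⟨_, rfl⟩
  have hAmem : ∀ x : E, x ∈ A ↔ x ∈ K⟮ζ ^ M⟯ ∧ IsIntegral ℤ x := by
    intro x
    rw [hA]
    exact Iff.rfl
  let F : IntermediateField ℚ E := ℚ⟮ζ⟯
  let θE : E := algebraMap K E θ
  have hθE : IsIntegral ℤ θE := hθ.algebraMap
  have hfE : aeval θE f = 0 := by
    rw [aeval_algebraMap_apply, hfθ, map_zero]
  have hDE : (D : E) = aeval θE (derivative f) * algebraMap K E w := by
    rw [aeval_algebraMap_apply, ← map_mul, ← hD, map_natCast]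
  -- everything lies in `F(θ)`
  have hKL : ∀ x : K, algebraMap K E x ∈ F⟮θE⟯ := by
    intro x
    have h1 := hgen ((F⟮θE⟯.restrictScalars ℚ).comap (algebraMap K E).toRatAlgHom)
      (mem_adjoin_simple_self F θE)
    have h2 : x ∈ ((F⟮θE⟯.restrictScalars ℚ).comap (algebraMap K E).toRatAlgHom) := by
      rw [h1]
      exact mem_top
    exact h2
  have hζL : ζ ∈ F⟮θE⟯ := by
    have := (F⟮θE⟯).algebraMap_mem (AdjoinSimple.gen ℚ ζ)
    rwa [AdjoinSimple.algebraMap_gen] at this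
  have hle : ∀ x ∈ K⟮ζ ^ M⟯, x ∈ F⟮θE⟯ := by
    obtain ⟨L', hL'⟩ : ∃ L' : IntermediateField K E, ∀ x, x ∈ L' ↔ x ∈ F⟮θE⟯ :=
      ⟨{ (F⟮θE⟯).toSubfield with algebraMap_mem' := hKL }, fun x => Iff.rfl⟩
    have h1 : K⟮ζ ^ M⟯ ≤ L' := by
      rw [adjoin_simple_le_iff, hL']
      exact pow_mem hζL _
    intro x hx
    exact (hL' x).1 (h1 hx)
  have hyL : ∑ j, α j * ζ ^ (j : ℕ) ∈ F⟮θE⟯ :=
    sum_mem fun j _ => mul_mem (hle _ (hα j)) (pow_mem hζL _)
  have hmem := denom (F := F) hf hfE (hw.algebraMap (B := E)) hD0 hDE ⟨_, hyL⟩ (by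
    rw [← isIntegral_algebraMap_iff (algebraMap F⟮θE⟯ E).injective]
    exact hint)
  -- the ring `Z[ζ][θ]`
  have hcyc : IsCyclotomicExtension {p ^ k} ℚ F :=
    hζ.intermediateField_adjoin_isCyclotomicExtension ℚ
  have hζ' : IsPrimitiveRoot (AdjoinSimple.gen ℚ ζ : F) (p ^ k) := by
    refine IsPrimitiveRoot.of_map_of_injective (f := algebraMap F E) ?_
      (algebraMap F E).injective
    rw [AdjoinSimple.algebraMap_gen]
    exact hζ
  have hic := IsCyclotomicExtension.Rat.isIntegralClosure_adjoin_singleton_of_prime_pow hζ'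
  have hT1 : ∀ u ∈ Algebra.adjoin ℤ ({AdjoinSimple.gen ℚ ζ} : Set F),
      algebraMap F E u ∈ Algebra.adjoin A ({ζ} : Set E) := by
    intro u hu
    induction hu using Algebra.adjoin_induction with
    | mem x hx =>
      rw [Set.mem_singleton_iff.1 hx, AdjoinSimple.algebraMap_gen]
      exact Algebra.subset_adjoin rfl
    | algebraMap n =>
      rw [eq_intCast, map_intCast]
      exact intCast_mem _ n
    | add x y _ _ hx hy =>
      rw [map_add]
      exact add_mem hx hy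
    | mul x y _ _ hx hy =>
      rw [map_mul]
      exact mul_mem hx hy
  have hT2 : ∀ z ∈ Algebra.adjoin (𝓞 F) ({AdjoinSimple.gen F θE} : Set F⟮θE⟯),
      algebraMap F⟮θE⟯ E z ∈ Algebra.adjoin A ({ζ} : Set E) := by
    intro z hz
    induction hz using Algebra.adjoin_induction with
    | mem x hx =>
      rw [Set.mem_singleton_iff.1 hx, AdjoinSimple.algebraMap_gen]
      have : θE ∈ A := (hAmem _).2 ⟨(K⟮ζ ^ M⟯).algebraMap_mem θ, hθE⟩
      exact (Algebra.adjoin A ({ζ} : Set E)).algebraMap_mem ⟨θE, this⟩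
    | algebraMap r =>
      obtain ⟨u, hu⟩ := hic.isIntegral_iff.1 r.2
      have h1 := hT1 u u.2
      have h2 : (u : F) = (r : F) := hu
      rw [h2] at h1
      exact h1
    | add x y _ _ hx hy =>
      rw [map_add]
      exact add_mem hx hy
    | mul x y _ _ hx hy =>
      rw [map_mul]
      exact mul_mem hx hy
  have h3 := hT2 _ hmem
  rw [map_mul, map_pow, map_natCast] at h3
  change (D : E) ^ f.natDegree * (∑ j, α j * ζ ^ (j : ℕ)) ∈ _ at h3
  obtain ⟨a, ha1, ha2⟩ := adj_root A ζ hM ((hAmem _).2 ⟨mem_adjoin_simple_self K _, hζZ.pow _⟩) h3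
  -- uniqueness of the coefficients
  have h4 := Fintype.linearIndependent_iff.1 hli
    (fun j => ⟨(D : E) ^ f.natDegree * α j - a j,
      sub_mem (mul_mem (pow_mem (_root_.natCast_mem _ D) _) (hα j)) ((hAmem _).1 (ha1 j)).1⟩) (by
      have h5 : ∑ j, ((D : E) ^ f.natDegree * α j - a j) * ζ ^ (j : ℕ) = 0 := by
        simp only [sub_mul, Finset.sum_sub_distrib]
        rw [← ha2, Finset.mul_sum, sub_eq_zero]
        refine Finset.sum_congr rfl fun j _ => ?_
        ring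
      exact h5)
  intro j
  have h6 := congrArg (fun x : K⟮ζ ^ M⟯ => (x : E)) (h4 j)
  have h7 : (D : E) ^ f.natDegree * α j = a j := sub_eq_zero.1 h6
  push_cast
  rw [h7]
  exact ((hAmem _).1 (ha1 j)).2

end Pool.Agent.N76.RG
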