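import Pool.Agent.N76.RG.Stm

/-!
# Project RG, leaf IRR: the cyclotomic tower over a number field is of degree `p` in all high levels
-/

set_option autoImplicit false

namespace Pool.Agent.N76.RG

open Polynomial IntermediateField Module

theorem irr_finrank_eq {K : Type*} [Field K] [NumberField K] (n : ℕ) [NeZero n] {E : Type*} [Field E] [Algebra K E]
    {ζ : E} (h : IsPrimitiveRoot ζ n) : finrank K K⟮ζ⟯ = finrank K (CyclotomicField n K) := by
  have hint : IsIntegral K ζ := (h.isIntegral (NeZero.pos n)).tower_top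
  have h1 : IsCyclotomicExtension {n} K K⟮ζ⟯ := by
    change IsCyclotomicExtension {n} K K⟮ζ⟯.toSubalgebra
    rw [IntermediateField.adjoin_simple_toSubalgebra_of_isAlgebraic hint.isAlgebraic]
    exact h.adjoin_isCyclotomicExtension K
  exact (IsCyclotomicExtension.algEquiv {n} K K⟮ζ⟯ (CyclotomicField n K)).toLinearEquiv.finrank_eq

theorem irr_totient_dvd (K : Type*) [Field K] [NumberField K] (n : ℕ) [NeZero n] :
    n.totient ∣ finrank ℚ K * finrank K (CyclotomicField n K) := by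
  set C := CyclotomicField n K
  have : FiniteDimensional K C := IsCyclotomicExtension.finiteDimensional {n} K C
  have : CharZero C := charZero_of_injective_algebraMap (algebraMap K C).injective
  let _ : Algebra ℚ C := DivisionRing.toRatAlgebra
  have : IsScalarTower ℚ K C := IsScalarTower.of_algebraMap_eq' (RingHom.ext_rat _ _)
  have hζ := IsCyclotomicExtension.zeta_spec n K C
  have hf : FiniteDimensional ℚ C := FiniteDimensional.trans ℚ K C
  have h1 : IsCyclotomicExtension {n} ℚ ℚ⟮IsCyclotomicExtension.zeta n K C⟯ :=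
    hζ.intermediateField_adjoin_isCyclotomicExtension ℚ
  have h2 : finrank ℚ ℚ⟮IsCyclotomicExtension.zeta n K C⟯ = n.totient :=
    IsCyclotomicExtension.finrank _ (cyclotomic.irreducible_rat (NeZero.pos n))
  rw [Module.finrank_mul_finrank, ← h2,
    ← Module.finrank_mul_finrank ℚ ℚ⟮IsCyclotomicExtension.zeta n K C⟯ C]
  exact dvd_mul_right _ _

theorem irr_deg {K : Type*} [Field K] [NumberField K] {E : Type*} [Field E] [Algebra K E] {p : ℕ} (hp : p.Prime)
    (ζ : E) (c k : ℕ) (hck : c ≤ k) (h : IsPrimitiveRoot ζ (p ^ k)) :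
    finrank K (CyclotomicField (p ^ c) K) * (minpoly K⟮ζ ^ p ^ (k - c)⟯ ζ).natDegree =
      finrank K (CyclotomicField (p ^ k) K) := by
  have hne : ∀ m, NeZero (p ^ m) := fun m => ⟨pow_ne_zero _ hp.ne_zero⟩
  have hpk : p ^ k = p ^ (k - c) * p ^ c := by rw [← pow_add, Nat.sub_add_cancel hck]
  have hc : IsPrimitiveRoot (ζ ^ p ^ (k - c)) (p ^ c) := h.pow (pow_pos hp.pos _) hpk
  have hint : IsIntegral K ζ := (h.isIntegral (NeZero.pos (p ^ k))).tower_top
  have hint' : IsIntegral K⟮ζ ^ p ^ (k - c)⟯ ζ := (h.isIntegral (NeZero.pos (p ^ k))).tower_top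
  rw [← irr_finrank_eq (p ^ c) hc, ← irr_finrank_eq (p ^ k) h, ← adjoin.finrank hint',
    Module.finrank_mul_finrank]
  have e : (K⟮ζ ^ p ^ (k - c)⟯⟮ζ⟯).restrictScalars K = K⟮ζ⟯ := by
    rw [adjoin_simple_adjoin_simple]
    apply le_antisymm
    · rw [adjoin_le_iff]
      rintro x (rfl | hx)
      · exact pow_mem (mem_adjoin_simple_self K ζ) _
      · rw [Set.mem_singleton_iff.1 hx]
        exact mem_adjoin_simple_self K ζ
    · rw [adjoin_simple_le_iff]
      exact subset_adjoin _ _ (by simp)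
  change finrank K ((K⟮ζ ^ p ^ (k - c)⟯⟮ζ⟯).restrictScalars K) = _
  rw [e]

theorem irr_natDegree_le {K : Type*} [Field K] {E : Type*} [Field E] [Algebra K E] (M : ℕ) (hM : 0 < M) (ζ : E) :
    (minpoly K⟮ζ ^ M⟯ ζ).natDegree ≤ M := by
  have h1 : (X ^ M - C (⟨ζ ^ M, mem_adjoin_simple_self K _⟩ : K⟮ζ ^ M⟯)).natDegree = M := natDegree_X_pow_sub_C
  have h0 : (X ^ M - C (⟨ζ ^ M, mem_adjoin_simple_self K _⟩ : K⟮ζ ^ M⟯)) ≠ 0 := X_pow_sub_C_ne_zero hM _
  have h2 : aeval ζ (X ^ M - C (⟨ζ ^ M, mem_adjoin_simple_self K _⟩ : K⟮ζ ^ M⟯)) = 0 := by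
    simp
  calc _ ≤ _ := natDegree_le_of_dvd (minpoly.dvd _ _ h2) h0
    _ = M := h1

theorem irr.{u, v} : S_IRR.{u, v} := by
  intro K _ _ p hp
  have hne : ∀ m, NeZero (p ^ m) := fun m => ⟨pow_ne_zero _ hp.ne_zero⟩
  obtain ⟨d, hd⟩ : ∃ d, d = finrank ℚ K := ⟨_, rfl⟩
  have hdpos : 0 < d := by rw [hd]; exact finrank_pos
  obtain ⟨a, ha⟩ : ∃ a : ℕ → ℕ, ∀ m, a m = finrank K (CyclotomicField (p ^ m) K) := ⟨_, fun _ => rfl⟩
  obtain ⟨e, he⟩ : ∃ e : ℕ → ℕ, ∀ m, e m * (p ^ m).totient = d * a m :=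
    ⟨fun m => d * a m / (p ^ m).totient, fun m => Nat.div_mul_cancel (by
      rw [hd, ha]
      exact irr_totient_dvd K (p ^ m))⟩
  have hφ : ∀ m, 0 < (p ^ m).totient := fun m => Nat.totient_pos.2 (pow_pos hp.pos _)
  have hapos : ∀ m, 0 < a m := fun m => by
    have : FiniteDimensional K (CyclotomicField (p ^ m) K) :=
      IsCyclotomicExtension.finiteDimensional {p ^ m} K _
    rw [ha]
    exact finrank_pos
  have hepos : ∀ m, 0 < e m := fun m => by
    have h1 : 0 < e m * (p ^ m).totient := by rw [he]; exact Nat.mul_pos hdpos (hapos m)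
    exact pos_of_mul_pos_left h1 (Nat.zero_le _)
  -- comparison of the levels
  have hcomp : ∀ {E : Type v} [Field E] [Algebra K E] (ζ : E) (c k : ℕ), 1 ≤ c → c ≤ k → IsPrimitiveRoot ζ (p ^ k) →
      e k * p ^ (k - c) = (minpoly K⟮ζ ^ p ^ (k - c)⟯ ζ).natDegree * e c := by
    intro E _ _ ζ c k hc hck h
    have h1 := irr_deg (K := K) hp ζ c k hck h
    rw [← ha, ← ha] at h1
    have h2 : (p ^ k).totient = p ^ (k - c) * (p ^ c).totient := by
      rw [Nat.totient_prime_pow hp (by omega), Nat.totient_prime_pow hp (by omega), ← mul_assoc, ← pow_add]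
      congr 2
      omega
    have h3 : (e k * p ^ (k - c)) * (p ^ c).totient =
        ((minpoly K⟮ζ ^ p ^ (k - c)⟯ ζ).natDegree * e c) * (p ^ c).totient := by
      calc (e k * p ^ (k - c)) * (p ^ c).totient = e k * (p ^ k).totient := by rw [h2]; ring
        _ = d * a k := he k
        _ = (minpoly K⟮ζ ^ p ^ (k - c)⟯ ζ).natDegree * (d * a c) := by rw [← h1]; ring
        _ = (minpoly K⟮ζ ^ p ^ (k - c)⟯ ζ).natDegree * (e c * (p ^ c).totient) := by rw [he]
        _ = _ := by ring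
    exact Nat.eq_of_mul_eq_mul_right (hφ c) h3
  have hanti : ∀ {E : Type v} [Field E] [Algebra K E] (ζ : E) (c k : ℕ), 1 ≤ c → c ≤ k →
      IsPrimitiveRoot ζ (p ^ k) → e k ≤ e c := by
    intro E _ _ ζ c k hc hck h
    have h1 := hcomp ζ c k hc hck h
    have h2 := irr_natDegree_le (K := K) (p ^ (k - c)) (pow_pos hp.pos _) ζ
    have h3 : e k * p ^ (k - c) ≤ e c * p ^ (k - c) := by
      rw [h1, mul_comm (e c)]
      exact Nat.mul_le_mul_right _ h2
    exact Nat.le_of_mul_le_mul_right h3 (pow_pos hp.pos _)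
  obtain ⟨c₀, hc₀, hmin⟩ := WellFounded.has_min (measure e).wf {m | 2 ≤ m} ⟨2, le_refl 2⟩
  have hmin' : ∀ m, 2 ≤ m → e c₀ ≤ e m := fun m hm => not_lt.1 (hmin m hm)
  have hc₀' : 2 ≤ c₀ := hc₀
  refine ⟨c₀, hc₀', fun c hc k hk E _ _ ζ h => ?_⟩
  have hpk : p ^ k = p ^ (k - c) * p ^ c := by rw [← pow_add, Nat.sub_add_cancel hk]
  have hζc : IsPrimitiveRoot (ζ ^ p ^ (k - c)) (p ^ c) := h.pow (pow_pos hp.pos _) hpk
  have h1 : e c = e c₀ := le_antisymm (hanti _ c₀ c (by omega) hc hζc) (hmin' c (by omega))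
  have h2 : e k = e c₀ := le_antisymm (hanti _ c₀ k (by omega) (by omega) h) (hmin' k (by omega))
  have h3 := hcomp ζ c k (by omega) hk h
  rw [h1, h2, mul_comm] at h3
  have h4 : p ^ (k - c) = (minpoly K⟮ζ ^ p ^ (k - c)⟯ ζ).natDegree := Nat.eq_of_mul_eq_mul_right (hepos c₀) h3
  have h5 := linearIndependent_pow (K := K⟮ζ ^ p ^ (k - c)⟯) ζ
  have h6 := h5.comp (Fin.cast h4) (Fin.cast_injective h4)
  exact h6

end Pool.Agent.N76.RG
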