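import Pool.Agent.N76.RG.Stm

/-!
# RG/NSQ (helper373, project RG of helper76): independence of the quadratic extensions
-/

set_option autoImplicit false

namespace Pool.Agent.N76.RG

open Polynomial IntermediateField Module
open scoped Real

/-- a finite extension with a root of unity -/
lemma nsq_ext.{v} (L : Type v) [Field L] [NumberField L] (s : L →+* ℂ) (n : ℕ) (hn : n ≠ 0) :
    ∃ (E : Type v) (_ : Field E) (_ : NumberField E) (i : L →+* E) (S : E →+* ℂ) (ζ : E),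
      (∀ x, S (i x) = s x) ∧ S ζ = Complex.exp (2 * π * Complex.I / n) := by
  letI : Algebra L ℂ := s.toAlgebra
  let S₀ : AlgebraicClosure L →ₐ[L] ℂ := IsAlgClosed.lift
  haveI : NeZero n := ⟨hn⟩
  haveI : NeZero ((n : ℕ) : AlgebraicClosure L) := ⟨by exact_mod_cast hn⟩
  obtain ⟨ζ', hζ'⟩ := IsAlgClosed.exists_root (cyclotomic n (AlgebraicClosure L)) (by
    rw [degree_cyclotomic]
    exact_mod_cast (Nat.totient_pos.2 (Nat.pos_of_ne_zero hn)).ne')
  rw [isRoot_cyclotomic_iff] at hζ'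
  have h1 : IsPrimitiveRoot (S₀ ζ') n := hζ'.map_of_injective S₀.toRingHom.injective
  obtain ⟨j, -, hj⟩ := h1.eq_pow_of_pow_eq_one (Complex.isPrimitiveRoot_exp n hn).pow_eq_one
  have hint : IsIntegral L (ζ' ^ j) := (Algebra.IsAlgebraic.isAlgebraic (R := L) ζ').isIntegral.pow j
  haveI : FiniteDimensional L L⟮ζ' ^ j⟯ := IntermediateField.adjoin.finiteDimensional hint
  have hnf : NumberField L⟮ζ' ^ j⟯ := NumberField.of_module_finite L _
  refine ⟨L⟮ζ' ^ j⟯, inferInstance, hnf, algebraMap L _,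
    (S₀.comp (L⟮ζ' ^ j⟯).val).toRingHom, AdjoinSimple.gen L (ζ' ^ j), fun x => ?_, ?_⟩
  · exact (S₀.comp (L⟮ζ' ^ j⟯).val).commutes x
  · show S₀ (ζ' ^ j) = _
    rw [map_pow, hj]

/-- dividing by a natural number -/
lemma nsq_few {K E : Type*} [Field K] [Field E] [Algebra K E] {ζ : E} {M N : ℕ} {y : E}
    (h : Few K ζ M N y) (a : ℕ) : Few K ζ M N (y / a) := by
  obtain ⟨R, f, h1, h2, h3⟩ := h
  refine ⟨R, fun j => f j / a, h1, fun j => ?_, ?_⟩
  · obtain ⟨b, hb, hbj⟩ := h2 j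
    refine ⟨b / a, div_mem hb (_root_.natCast_mem _ a), ?_⟩
    simp only [hbj]
    ring
  · rw [h3, Finset.sum_div]

lemma nsq_two_cos (n : ℕ) (u : ℕ) (z : ℂ) (hz : z = Complex.exp (2 * π * Complex.I / n)) :
    z ^ (u : ℤ) + z ^ (-(u : ℤ)) = 2 * Complex.cos (2 * π * u / n) := by
  have h1 : z ^ (u : ℤ) = Complex.exp ((2 * π * u / n) * Complex.I) := by
    rw [hz, zpow_natCast, ← Complex.exp_nat_mul]
    congr 1
    ring
  rw [zpow_neg, h1, ← Complex.exp_neg, Complex.cos]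
  ring_nf

theorem nsq.{u, v} (h1 : S_CMP.{u, v}) (h2 : S_SQR.{u, v}) : S_NSQ.{u, v} := by
  intro K _ _ p w hp hw hw4
  obtain ⟨c, hc⟩ := h1 K p hp
  obtain ⟨M, hM⟩ : ∃ M : ℝ, ∀ t : K →+* ℂ, ‖t w‖ ≤ M := by
    obtain ⟨M, hM⟩ := (Set.finite_range fun t : K →+* ℂ => ‖t w‖).bddAbove
    exact ⟨M, fun t => hM ⟨t, rfl⟩⟩
  obtain ⟨N, hN⟩ := hc (4 * (2 + M))
  obtain ⟨k₀, hk₀⟩ := h2 p c N hp
  refine ⟨max k₀ c, fun k hk L _ _ _ s ξ hξ u u' x x' d d' hu hu' hx hx' hd hd' => ?_⟩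
  have hkc : c ≤ k := (le_max_right _ _).trans hk
  have hkk : k₀ ≤ k := (le_max_left _ _).trans hk
  have hpk : p ^ k ≠ 0 := pow_ne_zero _ hp.ne_zero
  obtain ⟨E, _, _, i, S, ζ, hSi, hSζ⟩ := nsq_ext L s (p ^ k) hpk
  letI : Algebra K E := (i.comp (algebraMap K L)).toAlgebra
  have hmap : ∀ a : K, algebraMap K E a = i (algebraMap K L a) := fun a => rfl
  let iA : L →ₐ[K] E := { i with commutes' := fun r => rfl }
  have hSinj : Function.Injective S := S.injective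
  have hζ : IsPrimitiveRoot ζ (p ^ k) := by
    refine IsPrimitiveRoot.of_map_of_injective (f := S) ?_ hSinj
    rw [hSζ]
    exact Complex.isPrimitiveRoot_exp _ hpk
  have hζ0 : ζ ≠ 0 := hζ.ne_zero hpk
  -- the images
  have himg : ∀ (y : L) (v : ℕ), s y = 2 * Complex.cos (2 * π * v / (p : ℂ) ^ k) →
      i y = ζ ^ (v : ℤ) + ζ ^ (-(v : ℤ)) := by
    intro y v hy
    apply hSinj
    rw [hSi, hy, map_add, map_zpow₀, map_zpow₀, nsq_two_cos (p ^ k) v (S ζ) hSζ]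
    push_cast
    rfl
  have hξ' : i ξ = ζ ^ ((1 : ℕ) : ℤ) + ζ ^ (-((1 : ℕ) : ℤ)) := by
    apply himg
    rw [hξ]
    push_cast
    rw [mul_one]
  have hX := himg x u hx
  have hX' := himg x' u' hx'
  -- integrality and bounds of `d`
  have hζint : IsIntegral ℤ ζ := hζ.isIntegral (Nat.pos_of_ne_zero hpk)
  have hζinv : IsIntegral ℤ ζ⁻¹ := hζ.inv.isIntegral (Nat.pos_of_ne_zero hpk)
  have hXint : ∀ v : ℕ, IsIntegral ℤ (ζ ^ (v : ℤ) + ζ ^ (-(v : ℤ))) := by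
    intro v
    rw [zpow_neg, zpow_natCast, ← inv_pow]
    exact (hζint.pow v).add (hζinv.pow v)
  have hwint : IsIntegral ℤ (4 * algebraMap K E w) := by
    have h3 := hw4.map (algebraMap K E).toIntAlgHom
    have h4 : (algebraMap K E).toIntAlgHom (4 * w) = 4 * algebraMap K E w := by
      show algebraMap K E (4 * w) = _
      rw [map_mul]
      congr 1
      exact map_ofNat _ 4
    rwa [h4] at h3
  have hsq : ∀ (y e : L) (v : ℕ), i y = ζ ^ (v : ℤ) + ζ ^ (-(v : ℤ)) → e ^ 2 = 4 * (y - algebraMap K L w) →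
      i e ^ 2 = 4 * (ζ ^ (v : ℤ) + ζ ^ (-(v : ℤ))) - 4 * algebraMap K E w := by
    intro y e v hy he
    have h3 := congrArg i he
    rw [map_pow, map_mul, map_sub, hy] at h3
    have h4 : i 4 = 4 := map_ofNat i 4
    rw [h3, h4, hmap]
    ring
  have hint : ∀ (e : E) (v : ℕ), e ^ 2 = 4 * (ζ ^ (v : ℤ) + ζ ^ (-(v : ℤ))) - 4 * algebraMap K E w →
      IsIntegral ℤ e := by
    intro e v he
    refine IsIntegral.of_pow (n := 2) (by norm_num) ?_
    rw [he]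
    refine IsIntegral.sub ?_ hwint
    have h3 : IsIntegral ℤ (4 : E) := by
      have := isIntegral_algebraMap (R := ℤ) (A := E) (x := 4)
      simpa using this
    exact h3.mul (hXint v)
  have hM0 : 0 ≤ M := by
    have := hM (S.comp (algebraMap K E))
    exact (norm_nonneg _).trans this
  have hbd : ∀ (e : E) (v : ℕ), e ^ 2 = 4 * (ζ ^ (v : ℤ) + ζ ^ (-(v : ℤ))) - 4 * algebraMap K E w →
      ∀ τ : E →+* ℂ, ‖τ e‖ ^ 2 ≤ 4 * (2 + M) := by
    intro e v he τ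
    have h3 : ‖τ ζ‖ = 1 := by
      have h4 : (τ ζ) ^ (p ^ k) = 1 := by rw [← map_pow, hζ.pow_eq_one, map_one]
      exact Complex.norm_eq_one_of_pow_eq_one h4 hpk
    have h5 := congrArg (fun z => ‖τ z‖) he
    simp only [map_pow, norm_pow] at h5
    rw [h5]
    have h6 : τ (4 * (ζ ^ (v : ℤ) + ζ ^ (-(v : ℤ))) - 4 * algebraMap K E w) =
        4 * ((τ ζ) ^ (v : ℤ) + (τ ζ) ^ (-(v : ℤ))) - 4 * (τ.comp (algebraMap K E)) w := by
      rw [map_sub, map_mul, map_mul, map_add, map_zpow₀, map_zpow₀]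
      have h7 : τ 4 = 4 := map_ofNat τ 4
      rw [h7]
      rfl
    rw [h6]
    have h8 := hM (τ.comp (algebraMap K E))
    calc ‖4 * ((τ ζ) ^ (v : ℤ) + (τ ζ) ^ (-(v : ℤ))) - 4 * (τ.comp (algebraMap K E)) w‖ ≤
        ‖4 * ((τ ζ) ^ (v : ℤ) + (τ ζ) ^ (-(v : ℤ)))‖ + ‖4 * (τ.comp (algebraMap K E)) w‖ :=
          norm_sub_le _ _
      _ = 4 * ‖(τ ζ) ^ (v : ℤ) + (τ ζ) ^ (-(v : ℤ))‖ + 4 * ‖(τ.comp (algebraMap K E)) w‖ := by
          rw [norm_mul, norm_mul]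
          norm_num
      _ ≤ 4 * (1 + 1) + 4 * M := by
          have h9 : ‖(τ ζ) ^ (v : ℤ) + (τ ζ) ^ (-(v : ℤ))‖ ≤ 1 + 1 := by
            refine (norm_add_le _ _).trans ?_
            rw [norm_zpow, norm_zpow, h3, one_zpow, one_zpow]
          linarith
      _ = 4 * (2 + M) := by ring
  have hle1 : ∀ r : ℝ, 0 ≤ r → r ^ 2 ≤ 4 * (2 + M) → r ≤ 4 * (2 + M) := by
    intro r hr0 hr
    by_contra hcon
    push Not at hcon
    nlinarith
  -- membership
  have hmem : ∀ y : L, y ∈ K⟮ξ⟯ → i y ∈ K⟮ζ⟯ := by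
    intro y hy
    have h3 : iA y ∈ (K⟮ξ⟯).map iA := ⟨y, hy, rfl⟩
    rw [IntermediateField.adjoin_map] at h3
    have h4 : adjoin K (iA '' {ξ}) ≤ K⟮ζ⟯ := by
      rw [IntermediateField.adjoin_le_iff]
      rintro _ ⟨z, hz, rfl⟩
      rw [Set.mem_singleton_iff] at hz
      rw [hz]
      have h5 : iA ξ = ζ + ζ⁻¹ := by
        show i ξ = _
        rw [hξ']
        simp
      rw [SetLike.mem_coe, h5]
      exact add_mem (mem_adjoin_simple_self K ζ) (inv_mem (mem_adjoin_simple_self K ζ))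
    exact h4 h3
  obtain ⟨hDir, hFew⟩ := hN k hkc E ζ hζ
  have hpu : ¬ (p : ℤ) ∣ (u : ℤ) := fun h => hu (by exact_mod_cast h)
  have hpu' : ¬ (p : ℤ) ∣ (u' : ℤ) := fun h => hu' (by exact_mod_cast h)
  obtain ⟨g1, g2⟩ := hk₀ k hkk K E w ζ hw hζ hDir u u' hpu hpu'
  have hD := hsq x d u hX hd
  have hD' := hsq x' d' u' hX' hd'
  have b1 := hint _ _ hD
  have b1' := hint _ _ hD'
  constructor
  · intro hmd
    have h3 := hFew (i d) (hmem d hmd) b1 fun τ => hle1 _ (norm_nonneg _) (hbd _ _ hD τ)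
    refine g1 (i d / (2 : ℕ)) (nsq_few h3 2) ?_
    rw [div_pow, hD]
    push_cast
    ring
  · intro hne hne' hmd
    have h3 := hFew (i (d * d')) (hmem _ hmd) (by rw [map_mul]; exact b1.mul b1') fun τ => by
      rw [map_mul, map_mul, norm_mul]
      have q1 := hbd _ _ hD τ
      have q2 := hbd _ _ hD' τ
      have q3 := norm_nonneg (τ (i d))
      have q4 := norm_nonneg (τ (i d'))
      nlinarith [sq_nonneg (‖τ (i d)‖ - ‖τ (i d')‖)]
    have h4 := g2 (i (d * d') / (4 : ℕ)) (nsq_few h3 4) (by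
      rw [div_pow, map_mul, mul_pow, hD, hD']
      push_cast
      ring)
    rw [← hX, ← hX'] at h4
    rcases h4 with h4 | h4
    · exact hne (i.injective h4)
    · rw [← map_neg] at h4
      exact hne' (i.injective h4)

end Pool.Agent.N76.RG
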