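import Pool.Agent.N76.RG.Stm2
import Pool.Agent.N76.RG.Nsq

/-!
# RH/NSQ2 (helper521, project RG of helper76; after Nsq.lean of helper373): independence of the
quadratic extensions, all levels at the same time
-/

set_option autoImplicit false

namespace Pool.Agent.N76.RG

open Polynomial IntermediateField Module
open scoped Real

/-- the parameters: exponents at the new level -/
lemma nsq2_exp {p q u₁ : ℕ} (hp : p.Prime) (hq : q = 1 ∨ (p = 2 ∧ q = 2)) (hu : ¬ p ∣ u₁) :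
    ¬ (p : ℤ) ∣ ((q * u₁ : ℕ) : ℤ) ∨ (p = 2 ∧ ¬ (4 : ℤ) ∣ ((q * u₁ : ℕ) : ℤ)) := by
  rcases hq with rfl | ⟨rfl, rfl⟩
  · left
    rw [one_mul]
    exact fun h => hu (by exact_mod_cast h)
  · right
    refine ⟨rfl, fun h => hu ?_⟩
    have h1 : 4 ∣ 2 * u₁ := by exact_mod_cast h
    omega

/-- the level of a square root of an element of a lower level -/
lemma nsq2_lvl {K : Type*} {E : Type*} [Field K] [Field E] [Algebra K E] {p k j : ℕ}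
    (hp : p.Prime) (hj : j ≤ k) {ζ : E} (hζ : IsPrimitiveRoot ζ (p ^ k)) {y : E}
    (h : y ∈ K⟮ζ ^ p ^ (k - (k - j))⟯ ∨
      (p = 2 ∧ k - j < k ∧ y ∈ K⟮ζ ^ p ^ (k - (k - j + 1))⟯)) :
    ∃ (k₁ q : ℕ) (ζ₁ : E), k - j ≤ k₁ ∧ IsPrimitiveRoot ζ₁ (p ^ k₁) ∧ y ∈ K⟮ζ₁⟯ ∧
      (q = 1 ∨ (p = 2 ∧ q = 2)) ∧ ζ ^ p ^ j = ζ₁ ^ q := by
  have hpos : 0 < p ^ k := pow_pos hp.pos _
  rcases h with h | ⟨hp2, hlt, h⟩
  · have e1 : k - (k - j) = j := by omega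
    rw [e1] at h
    refine ⟨k - j, 1, ζ ^ p ^ j, le_rfl, hζ.pow hpos ?_, h, Or.inl rfl, (pow_one _).symm⟩
    rw [← pow_add]
    congr 1
    omega
  · have e1 : k - (k - j + 1) = j - 1 := by omega
    rw [e1] at h
    refine ⟨k - j + 1, 2, ζ ^ p ^ (j - 1), by omega, hζ.pow hpos ?_, h, Or.inr ⟨hp2, rfl⟩, ?_⟩
    · rw [← pow_add]
      congr 1
      omega
    · rw [← pow_mul, hp2, ← pow_succ]
      congr 2
      omega

theorem nsq2.{u, v} (h1 : S_CMP.{u, v}) (h2 : S_SQR2.{u, v}) (h3 : S_RED.{u, v}) :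
    S_NSQ2.{u, v} := by
  intro K _ _ p w hp hw hw4
  obtain ⟨c, hc⟩ := h1 K p hp
  obtain ⟨M, hM⟩ : ∃ M : ℝ, ∀ t : K →+* ℂ, ‖t w‖ ≤ M := by
    obtain ⟨M, hM⟩ := (Set.finite_range fun t : K →+* ℂ => ‖t w‖).bddAbove
    exact ⟨M, fun t => hM ⟨t, rfl⟩⟩
  obtain ⟨N, hN⟩ := hc (4 * (2 + M))
  obtain ⟨k₀, hk₀⟩ := h2 p c N hp
  obtain ⟨c₀, hc₀⟩ := h3 K p hp
  refine ⟨max (max k₀ c) c₀, fun k L _ _ _ s ξ hξ u u' x x' d d' hu hu' hx hx' hd hd' => ?_⟩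
  set κ := max (max k₀ c) c₀ with hκ
  have hκc : c ≤ κ := (le_max_right _ _).trans (le_max_left _ _)
  have hκk : k₀ ≤ κ := (le_max_left _ _).trans (le_max_left _ _)
  have hκ0 : c₀ ≤ κ := le_max_right _ _
  have hkκ : κ ≤ k := by
    by_contra hcon
    have h4 : k + 1 - κ = 0 := by omega
    rw [h4, pow_zero] at hu
    exact hu (one_dvd _)
  have hpk : p ^ k ≠ 0 := pow_ne_zero _ hp.ne_zero
  obtain ⟨E, _, _, i, S, ζ, hSi, hSζ⟩ := nsq_ext L s (p ^ k) hpk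
  letI : Algebra K E := (i.comp (algebraMap K L)).toAlgebra
  have hmap : ∀ a : K, algebraMap K E a = i (algebraMap K L a) := fun a => rfl
  let iA : L →ₐ[K] E := { i with commutes' := fun r => rfl }
  have hSinj : Function.Injective S := S.injective
  have hζ : IsPrimitiveRoot ζ (p ^ k) := by
    refine IsPrimitiveRoot.of_map_of_injective (f := S) ?_ hSinj
    rw [hSζ]
    exact Complex.isPrimitiveRoot_exp _ hpk
  have hζ0 : ζ ≠ 0 := hζ.ne_zero hpk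
  -- the images
  have himg : ∀ (y : L) (v : ℕ), s y = 2 * Complex.cos (2 * π * v / (p : ℂ) ^ k) →
      i y = ζ ^ (v : ℤ) + ζ ^ (-(v : ℤ)) := by
    intro y v hy
    apply hSinj
    rw [hSi, hy, map_add, map_zpow₀, map_zpow₀, nsq_two_cos (p ^ k) v (S ζ) hSζ]
    push_cast
    rfl
  have hξ' : i ξ = ζ ^ ((1 : ℕ) : ℤ) + ζ ^ (-((1 : ℕ) : ℤ)) := by
    apply himg
    rw [hξ]
    push_cast
    rw [mul_one]
  -- integrality and bounds of `d`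
  have hζint : IsIntegral ℤ ζ := hζ.isIntegral (Nat.pos_of_ne_zero hpk)
  have hζinv : IsIntegral ℤ ζ⁻¹ := hζ.inv.isIntegral (Nat.pos_of_ne_zero hpk)
  have hXint : ∀ v : ℕ, IsIntegral ℤ (ζ ^ (v : ℤ) + ζ ^ (-(v : ℤ))) := by
    intro v
    rw [zpow_neg, zpow_natCast, ← inv_pow]
    exact (hζint.pow v).add (hζinv.pow v)
  have hwint : IsIntegral ℤ (4 * algebraMap K E w) := by
    have h3 := hw4.map (algebraMap K E).toIntAlgHom
    have h4 : (algebraMap K E).toIntAlgHom (4 * w) = 4 * algebraMap K E w := by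
      show algebraMap K E (4 * w) = _
      rw [map_mul]
      congr 1
      exact map_ofNat _ 4
    rwa [h4] at h3
  have hsq : ∀ (y e : L) (v : ℕ), i y = ζ ^ (v : ℤ) + ζ ^ (-(v : ℤ)) → e ^ 2 = 4 * (y - algebraMap K L w) →
      i e ^ 2 = 4 * (ζ ^ (v : ℤ) + ζ ^ (-(v : ℤ))) - 4 * algebraMap K E w := by
    intro y e v hy he
    have h3 := congrArg i he
    rw [map_pow, map_mul, map_sub, hy] at h3
    have h4 : i 4 = 4 := map_ofNat i 4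
    rw [h3, h4, hmap]
    ring
  have hint : ∀ (e : E) (v : ℕ), e ^ 2 = 4 * (ζ ^ (v : ℤ) + ζ ^ (-(v : ℤ))) - 4 * algebraMap K E w →
      IsIntegral ℤ e := by
    intro e v he
    refine IsIntegral.of_pow (n := 2) (by norm_num) ?_
    rw [he]
    refine IsIntegral.sub ?_ hwint
    have h3 : IsIntegral ℤ (4 : E) := by
      have := isIntegral_algebraMap (R := ℤ) (A := E) (x := 4)
      simpa using this
    exact h3.mul (hXint v)
  have hM0 : 0 ≤ M := by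
    have := hM (S.comp (algebraMap K E))
    exact (norm_nonneg _).trans this
  have hbd : ∀ (e : E) (v : ℕ), e ^ 2 = 4 * (ζ ^ (v : ℤ) + ζ ^ (-(v : ℤ))) - 4 * algebraMap K E w →
      ∀ τ : E →+* ℂ, ‖τ e‖ ^ 2 ≤ 4 * (2 + M) := by
    intro e v he τ
    have h3 : ‖τ ζ‖ = 1 := by
      have h4 : (τ ζ) ^ (p ^ k) = 1 := by rw [← map_pow, hζ.pow_eq_one, map_one]
      exact Complex.norm_eq_one_of_pow_eq_one h4 hpk
    have h5 := congrArg (fun z => ‖τ z‖) he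
    simp only [map_pow, norm_pow] at h5
    rw [h5]
    have h6 : τ (4 * (ζ ^ (v : ℤ) + ζ ^ (-(v : ℤ))) - 4 * algebraMap K E w) =
        4 * ((τ ζ) ^ (v : ℤ) + (τ ζ) ^ (-(v : ℤ))) - 4 * (τ.comp (algebraMap K E)) w := by
      rw [map_sub, map_mul, map_mul, map_add, map_zpow₀, map_zpow₀]
      have h7 : τ 4 = 4 := map_ofNat τ 4
      rw [h7]
      rfl
    rw [h6]
    have h8 := hM (τ.comp (algebraMap K E))
    calc ‖4 * ((τ ζ) ^ (v : ℤ) + (τ ζ) ^ (-(v : ℤ))) - 4 * (τ.comp (algebraMap K E)) w‖ ≤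
        ‖4 * ((τ ζ) ^ (v : ℤ) + (τ ζ) ^ (-(v : ℤ)))‖ + ‖4 * (τ.comp (algebraMap K E)) w‖ :=
          norm_sub_le _ _
      _ = 4 * ‖(τ ζ) ^ (v : ℤ) + (τ ζ) ^ (-(v : ℤ))‖ + 4 * ‖(τ.comp (algebraMap K E)) w‖ := by
          rw [norm_mul, norm_mul]
          norm_num
      _ ≤ 4 * (1 + 1) + 4 * M := by
          have h9 : ‖(τ ζ) ^ (v : ℤ) + (τ ζ) ^ (-(v : ℤ))‖ ≤ 1 + 1 := by
            refine (norm_add_le _ _).trans ?_
            rw [norm_zpow, norm_zpow, h3, one_zpow, one_zpow]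
          linarith
      _ = 4 * (2 + M) := by ring
  have hle1 : ∀ r : ℝ, 0 ≤ r → r ^ 2 ≤ 4 * (2 + M) → r ≤ 4 * (2 + M) := by
    intro r hr0 hr
    by_contra hcon
    push Not at hcon
    nlinarith
  -- membership
  have hmem : ∀ y : L, y ∈ K⟮ξ⟯ → i y ∈ K⟮ζ⟯ := by
    intro y hy
    have h3 : iA y ∈ (K⟮ξ⟯).map iA := ⟨y, hy, rfl⟩
    rw [IntermediateField.adjoin_map] at h3
    have h4 : adjoin K (iA '' {ξ}) ≤ K⟮ζ⟯ := by
      rw [IntermediateField.adjoin_le_iff]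
      rintro _ ⟨z, hz, rfl⟩
      rw [Set.mem_singleton_iff] at hz
      rw [hz]
      have h5 : iA ξ = ζ + ζ⁻¹ := by
        show i ξ = _
        rw [hξ']
        simp
      rw [SetLike.mem_coe, h5]
      exact add_mem (mem_adjoin_simple_self K ζ) (inv_mem (mem_adjoin_simple_self K ζ))
    exact h4 h3
  -- the elements of the lower levels
  have hlow : ∀ j v : ℕ, (ζ ^ ((p ^ j * v : ℕ) : ℤ) + ζ ^ (-((p ^ j * v : ℕ) : ℤ))) ∈
      K⟮ζ ^ p ^ j⟯ := by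
    intro j v
    have h4 : ζ ^ p ^ j ∈ K⟮ζ ^ p ^ j⟯ := mem_adjoin_simple_self K _
    have h5 : ζ ^ (p ^ j * v) ∈ K⟮ζ ^ p ^ j⟯ := by
      rw [pow_mul]
      exact pow_mem h4 v
    rw [zpow_neg, zpow_natCast]
    exact add_mem h5 (inv_mem h5)
  have h4mem : ∀ j : ℕ, (4 : E) ∈ K⟮ζ ^ p ^ j⟯ := fun j => by
    have := _root_.natCast_mem (K⟮ζ ^ p ^ j⟯) 4
    exact_mod_cast this
  have hwmem : ∀ j : ℕ, algebraMap K E w ∈ K⟮ζ ^ p ^ j⟯ := fun j => IntermediateField.algebraMap_mem _ w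
  -- the level of an element whose square is in a lower level
  have hmain : ∀ (j : ℕ) (e : E), j ≤ k - κ → e ∈ K⟮ζ⟯ → e ^ 2 ∈ K⟮ζ ^ p ^ j⟯ →
      IsIntegral ℤ e → (∀ τ : E →+* ℂ, ‖τ e‖ ≤ 4 * (2 + M)) →
      ∃ (k₁ q : ℕ) (ζ₁ : E), κ ≤ k₁ ∧ IsPrimitiveRoot ζ₁ (p ^ k₁) ∧
        (∀ [NeZero (p ^ (k₁ - c))], Dir K ζ₁ (p ^ (k₁ - c))) ∧ Few K ζ₁ (p ^ (k₁ - c)) N e ∧
        (q = 1 ∨ (p = 2 ∧ q = 2)) ∧ ζ ^ p ^ j = ζ₁ ^ q := by
    intro j e hj he he2 hei heb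
    have e1 : k - (k - j) = j := by omega
    have h5 := hc₀ (k - j) (by omega) k (by omega) E ζ hζ e he (by rwa [e1])
    obtain ⟨k₁, q, ζ₁, m1, m2, m3, m4, m5⟩ := nsq2_lvl hp (by omega) hζ h5
    obtain ⟨hDir, hFew⟩ := hN k₁ (by omega) E ζ₁ m2
    exact ⟨k₁, q, ζ₁, by omega, m2, hDir, hFew e m3 hei heb, m4, m5⟩
  have hpw : ∀ (j q v : ℕ) (ζ₁ : E), ζ ^ p ^ j = ζ₁ ^ q →
      ζ ^ ((p ^ j * v : ℕ) : ℤ) + ζ ^ (-((p ^ j * v : ℕ) : ℤ)) =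
        ζ₁ ^ ((q * v : ℕ) : ℤ) + ζ₁ ^ (-((q * v : ℕ) : ℤ)) := by
    intro j q v ζ₁ h
    have h5 : ζ ^ (p ^ j * v) = ζ₁ ^ (q * v) := by rw [pow_mul, h, pow_mul]
    rw [zpow_neg, zpow_neg, zpow_natCast, zpow_natCast, h5]
  have hlt : ∀ (j u₁ : ℕ), ¬ p ^ (k + 1 - κ) ∣ p ^ j * u₁ → j ≤ k - κ := by
    intro j u₁ h
    by_contra hcon
    exact h (Dvd.dvd.mul_right (pow_dvd_pow p (by omega)) _)
  -- one square root
  have hA : ∀ (j u₁ : ℕ) (x d : L), ¬ p ∣ u₁ → ¬ p ^ (k + 1 - κ) ∣ p ^ j * u₁ →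
      s x = 2 * Complex.cos (2 * π * ((p ^ j * u₁ : ℕ) : ℂ) / (p : ℂ) ^ k) →
      d ^ 2 = 4 * (x - algebraMap K L w) → d ∉ K⟮ξ⟯ := by
    intro j u₁ x d hu₁ hu hx hd hmd
    have hX := himg x (p ^ j * u₁) hx
    have hD := hsq x d _ hX hd
    have b1 := hint _ _ hD
    obtain ⟨k₁, q, ζ₁, m1, m2, m3, m4, m5, m6⟩ := hmain j (i d) (hlt j u₁ hu) (hmem d hmd)
      (by
        rw [hD]
        exact sub_mem (mul_mem (h4mem j) (hlow j u₁)) (mul_mem (h4mem j) (hwmem j))) b1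
      (fun τ => hle1 _ (norm_nonneg _) (hbd _ _ hD τ))
    obtain ⟨g1, -⟩ := hk₀ k₁ (hκk.trans m1) K E w ζ₁ hw m2 m3 ((q * u₁ : ℕ) : ℤ) 0
      (nsq2_exp hp m5 hu₁)
    refine g1 (i d / (2 : ℕ)) (nsq_few m4 2) ?_
    rw [div_pow, hD, hpw j q u₁ ζ₁ m6]
    push_cast
    ring
  -- two square roots
  have hB : ∀ (j u₁ u₁' : ℕ) (x x' d d' : L), ¬ p ∣ u₁ → ¬ p ^ (k + 1 - κ) ∣ p ^ j * u₁ →
      s x = 2 * Complex.cos (2 * π * ((p ^ j * u₁ : ℕ) : ℂ) / (p : ℂ) ^ k) →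
      s x' = 2 * Complex.cos (2 * π * ((p ^ j * u₁' : ℕ) : ℂ) / (p : ℂ) ^ k) →
      d ^ 2 = 4 * (x - algebraMap K L w) → d' ^ 2 = 4 * (x' - algebraMap K L w) →
      d ≠ 0 → d' ≠ 0 → x' ≠ x → x' ≠ -x → d * d' ∉ K⟮ξ⟯ := by
    intro j u₁ u₁' x x' d d' hu₁ hu hx hx' hd hd' hd0 hd0' hne hne' hmd
    have hX := himg x (p ^ j * u₁) hx
    have hX' := himg x' (p ^ j * u₁') hx'
    have hD := hsq x d _ hX hd
    have hD' := hsq x' d' _ hX' hd'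
    have b1 := hint _ _ hD
    have b1' := hint _ _ hD'
    obtain ⟨k₁, q, ζ₁, m1, m2, m3, m4, m5, m6⟩ := hmain j (i (d * d')) (hlt j u₁ hu)
      (hmem _ hmd)
      (by
        rw [map_mul, mul_pow, hD, hD']
        exact mul_mem (sub_mem (mul_mem (h4mem j) (hlow j u₁)) (mul_mem (h4mem j) (hwmem j)))
          (sub_mem (mul_mem (h4mem j) (hlow j u₁')) (mul_mem (h4mem j) (hwmem j))))
      (by rw [map_mul]; exact b1.mul b1')
      (fun τ => by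
        rw [map_mul, map_mul, norm_mul]
        have q1 := hbd _ _ hD τ
        have q2 := hbd _ _ hD' τ
        have q3 := norm_nonneg (τ (i d))
        have q4 := norm_nonneg (τ (i d'))
        nlinarith [sq_nonneg (‖τ (i d)‖ - ‖τ (i d')‖)])
    obtain ⟨-, g2⟩ := hk₀ k₁ (hκk.trans m1) K E w ζ₁ hw m2 m3 ((q * u₁ : ℕ) : ℤ)
      ((q * u₁' : ℕ) : ℤ) (nsq2_exp hp m5 hu₁)
    have h4 := g2 (i (d * d') / (4 : ℕ)) (nsq_few m4 4) (by
        refine div_ne_zero ?_ (by norm_num)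
        rw [map_mul]
        exact mul_ne_zero ((map_ne_zero i).2 hd0) ((map_ne_zero i).2 hd0')) (by
      rw [div_pow, map_mul, mul_pow, hD, hD', hpw j q u₁ ζ₁ m6, hpw j q u₁' ζ₁ m6]
      push_cast
      ring)
    rw [← hpw j q u₁ ζ₁ m6, ← hpw j q u₁' ζ₁ m6, ← hX, ← hX'] at h4
    rcases h4 with h4 | h4
    · exact hne (i.injective h4)
    · rw [← map_neg] at h4
      exact hne' (i.injective h4)
  have hu0 : u ≠ 0 := fun h => hu (h ▸ dvd_zero _)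
  have hu0' : u' ≠ 0 := fun h => hu' (h ▸ dvd_zero _)
  obtain ⟨j, u₁, hu₁, rfl⟩ := Nat.exists_eq_pow_mul_and_not_dvd hu0 p hp.ne_one
  obtain ⟨j', u₁', hu₁', rfl⟩ := Nat.exists_eq_pow_mul_and_not_dvd hu0' p hp.ne_one
  have hdA := hA j u₁ x d hu₁ hu hx hd
  have hdA' := hA j' u₁' x' d' hu₁' hu' hx' hd'
  have hd0 : d ≠ 0 := fun h => hdA (h ▸ zero_mem _)
  have hd0' : d' ≠ 0 := fun h => hdA' (h ▸ zero_mem _)
  refine ⟨hdA, fun hne hne' => ?_⟩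
  rcases le_total j j' with hjj | hjj
  · have e1 : p ^ j' * u₁' = p ^ j * (p ^ (j' - j) * u₁') := by
      rw [← mul_assoc, ← pow_add]
      congr 2
      omega
    rw [e1] at hx'
    exact hB j u₁ _ x x' d d' hu₁ hu hx hx' hd hd' hd0 hd0' hne hne'
  · have e1 : p ^ j * u₁ = p ^ j' * (p ^ (j - j') * u₁) := by
      rw [← mul_assoc, ← pow_add]
      congr 2
      omega
    rw [e1] at hx
    rw [mul_comm]
    exact hB j' u₁' _ x' x d' d hu₁' hu' hx' hx hd' hd hd0' hd0 hne.symm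
      (fun h => hne' (by rw [h, neg_neg]))

end Pool.Agent.N76.RG
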