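import Pool.Agent.N76.RG.Stm

/-!
# Project RG, leaf POL: a graded identity gives an identity of Laurent polynomials (helper439)
-/

set_option autoImplicit false

namespace Pool.Agent.N76.RG

open Polynomial IntermediateField Module
open scoped Real LaurentPolynomial

namespace Pol

section

variable {K E : Type*} [Field K] [Field E] [Algebra K E] {ζ : E} {M : ℕ}

theorem hm_zero (j : ZMod M) : (0 : E) ∈ Hm K ζ M j := ⟨0, zero_mem _, by rw [zero_mul]⟩

theorem hm_add {j : ZMod M} {x y : E} (hx : x ∈ Hm K ζ M j) (hy : y ∈ Hm K ζ M j) :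
    x + y ∈ Hm K ζ M j := by
  obtain ⟨a, ha, rfl⟩ := hx
  obtain ⟨b, hb, rfl⟩ := hy
  exact ⟨a + b, add_mem ha hb, by rw [add_mul]⟩

theorem hm_sub {j : ZMod M} {x y : E} (hx : x ∈ Hm K ζ M j) (hy : y ∈ Hm K ζ M j) :
    x - y ∈ Hm K ζ M j := by
  obtain ⟨a, ha, rfl⟩ := hx
  obtain ⟨b, hb, rfl⟩ := hy
  exact ⟨a - b, sub_mem ha hb, by rw [sub_mul]⟩

theorem hm_sum {ι : Type*} {j : ZMod M} (s : Finset ι) (x : ι → E)
    (h : ∀ i ∈ s, x i ∈ Hm K ζ M j) : ∑ i ∈ s, x i ∈ Hm K ζ M j := by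
  classical
  induction s using Finset.induction_on with
  | empty => simpa using hm_zero j
  | insert a s ha ih =>
    rw [Finset.sum_insert ha]
    exact hm_add (h _ (Finset.mem_insert_self _ _))
      (ih fun i hi => h i (Finset.mem_insert_of_mem hi))

theorem hm_mul [NeZero M] {i j : ZMod M} {x y : E} (hx : x ∈ Hm K ζ M i) (hy : y ∈ Hm K ζ M j) :
    x * y ∈ Hm K ζ M (i + j) := by
  obtain ⟨a, ha, rfl⟩ := hx
  obtain ⟨b, hb, rfl⟩ := hy
  refine ⟨a * b * (ζ ^ M) ^ ((i.val + j.val) / M), mul_mem (mul_mem ha hb)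
    (pow_mem (mem_adjoin_simple_self K (ζ ^ M)) _), ?_⟩
  have h1 : i.val + j.val = M * ((i.val + j.val) / M) + (i + j).val := by
    rw [ZMod.val_add]
    exact (Nat.div_add_mod _ _).symm
  calc a * ζ ^ i.val * (b * ζ ^ j.val) = a * b * ζ ^ (i.val + j.val) := by rw [pow_add]; ring
    _ = a * b * (ζ ^ (M * ((i.val + j.val) / M)) * ζ ^ (i + j).val) := by
        rw [← pow_add, ← h1]
    _ = _ := by rw [pow_mul]; ring

end

end Pol

open Pol in
theorem pol.{u, v} : S_POL.{u, v} := by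
  intro K E _ _ _ ζ M _ hζ hD R f hf n m g hg hfg v hv hm
  classical
  -- the components
  let P : ZMod M → E := fun e => ∑ p ∈ (R ×ˢ R) with p.1 + p.2 = e, f p.1 * f p.2
  let G : ZMod M → E := fun e => ∑ i with (m i : ZMod M) = e, g i
  have hP : ∀ e, P e ∈ Hm K ζ M e := by
    intro e
    refine hm_sum _ _ fun p hp => ?_
    have h1 := (Finset.mem_filter.1 hp).2
    rw [← h1]
    exact hm_mul (hf _) (hf _)
  have hG : ∀ e, G e ∈ Hm K ζ M e := by
    intro e
    refine hm_sum _ _ fun i hi => ?_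
    have h1 := (Finset.mem_filter.1 hi).2
    rw [← h1]
    exact hg i
  have sP : ∑ e, P e = (∑ j ∈ R, f j) ^ 2 := by
    rw [Finset.sum_fiberwise (R ×ˢ R) (fun p => p.1 + p.2) (fun p => f p.1 * f p.2), sq,
      Finset.sum_mul_sum, Finset.sum_product]
  have sG : ∑ e, G e = ∑ i, g i := Finset.sum_fiberwise _ (fun i => (m i : ZMod M)) g
  have hPG : ∀ e, P e = G e := by
    intro e
    have h1 := hD (fun e => P e - G e) (fun e => hm_sub (hP e) (hG e)) (by
      rw [Finset.sum_sub_distrib, sP, sG, hfg, sub_self]) e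
    exact sub_eq_zero.1 h1
  -- the Laurent polynomials
  have hrep : ∀ i ∈ R, ∀ j ∈ R, (v * i).valMinAbs + (v * j).valMinAbs =
      (v * (i + j)).valMinAbs := by
    intro i hi j hj
    symm
    rw [ZMod.valMinAbs_spec]
    refine ⟨?_, ?_⟩
    · rw [Int.cast_add, ZMod.coe_valMinAbs, ZMod.coe_valMinAbs, mul_add]
    · have h1 := hv i hi
      have h2 := hv j hj
      have h3 := abs_le.1 (le_refl |(v * i).valMinAbs|)
      have h4 := abs_le.1 (le_refl |(v * j).valMinAbs|)
      rw [Set.mem_Ioc]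
      constructor <;> linarith [h3.1, h3.2, h4.1, h4.2]
  have lP : (∑ j ∈ R, (LaurentPolynomial.C (f j) * LaurentPolynomial.T (v * j).valMinAbs :
      E[T;T⁻¹])) ^ 2 = ∑ e, LaurentPolynomial.C (P e) * LaurentPolynomial.T (v * e).valMinAbs := by
    have h1 : ∀ e, (LaurentPolynomial.C (P e) * LaurentPolynomial.T (v * e).valMinAbs :
        E[T;T⁻¹]) = ∑ p ∈ (R ×ˢ R) with p.1 + p.2 = e,
          LaurentPolynomial.C (f p.1 * f p.2) *
            LaurentPolynomial.T (v * (p.1 + p.2)).valMinAbs := by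
      intro e
      rw [map_sum, Finset.sum_mul]
      refine Finset.sum_congr rfl fun p hp => ?_
      rw [(Finset.mem_filter.1 hp).2]
    rw [Finset.sum_congr rfl fun e _ => h1 e,
      Finset.sum_fiberwise (R ×ˢ R) (fun p => p.1 + p.2) (fun p =>
        (LaurentPolynomial.C (f p.1 * f p.2) *
          LaurentPolynomial.T (v * (p.1 + p.2)).valMinAbs : E[T;T⁻¹])), sq,
      Finset.sum_mul_sum, Finset.sum_product]
    refine Finset.sum_congr rfl fun i hi => Finset.sum_congr rfl fun j hj => ?_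
    simp only
    rw [← hrep i hi j hj, LaurentPolynomial.T_add, map_mul]
    ring
  have lG : ∑ i, (LaurentPolynomial.C (g i) * LaurentPolynomial.T (v * (m i : ZMod M)).valMinAbs :
      E[T;T⁻¹]) = ∑ e, LaurentPolynomial.C (G e) * LaurentPolynomial.T (v * e).valMinAbs := by
    have h1 : ∀ e, (LaurentPolynomial.C (G e) * LaurentPolynomial.T (v * e).valMinAbs :
        E[T;T⁻¹]) = ∑ i with (m i : ZMod M) = e, LaurentPolynomial.C (g i) *
            LaurentPolynomial.T (v * (m i : ZMod M)).valMinAbs := by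
      intro e
      rw [map_sum, Finset.sum_mul]
      refine Finset.sum_congr rfl fun i hi => ?_
      rw [(Finset.mem_filter.1 hi).2]
    rw [Finset.sum_congr rfl fun e _ => h1 e]
    exact (Finset.sum_fiberwise _ (fun i => (m i : ZMod M)) _).symm
  rw [lP, lG]
  exact Finset.sum_congr rfl fun e _ => by rw [hPG e]

end Pool.Agent.N76.RG
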