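import Pool.Agent.N76.RG.Stm2

/-!
# Project RG, leaf RED: a square root in the tower, over a field of the tower, is in the next field
-/

set_option autoImplicit false

namespace Pool.Agent.N76.RG

open Polynomial IntermediateField Module

theorem red_mono {K : Type*} [Field K] {E : Type*} [Field E] [Algebra K E] (z : E) (m : ℕ) :
    K⟮z ^ m⟯ ≤ K⟮z⟯ := by
  rw [adjoin_simple_le_iff]
  exact pow_mem (mem_adjoin_simple_self K z) _

theorem red_decomp {K : Type*} [Field K] {E : Type*} [Field E] [Algebra K E] (z : E) (hz : IsAlgebraic K z)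
    (y : E) (hy : y ∈ K⟮z⟯) : ∃ a ∈ K⟮z ^ 2⟯, ∃ b ∈ K⟮z ^ 2⟯, y = a + b * z := by
  have h1 : y ∈ Algebra.adjoin K {z} := by
    rw [← IntermediateField.adjoin_simple_toSubalgebra_of_isAlgebraic hz]
    exact hy
  have hz2 : z ^ 2 ∈ K⟮z ^ 2⟯ := mem_adjoin_simple_self K _
  induction h1 using Algebra.adjoin_induction with
  | mem x hx =>
    rw [Set.mem_singleton_iff.1 hx]
    exact ⟨0, zero_mem _, 1, one_mem _, by ring⟩
  | algebraMap r => exact ⟨algebraMap K E r, IntermediateField.algebraMap_mem _ r, 0, zero_mem _, by ring⟩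
  | add x w hx hw ihx ihw =>
    obtain ⟨a, ha, b, hb, rfl⟩ := ihx (by
      rw [← IntermediateField.adjoin_simple_toSubalgebra_of_isAlgebraic hz] at hx; exact hx)
    obtain ⟨c, hc, d, hd, rfl⟩ := ihw (by
      rw [← IntermediateField.adjoin_simple_toSubalgebra_of_isAlgebraic hz] at hw; exact hw)
    exact ⟨a + c, add_mem ha hc, b + d, add_mem hb hd, by ring⟩
  | mul x w hx hw ihx ihw =>
    obtain ⟨a, ha, b, hb, rfl⟩ := ihx (by
      rw [← IntermediateField.adjoin_simple_toSubalgebra_of_isAlgebraic hz] at hx; exact hx)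
    obtain ⟨c, hc, d, hd, rfl⟩ := ihw (by
      rw [← IntermediateField.adjoin_simple_toSubalgebra_of_isAlgebraic hz] at hw; exact hw)
    exact ⟨a * c + b * d * z ^ 2, add_mem (mul_mem ha hc) (mul_mem (mul_mem hb hd) hz2),
      a * d + b * c, add_mem (mul_mem ha hd) (mul_mem hb hc), by ring⟩

/-- uniqueness of the components -/
theorem red_uniq {K : Type*} [Field K] {E : Type*} [Field E] [Algebra K E] (F : IntermediateField K E) (z : E)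
    (hz : z ∉ F) (a b : E) (ha : a ∈ F) (hb : b ∈ F) (h : a + b * z ∈ F) : b = 0 := by
  by_contra hb0
  apply hz
  have h1 : z = (a + b * z - a) * b⁻¹ := by field_simp; ring
  rw [h1]
  exact mul_mem (sub_mem h ha) (inv_mem hb)

theorem red_two_mem {K : Type*} [Field K] {E : Type*} [Field E] [Algebra K E] (F : IntermediateField K E) :
    (2 : E) ∈ F := by
  rw [← one_add_one_eq_two]
  exact add_mem (one_mem F) (one_mem F)

theorem red_two {K : Type*} [Field K] {E : Type*} [Field E] [CharZero E] [Algebra K E] (z : E)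
    (hint : IsAlgebraic K z) (hz : z ∉ K⟮z ^ 2⟯) (hs : z ^ 2 ∉ K⟮(z ^ 2) ^ 2⟯) (i : E)
    (hi : i ∈ K⟮(z ^ 2) ^ 2⟯) (hi2 : i ^ 2 = -1) (y : E) (hy : y ∈ K⟮z⟯) (hy2 : y ^ 2 ∈ K⟮(z ^ 2) ^ 2⟯) :
    y ∈ K⟮z ^ 2⟯ := by
  obtain ⟨a, ha, b, hb, rfl⟩ := red_decomp z hint y hy
  have hz2 : z ^ 2 ∈ K⟮z ^ 2⟯ := mem_adjoin_simple_self K _
  have hs2 : (z ^ 2) ^ 2 ∈ K⟮(z ^ 2) ^ 2⟯ := mem_adjoin_simple_self K _
  have h1 : a ^ 2 + b ^ 2 * z ^ 2 + (2 * a * b) * z ∈ K⟮z ^ 2⟯ := by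
    have h2 : a ^ 2 + b ^ 2 * z ^ 2 + (2 * a * b) * z = (a + b * z) ^ 2 := by ring
    rw [h2]
    exact red_mono (z ^ 2) 2 hy2
  have h2 := red_uniq _ z hz _ _ (add_mem (pow_mem ha 2) (mul_mem (pow_mem hb 2) hz2))
    (mul_mem (mul_mem (red_two_mem _) ha) hb) h1
  have h3 : a = 0 ∨ b = 0 := by
    rcases mul_eq_zero.1 h2 with h | h
    · rcases mul_eq_zero.1 h with h | h
      · exact absurd h two_ne_zero
      · exact Or.inl h
    · exact Or.inr h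
  rcases h3 with rfl | rfl
  · -- y = b z
    obtain ⟨c, hc, d, hd, hbe⟩ := red_decomp (z ^ 2) (hint.pow 2) b hb
    have h4 : 2 * c * d * (z ^ 2) ^ 2 + (c ^ 2 + d ^ 2 * (z ^ 2) ^ 2) * z ^ 2 ∈ K⟮(z ^ 2) ^ 2⟯ := by
      have h5 : 2 * c * d * (z ^ 2) ^ 2 + (c ^ 2 + d ^ 2 * (z ^ 2) ^ 2) * z ^ 2 = (0 + b * z) ^ 2 := by
        rw [hbe]; ring
      rw [h5]
      exact hy2
    have h5 := red_uniq _ (z ^ 2) hs _ _
      (mul_mem (mul_mem (mul_mem (red_two_mem _) hc) hd) hs2)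
      (add_mem (pow_mem hc 2) (mul_mem (pow_mem hd 2) hs2)) h4
    have h6 : d = 0 := by
      by_contra hd0
      have h7 : (c - i * d * z ^ 2) * (c + i * d * z ^ 2) = 0 := by
        have : (c - i * d * z ^ 2) * (c + i * d * z ^ 2) = c ^ 2 - i ^ 2 * (d ^ 2 * (z ^ 2) ^ 2) := by ring
        rw [this, hi2, ← h5]; ring
      have hi0 : i ≠ 0 := by
        rintro rfl
        norm_num at hi2
      apply hs
      rcases mul_eq_zero.1 h7 with h | h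
      · have h8 : z ^ 2 = c * (i * d)⁻¹ := by
          have : c = i * d * z ^ 2 := sub_eq_zero.1 h
          rw [this]; field_simp
        have h9 : c * (i * d)⁻¹ ∈ K⟮(z ^ 2) ^ 2⟯ := mul_mem hc (inv_mem (mul_mem hi hd))
        rw [← h8] at h9
        exact h9
      · have h8 : z ^ 2 = -(c * (i * d)⁻¹) := by
          have : c = -(i * d * z ^ 2) := eq_neg_of_add_eq_zero_left h
          rw [this]; field_simp
        have h9 : -(c * (i * d)⁻¹) ∈ K⟮(z ^ 2) ^ 2⟯ := neg_mem (mul_mem hc (inv_mem (mul_mem hi hd)))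
        rw [← h8] at h9
        exact h9
    have h7 : c = 0 := by
      rw [h6] at h5
      simpa using h5
    rw [hbe, h6, h7]
    simp
  · simpa using ha

theorem red_irr.{u, v} (h : S_IRR.{u, v}) (K : Type u) [Field K] [NumberField K] (p : ℕ) (hp : p.Prime) :
    ∃ c₀ : ℕ, 2 ≤ c₀ ∧ (∀ c ≥ c₀, ∀ k ≥ c, ∀ (E : Type v) [Field E] [Algebra K E] (ζ : E),
      IsPrimitiveRoot ζ (p ^ k) →
      LinearIndependent K⟮ζ ^ p ^ (k - c)⟯ fun j : Fin (p ^ (k - c)) => ζ ^ (j : ℕ)) ∧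
      (p = 2 → ∀ m ≥ c₀, ∀ (E : Type v) [Field E] [Algebra K E] (z : E), IsPrimitiveRoot z (2 ^ (m + 1)) →
        z ∉ K⟮z ^ 2⟯) := by
  obtain ⟨c₀, hc₀, H⟩ := h K p hp
  refine ⟨c₀, hc₀, H, ?_⟩
  rintro rfl m hm E _ _ z hz hmem
  have h1 := H m hm (m + 1) (by omega) E z hz
  have e1 : 2 ^ (m + 1 - m) = 2 := by simp
  rw [e1] at h1
  have h2 := Fintype.linearIndependent_iff.1 h1 ![-⟨z, hmem⟩, 1] (by
    rw [Fin.sum_univ_two]
    simp [IntermediateField.smul_def]) 1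
  simp at h2

theorem red_odd {K : Type*} [Field K] {E : Type*} [Field E] [Algebra K E] (M : ℕ) (hM : Odd M) (ζ : E)
    (hint : IsIntegral K ζ)
    (hli : LinearIndependent K⟮ζ ^ M⟯ fun j : Fin M => ζ ^ (j : ℕ)) (y : E) (hy : y ∈ K⟮ζ⟯)
    (hy2 : y ^ 2 ∈ K⟮ζ ^ M⟯) : y ∈ K⟮ζ ^ M⟯ := by
  have hMpos : 0 < M := hM.pos
  have hint' : IsIntegral K⟮ζ ^ M⟯ ζ := hint.tower_top
  have hfd : FiniteDimensional K⟮ζ ^ M⟯ K⟮ζ ^ M⟯⟮ζ⟯ := adjoin.finiteDimensional hint'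
  have hfin : finrank K⟮ζ ^ M⟯ K⟮ζ ^ M⟯⟮ζ⟯ = (minpoly K⟮ζ ^ M⟯ ζ).natDegree := adjoin.finrank hint'
  have hle : (minpoly K⟮ζ ^ M⟯ ζ).natDegree ≤ M := by
    have h1 : (X ^ M - C (⟨ζ ^ M, mem_adjoin_simple_self K _⟩ : K⟮ζ ^ M⟯)).natDegree = M := natDegree_X_pow_sub_C
    have h0 : (X ^ M - C (⟨ζ ^ M, mem_adjoin_simple_self K _⟩ : K⟮ζ ^ M⟯)) ≠ 0 := X_pow_sub_C_ne_zero hMpos _
    have h2 : aeval ζ (X ^ M - C (⟨ζ ^ M, mem_adjoin_simple_self K _⟩ : K⟮ζ ^ M⟯)) = 0 := by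
      simp
    calc _ ≤ _ := natDegree_le_of_dvd (minpoly.dvd _ _ h2) h0
      _ = M := h1
  have hge : M ≤ finrank K⟮ζ ^ M⟯ K⟮ζ ^ M⟯⟮ζ⟯ := by
    have h1 : LinearIndependent K⟮ζ ^ M⟯
        fun j : Fin M => ((⟨ζ, mem_adjoin_simple_self _ ζ⟩ : K⟮ζ ^ M⟯⟮ζ⟯) ^ (j : ℕ)) := by
      have h2 : (K⟮ζ ^ M⟯⟮ζ⟯.val.toLinearMap) ∘
          (fun j : Fin M => ((⟨ζ, mem_adjoin_simple_self _ ζ⟩ : K⟮ζ ^ M⟯⟮ζ⟯) ^ (j : ℕ))) =
          fun j : Fin M => ζ ^ (j : ℕ) := by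
        funext j
        simp
      refine LinearIndependent.of_comp (K⟮ζ ^ M⟯⟮ζ⟯.val.toLinearMap) ?_
      rw [h2]
      exact hli
    simpa using h1.fintype_card_le_finrank
  have hdeg : finrank K⟮ζ ^ M⟯ K⟮ζ ^ M⟯⟮ζ⟯ = M := le_antisymm (hfin ▸ hle) hge
  have hy' : y ∈ K⟮ζ ^ M⟯⟮ζ⟯ := by
    have : K⟮ζ⟯ ≤ (K⟮ζ ^ M⟯⟮ζ⟯).restrictScalars K := by
      rw [adjoin_simple_le_iff]
      exact mem_adjoin_simple_self _ ζ
    exact this hy
  have hdvd := minpoly.degree_dvd (K := K⟮ζ ^ M⟯) (L := K⟮ζ ^ M⟯⟮ζ⟯)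
    (x := ⟨y, hy'⟩) (IsIntegral.of_finite _ _)
  rw [hdeg] at hdvd
  have h2 : (minpoly K⟮ζ ^ M⟯ (⟨y, hy'⟩ : K⟮ζ ^ M⟯⟮ζ⟯)).natDegree ≤ 2 := by
    have h1 : (X ^ 2 - C (⟨y ^ 2, hy2⟩ : K⟮ζ ^ M⟯)).natDegree = 2 := natDegree_X_pow_sub_C
    have h0 : (X ^ 2 - C (⟨y ^ 2, hy2⟩ : K⟮ζ ^ M⟯)) ≠ 0 := X_pow_sub_C_ne_zero two_pos _
    have h2 : aeval (⟨y, hy'⟩ : K⟮ζ ^ M⟯⟮ζ⟯) (X ^ 2 - C (⟨y ^ 2, hy2⟩ : K⟮ζ ^ M⟯)) = 0 := by
      simp only [map_sub, map_pow, aeval_X, aeval_C]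
      rw [sub_eq_zero]
      rfl
    calc _ ≤ _ := natDegree_le_of_dvd (minpoly.dvd _ _ h2) h0
      _ = 2 := h1
  have h3 : 0 < (minpoly K⟮ζ ^ M⟯ (⟨y, hy'⟩ : K⟮ζ ^ M⟯⟮ζ⟯)).natDegree :=
    minpoly.natDegree_pos (IsIntegral.of_finite _ _)
  have h4 : (minpoly K⟮ζ ^ M⟯ (⟨y, hy'⟩ : K⟮ζ ^ M⟯⟮ζ⟯)).natDegree ≠ 2 := by
    intro h
    rw [h] at hdvd
    exact (Nat.not_even_iff_odd.2 hM) (even_iff_two_dvd.2 hdvd)
  have h5 : (minpoly K⟮ζ ^ M⟯ (⟨y, hy'⟩ : K⟮ζ ^ M⟯⟮ζ⟯)).natDegree = 1 := by omega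
  obtain ⟨w, hw⟩ := minpoly.natDegree_eq_one_iff.1 h5
  have h6 : (w : E) = y := congrArg (fun t : K⟮ζ ^ M⟯⟮ζ⟯ => (t : E)) hw
  rw [← h6]
  exact w.2

theorem red.{u, v} (h : S_IRR.{u, v}) : S_RED.{u, v} := by
  intro K _ _ p hp
  obtain ⟨c₀, hc₀, H, H2⟩ := red_irr h K p hp
  refine ⟨c₀, fun k' hk' k hk E _ _ ζ hζ y hy hy2 => ?_⟩
  have : CharZero E := charZero_of_injective_algebraMap (algebraMap K E).injective
  have hint : IsIntegral K ζ := (hζ.isIntegral (pow_pos hp.pos k)).tower_top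
  rcases hp.eq_two_or_odd' with rfl | hodd
  · -- p = 2
    rcases Nat.eq_or_lt_of_le hk with hkk | hkk
    · left
      rw [← hkk]
      simpa using hy
    right
    refine ⟨rfl, hkk, ?_⟩
    have hi : (ζ ^ 2 ^ (k - 2)) ^ 2 = -1 := by
      have h1 : IsPrimitiveRoot (ζ ^ 2 ^ (k - 1)) 2 :=
        hζ.pow (by positivity) (by rw [← pow_succ]; congr 1; omega)
      have h2 := h1.eq_neg_one_of_two_right
      rw [← pow_mul, ← pow_succ, show k - 2 + 1 = k - 1 by omega]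
      exact h2
    have hind : ∀ j, j + k' + 1 ≤ k → y ∈ K⟮ζ ^ 2 ^ j⟯ := by
      intro j
      induction j with
      | zero => intro _; simpa using hy
      | succ j ih =>
        intro hj
        have hyj := ih (by omega)
        have e1 : ζ ^ 2 ^ (j + 1) = (ζ ^ 2 ^ j) ^ 2 := by rw [← pow_mul, ← pow_succ]
        have e2 : ζ ^ 2 ^ (j + 2) = ((ζ ^ 2 ^ j) ^ 2) ^ 2 := by
          rw [← pow_mul, ← pow_mul]
          congr 1
          ring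
        have hzj : IsPrimitiveRoot (ζ ^ 2 ^ j) (2 ^ (k - j - 1 + 1)) :=
          hζ.pow (by positivity) (by rw [← pow_add]; congr 1; omega)
        have hzj1 : IsPrimitiveRoot (ζ ^ 2 ^ (j + 1)) (2 ^ (k - j - 2 + 1)) :=
          hζ.pow (by positivity) (by rw [← pow_add]; congr 1; omega)
        rw [e1]
        refine red_two (ζ ^ 2 ^ j) (hint.pow _).isAlgebraic (H2 rfl _ (by omega) E _ hzj) ?_
          (ζ ^ 2 ^ (k - 2)) ?_ hi y hyj ?_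
        · rw [← e1]
          exact H2 rfl _ (by omega) E _ hzj1
        · rw [← e2]
          have e3 : ζ ^ 2 ^ (k - 2) = (ζ ^ 2 ^ (j + 2)) ^ 2 ^ (k - 2 - (j + 2)) := by
            rw [← pow_mul, ← pow_add]
            congr 2
            omega
          rw [e3]
          exact pow_mem (mem_adjoin_simple_self K _) _
        · rw [← e2]
          have e3 : ζ ^ 2 ^ (k - k') = (ζ ^ 2 ^ (j + 2)) ^ 2 ^ (k - k' - (j + 2)) := by
            rw [← pow_mul, ← pow_add]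
            congr 2
            omega
          rw [e3] at hy2
          exact red_mono _ _ hy2
    exact hind _ (by omega)
  · left
    exact red_odd _ (hodd.pow) ζ hint (H k' hk' k hk E ζ hζ) y hy hy2

end Pool.Agent.N76.RG
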