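import Pool.Agent.N76.RG.Stm2

set_option autoImplicit false

namespace Pool.Agent.N76.RG

open Polynomial IntermediateField Module
open scoped Real

/-- the powers of `ζ` are independent, so every `M`-th root of `ζ ^ M` is a conjugate of `ζ` -/
theorem spr_conj {F : Type*} {E : Type*} [Field F] [Field E] [Algebra F E] (M : ℕ) (hM : 0 < M)
    (ζ : E) (c : F) (hc : algebraMap F E c = ζ ^ M)
    (hLI : LinearIndependent F fun j : Fin M => ζ ^ (j : ℕ)) (z : E) (hz : z ^ M = ζ ^ M) :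
    IsIntegral F ζ ∧ aeval z (minpoly F ζ) = 0 := by
  have hmon : (X ^ M - C c : F[X]).Monic := monic_X_pow_sub_C c hM.ne'
  have hroot : aeval ζ (X ^ M - C c : F[X]) = 0 := by
    simp [hc]
  have hint : IsIntegral F ζ := ⟨_, hmon, by rw [← aeval_def]; exact hroot⟩
  refine ⟨hint, ?_⟩
  have hdeg : M ≤ (minpoly F ζ).natDegree := by
    by_contra hlt
    push Not at hlt
    have h1 := minpoly.aeval F ζ
    rw [aeval_eq_sum_range' hlt, Finset.sum_range] at h1
    have h2 := Fintype.linearIndependent_iff.1 hLI (fun j => (minpoly F ζ).coeff j) h1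
      ⟨(minpoly F ζ).natDegree, hlt⟩
    have h3 : (minpoly F ζ).coeff (minpoly F ζ).natDegree = 1 := (minpoly.monic hint).coeff_natDegree
    simp only at h2
    rw [h3] at h2
    exact one_ne_zero h2
  have heq : minpoly F ζ = X ^ M - C c := by
    have hdvd := minpoly.dvd F ζ hroot
    exact (eq_of_monic_of_dvd_of_natDegree_le (minpoly.monic hint) hmon hdvd
      (by rw [natDegree_X_pow_sub_C]; exact hdeg)).symm
  rw [heq]
  simp [hc, hz]

theorem spr_unit (p M' u : ℕ) (hp : p.Prime) (hu : ¬ p ∣ u) (t : ℤ) :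
    ∃ (h : ℕ) (r : ℤ), (u : ℤ) * h = t + (p ^ M' : ℕ) * r := by
  have hcop : Nat.Coprime u (p ^ M') := (Nat.Coprime.pow_right M' ((Nat.Prime.coprime_iff_not_dvd hp).2 hu).symm)
  have : NeZero (p ^ M') := ⟨pow_ne_zero _ hp.ne_zero⟩
  let w := ZMod.unitOfCoprime u hcop
  refine ⟨((w⁻¹ : (ZMod (p ^ M'))ˣ) * (t : ZMod (p ^ M')) : ZMod (p ^ M')).val, ?_⟩
  have h1 : (((u : ℤ) * (((w⁻¹ : (ZMod (p ^ M'))ˣ) * (t : ZMod (p ^ M')) : ZMod (p ^ M')).val : ℕ) : ℤ) :
      ZMod (p ^ M')) = ((t : ℤ) : ZMod (p ^ M')) := by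
    push_cast
    rw [ZMod.natCast_zmod_val]
    have h2 : (u : ZMod (p ^ M')) = (w : ZMod (p ^ M')) := (ZMod.coe_unitOfCoprime u hcop).symm
    rw [h2, ← mul_assoc, Units.mul_inv, one_mul]
  rw [ZMod.intCast_eq_intCast_iff_dvd_sub] at h1
  obtain ⟨r, hr⟩ := h1
  exact ⟨-r, by linarith⟩

theorem spr.{u, v} (h : S_IRR.{u, 0}) : S_SPR.{u, v} := by
  intro K _ _ p α δ hp hδ
  obtain ⟨c, hc2, hc⟩ := h K p hp
  obtain ⟨n, hn⟩ : ∃ n : ℕ, 2 * π < (p : ℝ) ^ n * δ := by
    obtain ⟨n, hn⟩ := pow_unbounded_of_one_lt (2 * π / δ)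
      (by exact_mod_cast hp.one_lt : (1 : ℝ) < p)
    exact ⟨n, by rwa [div_lt_iff₀ hδ] at hn⟩
  refine ⟨c + n, fun k hk L _ _ _ s₁ x u hu hx => ?_⟩
  have hck : c ≤ k := by omega
  letI : Algebra K ℂ := (s₁.comp (algebraMap K L)).toAlgebra
  have halg : ∀ a : K, algebraMap K ℂ a = s₁ (algebraMap K L a) := fun a => rfl
  have hp0 : p ^ k ≠ 0 := pow_ne_zero _ hp.ne_zero
  set ζ : ℂ := Complex.exp (2 * π * Complex.I / (p ^ k : ℕ)) with hζ
  have hprim : IsPrimitiveRoot ζ (p ^ k) := Complex.isPrimitiveRoot_exp _ hp0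
  have hLI := hc c le_rfl k hck ℂ ζ hprim
  set M : ℕ := p ^ (k - c) with hM
  have hM0 : 0 < M := pow_pos hp.pos _
  have hMR : (0 : ℝ) < M := by exact_mod_cast hM0
  have hMδ : 2 * π < M * δ := by
    refine hn.trans_le (mul_le_mul_of_nonneg_right ?_ hδ.le)
    rw [hM]
    push_cast
    exact pow_le_pow_right₀ (by exact_mod_cast hp.one_lt.le) (by omega)
  -- the angle
  set θ : ℝ := 2 * π * u / (p : ℝ) ^ k with hθ
  set t : ℤ := round ((α - θ) * M / (2 * π)) with ht
  have hπ := Real.pi_pos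
  have hβ : |θ + 2 * π * t / M - α| < δ := by
    have h1 := abs_sub_round ((α - θ) * M / (2 * π))
    rw [← ht] at h1
    have h2 : θ + 2 * π * t / M - α = -((2 * π / M) * ((α - θ) * M / (2 * π) - t)) := by
      field_simp
      ring
    rw [h2, abs_neg, abs_mul, abs_of_pos (by positivity)]
    calc 2 * π / M * |(α - θ) * M / (2 * π) - t| ≤ 2 * π / M * (1 / 2) :=
          mul_le_mul_of_nonneg_left h1 (by positivity)
      _ < δ := by
          rw [div_mul_eq_mul_div, div_lt_iff₀ hMR]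
          nlinarith
  obtain ⟨hh, r, hr⟩ := spr_unit p (k - c) u hp hu t
  rw [← hM] at hr
  set ω : ℂ := Complex.exp (2 * π * Complex.I / (M : ℕ)) with hω
  have hωM : ω ^ M = 1 := (Complex.isPrimitiveRoot_exp M hM0.ne').pow_eq_one
  set z : ℂ := ζ * ω ^ hh with hz
  have hzM : z ^ M = ζ ^ M := by
    rw [hz, mul_pow, ← pow_mul, mul_comm hh M, pow_mul, hωM, one_pow, mul_one]
  -- the homomorphism
  set F : IntermediateField K ℂ := K⟮ζ ^ M⟯ with hF
  obtain ⟨hint, hroot⟩ := spr_conj M hM0 ζ (⟨ζ ^ M, mem_adjoin_simple_self K _⟩ : F) rfl hLI z hzM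
  have hmem : z ∈ (minpoly F ζ).aroots ℂ := by
    rw [mem_aroots]
    exact ⟨minpoly.ne_zero hint, hroot⟩
  let g : F⟮ζ⟯ →ₐ[F] ℂ := (algHomAdjoinIntegralEquiv F hint).symm ⟨z, hmem⟩
  have hg : g (AdjoinSimple.gen F ζ) = z :=
    algHomAdjoinIntegralEquiv_symm_apply_gen F hint ⟨z, hmem⟩
  let y : F⟮ζ⟯ := AdjoinSimple.gen F ζ ^ u + (AdjoinSimple.gen F ζ ^ u)⁻¹
  have hpc : ((p ^ k : ℕ) : ℂ) ≠ 0 := by exact_mod_cast hp0
  have hζu : ζ ^ u = Complex.exp (θ * Complex.I) := by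
    rw [hζ, ← Complex.exp_nat_mul]
    congr 1
    rw [hθ]
    push_cast
    ring
  have hcos : ∀ b : ℝ, Complex.exp (b * Complex.I) + (Complex.exp (b * Complex.I))⁻¹ =
      2 * Complex.cos b := by
    intro b
    rw [← Complex.exp_neg, Complex.two_cos]
    congr 2
    ring
  have hyx : (y : ℂ) = s₁ x := by
    have h1 : (y : ℂ) = ζ ^ u + (ζ ^ u)⁻¹ := by
      simp only [y]
      push_cast
      rfl
    rw [h1, hζu, hcos, hx, hθ]
    push_cast
    rfl
  set β : ℝ := θ + 2 * π * t / M with hβd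
  have hzu : z ^ u = Complex.exp (β * Complex.I) := by
    have hMc : (M : ℂ) ≠ 0 := by exact_mod_cast hM0.ne'
    rw [hz, mul_pow, hζu, ← pow_mul, hω, ← Complex.exp_nat_mul, ← Complex.exp_add]
    have hr' : ((u : ℂ) * hh) = t + M * r := by exact_mod_cast congrArg (Int.cast : ℤ → ℂ) hr
    have e1 : (θ : ℂ) * Complex.I + ((hh * u : ℕ) : ℂ) * (2 * π * Complex.I / (M : ℕ)) =
        β * Complex.I + r * (2 * π * Complex.I) := by
      push_cast
      rw [mul_comm (hh : ℂ) (u : ℂ), hr', hβd]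
      push_cast
      field_simp
      ring
    rw [e1, Complex.exp_add, Complex.exp_int_mul_two_pi_mul_I, mul_one]
  have hgy : g y = 2 * Complex.cos β := by
    simp only [y, map_add, map_inv₀, map_pow]
    rw [hg, hzu, hcos]
  -- the minimal polynomial
  have hscal : IsScalarTower ℚ K L := IsScalarTower.of_algebraMap_eq' (RingHom.ext_rat _ _)
  have hfin : FiniteDimensional K L := Module.Finite.of_restrictScalars_finite ℚ K L
  have halgK : Algebra.IsAlgebraic K L := Algebra.IsAlgebraic.of_finite K L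
  let s₁' : L →ₐ[K] ℂ := { s₁ with commutes' := fun a => rfl }
  have h1 : aeval (s₁ x) (minpoly K x) = 0 := by
    have h2 : aeval (s₁' x) (minpoly K x) = s₁' (aeval x (minpoly K x)) :=
      aeval_algHom_apply s₁' x _
    rw [minpoly.aeval, map_zero] at h2
    exact h2
  have h2 : aeval y ((minpoly K x).map (algebraMap K F)) = 0 := by
    apply Subtype.val_injective
    have h3 : ((aeval y ((minpoly K x).map (algebraMap K F)) : F⟮ζ⟯) : ℂ) =
        aeval (y : ℂ) ((minpoly K x).map (algebraMap K F)) :=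
      (aeval_algHom_apply F⟮ζ⟯.val y _).symm
    rw [h3, hyx, aeval_map_algebraMap, h1]
    rfl
  have h3 : aeval (g y) (minpoly K x) = 0 := by
    have h4 : aeval (g y) ((minpoly K x).map (algebraMap K F)) =
        g (aeval y ((minpoly K x).map (algebraMap K F))) := aeval_algHom_apply g y _
    rw [h2, map_zero, aeval_map_algebraMap] at h4
    exact h4
  have h5 : g y ∈ (minpoly K x).rootSet ℂ := by
    rw [mem_rootSet]
    exact ⟨minpoly.ne_zero (Algebra.IsIntegral.isIntegral x), h3⟩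
  rw [← Algebra.IsAlgebraic.range_eval_eq_rootSet_minpoly] at h5
  obtain ⟨s, hs⟩ := h5
  refine ⟨s.toRingHom, β, ?_, hβ, ?_⟩
  · ext a
    exact s.commutes a
  · have h6 : s x = g y := hs
    show s x = _
    rw [h6, hgy]

end Pool.Agent.N76.RG
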