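import Pool.Agent.N76.RG.Stm

set_option autoImplicit false

/-!
# Project RG, leaf SQR: squares with few components
-/

namespace Pool.Agent.N76.RG

open Polynomial IntermediateField Module
open scoped Real LaurentPolynomial

private lemma zpow_mem_Hm {K E : Type*} [Field K] [Field E] [Algebra K E] {ζ : E} (h0 : ζ ≠ 0) (M : ℕ) [NeZero M]
    (m : ℤ) : ζ ^ m ∈ Hm K ζ M (m : ZMod M) := by
  refine ⟨(ζ ^ M) ^ (m / (M : ℤ)), zpow_mem (IntermediateField.mem_adjoin_simple_self K (ζ ^ M)) _, ?_⟩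
  have h1 : (((m : ZMod M).val : ℕ) : ℤ) = m % (M : ℤ) := ZMod.val_intCast m
  rw [← zpow_natCast ζ ((m : ZMod M).val), h1, ← zpow_natCast ζ M, ← zpow_mul, ← zpow_add₀ h0]
  congr 1
  exact (Int.mul_ediv_add_emod m M).symm

private lemma smul_mem_Hm {K E : Type*} [Field K] [Field E] [Algebra K E] {ζ : E} {M : ℕ} {j : ZMod M} {x : E}
    (w : K) (hx : x ∈ Hm K ζ M j) : algebraMap K E w * x ∈ Hm K ζ M j := by
  obtain ⟨a, ha, rfl⟩ := hx
  exact ⟨algebraMap K E w * a, mul_mem (IntermediateField.algebraMap_mem _ w) ha, by ring⟩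

private lemma neg_mem_Hm {K E : Type*} [Field K] [Field E] [Algebra K E] {ζ : E} {M : ℕ} {j : ZMod M} {x : E}
    (hx : x ∈ Hm K ζ M j) : -x ∈ Hm K ζ M j := by
  obtain ⟨a, ha, rfl⟩ := hx
  exact ⟨-a, neg_mem ha, by ring⟩

private lemma vma {M : ℕ} [NeZero M] {x : ZMod M} {z : ℤ} (h : (z : ZMod M) = x) (hz : 2 * |z| < M) :
    x.valMinAbs = z := by
  rw [ZMod.valMinAbs_spec]
  have h1 := abs_le.mp (le_refl |z|)
  refine ⟨h.symm, ?_, ?_⟩ <;> omega

private lemma ab {x M : ℤ} (h1 : 2 * x < M) (h2 : -(2 * x) < M) : 2 * |x| < M := by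
  rcases abs_cases x with h | h <;> omega

private lemma ne0 {p M v : ℕ} [NeZero M] {e : ℕ} (hp : p.Prime) (hM : M = p ^ e) (hv0 : 0 < v) (hv : v < M) {u : ℤ}
    (hu : ¬ (p : ℤ) ∣ u) : ((v : ZMod M) * (u : ZMod M)).valMinAbs ≠ 0 := by
  intro h
  rw [ZMod.valMinAbs_eq_zero] at h
  have h1 : ((((v : ℤ) * u : ℤ)) : ZMod M) = 0 := by push_cast; exact h
  rw [ZMod.intCast_zmod_eq_zero_iff_dvd] at h1
  have h2 : IsCoprime (p : ℤ) u := ((Nat.prime_iff_prime_int.mp hp).irreducible.coprime_iff_not_dvd).mpr hu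
  have h3 : IsCoprime (M : ℤ) u := by rw [hM]; push_cast; exact h2.pow_left
  have h4 : (M : ℤ) ∣ v := h3.dvd_of_dvd_mul_right h1
  have h5 : M ∣ v := by exact_mod_cast h4
  exact absurd (Nat.le_of_dvd hv0 h5) (by omega)

theorem sqr.{u, v} (h1 : S_DIR) (h2 : S_POL.{u, v}) (h3 : S_ZER.{v}) : S_SQR.{u, v} := by
  classical
  intro p c N hp
  obtain ⟨M₀, hM₀⟩ := h1 (N + 2)
  refine ⟨c + (M₀ + 2), ?_⟩
  intro k hk K E _ _ _ _ w ζ hw hζ hdir u u' hu hu'
  have hM : M₀ + 2 < p ^ (k - c) :=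
    lt_of_le_of_lt (by omega : M₀ + 2 ≤ k - c) (Nat.lt_pow_self hp.one_lt)
  generalize hMe : p ^ (k - c) = M at *
  have : NeZero M := ⟨by omega⟩
  have hd : Dir K ζ M := hdir
  have hp0 : p ^ k ≠ 0 := pow_ne_zero _ hp.ne_zero
  have h0 : ζ ≠ 0 := hζ.ne_zero hp0
  have hc : (algebraMap K E w) ^ 2 ≠ 4 := by
    intro h
    apply hw
    apply (algebraMap K E).injective
    rw [map_pow, h, map_ofNat]
  -- the approximation
  have key : ∀ R : Finset (ZMod M), R.card ≤ N → ∃ v : ℕ, 0 < v ∧ v < M ∧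
      (∀ r ∈ R, 8 * |((v : ZMod M) * r).valMinAbs| < M) ∧
      8 * |((v : ZMod M) * (u : ZMod M)).valMinAbs| < M ∧ 8 * |((v : ZMod M) * (u' : ZMod M)).valMinAbs| < M := by
    intro R hR
    obtain ⟨v, hv0, hv, hv2⟩ := hM₀ M (by omega) (insert (u : ZMod M) (insert (u' : ZMod M) R))
      ((Finset.card_insert_le _ _).trans (by
        have := Finset.card_insert_le (u' : ZMod M) R
        omega))
    exact ⟨v, hv0, hv, fun r hr => hv2 r (by simp [hr]), hv2 _ (by simp), hv2 _ (by simp)⟩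
  have hz : ∀ m : ℤ, ζ ^ m ∈ Hm K ζ M (m : ZMod M) := fun m => zpow_mem_Hm h0 M m
  have hzw : ∀ m : ℤ, -(algebraMap K E w * ζ ^ m) ∈ Hm K ζ M (m : ZMod M) := fun m =>
    neg_mem_Hm (smul_mem_Hm w (hz m))
  have hz0 : (1 : E) ∈ Hm K ζ M ((0 : ℤ) : ZMod M) := by simpa using hz 0
  constructor
  · rintro y ⟨R, f, hR, hf, rfl⟩ hy
    obtain ⟨v, hv0, hv, hv1, hv2, -⟩ := key R hR
    set a := ((v : ZMod M) * (u : ZMod M)).valMinAbs with ha
    have hac : ((a : ℤ) : ZMod M) = (v : ZMod M) * (u : ZMod M) := ZMod.coe_valMinAbs _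
    have ha0 : a ≠ 0 := ne0 hp hMe.symm hv0 hv hu
    have e1 : ((v : ZMod M) * ((u : ℤ) : ZMod M)).valMinAbs = a := rfl
    have e2 : ((v : ZMod M) * ((-u : ℤ) : ZMod M)).valMinAbs = -a :=
      vma (by push_cast; rw [hac]; ring) (by rw [abs_neg]; omega)
    have e3 : ((v : ZMod M) * ((0 : ℤ) : ZMod M)).valMinAbs = 0 := by simp
    have h4 := h2 K E ζ M h0 hd R f hf 3 ![u, -u, 0] ![ζ ^ u, ζ ^ (-u), -(algebraMap K E w)]
      (by
        intro i
        fin_cases i
        · exact hz u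
        · exact hz (-u)
        · have := hzw 0
          simpa using this)
      (by
        rw [hy]
        simp [Fin.sum_univ_succ]
        ring)
      (v : ZMod M) (fun j hj => by have := hv1 j hj; omega)
      (by
        intro i
        fin_cases i
        · show 2 * |((v : ZMod M) * ((u : ℤ) : ZMod M)).valMinAbs| < M
          rw [e1]; omega
        · show 2 * |((v : ZMod M) * ((-u : ℤ) : ZMod M)).valMinAbs| < M
          rw [e2, abs_neg]; omega
        · show 2 * |((v : ZMod M) * ((0 : ℤ) : ZMod M)).valMinAbs| < M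
          rw [e3]; simp; omega)
    refine (h3 E (algebraMap K E w) (ζ ^ u) (ζ ^ u') a a _ hc (zpow_ne_zero _ h0) (zpow_ne_zero _ h0) ha0 ha0).1
      (h4.trans ?_)
    rw [Fin.sum_univ_three]
    show LaurentPolynomial.C (ζ ^ u) * LaurentPolynomial.T ((v : ZMod M) * ((u : ℤ) : ZMod M)).valMinAbs +
      LaurentPolynomial.C (ζ ^ (-u)) * LaurentPolynomial.T ((v : ZMod M) * ((-u : ℤ) : ZMod M)).valMinAbs +
      LaurentPolynomial.C (-(algebraMap K E w)) * LaurentPolynomial.T ((v : ZMod M) * ((0 : ℤ) : ZMod M)).valMinAbs = _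
    rw [e1, e2, e3, LaurentPolynomial.T_zero, mul_one, map_neg, zpow_neg]
    ring
  · rintro y ⟨R, f, hR, hf, rfl⟩ hy
    obtain ⟨v, hv0, hv, hv1, hv2, hv3⟩ := key R hR
    set a := ((v : ZMod M) * (u : ZMod M)).valMinAbs with ha
    set b := ((v : ZMod M) * (u' : ZMod M)).valMinAbs with hb
    have hac : ((a : ℤ) : ZMod M) = (v : ZMod M) * (u : ZMod M) := ZMod.coe_valMinAbs _
    have hbc : ((b : ℤ) : ZMod M) = (v : ZMod M) * (u' : ZMod M) := ZMod.coe_valMinAbs _
    have ha0 : a ≠ 0 := ne0 hp hMe.symm hv0 hv hu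
    have hb0 : b ≠ 0 := ne0 hp hMe.symm hv0 hv hu'
    have ha1 := abs_le.mp (le_refl |a|)
    have hb1 := abs_le.mp (le_refl |b|)
    -- the exponents
    set m : Fin 9 → ℤ := ![u + u', u - u', u, -u + u', -u - u', -u, u', -u', 0] with hm
    set e : Fin 9 → ℤ := ![a + b, a - b, a, -a + b, -a - b, -a, b, -b, 0] with he
    set g : Fin 9 → E := ![ζ ^ (u + u'), ζ ^ (u - u'), -(algebraMap K E w * ζ ^ u), ζ ^ (-u + u'), ζ ^ (-u - u'),
      -(algebraMap K E w * ζ ^ (-u)), -(algebraMap K E w * ζ ^ u'), -(algebraMap K E w * ζ ^ (-u')),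
      algebraMap K E w * (algebraMap K E w * 1)] with hg
    have hme : ∀ i, ((e i : ℤ) : ZMod M) = (v : ZMod M) * ((m i : ℤ) : ZMod M) := by
      intro i
      fin_cases i <;> simp [m, e, hac, hbc] <;> ring
    have he2 : ∀ i, 2 * |e i| < M := by
      intro i
      refine ab ?_ ?_ <;> fin_cases i <;> simp [e] <;> omega
    have hv4 : ∀ i, ((v : ZMod M) * ((m i : ℤ) : ZMod M)).valMinAbs = e i := fun i => vma (hme i) (he2 i)
    have z1 : ζ ^ (u + u') = ζ ^ u * ζ ^ u' := zpow_add₀ h0 _ _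
    have z2 : ζ ^ (u - u') = ζ ^ u * (ζ ^ u')⁻¹ := by rw [zpow_sub₀ h0, div_eq_mul_inv]
    have z3 : ζ ^ (-u + u') = (ζ ^ u)⁻¹ * ζ ^ u' := by rw [zpow_add₀ h0, zpow_neg]
    have z4 : ζ ^ (-u - u') = (ζ ^ u)⁻¹ * (ζ ^ u')⁻¹ := by rw [zpow_sub₀ h0, div_eq_mul_inv, zpow_neg]
    have h4 := h2 K E ζ M h0 hd R f hf 9 m g
      (by
        intro i
        fin_cases i
        · exact hz _
        · exact hz _
        · exact hzw _
        · exact hz _
        · exact hz _
        · exact hzw _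
        · exact hzw _
        · exact hzw _
        · exact smul_mem_Hm w (smul_mem_Hm w hz0))
      (by
        rw [hy, Fin.sum_univ_castSucc, Fin.sum_univ_eight]
        show _ = ζ ^ (u + u') + ζ ^ (u - u') + -(algebraMap K E w * ζ ^ u) + ζ ^ (-u + u') + ζ ^ (-u - u') +
          -(algebraMap K E w * ζ ^ (-u)) + -(algebraMap K E w * ζ ^ u') + -(algebraMap K E w * ζ ^ (-u')) +
          algebraMap K E w * (algebraMap K E w * 1)
        rw [z1, z2, z3, z4, zpow_neg, zpow_neg]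
        ring)
      (v : ZMod M) (fun j hj => by have := hv1 j hj; omega)
      (fun i => by rw [hv4]; exact he2 i)
    simp_rw [hv4] at h4
    have h5 := (h3 E (algebraMap K E w) (ζ ^ u) (ζ ^ u') a b _ hc (zpow_ne_zero _ h0) (zpow_ne_zero _ h0)
      ha0 hb0).2 (h4.trans ?_)
    · rw [zpow_neg, zpow_neg]
      exact h5
    · rw [Fin.sum_univ_castSucc, Fin.sum_univ_eight]
      show LaurentPolynomial.C (ζ ^ (u + u')) * LaurentPolynomial.T (a + b) +
        LaurentPolynomial.C (ζ ^ (u - u')) * LaurentPolynomial.T (a - b) +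
        LaurentPolynomial.C (-(algebraMap K E w * ζ ^ u)) * LaurentPolynomial.T a +
        LaurentPolynomial.C (ζ ^ (-u + u')) * LaurentPolynomial.T (-a + b) +
        LaurentPolynomial.C (ζ ^ (-u - u')) * LaurentPolynomial.T (-a - b) +
        LaurentPolynomial.C (-(algebraMap K E w * ζ ^ (-u))) * LaurentPolynomial.T (-a) +
        LaurentPolynomial.C (-(algebraMap K E w * ζ ^ u')) * LaurentPolynomial.T b +
        LaurentPolynomial.C (-(algebraMap K E w * ζ ^ (-u'))) * LaurentPolynomial.T (-b) +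
        LaurentPolynomial.C (algebraMap K E w * (algebraMap K E w * 1)) * LaurentPolynomial.T 0 = _
      rw [z1, z2, z3, z4, zpow_neg, zpow_neg, LaurentPolynomial.T_zero, mul_one, mul_one]
      simp only [LaurentPolynomial.T_add, LaurentPolynomial.T_sub, map_mul, map_neg]
      ring

end Pool.Agent.N76.RG
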