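import Pool.Agent.N76.RG.Stm

set_option autoImplicit false

/-!
# Project RG, ZER (helper645): zeros of `x T^a + x⁻¹ T^(-a) - c`
-/

namespace Pool.Agent.N76.RG

open Polynomial IntermediateField Module
open scoped Real LaurentPolynomial

namespace Zer

open Polynomial

section

variable {k : Type*} [Field k]

/-- the monic polynomial `X^(2A) - (c / y) X^A + y^(-2)` -/
noncomputable def Q (c y : k) (A : ℕ) : k[X] := X ^ (2 * A) + (C (y ^ 2)⁻¹ - C (c / y) * X ^ A)

lemma Q_monic (c y : k) {A : ℕ} (hA : 0 < A) : (Q c y A).Monic := by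
  unfold Q
  refine monic_X_pow_add ?_
  refine (degree_sub_le _ _).trans_lt (max_lt ?_ ?_)
  · exact degree_C_le.trans_lt (by exact_mod_cast (by omega : 0 < 2 * A))
  · exact (degree_C_mul_X_pow_le _ _).trans_lt (by exact_mod_cast (by omega : A < 2 * A))

lemma Q_eval (c y r : k) (A : ℕ) : (Q c y A).eval r = r ^ (2 * A) + ((y ^ 2)⁻¹ - c / y * r ^ A) := by
  unfold Q
  simp

lemma Q_zero (c y : k) {A : ℕ} (hA : 0 < A) : (Q c y A).eval 0 = (y ^ 2)⁻¹ := by
  rw [Q_eval, zero_pow (by omega), zero_pow hA.ne']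
  ring

lemma Q_simple [CharZero k] {c y r : k} {A : ℕ} (hA : 0 < A) (hc : c ^ 2 ≠ 4) (hy : y ≠ 0)
    (hr : (Q c y A).eval r = 0) : (Q c y A).derivative.eval r ≠ 0 := by
  have hr0 : r ≠ 0 := by
    rintro rfl
    rw [Q_zero c y hA] at hr
    exact inv_ne_zero (pow_ne_zero 2 hy) hr
  intro hd
  obtain ⟨B, rfl⟩ : ∃ B, A = B + 1 := ⟨A - 1, by omega⟩
  rw [Q_eval] at hr
  unfold Q at hd
  simp only [derivative_add, derivative_sub, derivative_C, derivative_X_pow, derivative_C_mul, eval_add, eval_neg,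
    eval_mul, eval_C, eval_pow, eval_X, zero_sub] at hd
  have e1 : 2 * (B + 1) - 1 = 2 * B + 1 := by omega
  have e2 : B + 1 - 1 = B := by omega
  rw [e1, e2] at hd
  have hB : ((B : k) + 1) ≠ 0 := by exact_mod_cast Nat.succ_ne_zero B
  have h1 : ((B : k) + 1) * r ^ B * (2 * r ^ (B + 1) - c / y) = 0 := by
    rw [← hd]
    push_cast
    ring
  have h2 : 2 * r ^ (B + 1) = c / y := by
    rcases mul_eq_zero.1 h1 with h | h
    · rcases mul_eq_zero.1 h with h | h
      · exact absurd h hB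
      · exact absurd h (pow_ne_zero _ hr0)
    · exact sub_eq_zero.1 h
  have h3 : r ^ (B + 1) = c / (2 * y) := by
    field_simp at h2 ⊢
    linear_combination h2
  have h4 : r ^ (2 * (B + 1)) = (r ^ (B + 1)) ^ 2 := by rw [← pow_mul, mul_comm]
  rw [h4, h3] at hr
  apply hc
  field_simp at hr
  linear_combination (-1 : k) * hr

lemma mult_le [CharZero k] {c y : k} {A : ℕ} (hA : 0 < A) (hc : c ^ 2 ≠ 4) (hy : y ≠ 0) (r : k) :
    (Q c y A).rootMultiplicity r ≤ 1 := by
  by_contra hcon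
  rw [not_le, one_lt_rootMultiplicity_iff_isRoot (Q_monic c y hA).ne_zero] at hcon
  exact Q_simple hA hc hy hcon.1 hcon.2

lemma mult_pos {c y : k} {A : ℕ} (hA : 0 < A) (r : k) :
    0 < (Q c y A).rootMultiplicity r ↔ (Q c y A).eval r = 0 :=
  rootMultiplicity_pos (Q_monic c y hA).ne_zero

lemma mult_X {r : k} (hr : r ≠ 0) (n : ℕ) : (X ^ n : k[X]).rootMultiplicity r = 0 := by
  refine rootMultiplicity_eq_zero ?_
  rw [IsRoot, eval_pow, eval_X]
  exact pow_ne_zero n hr

lemma mult_C {a : k} (ha : a ≠ 0) (r : k) : (C a : k[X]).rootMultiplicity r = 0 := by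
  refine rootMultiplicity_eq_zero ?_
  rw [IsRoot, eval_C]
  exact ha

variable [CharZero k] [IsAlgClosed k]

/-- the first claim -/
lemma not_sq {c y : k} {A : ℕ} (hA : 0 < A) (hc : c ^ 2 ≠ 4) (hy : y ≠ 0) (f : k[X]) (m n : ℕ)
    (h : f ^ 2 * X ^ m = C y * Q c y A * X ^ n) : False := by
  have hQ := (Q_monic c y hA)
  have hR : C y * Q c y A * X ^ n ≠ 0 :=
    mul_ne_zero (mul_ne_zero (C_ne_zero.2 hy) hQ.ne_zero) (pow_ne_zero _ X_ne_zero)
  have hL : f ^ 2 * X ^ m ≠ 0 := by rw [h]; exact hR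
  obtain ⟨r, hr⟩ := IsAlgClosed.exists_root (Q c y A) (by
    have h1 : (Q c y A).degree = ((2 * A : ℕ) : WithBot ℕ) := by
      unfold Q
      rw [degree_add_eq_left_of_degree_lt, degree_X_pow]
      rw [degree_X_pow]
      refine (degree_sub_le _ _).trans_lt (max_lt ?_ ?_)
      · exact degree_C_le.trans_lt (by exact_mod_cast (by omega : 0 < 2 * A))
      · exact (degree_C_mul_X_pow_le _ _).trans_lt (by exact_mod_cast (by omega : A < 2 * A))
    rw [h1]
    exact_mod_cast (by omega : 2 * A ≠ 0))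
  have hr0 : r ≠ 0 := by
    rintro rfl
    rw [IsRoot, Q_zero c y hA] at hr
    exact inv_ne_zero (pow_ne_zero 2 hy) hr
  have h1 := congrArg (rootMultiplicity r) h
  rw [rootMultiplicity_mul hL, rootMultiplicity_mul hR, mult_X hr0, mult_X hr0,
    rootMultiplicity_mul (left_ne_zero_of_mul hR), mult_C hy, sq, rootMultiplicity_mul (by
      rw [← sq]
      exact left_ne_zero_of_mul hL)] at h1
  have h2 := mult_le hA hc hy r
  have h3 := (mult_pos (c := c) (y := y) hA r).2 hr
  omega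

/-- the second claim -/
lemma sq_eq {c y z : k} {A B : ℕ} (hA : 0 < A) (hB : 0 < B) (hc : c ^ 2 ≠ 4) (hy : y ≠ 0) (hz : z ≠ 0)
    (f : k[X]) (m n : ℕ) (h : f ^ 2 * X ^ m = (C y * Q c y A) * (C z * Q c z B) * X ^ n) : y ^ 2 = z ^ 2 := by
  have hQ := (Q_monic c y hA)
  have hQ' := (Q_monic c z hB)
  have n1 : C y * Q c y A ≠ 0 := mul_ne_zero (C_ne_zero.2 hy) hQ.ne_zero
  have n2 : C z * Q c z B ≠ 0 := mul_ne_zero (C_ne_zero.2 hz) hQ'.ne_zero
  have hR : (C y * Q c y A) * (C z * Q c z B) * X ^ n ≠ 0 :=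
    mul_ne_zero (mul_ne_zero n1 n2) (pow_ne_zero _ X_ne_zero)
  have hL : f ^ 2 * X ^ m ≠ 0 := by rw [h]; exact hR
  have hiff : ∀ r, (Q c y A).eval r = 0 ↔ (Q c z B).eval r = 0 := by
    intro r
    by_cases hr0 : r = 0
    · subst hr0
      rw [Q_zero c y hA, Q_zero c z hB]
      simp [hy, hz]
    have h1 := congrArg (rootMultiplicity r) h
    rw [rootMultiplicity_mul hL, rootMultiplicity_mul hR, mult_X hr0, mult_X hr0,
      rootMultiplicity_mul (left_ne_zero_of_mul hR), rootMultiplicity_mul n1, rootMultiplicity_mul n2, mult_C hy,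
      mult_C hz, sq, rootMultiplicity_mul (by
        rw [← sq]
        exact left_ne_zero_of_mul hL)] at h1
    have h2 := mult_le hA hc hy r
    have h3 := mult_le hB hc hz r
    rw [← mult_pos (c := c) (y := y) hA r, ← mult_pos (c := c) (y := z) hB r]
    omega
  have nd : (Q c y A).roots.Nodup := by
    classical
    rw [Multiset.nodup_iff_count_le_one]
    intro r
    rw [count_roots]
    exact mult_le hA hc hy r
  have nd' : (Q c z B).roots.Nodup := by
    classical
    rw [Multiset.nodup_iff_count_le_one]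
    intro r
    rw [count_roots]
    exact mult_le hB hc hz r
  have hroots : (Q c y A).roots = (Q c z B).roots := by
    rw [Multiset.Nodup.ext nd nd']
    intro r
    rw [mem_roots hQ.ne_zero, mem_roots hQ'.ne_zero]
    exact hiff r
  have e1 := prod_multiset_X_sub_C_of_monic_of_roots_card_eq hQ
    (IsAlgClosed.splits (Q c y A)).natDegree_eq_card_roots.symm
  have e2 := prod_multiset_X_sub_C_of_monic_of_roots_card_eq hQ'
    (IsAlgClosed.splits (Q c z B)).natDegree_eq_card_roots.symm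
  rw [hroots, e2] at e1
  have e3 := congrArg (eval 0) e1
  rw [Q_zero c y hA, Q_zero c z hB] at e3
  exact (inv_injective e3).symm

end

section

variable {E : Type*} [Field E]

/-- from Laurent polynomials to polynomials, first claim -/
lemma pol1 {c y : E} (hy : y ≠ 0) {A n : ℕ} {F : E[T;T⁻¹]} {f : E[X]} (hf : toLaurent f = F * LaurentPolynomial.T n)
    (h : F ^ 2 = LaurentPolynomial.C y * LaurentPolynomial.T (A : ℤ) +
      LaurentPolynomial.C y⁻¹ * LaurentPolynomial.T (-(A : ℤ)) - LaurentPolynomial.C c) :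
    f ^ 2 * X ^ A = C y * Q c y A * X ^ (2 * n) := by
  have hP : C y * Q c y A = C y * X ^ (2 * A) - C c * X ^ A + C y⁻¹ := by
    unfold Q
    have e1 : (C y : E[X]) * C (y ^ 2)⁻¹ = C y⁻¹ := by
      rw [← C_mul]
      congr 1
      field_simp
    have e2 : (C y : E[X]) * C (c / y) = C c := by
      rw [← C_mul]
      congr 1
      field_simp
    linear_combination e1 - e2 * X ^ A
  rw [hP]
  apply toLaurent_injective
  simp only [map_mul, map_pow, map_add, map_sub, toLaurent_C, toLaurent_X]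
  rw [hf]
  have e1 : (LaurentPolynomial.T (1 : ℤ) : E[T;T⁻¹]) ^ A = LaurentPolynomial.T (A : ℤ) := by
    rw [LaurentPolynomial.T_pow]; simp
  have e2 : (LaurentPolynomial.T (1 : ℤ) : E[T;T⁻¹]) ^ (2 * A) = LaurentPolynomial.T (A : ℤ) ^ 2 := by
    rw [mul_comm, pow_mul, e1]
  have e3 : (LaurentPolynomial.T (1 : ℤ) : E[T;T⁻¹]) ^ (2 * n) = LaurentPolynomial.T (n : ℤ) ^ 2 := by
    rw [mul_comm, pow_mul, LaurentPolynomial.T_pow]; simp
  have e4 : (LaurentPolynomial.T (-(A : ℤ)) : E[T;T⁻¹]) * LaurentPolynomial.T (A : ℤ) = 1 := by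
    rw [← LaurentPolynomial.T_add]; simp
  rw [e1, e2, e3]
  linear_combination (LaurentPolynomial.T (n : ℤ)) ^ 2 * LaurentPolynomial.T (A : ℤ) * h +
    (LaurentPolynomial.T (n : ℤ)) ^ 2 * LaurentPolynomial.C y⁻¹ * e4

/-- from Laurent polynomials to polynomials, second claim -/
lemma pol2 {c y z : E} (hy : y ≠ 0) (hz : z ≠ 0) {A B n : ℕ} {F : E[T;T⁻¹]} {f : E[X]}
    (hf : toLaurent f = F * LaurentPolynomial.T n)
    (h : F ^ 2 = (LaurentPolynomial.C y * LaurentPolynomial.T (A : ℤ) +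
      LaurentPolynomial.C y⁻¹ * LaurentPolynomial.T (-(A : ℤ)) - LaurentPolynomial.C c) *
      (LaurentPolynomial.C z * LaurentPolynomial.T (B : ℤ) +
      LaurentPolynomial.C z⁻¹ * LaurentPolynomial.T (-(B : ℤ)) - LaurentPolynomial.C c)) :
    f ^ 2 * X ^ (A + B) = (C y * Q c y A) * (C z * Q c z B) * X ^ (2 * n) := by
  have hP : ∀ (y : E) (A : ℕ), y ≠ 0 → C y * Q c y A = C y * X ^ (2 * A) - C c * X ^ A + C y⁻¹ := by
    intro y A hy
    unfold Q
    have e1 : (C y : E[X]) * C (y ^ 2)⁻¹ = C y⁻¹ := by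
      rw [← C_mul]
      congr 1
      field_simp
    have e2 : (C y : E[X]) * C (c / y) = C c := by
      rw [← C_mul]
      congr 1
      field_simp
    linear_combination e1 - e2 * X ^ A
  rw [hP y A hy, hP z B hz, pow_add]
  apply toLaurent_injective
  simp only [map_mul, map_pow, map_add, map_sub, toLaurent_C, toLaurent_X]
  rw [hf]
  have e1 : ∀ A : ℕ, (LaurentPolynomial.T (1 : ℤ) : E[T;T⁻¹]) ^ A = LaurentPolynomial.T (A : ℤ) := by
    intro A
    rw [LaurentPolynomial.T_pow]; simp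
  have e2 : ∀ A : ℕ, (LaurentPolynomial.T (1 : ℤ) : E[T;T⁻¹]) ^ (2 * A) = LaurentPolynomial.T (A : ℤ) ^ 2 := by
    intro A
    rw [mul_comm, pow_mul, e1]
  have e4 : ∀ A : ℕ, (LaurentPolynomial.T (-(A : ℤ)) : E[T;T⁻¹]) * LaurentPolynomial.T (A : ℤ) = 1 := by
    intro A
    rw [← LaurentPolynomial.T_add]; simp
  rw [e1, e1, e2, e2, e2]
  have eA := e4 A
  have eB := e4 B
  generalize (LaurentPolynomial.T (A : ℤ) : E[T;T⁻¹]) = tA at *
  generalize (LaurentPolynomial.T (B : ℤ) : E[T;T⁻¹]) = tB at *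
  generalize (LaurentPolynomial.T (-(A : ℤ)) : E[T;T⁻¹]) = sA at *
  generalize (LaurentPolynomial.T (-(B : ℤ)) : E[T;T⁻¹]) = sB at *
  generalize (LaurentPolynomial.T (n : ℤ) : E[T;T⁻¹]) = tn at *
  generalize LaurentPolynomial.C y = cy at *
  generalize LaurentPolynomial.C z = cz at *
  generalize LaurentPolynomial.C y⁻¹ = cy' at *
  generalize LaurentPolynomial.C z⁻¹ = cz' at *
  generalize LaurentPolynomial.C c = cc at *
  have h1 : (cy * tA + cy' * sA - cc) * tA = cy * tA ^ 2 - cc * tA + cy' := by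
    linear_combination cy' * eA
  have h2 : (cz * tB + cz' * sB - cc) * tB = cz * tB ^ 2 - cc * tB + cz' := by
    linear_combination cz' * eB
  rw [← h1, ← h2]
  linear_combination tn ^ 2 * tA * tB * h

lemma Q_map {k : Type*} [Field k] (i : E →+* k) (c y : E) (A : ℕ) :
    (Q c y A).map i = Q (i c) (i y) A := by
  unfold Q
  simp only [Polynomial.map_add, Polynomial.map_sub, Polynomial.map_mul, Polynomial.map_pow, map_X, map_C, map_inv₀,
    map_pow, map_div₀]

/-- normalisation of the sign of the exponent -/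
lemma norm_exp {x : E} (hx : x ≠ 0) {a : ℤ} (ha : a ≠ 0) : ∃ (y : E) (A : ℕ), y ≠ 0 ∧ 0 < A ∧
    y + y⁻¹ = x + x⁻¹ ∧
    LaurentPolynomial.C x * LaurentPolynomial.T a + LaurentPolynomial.C x⁻¹ * LaurentPolynomial.T (-a) =
      LaurentPolynomial.C y * LaurentPolynomial.T (A : ℤ) +
        (LaurentPolynomial.C y⁻¹ * LaurentPolynomial.T (-(A : ℤ)) : E[T;T⁻¹]) := by
  rcases lt_or_gt_of_ne ha with h | h
  · refine ⟨x⁻¹, a.natAbs, inv_ne_zero hx, Int.natAbs_pos.2 ha, by rw [inv_inv, add_comm], ?_⟩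
    have e : ((a.natAbs : ℕ) : ℤ) = -a := by omega
    rw [e, inv_inv, neg_neg, add_comm]
  · refine ⟨x, a.natAbs, hx, Int.natAbs_pos.2 ha, rfl, ?_⟩
    have e : ((a.natAbs : ℕ) : ℤ) = a := by omega
    rw [e]

end

end Zer

/-- **ZER** -/
theorem zer.{u} : S_ZER.{u} := by
  intro E _ _ c x x' a b F hc hx hx' ha hb
  obtain ⟨y, A, hy, hA, hyx, hya⟩ := Zer.norm_exp hx ha
  obtain ⟨z, B, hz, hB, hzx, hzb⟩ := Zer.norm_exp hx' hb
  obtain ⟨n, f, hf⟩ := F.exists_T_pow
  rw [hya, hzb]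
  let i := algebraMap E (AlgebraicClosure E)
  have hi : Function.Injective i := i.injective
  have hc' : (i c) ^ 2 ≠ 4 := by
    intro h
    apply hc
    apply hi
    rw [map_pow, h]
    exact (map_ofNat i 4).symm
  have hy' : i y ≠ 0 := (map_ne_zero i).2 hy
  have hz' : i z ≠ 0 := (map_ne_zero i).2 hz
  have : CharZero (AlgebraicClosure E) := charZero_of_injective_algebraMap hi
  constructor
  · intro h
    have h1 := congrArg (Polynomial.map i) (Zer.pol1 hy hf h)
    simp only [Polynomial.map_mul, Polynomial.map_pow, Polynomial.map_X, Polynomial.map_C, Zer.Q_map] at h1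
    exact Zer.not_sq hA hc' hy' _ _ _ h1
  · intro h
    have h1 := congrArg (Polynomial.map i) (Zer.pol2 hy hz hf h)
    simp only [Polynomial.map_mul, Polynomial.map_pow, Polynomial.map_X, Polynomial.map_C, Zer.Q_map] at h1
    have h2 := Zer.sq_eq hA hB hc' hy' hz' _ _ _ h1
    rw [← map_pow, ← map_pow] at h2
    have h3 := hi h2
    rw [← hyx, ← hzx]
    rcases sq_eq_sq_iff_eq_or_eq_neg.1 h3 with h4 | h4
    · left
      rw [h4]
    · right
      rw [h4, inv_neg]
      ring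

end Pool.Agent.N76.RG
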