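import Pool.Agent.N76.RG.Stm2
import Pool.Agent.N76.RG.Zer

set_option autoImplicit false

/-!
# Project RH, leaf SQR2 (helper224): squares with few components, the second exponent is arbitrary
(adapted from `Sqr.lean` of helper458)
-/

namespace Pool.Agent.N76.RG

open Polynomial IntermediateField Module
open scoped Real LaurentPolynomial

namespace Sqr2

lemma zpow_mem_Hm {K E : Type*} [Field K] [Field E] [Algebra K E] {ζ : E} (h0 : ζ ≠ 0) (M : ℕ) [NeZero M]
    (m : ℤ) : ζ ^ m ∈ Hm K ζ M (m : ZMod M) := by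
  refine ⟨(ζ ^ M) ^ (m / (M : ℤ)), zpow_mem (IntermediateField.mem_adjoin_simple_self K (ζ ^ M)) _, ?_⟩
  have h1 : (((m : ZMod M).val : ℕ) : ℤ) = m % (M : ℤ) := ZMod.val_intCast m
  rw [← zpow_natCast ζ ((m : ZMod M).val), h1, ← zpow_natCast ζ M, ← zpow_mul, ← zpow_add₀ h0]
  congr 1
  exact (Int.mul_ediv_add_emod m M).symm

lemma smul_mem_Hm {K E : Type*} [Field K] [Field E] [Algebra K E] {ζ : E} {M : ℕ} {j : ZMod M} {x : E}
    (w : K) (hx : x ∈ Hm K ζ M j) : algebraMap K E w * x ∈ Hm K ζ M j := by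
  obtain ⟨a, ha, rfl⟩ := hx
  exact ⟨algebraMap K E w * a, mul_mem (IntermediateField.algebraMap_mem _ w) ha, by ring⟩

lemma neg_mem_Hm {K E : Type*} [Field K] [Field E] [Algebra K E] {ζ : E} {M : ℕ} {j : ZMod M} {x : E}
    (hx : x ∈ Hm K ζ M j) : -x ∈ Hm K ζ M j := by
  obtain ⟨a, ha, rfl⟩ := hx
  exact ⟨-a, neg_mem ha, by ring⟩

lemma vma {M : ℕ} [NeZero M] {x : ZMod M} {z : ℤ} (h : (z : ZMod M) = x) (hz : 2 * |z| < M) :
    x.valMinAbs = z := by
  rw [ZMod.valMinAbs_spec]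
  have h1 := abs_le.mp (le_refl |z|)
  refine ⟨h.symm, ?_, ?_⟩ <;> omega

lemma ab {x M : ℤ} (h1 : 2 * x < M) (h2 : -(2 * x) < M) : 2 * |x| < M := by
  rcases abs_cases x with h | h <;> omega

lemma ne0 {p M v : ℕ} [NeZero M] {e : ℕ} (hp : p.Prime) (hM : M = p ^ e) (hv0 : 0 < v) (hv : v < M) {u : ℤ}
    (hu : ¬ (p : ℤ) ∣ u) : ((v : ZMod M) * (u : ZMod M)).valMinAbs ≠ 0 := by
  intro h
  rw [ZMod.valMinAbs_eq_zero] at h
  have h1 : ((((v : ℤ) * u : ℤ)) : ZMod M) = 0 := by push_cast; exact h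
  rw [ZMod.intCast_zmod_eq_zero_iff_dvd] at h1
  have h2 : IsCoprime (p : ℤ) u := ((Nat.prime_iff_prime_int.mp hp).irreducible.coprime_iff_not_dvd).mpr hu
  have h3 : IsCoprime (M : ℤ) u := by rw [hM]; push_cast; exact h2.pow_left
  have h4 : (M : ℤ) ∣ v := h3.dvd_of_dvd_mul_right h1
  have h5 : M ∣ v := by exact_mod_cast h4
  exact absurd (Nat.le_of_dvd hv0 h5) (by omega)

/-- for `p = 2` also multiples of `2` are allowed, if the multiple of `1` is small -/
lemma ne0' {p M v : ℕ} [NeZero M] {e : ℕ} (hp : p.Prime) (hM : M = p ^ e) (hv0 : 0 < v) (hv : v < M)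
    (hv1 : 8 * |((v : ZMod M) * 1).valMinAbs| < M) {u : ℤ}
    (hu : ¬ (p : ℤ) ∣ u ∨ (p = 2 ∧ ¬ (4 : ℤ) ∣ u)) : ((v : ZMod M) * (u : ZMod M)).valMinAbs ≠ 0 := by
  rcases hu with hu | ⟨hp2, hu⟩
  · exact ne0 hp hM hv0 hv hu
  subst hp2
  by_cases h2 : (2 : ℤ) ∣ u
  swap
  · exact ne0 hp hM hv0 hv (by exact_mod_cast h2)
  obtain ⟨u₁, rfl⟩ := h2
  have hu1 : ¬ (2 : ℤ) ∣ u₁ := by
    rintro ⟨t, rfl⟩
    exact hu ⟨t, by ring⟩
  intro h
  rw [ZMod.valMinAbs_eq_zero] at h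
  have h1 : ((((v : ℤ) * 2 * u₁ : ℤ)) : ZMod M) = 0 := by
    rw [← h]
    push_cast
    ring
  rw [ZMod.intCast_zmod_eq_zero_iff_dvd] at h1
  have h3 : IsCoprime (2 : ℤ) u₁ := (Int.prime_two.irreducible.coprime_iff_not_dvd).mpr hu1
  have h4 : IsCoprime (M : ℤ) u₁ := by rw [hM]; push_cast; exact h3.pow_left
  have h5 : (M : ℤ) ∣ v * 2 := h4.dvd_of_dvd_mul_right h1
  have h6 : M ∣ v * 2 := by exact_mod_cast h5
  obtain ⟨t, ht⟩ := h6
  have ht1 : t = 1 := by
    have a1 : 0 < t := by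
      rcases Nat.eq_zero_or_pos t with h | h
      · rw [h] at ht; omega
      · exact h
    have a2 : t < 2 := by
      by_contra hcon
      have : M * 2 ≤ M * t := Nat.mul_le_mul_left M (not_lt.1 hcon)
      omega
    omega
  rw [ht1, mul_one] at ht
  set z := ((v : ZMod M) * 1).valMinAbs with hz
  have hzc : ((z : ℤ) : ZMod M) = (v : ZMod M) * 1 := ZMod.coe_valMinAbs _
  have h7 : (((z - v : ℤ)) : ZMod M) = 0 := by
    push_cast
    rw [hzc]
    ring
  rw [ZMod.intCast_zmod_eq_zero_iff_dvd] at h7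
  obtain ⟨s, hs⟩ := h7
  have hz1 := abs_le.mp (le_refl |z|)
  have hM0 : (0 : ℤ) < M := by exact_mod_cast Nat.pos_of_ne_zero (NeZero.ne M)
  have ht' : (v : ℤ) * 2 = M := by exact_mod_cast ht
  rcases le_or_gt 0 s with h8 | h8
  · have : 0 ≤ (M : ℤ) * s := mul_nonneg hM0.le h8
    omega
  · have : (M : ℤ) * s ≤ (M : ℤ) * (-1) := mul_le_mul_of_nonneg_left (by omega) hM0.le
    omega

section

variable {E : Type*} [Field E]

/-- from Laurent polynomials to polynomials, with a constant factor -/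
lemma pol1k {c y κ : E} (hy : y ≠ 0) {A n : ℕ} {F : E[T;T⁻¹]} {f : E[X]}
    (hf : toLaurent f = F * LaurentPolynomial.T n)
    (h : F ^ 2 = LaurentPolynomial.C κ * (LaurentPolynomial.C y * LaurentPolynomial.T (A : ℤ) +
      LaurentPolynomial.C y⁻¹ * LaurentPolynomial.T (-(A : ℤ)) - LaurentPolynomial.C c)) :
    f ^ 2 * X ^ A = C κ * (C y * Zer.Q c y A) * X ^ (2 * n) := by
  have hP : C y * Zer.Q c y A = C y * X ^ (2 * A) - C c * X ^ A + C y⁻¹ := by
    unfold Zer.Q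
    have e1 : (C y : E[X]) * C (y ^ 2)⁻¹ = C y⁻¹ := by
      rw [← C_mul]
      congr 1
      field_simp
    have e2 : (C y : E[X]) * C (c / y) = C c := by
      rw [← C_mul]
      congr 1
      field_simp
    linear_combination e1 - e2 * X ^ A
  rw [hP]
  apply toLaurent_injective
  simp only [map_mul, map_pow, map_add, map_sub, toLaurent_C, toLaurent_X]
  rw [hf]
  have e1 : (LaurentPolynomial.T (1 : ℤ) : E[T;T⁻¹]) ^ A = LaurentPolynomial.T (A : ℤ) := by
    rw [LaurentPolynomial.T_pow]; simp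
  have e2 : (LaurentPolynomial.T (1 : ℤ) : E[T;T⁻¹]) ^ (2 * A) = LaurentPolynomial.T (A : ℤ) ^ 2 := by
    rw [mul_comm, pow_mul, e1]
  have e3 : (LaurentPolynomial.T (1 : ℤ) : E[T;T⁻¹]) ^ (2 * n) = LaurentPolynomial.T (n : ℤ) ^ 2 := by
    rw [mul_comm, pow_mul, LaurentPolynomial.T_pow]; simp
  have e4 : (LaurentPolynomial.T (-(A : ℤ)) : E[T;T⁻¹]) * LaurentPolynomial.T (A : ℤ) = 1 := by
    rw [← LaurentPolynomial.T_add]; simp
  rw [e1, e2, e3]
  linear_combination (LaurentPolynomial.T (n : ℤ)) ^ 2 * LaurentPolynomial.T (A : ℤ) * h +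
    (LaurentPolynomial.T (n : ℤ)) ^ 2 * LaurentPolynomial.C κ * LaurentPolynomial.C y⁻¹ * e4

/-- the first half of `ZER` with a constant factor -/
lemma zerk [CharZero E] (c x κ : E) (a : ℤ) (F : E[T;T⁻¹]) (hc : c ^ 2 ≠ 4) (hx : x ≠ 0) (hκ : κ ≠ 0)
    (ha : a ≠ 0) :
    F ^ 2 ≠ LaurentPolynomial.C κ * (LaurentPolynomial.C x * LaurentPolynomial.T a +
      LaurentPolynomial.C x⁻¹ * LaurentPolynomial.T (-a) - LaurentPolynomial.C c) := by
  obtain ⟨y, A, hy, hA, hyx, hya⟩ := Zer.norm_exp hx ha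
  obtain ⟨n, f, hf⟩ := F.exists_T_pow
  rw [hya]
  let i := algebraMap E (AlgebraicClosure E)
  have hi : Function.Injective i := i.injective
  have hc' : (i c) ^ 2 ≠ 4 := by
    intro h
    apply hc
    apply hi
    rw [map_pow, h]
    exact (map_ofNat i 4).symm
  have hy' : i y ≠ 0 := (map_ne_zero i).2 hy
  have hκ' : i κ ≠ 0 := (map_ne_zero i).2 hκ
  have : CharZero (AlgebraicClosure E) := charZero_of_injective_algebraMap hi
  intro h
  have h1 := congrArg (Polynomial.map i) (pol1k hy hf h)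
  simp only [Polynomial.map_mul, Polynomial.map_pow, Polynomial.map_X, Polynomial.map_C, Zer.Q_map] at h1
  obtain ⟨l, hl⟩ := IsAlgClosed.exists_pow_nat_eq (i κ) (by norm_num : 0 < 2)
  have hl0 : l ≠ 0 := by
    rintro rfl
    apply hκ'
    rw [← hl]
    simp
  refine Zer.not_sq hA hc' hy' (C l⁻¹ * f.map i) A (2 * n) ?_
  have h2 : (C l⁻¹ : (AlgebraicClosure E)[X]) ^ 2 * C (i κ) = 1 := by
    rw [← hl, ← C_pow, ← C_mul, ← mul_pow, inv_mul_cancel₀ hl0, one_pow, C_1]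
  linear_combination (C l⁻¹ : (AlgebraicClosure E)[X]) ^ 2 * h1 + (C (i y) * Zer.Q (i c) (i y) A *
    X ^ (2 * n)) * h2

end

end Sqr2

open Sqr2 in
theorem sqr2.{u, v} (h1 : S_DIR) (h2 : S_POL.{u, v}) (h3 : S_ZER.{v}) : S_SQR2.{u, v} := by
  classical
  intro p c N hp
  obtain ⟨M₀, hM₀⟩ := h1 (N + 3)
  refine ⟨c + (M₀ + 2), ?_⟩
  intro k hk K E _ _ _ _ w ζ hw hζ hdir u u' hu
  have hM : M₀ + 2 < p ^ (k - c) :=
    lt_of_le_of_lt (by omega : M₀ + 2 ≤ k - c) (Nat.lt_pow_self hp.one_lt)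
  generalize hMe : p ^ (k - c) = M at *
  have : NeZero M := ⟨by omega⟩
  have hd : Dir K ζ M := hdir
  have hp0 : p ^ k ≠ 0 := pow_ne_zero _ hp.ne_zero
  have h0 : ζ ≠ 0 := hζ.ne_zero hp0
  have hc : (algebraMap K E w) ^ 2 ≠ 4 := by
    intro h
    apply hw
    apply (algebraMap K E).injective
    rw [map_pow, h, map_ofNat]
  -- the approximation
  have key : ∀ R : Finset (ZMod M), R.card ≤ N → ∃ v : ℕ, 0 < v ∧ v < M ∧
      (∀ r ∈ R, 8 * |((v : ZMod M) * r).valMinAbs| < M) ∧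
      8 * |((v : ZMod M) * (u : ZMod M)).valMinAbs| < M ∧ 8 * |((v : ZMod M) * (u' : ZMod M)).valMinAbs| < M ∧
      8 * |((v : ZMod M) * 1).valMinAbs| < M := by
    intro R hR
    obtain ⟨v, hv0, hv, hv2⟩ := hM₀ M (by omega) (insert 1 (insert (u : ZMod M) (insert (u' : ZMod M) R)))
      ((Finset.card_insert_le _ _).trans (by
        have := Finset.card_insert_le (u' : ZMod M) R
        have := Finset.card_insert_le (u : ZMod M) (insert (u' : ZMod M) R)
        omega))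
    exact ⟨v, hv0, hv, fun r hr => hv2 r (by simp [hr]), hv2 _ (by simp), hv2 _ (by simp), hv2 _ (by simp)⟩
  have hz : ∀ m : ℤ, ζ ^ m ∈ Hm K ζ M (m : ZMod M) := fun m => zpow_mem_Hm h0 M m
  have hzw : ∀ m : ℤ, -(algebraMap K E w * ζ ^ m) ∈ Hm K ζ M (m : ZMod M) := fun m =>
    neg_mem_Hm (smul_mem_Hm w (hz m))
  have hz0 : (1 : E) ∈ Hm K ζ M ((0 : ℤ) : ZMod M) := by simpa using hz 0
  constructor
  · rintro y ⟨R, f, hR, hf, rfl⟩ hy
    obtain ⟨v, hv0, hv, hv1, hv2, -, hvo⟩ := key R hR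
    set a := ((v : ZMod M) * (u : ZMod M)).valMinAbs with ha
    have hac : ((a : ℤ) : ZMod M) = (v : ZMod M) * (u : ZMod M) := ZMod.coe_valMinAbs _
    have ha0 : a ≠ 0 := ne0' hp hMe.symm hv0 hv hvo hu
    have e1 : ((v : ZMod M) * ((u : ℤ) : ZMod M)).valMinAbs = a := rfl
    have e2 : ((v : ZMod M) * ((-u : ℤ) : ZMod M)).valMinAbs = -a :=
      vma (by push_cast; rw [hac]; ring) (by rw [abs_neg]; omega)
    have e3 : ((v : ZMod M) * ((0 : ℤ) : ZMod M)).valMinAbs = 0 := by simp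
    have h4 := h2 K E ζ M h0 hd R f hf 3 ![u, -u, 0] ![ζ ^ u, ζ ^ (-u), -(algebraMap K E w)]
      (by
        intro i
        fin_cases i
        · exact hz u
        · exact hz (-u)
        · have := hzw 0
          simpa using this)
      (by
        rw [hy]
        simp [Fin.sum_univ_succ]
        ring)
      (v : ZMod M) (fun j hj => by have := hv1 j hj; omega)
      (by
        intro i
        fin_cases i
        · show 2 * |((v : ZMod M) * ((u : ℤ) : ZMod M)).valMinAbs| < M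
          rw [e1]; omega
        · show 2 * |((v : ZMod M) * ((-u : ℤ) : ZMod M)).valMinAbs| < M
          rw [e2, abs_neg]; omega
        · show 2 * |((v : ZMod M) * ((0 : ℤ) : ZMod M)).valMinAbs| < M
          rw [e3]; simp; omega)
    refine (h3 E (algebraMap K E w) (ζ ^ u) (ζ ^ u') a a _ hc (zpow_ne_zero _ h0) (zpow_ne_zero _ h0) ha0 ha0).1
      (h4.trans ?_)
    rw [Fin.sum_univ_three]
    show LaurentPolynomial.C (ζ ^ u) * LaurentPolynomial.T ((v : ZMod M) * ((u : ℤ) : ZMod M)).valMinAbs +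
      LaurentPolynomial.C (ζ ^ (-u)) * LaurentPolynomial.T ((v : ZMod M) * ((-u : ℤ) : ZMod M)).valMinAbs +
      LaurentPolynomial.C (-(algebraMap K E w)) * LaurentPolynomial.T ((v : ZMod M) * ((0 : ℤ) : ZMod M)).valMinAbs = _
    rw [e1, e2, e3, LaurentPolynomial.T_zero, mul_one, map_neg, zpow_neg]
    ring
  · rintro y ⟨R, f, hR, hf, rfl⟩ hy0 hy
    obtain ⟨v, hv0, hv, hv1, hv2, hv3, hvo⟩ := key R hR
    set a := ((v : ZMod M) * (u : ZMod M)).valMinAbs with ha
    set b := ((v : ZMod M) * (u' : ZMod M)).valMinAbs with hb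
    have hac : ((a : ℤ) : ZMod M) = (v : ZMod M) * (u : ZMod M) := ZMod.coe_valMinAbs _
    have hbc : ((b : ℤ) : ZMod M) = (v : ZMod M) * (u' : ZMod M) := ZMod.coe_valMinAbs _
    have ha0 : a ≠ 0 := ne0' hp hMe.symm hv0 hv hvo hu
    have ha1 := abs_le.mp (le_refl |a|)
    have hb1 := abs_le.mp (le_refl |b|)
    -- the exponents
    set m : Fin 9 → ℤ := ![u + u', u - u', u, -u + u', -u - u', -u, u', -u', 0] with hm
    set e : Fin 9 → ℤ := ![a + b, a - b, a, -a + b, -a - b, -a, b, -b, 0] with he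
    set g : Fin 9 → E := ![ζ ^ (u + u'), ζ ^ (u - u'), -(algebraMap K E w * ζ ^ u), ζ ^ (-u + u'), ζ ^ (-u - u'),
      -(algebraMap K E w * ζ ^ (-u)), -(algebraMap K E w * ζ ^ u'), -(algebraMap K E w * ζ ^ (-u')),
      algebraMap K E w * (algebraMap K E w * 1)] with hg
    have hme : ∀ i, ((e i : ℤ) : ZMod M) = (v : ZMod M) * ((m i : ℤ) : ZMod M) := by
      intro i
      fin_cases i <;> simp [m, e, hac, hbc] <;> ring
    have he2 : ∀ i, 2 * |e i| < M := by
      intro i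
      refine ab ?_ ?_ <;> fin_cases i <;> simp [e] <;> omega
    have hv4 : ∀ i, ((v : ZMod M) * ((m i : ℤ) : ZMod M)).valMinAbs = e i := fun i => vma (hme i) (he2 i)
    have z1 : ζ ^ (u + u') = ζ ^ u * ζ ^ u' := zpow_add₀ h0 _ _
    have z2 : ζ ^ (u - u') = ζ ^ u * (ζ ^ u')⁻¹ := by rw [zpow_sub₀ h0, div_eq_mul_inv]
    have z3 : ζ ^ (-u + u') = (ζ ^ u)⁻¹ * ζ ^ u' := by rw [zpow_add₀ h0, zpow_neg]
    have z4 : ζ ^ (-u - u') = (ζ ^ u)⁻¹ * (ζ ^ u')⁻¹ := by rw [zpow_sub₀ h0, div_eq_mul_inv, zpow_neg]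
    have h4 := h2 K E ζ M h0 hd R f hf 9 m g
      (by
        intro i
        fin_cases i
        · exact hz _
        · exact hz _
        · exact hzw _
        · exact hz _
        · exact hz _
        · exact hzw _
        · exact hzw _
        · exact hzw _
        · exact smul_mem_Hm w (smul_mem_Hm w hz0))
      (by
        rw [hy, Fin.sum_univ_castSucc, Fin.sum_univ_eight]
        show _ = ζ ^ (u + u') + ζ ^ (u - u') + -(algebraMap K E w * ζ ^ u) + ζ ^ (-u + u') + ζ ^ (-u - u') +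
          -(algebraMap K E w * ζ ^ (-u)) + -(algebraMap K E w * ζ ^ u') + -(algebraMap K E w * ζ ^ (-u')) +
          algebraMap K E w * (algebraMap K E w * 1)
        rw [z1, z2, z3, z4, zpow_neg, zpow_neg]
        ring)
      (v : ZMod M) (fun j hj => by have := hv1 j hj; omega)
      (fun i => by rw [hv4]; exact he2 i)
    simp_rw [hv4] at h4
    have h6 := h4.trans (show _ = (LaurentPolynomial.C (ζ ^ u) * LaurentPolynomial.T a +
        LaurentPolynomial.C (ζ ^ u)⁻¹ * LaurentPolynomial.T (-a) - LaurentPolynomial.C (algebraMap K E w)) *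
        (LaurentPolynomial.C (ζ ^ u') * LaurentPolynomial.T b +
        LaurentPolynomial.C (ζ ^ u')⁻¹ * LaurentPolynomial.T (-b) - LaurentPolynomial.C (algebraMap K E w)) by
      rw [Fin.sum_univ_castSucc, Fin.sum_univ_eight]
      show LaurentPolynomial.C (ζ ^ (u + u')) * LaurentPolynomial.T (a + b) +
        LaurentPolynomial.C (ζ ^ (u - u')) * LaurentPolynomial.T (a - b) +
        LaurentPolynomial.C (-(algebraMap K E w * ζ ^ u)) * LaurentPolynomial.T a +
        LaurentPolynomial.C (ζ ^ (-u + u')) * LaurentPolynomial.T (-a + b) +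
        LaurentPolynomial.C (ζ ^ (-u - u')) * LaurentPolynomial.T (-a - b) +
        LaurentPolynomial.C (-(algebraMap K E w * ζ ^ (-u))) * LaurentPolynomial.T (-a) +
        LaurentPolynomial.C (-(algebraMap K E w * ζ ^ u')) * LaurentPolynomial.T b +
        LaurentPolynomial.C (-(algebraMap K E w * ζ ^ (-u'))) * LaurentPolynomial.T (-b) +
        LaurentPolynomial.C (algebraMap K E w * (algebraMap K E w * 1)) * LaurentPolynomial.T 0 = _
      rw [z1, z2, z3, z4, zpow_neg, zpow_neg, LaurentPolynomial.T_zero, mul_one, mul_one]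
      simp only [LaurentPolynomial.T_add, LaurentPolynomial.T_sub, map_mul, map_neg]
      ring)
    by_cases hb0 : b = 0
    · exfalso
      have hκ : ζ ^ u' + (ζ ^ u')⁻¹ - algebraMap K E w ≠ 0 := by
        intro h
        apply hy0
        have h7 : (∑ j ∈ R, f j) ^ 2 = 0 := by
          rw [hy, zpow_neg ζ u', h, mul_zero]
        exact pow_eq_zero_iff (two_ne_zero) |>.1 h7
      refine zerk (algebraMap K E w) (ζ ^ u) _ a _ hc (zpow_ne_zero _ h0) hκ ha0 (h6.trans ?_)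
      rw [hb0, neg_zero, LaurentPolynomial.T_zero, mul_one, mul_one, map_sub, map_add]
      ring
    · have h5 := (h3 E (algebraMap K E w) (ζ ^ u) (ζ ^ u') a b _ hc (zpow_ne_zero _ h0) (zpow_ne_zero _ h0)
        ha0 hb0).2 h6
      rw [zpow_neg, zpow_neg]
      exact h5

end Pool.Agent.N76.RG
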