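import Pool.Agent.N76.RG.Stm

set_option autoImplicit false

/-!
# Project RG, leaf WIN: a window in which the regulators separate the two points of the fibre
-/

namespace Pool.Agent.N76.RG

open Polynomial Set Filter Topology
open Pool.Agent.N76.EC (Sys J)
open scoped Real

/-- arbitrarily near every real number there are numbers with nonzero cosine -/
theorem exists_cos_ne (U : Set ℝ) (hU : IsOpen U) (a : ℝ) (ha : a ∈ U) : ∃ b ∈ U, Real.cos b ≠ 0 := by
  by_cases h0 : Real.cos a = 0
  · by_contra hcon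
    push Not at hcon
    have h1 : (fun x => Real.cos x) =ᶠ[𝓝 a] fun _ => (0 : ℝ) := by
      filter_upwards [hU.mem_nhds ha] with x hx using hcon x hx
    have h2 := h1.deriv_eq
    simp only [deriv_const] at h2
    have h3 : Real.sin a = 0 := by
      have h4 : deriv (fun x => Real.cos x) a = -Real.sin a := by
        simp
      rw [h4] at h2
      linarith
    have h5 := Real.sin_sq_add_cos_sq a
    rw [h3, h0] at h5
    norm_num at h5
  · exact ⟨a, ha, h0⟩

theorem win : S_WIN := by
  intro G η φ₀ ε L X S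
  obtain ⟨α₀, hα₀, hbad⟩ := S.exists_bad le_rfl
  obtain ⟨l, k, k', hne⟩ := hbad fun _ => 0
  rw [sub_self] at hne
  have hne' : J X η L l k α₀ ≠ J X η L l k' α₀ := sub_ne_zero.1 hne
  have h01 : J X η L l 0 α₀ ≠ J X η L l 1 α₀ := by
    fin_cases k <;> fin_cases k'
    · exact absurd rfl hne'
    · exact hne'
    · exact hne'.symm
    · exact absurd rfl hne'
  -- the open set
  have hE : ∀ᶠ x in 𝓝 α₀, |x - φ₀| < ε ∧ J X η L l 0 x ≠ J X η L l 1 x := by
    refine Filter.Eventually.and ((Pool.Agent.N76.EC.isOpen_W φ₀ ε).mem_nhds hα₀) ?_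
    have c := (S.contAt_J l 0 hα₀).sub (S.contAt_J l 1 hα₀)
    filter_upwards [c.eventually_ne (sub_ne_zero.2 h01)] with x hx using sub_ne_zero.1 hx
  obtain ⟨U, hU1, hU2, hU3⟩ := eventually_nhds_iff.1 hE
  obtain ⟨α, hα, hcos⟩ := exists_cos_ne U hU2 α₀ hU3
  have hF : ∀ᶠ x in 𝓝 α, x ∈ U ∧ 0 < Real.cos x * Real.cos α := by
    refine Filter.Eventually.and (hU2.mem_nhds hα) ?_
    have c : ContinuousAt (fun x => Real.cos x * Real.cos α) α :=
      (Real.continuous_cos.mul continuous_const).continuousAt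
    exact c.eventually (lt_mem_nhds (mul_self_pos.2 hcos))
  obtain ⟨δ, hδ, hball⟩ := Metric.eventually_nhds_iff.1 hF
  refine ⟨α, δ, l, hδ, fun β hβ => ?_, fun β hβ => ?_⟩
  · have h := hball (y := β) (by rwa [Real.dist_eq])
    exact ⟨(hU1 β h.1).1, h.2⟩
  · have h := hball (y := β) (by rwa [Real.dist_eq])
    exact (hU1 β h.1).2

end Pool.Agent.N76.RG
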