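import Pool.Agent.N76.RG.Fin4
import Pool.Agent.N76.RG.Irr
import Pool.Agent.N76.RG.Int
import Pool.Agent.N76.RG.Cmp
import Pool.Agent.N76.RG.Dir
import Pool.Agent.N76.RG.Pol
import Pool.Agent.N76.RG.Zer
import Pool.Agent.N76.RG.Sqr
import Pool.Agent.N76.RG.Sqr2
import Pool.Agent.N76.RG.Nsq
import Pool.Agent.N76.RG.Nsq2
import Pool.Agent.N76.RG.Red
import Pool.Agent.N76.RG.Spr
import Pool.Agent.N76.RG.Emb
import Pool.Agent.N76.RG.Det
import Pool.Agent.N76.RG.Cnt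
import Pool.Agent.N76.RG.Win

set_option autoImplicit false

/-!
# Real independence of the regulators of elliptic curves `z + 1/z = F(x)`: the theorems
-/

namespace Pool.Agent.N76.RG

theorem t_int.{u, v} : S_INT.{u, v} := int_ irr
theorem t_cmp.{u, v} : S_CMP.{u, v} := cmp irr t_int
theorem t_sqr.{u, v} : S_SQR.{u, v} := sqr dir_ pol zer
theorem t_nsq.{u, v} : S_NSQ.{u, v} := nsq t_cmp t_sqr
theorem t_sqr2.{u, v} : S_SQR2.{u, v} := sqr2 dir_ pol zer
theorem t_nsq2.{u, v} : S_NSQ2.{u, v} := nsq2 t_cmp t_sqr2 (red irr)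
theorem t_spr.{u, v} : S_SPR.{u, v} := spr irr

end Pool.Agent.N76.RG
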