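import Pool.Agent.N76.RG.Stm3

set_option autoImplicit false
set_option linter.unusedSectionVars false

/-! # Subgroups of bounded index of the units modulo `N` meet all windows (leaf RK/EQD, helper327) -/

namespace Pool.Agent.N76.RG.EqdP

open scoped Real ComplexConjugate

theorem card_kill {N : ℕ} [NeZero N] (m : ℕ) (hm : 0 < m) :
    (Finset.univ.filter fun x : ZMod N => m • x = 0).card ≤ m :=
  IsAddCyclic.card_nsmul_eq_zero_le hm

theorem expsum {N : ℕ} [NeZero N] (H : Subgroup (ZMod N)ˣ) [Fintype H] (u : (ZMod N)ˣ) (m : ℕ)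
    (hm : 0 < m) :
    ‖∑ h : H, (ZMod.stdAddChar ((u : ZMod N) * ((h : (ZMod N)ˣ) : ZMod N)) : ℂ) ^ m‖ ^ 2 ≤
      m * N := by
  classical
  set ψ : AddChar (ZMod N) ℂ := ZMod.stdAddChar with hψ
  let v : H → ZMod N := fun h => ((h : (ZMod N)ˣ) : ZMod N)
  have hv : Function.Injective v := fun a b h => Subtype.ext (Units.ext h)
  let T : ZMod N → ℂ := fun c => ∑ h : H, ψ (c * (m * v h))
  have e0 : ∑ h : H, ψ ((u : ZMod N) * v h) ^ m = T u := by
    refine Finset.sum_congr rfl fun h _ => ?_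
    rw [← AddChar.map_nsmul_eq_pow, nsmul_eq_mul]
    congr 1
    ring
  have e1 : ∀ h0 : H, T (u * v h0) = T u := by
    intro h0
    refine Fintype.sum_equiv (Equiv.mulLeft h0) _ _ fun h => ?_
    congr 1
    simp only [Equiv.coe_mulLeft, v, Subgroup.coe_mul, Units.val_mul]
    ring
  have e2 : (Fintype.card H : ℝ) * ‖T u‖ ^ 2 ≤ ∑ c : ZMod N, ‖T c‖ ^ 2 := by
    let φ : H ↪ ZMod N := ⟨fun h => u * v h, fun a b h => hv (u.isUnit.mul_left_cancel h)⟩
    calc (Fintype.card H : ℝ) * ‖T u‖ ^ 2 = ∑ h : H, ‖T (φ h)‖ ^ 2 := by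
          have e : ∀ h : H, ‖T (φ h)‖ ^ 2 = ‖T u‖ ^ 2 := fun h => by
            rw [show T (φ h) = T u from e1 h]
          simp only [e, Finset.sum_const, Finset.card_univ, nsmul_eq_mul]
      _ = ∑ c ∈ Finset.univ.map φ, ‖T c‖ ^ 2 :=
          (Finset.sum_map Finset.univ φ fun c => ‖T c‖ ^ 2).symm
      _ ≤ _ := Finset.sum_le_sum_of_subset_of_nonneg (Finset.subset_univ _)
          fun _ _ _ => by positivity
  have e3 : ∑ c : ZMod N, ‖T c‖ ^ 2 =
      ∑ h : H, ∑ h' : H, if (m : ZMod N) * (v h - v h') = 0 then (N : ℝ) else 0 := by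
    apply Complex.ofReal_injective
    push_cast
    have key : ∀ c, ((‖T c‖ : ℂ)) ^ 2 = ∑ h : H, ∑ h' : H, ψ (c * (m * (v h - v h'))) := by
      intro c
      rw [← Complex.mul_conj']
      simp only [T, map_sum, Finset.sum_mul_sum]
      refine Finset.sum_congr rfl fun h _ => Finset.sum_congr rfl fun h' _ => ?_
      rw [← AddChar.map_neg_eq_conj, ← AddChar.map_add_eq_mul]
      congr 1
      ring
    simp only [key]
    rw [Finset.sum_comm]
    refine Finset.sum_congr rfl fun h _ => ?_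
    rw [Finset.sum_comm]
    refine Finset.sum_congr rfl fun h' _ => ?_
    rw [hψ, AddChar.sum_mulShift _ (ZMod.isPrimitive_stdAddChar N), ZMod.card]
    split_ifs <;> simp
  have e4 : ∀ h : H, (∑ h' : H, if (m : ZMod N) * (v h - v h') = 0 then (N : ℝ) else 0) ≤
      m * N := by
    intro h
    rw [← Finset.sum_filter, Finset.sum_const, nsmul_eq_mul]
    refine mul_le_mul_of_nonneg_right ?_ (Nat.cast_nonneg N)
    have h1 : (Finset.univ.filter fun h' : H => (m : ZMod N) * (v h - v h') = 0).card ≤ m := by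
      refine le_trans ?_ (card_kill (N := N) m hm)
      refine Finset.card_le_card_of_injOn (fun h' => v h - v h') ?_ ?_
      · intro h' hh
        simp only [Finset.coe_filter, Finset.mem_univ, true_and, Set.mem_ofPred_eq] at hh ⊢
        rw [nsmul_eq_mul]
        exact hh
      · intro a _ b _ hab
        exact hv (sub_right_injective hab)
    exact_mod_cast h1
  have hc : (0 : ℝ) < Fintype.card H := by
    exact_mod_cast Fintype.card_pos
  have e5 : (Fintype.card H : ℝ) * ‖T u‖ ^ 2 ≤ Fintype.card H * (m * N) := by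
    refine e2.trans ?_
    rw [e3]
    refine (Finset.sum_le_sum fun h _ => e4 h).trans (le_of_eq ?_)
    rw [Finset.sum_const, Finset.card_univ, nsmul_eq_mul]
  have e6 := le_of_mul_le_mul_left e5 hc
  rw [← e0] at e6
  exact e6


/-! ### totients -/

theorem prod_lower (S : Finset ℕ) (hS : ∀ p ∈ S, 2 ≤ p) :
    1 / ((S.card : ℝ) + 1) ≤ ∏ p ∈ S, (1 - (p : ℝ)⁻¹) := by
  induction S using Finset.induction_on_max with
  | empty => simp
  | insert a S ha ih =>
    have hnot : a ∉ S := fun h => lt_irrefl _ (ha a h)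
    have hcard : S.card + 2 ≤ a := by
      have hsub : S ⊆ Finset.Ico 2 a := by
        intro p hp
        rw [Finset.mem_Ico]
        exact ⟨hS p (Finset.mem_insert_of_mem hp), ha p hp⟩
      have := Finset.card_le_card hsub
      rw [Nat.card_Ico] at this
      have := hS a (Finset.mem_insert_self a S)
      omega
    rw [Finset.prod_insert hnot, Finset.card_insert_of_notMem hnot]
    have h1 := ih (fun p hp => hS p (Finset.mem_insert_of_mem hp))
    have hc : ((S.card : ℝ) + 2) ≤ a := by exact_mod_cast hcard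
    have hc0 : (0 : ℝ) ≤ S.card := by positivity
    have ha0 : (0 : ℝ) < a := by linarith
    have h2 : 1 - 1 / ((S.card : ℝ) + 2) ≤ 1 - (a : ℝ)⁻¹ := by
      have : (a : ℝ)⁻¹ ≤ 1 / ((S.card : ℝ) + 2) := by
        rw [one_div]; gcongr
      linarith
    have h3 : 0 ≤ 1 - 1 / ((S.card : ℝ) + 2) := by
      rw [sub_nonneg, div_le_one (by linarith)]; linarith
    calc 1 / (((S.card + 1 : ℕ) : ℝ) + 1) =
          (1 - 1 / ((S.card : ℝ) + 2)) * (1 / ((S.card : ℝ) + 1)) := by
          push_cast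
          field_simp
          ring
      _ ≤ (1 - (a : ℝ)⁻¹) * ∏ p ∈ S, (1 - (p : ℝ)⁻¹) :=
          mul_le_mul h2 h1 (by positivity) (h3.trans h2)

theorem tot_lower (k : ℕ) (hk : 1 ≤ k) :
    (k : ℝ) ≤ 2 * (1 + Real.log k) * (Nat.totient k : ℝ) := by
  have h1 : (Nat.totient k : ℝ) = k * ∏ p ∈ k.primeFactors, (1 - (p : ℝ)⁻¹) := by
    have := Nat.totient_eq_mul_prod_factors k
    have h2 : (((Nat.totient k : ℕ) : ℚ) : ℝ) =
      (((k : ℚ) * ∏ p ∈ k.primeFactors, (1 - (p : ℚ)⁻¹) : ℚ) : ℝ) := by rw [this]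
    push_cast at h2
    exact h2
  have h2 := prod_lower k.primeFactors (fun p hp => (Nat.prime_of_mem_primeFactors hp).two_le)
  have h3 : 2 ^ k.primeFactors.card ≤ k := by
    calc 2 ^ k.primeFactors.card ≤ ∏ p ∈ k.primeFactors, p :=
          Finset.pow_card_le_prod _ _ _ (fun p hp => (Nat.prime_of_mem_primeFactors hp).two_le)
      _ ≤ k := Nat.le_of_dvd (by omega) (Nat.prod_primeFactors_dvd k)
  have hk0 : (0 : ℝ) < k := by exact_mod_cast hk
  have h4 : (k.primeFactors.card : ℝ) * Real.log 2 ≤ Real.log k := by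
    have h5 : ((2 : ℝ) ^ k.primeFactors.card) ≤ k := by exact_mod_cast h3
    have h6 := Real.log_le_log (by positivity) h5
    rwa [Real.log_pow] at h6
  have h7 := Real.log_two_gt_d9
  have hlog : 0 ≤ Real.log k := Real.log_natCast_nonneg k
  have hcard0 : (0 : ℝ) ≤ k.primeFactors.card := by positivity
  have h8 : (k.primeFactors.card : ℝ) + 1 ≤ 2 * (1 + Real.log k) := by nlinarith
  rw [h1]
  have h9 : 1 ≤ 2 * (1 + Real.log k) * ∏ p ∈ k.primeFactors, (1 - (p : ℝ)⁻¹) := by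
    calc (1 : ℝ) = ((k.primeFactors.card : ℝ) + 1) * (1 / ((k.primeFactors.card : ℝ) + 1)) := by
          field_simp
      _ ≤ 2 * (1 + Real.log k) * ∏ p ∈ k.primeFactors, (1 - (p : ℝ)⁻¹) :=
          mul_le_mul h8 h2 (by positivity) (by positivity)
  nlinarith

/-- for large `N` -/
theorem large (K : ℝ) (hK : 0 ≤ K) : ∃ N₀ : ℕ, ∀ N ≥ N₀, 1 ≤ N ∧
    K * (1 + Real.log N) * Real.sqrt N < N := by
  have hc : (0 : ℝ) < 1 / (4 * (K + 1)) := by positivity
  have h1 := (isLittleO_log_rpow_atTop (r := 1 / 2) (by norm_num)).def hc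
  have h2 : ∀ᶠ x : ℝ in Filter.atTop, 4 * (K + 1) ≤ Real.sqrt x :=
    Real.tendsto_sqrt_atTop.eventually_ge_atTop _
  have h3 := (h1.and (h2.and (Filter.eventually_ge_atTop (1 : ℝ))))
  have h4 := tendsto_natCast_atTop_atTop (R := ℝ) |>.eventually h3
  obtain ⟨N₀, hN₀⟩ := Filter.eventually_atTop.1 h4
  refine ⟨N₀, fun N hN => ?_⟩
  obtain ⟨a1, a2, a3⟩ := hN₀ N hN
  have hN1 : 1 ≤ N := by exact_mod_cast a3
  refine ⟨hN1, ?_⟩
  have hlog : 0 ≤ Real.log N := Real.log_natCast_nonneg N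
  rw [Real.norm_of_nonneg hlog, ← Real.sqrt_eq_rpow, Real.norm_of_nonneg (Real.sqrt_nonneg _)] at a1
  have hs : 0 < Real.sqrt N := by
    have : 0 < 4 * (K + 1) := by positivity
    linarith
  have hsq : Real.sqrt N * Real.sqrt N = N := Real.mul_self_sqrt (by positivity)
  have h5 : 1 ≤ 1 / (4 * (K + 1)) * Real.sqrt N := by
    rw [one_div, inv_mul_eq_div, one_le_div (by positivity)]
    exact a2
  have h6 : 1 + Real.log N ≤ 2 * (1 / (4 * (K + 1)) * Real.sqrt N) := by linarith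
  have h7 : K * (1 + Real.log N) < Real.sqrt N := by
    have h8 : K * (1 + Real.log N) ≤ K * (2 * (1 / (4 * (K + 1)) * Real.sqrt N)) :=
      mul_le_mul_of_nonneg_left h6 hK
    have h9 : K * (2 * (1 / (4 * (K + 1)) * Real.sqrt N)) = (K / (2 * (K + 1))) * Real.sqrt N := by
      field_simp
      ring
    have h10 : K / (2 * (K + 1)) < 1 := by
      rw [div_lt_one (by positivity)]
      linarith
    have h11 : (K / (2 * (K + 1))) * Real.sqrt N < 1 * Real.sqrt N :=
      mul_lt_mul_of_pos_right h10 hs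
    linarith
  calc K * (1 + Real.log N) * Real.sqrt N < Real.sqrt N * Real.sqrt N :=
        mul_lt_mul_of_pos_right h7 hs
    _ = N := hsq

/-- choice of the exponent -/
theorem choose_R (q : ℝ) (h0 : 0 ≤ q) (h1 : q < 1) : ∃ R : ℕ, 1 ≤ R ∧ 4 * (R : ℝ) * q ^ R ≤ 1 := by
  have h := tendsto_self_mul_const_pow_of_lt_one h0 h1
  have h2 : ∀ᶠ n : ℕ in Filter.atTop, (n : ℝ) * q ^ n < 1 / 4 :=
    h.eventually (gt_mem_nhds (by norm_num))
  obtain ⟨R, h3, h4⟩ := (h2.and (Filter.eventually_ge_atTop 1)).exists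
  exact ⟨R, h4, by linarith⟩

/-- the kernel -/
theorem kern (R : ℕ) (w : ℂ) (hw : ‖w‖ = 1) : ((((1 + w.re) / 2) ^ R : ℝ) : ℂ) =
    (4 : ℂ)⁻¹ ^ R * ∑ k ∈ Finset.range (2 * R + 1), w ^ k * (conj w) ^ R * ((2 * R).choose k : ℂ) := by
  have h1 : w * conj w = 1 := by
    rw [Complex.mul_conj', hw]
    simp
  have h2 : (((1 + w.re) / 2 : ℝ) : ℂ) = (4 : ℂ)⁻¹ * ((w + 1) ^ 2 * conj w) := by
    have h3 : (w.re : ℂ) = (w + conj w) / 2 := by
      rw [Complex.add_conj]
      push_cast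
      ring
    push_cast
    rw [h3]
    linear_combination (-(w + 2) / 4) * h1
  rw [Complex.ofReal_pow, h2, mul_pow, mul_pow, ← pow_mul, add_pow, Finset.sum_mul]
  congr 1
  refine Finset.sum_congr rfl fun k _ => ?_
  rw [one_pow]
  ring


section

variable {N : ℕ} [NeZero N] (H : Subgroup (ZMod N)ˣ) [Fintype H] (u : (ZMod N)ˣ)

/-- the points on the circle -/
noncomputable def zz (h : H) : ℂ := ZMod.stdAddChar ((u : ZMod N) * ((h : (ZMod N)ˣ) : ZMod N))

theorem norm_zz (h : H) : ‖zz H u h‖ = 1 := by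
  unfold zz
  rw [ZMod.stdAddChar_apply]
  exact Circle.norm_coe _

theorem normB (e : ℂ) (he : ‖e‖ = 1) (m : ℕ) (hm : 0 < m) :
    ‖∑ h : H, (zz H u h * e) ^ m‖ ≤ Real.sqrt (m * N) := by
  have h1 : ∑ h : H, (zz H u h * e) ^ m = (∑ h : H, (zz H u h) ^ m) * e ^ m := by
    rw [Finset.sum_mul]
    exact Finset.sum_congr rfl fun h _ => mul_pow _ _ _
  rw [h1, norm_mul, norm_pow, he, one_pow, mul_one]
  exact (le_abs_self _).trans (Real.abs_le_sqrt (expsum H u m hm))

theorem normA (e : ℂ) (he : ‖e‖ = 1) (R k : ℕ) (hk : k ≠ R) (hk2 : k ≤ 2 * R) :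
    ‖∑ h : H, (zz H u h * e) ^ k * (conj (zz H u h * e)) ^ R‖ ≤ Real.sqrt (R * N) := by
  have hw : ∀ h : H, (zz H u h * e) * conj (zz H u h * e) = 1 := by
    intro h
    rw [Complex.mul_conj', norm_mul, norm_zz, he]
    simp
  have hmono : ∀ m : ℕ, m ≤ R → Real.sqrt (m * N) ≤ Real.sqrt (R * N) := by
    intro m hm
    refine Real.sqrt_le_sqrt ?_
    exact mul_le_mul_of_nonneg_right (by exact_mod_cast hm) (Nat.cast_nonneg N)
  rcases lt_or_gt_of_ne hk with h1 | h1
  · obtain ⟨m, hm⟩ := Nat.exists_eq_add_of_lt h1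
    have e1 : ∀ h : H, (zz H u h * e) ^ k * (conj (zz H u h * e)) ^ R =
        conj ((zz H u h * e) ^ (m + 1)) := by
      intro h
      have e2 : R = k + (m + 1) := by omega
      rw [e2, pow_add, ← mul_assoc, ← mul_pow, hw, one_pow, one_mul, map_pow]
    simp only [e1]
    rw [← map_sum, RCLike.norm_conj]
    exact (normB H u e he (m + 1) (Nat.succ_pos m)).trans (hmono (m + 1) (by omega))
  · obtain ⟨m, hm⟩ := Nat.exists_eq_add_of_lt h1
    have e1 : ∀ h : H, (zz H u h * e) ^ k * (conj (zz H u h * e)) ^ R =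
        (zz H u h * e) ^ (m + 1) := by
      intro h
      have e2 : k = (m + 1) + R := by omega
      rw [e2, pow_add, mul_assoc, ← mul_pow, hw, one_pow, mul_one]
    simp only [e1]
    exact (normB H u e he (m + 1) (Nat.succ_pos m)).trans (hmono (m + 1) (by omega))

theorem main_ineq (e : ℂ) (he : ‖e‖ = 1) (q : ℝ) (R : ℕ) (hR : 1 ≤ R)
    (hq : 4 * (R : ℝ) * q ^ R ≤ 1)
    (hbad : ∀ h : H, (1 + (zz H u h * e).re) / 2 ≤ q) :
    (Fintype.card H : ℝ) ≤ 4 * R * Real.sqrt (R * N) := by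
  classical
  have hw : ∀ h : H, ‖zz H u h * e‖ = 1 := fun h => by rw [norm_mul, norm_zz, he, one_mul]
  have hR0 : (0 : ℝ) < R := by exact_mod_cast hR
  obtain ⟨S, hS⟩ : ∃ S : ℝ, S = ∑ h : H, ((1 + (zz H u h * e).re) / 2) ^ R := ⟨_, rfl⟩
  have hS1 : S ≤ Fintype.card H * q ^ R := by
    rw [hS]
    refine (Finset.sum_le_sum fun h _ => pow_le_pow_left₀ ?_ (hbad h) R).trans (le_of_eq ?_)
    · have h1 := Complex.abs_re_le_norm (zz H u h * e)
      rw [hw h] at h1
      have h2 := (abs_le.1 h1).1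
      linarith
    · rw [Finset.sum_const, Finset.card_univ, nsmul_eq_mul]
  obtain ⟨A, hA⟩ : ∃ A : ℕ → ℂ, A = fun k => ∑ h : H, (zz H u h * e) ^ k *
      (conj (zz H u h * e)) ^ R := ⟨_, rfl⟩
  have hS2 : (S : ℂ) = (4 : ℂ)⁻¹ ^ R * ∑ k ∈ Finset.range (2 * R + 1),
      ((2 * R).choose k : ℂ) * A k := by
    rw [hS, Complex.ofReal_sum]
    simp only [kern R _ (hw _)]
    rw [← Finset.mul_sum, Finset.sum_comm]
    congr 1
    refine Finset.sum_congr rfl fun k _ => ?_
    rw [hA, Finset.mul_sum]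
    refine Finset.sum_congr rfl fun h _ => ?_
    ring
  have hAR : A R = Fintype.card H := by
    rw [hA]
    have e1 : ∀ h : H, (zz H u h * e) ^ R * (conj (zz H u h * e)) ^ R = 1 := by
      intro h
      rw [← mul_pow, Complex.mul_conj', hw h]
      simp
    simp only [e1, Finset.sum_const, Finset.card_univ, nsmul_eq_mul, mul_one]
  have hRm : R ∈ Finset.range (2 * R + 1) := by
    rw [Finset.mem_range]
    omega
  rw [← Finset.add_sum_erase _ _ hRm, mul_add, hAR] at hS2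
  have hB : ‖(4 : ℂ)⁻¹ ^ R * ∑ k ∈ (Finset.range (2 * R + 1)).erase R,
      ((2 * R).choose k : ℂ) * A k‖ ≤ Real.sqrt (R * N) := by
    rw [norm_mul, norm_pow, norm_inv]
    have h4 : ‖(4 : ℂ)‖ = 4 := by simp
    rw [h4]
    have h5 : ‖∑ k ∈ (Finset.range (2 * R + 1)).erase R, ((2 * R).choose k : ℂ) * A k‖ ≤
        (4 : ℝ) ^ R * Real.sqrt (R * N) := by
      refine (norm_sum_le _ _).trans ?_
      have h6 : ∀ k ∈ (Finset.range (2 * R + 1)).erase R, ‖((2 * R).choose k : ℂ) * A k‖ ≤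
          ((2 * R).choose k : ℝ) * Real.sqrt (R * N) := by
        intro k hk
        rw [Finset.mem_erase, Finset.mem_range] at hk
        rw [norm_mul, Complex.norm_natCast, hA]
        exact mul_le_mul_of_nonneg_left (normA H u e he R k hk.1 (by omega)) (Nat.cast_nonneg _)
      refine (Finset.sum_le_sum h6).trans ?_
      rw [← Finset.sum_mul]
      refine mul_le_mul_of_nonneg_right ?_ (Real.sqrt_nonneg _)
      refine (Finset.sum_le_sum_of_subset_of_nonneg (Finset.erase_subset _ _)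
        fun _ _ _ => Nat.cast_nonneg _).trans (le_of_eq ?_)
      rw [← Nat.cast_sum, Nat.sum_range_choose, pow_mul]
      norm_num
    calc (4 : ℝ)⁻¹ ^ R * ‖∑ k ∈ (Finset.range (2 * R + 1)).erase R,
          ((2 * R).choose k : ℂ) * A k‖ ≤ (4 : ℝ)⁻¹ ^ R * ((4 : ℝ) ^ R * Real.sqrt (R * N)) :=
          mul_le_mul_of_nonneg_left h5 (by positivity)
      _ = Real.sqrt (R * N) := by
          rw [← mul_assoc, ← mul_pow, inv_mul_cancel₀ (by norm_num), one_pow, one_mul]
  have hre : S = (4 : ℝ)⁻¹ ^ R * (((2 * R).choose R : ℝ) * Fintype.card H) +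
      ((4 : ℂ)⁻¹ ^ R * ∑ k ∈ (Finset.range (2 * R + 1)).erase R,
      ((2 * R).choose k : ℂ) * A k).re := by
    have h7 := congrArg Complex.re hS2
    rw [Complex.ofReal_re, Complex.add_re] at h7
    rw [h7]
    congr 1
    have h8 : (4 : ℂ)⁻¹ ^ R * (((2 * R).choose R : ℂ) * (Fintype.card H : ℂ)) =
        (((4 : ℝ)⁻¹ ^ R * (((2 * R).choose R : ℝ) * Fintype.card H) : ℝ) : ℂ) := by
      push_cast
      rfl
    rw [h8, Complex.ofReal_re]
  have hlow : (4 : ℝ)⁻¹ ^ R * (((2 * R).choose R : ℝ) * Fintype.card H) - Real.sqrt (R * N) ≤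
      S := by
    have h9 := (abs_le.1 ((Complex.abs_re_le_norm _).trans hB)).1
    rw [hre]
    linarith
  have hcb : (1 : ℝ) / (2 * R) ≤ (4 : ℝ)⁻¹ ^ R * ((2 * R).choose R : ℝ) := by
    have h10 : 4 ^ R ≤ 2 * R * Nat.centralBinom R :=
      Nat.four_pow_le_two_mul_self_mul_centralBinom R hR
    rw [Nat.centralBinom_eq_two_mul_choose] at h10
    have h11 : (4 : ℝ) ^ R ≤ 2 * R * ((2 * R).choose R : ℝ) := by exact_mod_cast h10
    rw [div_le_iff₀ (by positivity), inv_pow]
    have h12 : (0 : ℝ) < 4 ^ R := by positivity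
    rw [mul_assoc, ← div_eq_inv_mul, le_div_iff₀ h12, one_mul]
    linarith
  have hq' : q ^ R ≤ 1 / (4 * R) := by
    rw [le_div_iff₀ (by positivity)]
    linarith
  have hc0 : (0 : ℝ) ≤ Fintype.card H := Nat.cast_nonneg _
  have h13 : (1 : ℝ) / (2 * R) * Fintype.card H - Real.sqrt (R * N) ≤
      Fintype.card H * (1 / (4 * R)) := by
    have h14 := mul_le_mul_of_nonneg_right hcb hc0
    have h15 := mul_le_mul_of_nonneg_left hq' hc0
    rw [mul_assoc] at h14
    linarith
  have h16 : (Fintype.card H : ℝ) * (1 / (4 * R)) ≤ Real.sqrt (R * N) := by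
    have h17 : (1 : ℝ) / (2 * R) * Fintype.card H = 2 * (Fintype.card H * (1 / (4 * R))) := by
      field_simp
      ring
    rw [h17] at h13
    linarith
  have h18 := mul_le_mul_of_nonneg_left h16 (by positivity : (0 : ℝ) ≤ 4 * R)
  have h19 : 4 * (R : ℝ) * (Fintype.card H * (1 / (4 * R))) = Fintype.card H := by
    field_simp
  linarith

end

end Pool.Agent.N76.RG.EqdP

namespace Pool.Agent.N76.RG

open scoped Real ComplexConjugate
open EqdP

theorem eqd : S_EQD := by
  intro d α δ hδ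
  obtain ⟨δ', hδ'⟩ : ∃ δ' : ℝ, δ' = min δ 1 := ⟨_, rfl⟩
  have hd0 : 0 < δ' := by rw [hδ']; exact lt_min hδ one_pos
  have hd1 : δ' ≤ 1 := by rw [hδ']; exact min_le_right _ _
  have hd2 : δ' ≤ δ := by rw [hδ']; exact min_le_left _ _
  have hpi := Real.pi_gt_three
  have hcos : Real.cos δ' < 1 := by
    have := Real.cos_lt_cos_of_nonneg_of_le_pi le_rfl (by linarith : δ' ≤ π) hd0
    rwa [Real.cos_zero] at this
  have hcos2 := Real.neg_one_le_cos δ'
  obtain ⟨R, hR, hq⟩ := choose_R ((1 + Real.cos δ') / 2) (by linarith) (by linarith)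
  obtain ⟨N₀, hN₀⟩ := large (8 * d * R * Real.sqrt R) (by positivity)
  refine ⟨N₀, fun N hN H htot u => ?_⟩
  obtain ⟨hN1, hN2⟩ := hN₀ N hN
  have hne : NeZero N := ⟨by omega⟩
  by_contra hno
  push Not at hno
  have : Fintype H := Fintype.ofFinite H
  have hN0 : (0 : ℝ) < N := by exact_mod_cast hN1
  have hbad : ∀ h : H, (1 + (zz H u h * Complex.exp (((-α : ℝ) : ℂ) * Complex.I)).re) / 2 ≤
      (1 + Real.cos δ') / 2 := by
    intro h
    obtain ⟨c, hc⟩ : ∃ c : ZMod N, c = (u : ZMod N) * ((h : (ZMod N)ˣ) : ZMod N) := ⟨_, rfl⟩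
    obtain ⟨t, ht⟩ : ∃ t : ℝ, t = 2 * π * (c.val : ℝ) / N - α := ⟨_, rfl⟩
    obtain ⟨j, hj⟩ : ∃ j : ℤ, j = (c.val : ℤ) - N * round (t / (2 * π)) := ⟨_, rfl⟩
    have hjc : (j : ZMod N) = c := by
      rw [hj]
      push_cast
      rw [ZMod.natCast_self, zero_mul, sub_zero, ZMod.natCast_zmod_val]
    have hs : 2 * π * (j : ℝ) / N - α = t - 2 * π * round (t / (2 * π)) := by
      rw [hj, ht]
      push_cast
      field_simp
      ring
    have hs2 : |2 * π * (j : ℝ) / N - α| ≤ π := by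
      rw [hs]
      have h1 := abs_sub_round (t / (2 * π))
      have h2 : t - 2 * π * round (t / (2 * π)) =
          2 * π * (t / (2 * π) - round (t / (2 * π))) := by
        field_simp
      rw [h2, abs_mul, abs_of_pos (by positivity : (0 : ℝ) < 2 * π)]
      have h3 := mul_le_mul_of_nonneg_left h1 (by positivity : (0 : ℝ) ≤ 2 * π)
      linarith
    have hs3 : δ' ≤ |2 * π * (j : ℝ) / N - α| :=
      hd2.trans (hno (h : (ZMod N)ˣ) h.2 j (by rw [hjc, hc]))
    have hz : zz H u h * Complex.exp (((-α : ℝ) : ℂ) * Complex.I) =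
        Complex.exp (((2 * π * (j : ℝ) / N - α : ℝ) : ℂ) * Complex.I) := by
      unfold zz
      rw [← hc, ← hjc, ZMod.stdAddChar_coe, ← Complex.exp_add]
      congr 1
      push_cast
      ring
    rw [hz, Complex.exp_ofReal_mul_I_re, ← Real.cos_abs]
    have h4 := Real.cos_le_cos_of_nonneg_of_le_pi hd0.le hs2 hs3
    linarith
  have hfin := main_ineq H u (Complex.exp (((-α : ℝ) : ℂ) * Complex.I))
    (Complex.norm_exp_ofReal_mul_I _) _ R hR hq hbad
  have hlog : 0 ≤ Real.log N := Real.log_natCast_nonneg N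
  have h1 := tot_lower N hN1
  have h2 : (N.totient : ℝ) ≤ d * Fintype.card H := by
    rw [Nat.card_eq_fintype_card] at htot
    exact_mod_cast htot
  have h3 : (N : ℝ) ≤ 2 * (1 + Real.log N) * (d * (4 * R * Real.sqrt (R * N))) := by
    refine h1.trans (mul_le_mul_of_nonneg_left ?_ (by positivity))
    exact h2.trans (mul_le_mul_of_nonneg_left hfin (Nat.cast_nonneg d))
  rw [Real.sqrt_mul (Nat.cast_nonneg R)] at h3
  have h4 : 2 * (1 + Real.log N) * (d * (4 * R * (Real.sqrt R * Real.sqrt N))) =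
      8 * d * R * Real.sqrt R * (1 + Real.log N) * Real.sqrt N := by ring
  rw [h4] at h3
  linarith

end Pool.Agent.N76.RG
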