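import Pool.Agent.N76.RG.Fin5

set_option autoImplicit false

/-!
# Independence over `ℝ` of the regulators of special points of all large levels: descent to `L` and the loops
-/

namespace Pool.Agent.N76.RG

open Polynomial IntermediateField Module MeasureTheory Set
open Pool.Agent.TH826.MK (KQ Torus symb)
open Pool.Agent.TH826.HD (PRing POpen pent toP pcst pDel)
open Pool.Agent.N76.EC
open scoped Real

/-- **The vectors of the regulators are linearly independent over `ℝ`.** -/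
theorem gen_indep.{u, v} (hNSQ : S_NSQG.{u, v}) (hSPG : S_SPG.{u, v}) (hWIN : S_WIN)
    (K : Type u) [Field K] [NumberField K] (F : K[X]) (hF1 : F.Monic) (hdeg : F.natDegree = 2)
    (hF : ∀ i, IsIntegral ℤ (F.coeff i)) (hsq : Squarefree (F ^ 2 - 4)) (σ : K →+* ℂ)
    {η φ₀ ε : ℝ} {B : Fin 2 → ℂ → ℂ} {X : Fin 2 → ℝ → ℂ} (S : Sys (F.map σ) 2 η φ₀ ε B X) :
    ∃ (l : Fin 2) (k₀ : ℕ), 3 ≤ k₀ ∧ ∀ (L : Type v) [Field L] [NumberField L] [Algebra K L] (r : ℕ)
      (b : Fin (r + 1) → L) (k : Fin (r + 1) → ℕ),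
      (∀ i, k₀ ≤ k i ∧ (Chebyshev.C L (k i)).eval ((F.map (algebraMap K L)).eval (b i)) = 2 ∧
        ∀ m : ℕ, 0 < m → m < k i → (Chebyshev.C L m).eval ((F.map (algebraMap K L)).eval (b i)) ≠ 2) →
      (∀ i j, i ≠ j → (F.map (algebraMap K L)).eval (b i) ≠ (F.map (algebraMap K L)).eval (b j) ∧
        (F.coeff 1 ^ 2 = 4 * F.coeff 0 →
          (F.map (algebraMap K L)).eval (b i) ≠ -(F.map (algebraMap K L)).eval (b j))) →
      ∀ (a : Fin (r + 1) → ℝ) (a' : ℝ), (∀ s : Em L σ, ∑ i, a i * P (X l) (Zp η) (s.1 (b i)) +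
        a' * P (X l) (Zp η) (s.1 (-algebraMap K L (F.coeff 1) - b 0)) = 0) →
        ∀ i, a i = if i = 0 then a' else 0 := by
  classical
  obtain ⟨l, k₀, hk₀, hmain⟩ := gen_core hNSQ hSPG hWIN K F hF1 hdeg hF hsq σ S
  refine ⟨l, k₀, hk₀, fun L _ _ _ r b k hb hbne a a' ha => ?_⟩
  have hk0 : ∀ i, 0 < k i := fun i => by
    have := (hb i).1
    omega
  obtain ⟨⟨s₁, hs₁⟩⟩ := Em_nonempty L σ
  set N : ℕ := ∏ i, k i with hN
  have hN0 : 0 < N := Finset.prod_pos fun i _ => hk0 i
  have hkN : ∀ i, k i ∣ N := fun i => Finset.dvd_prod_of_mem k (Finset.mem_univ i)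
  obtain ⟨E, iF, iN, ι, T, ζ, hT, hζ⟩ := nsq_ext L s₁ N hN0.ne'
  let _ : Algebra K E := (ι.comp (algebraMap K L)).toAlgebra
  have hKE : algebraMap K E = ι.comp (algebraMap K L) := rfl
  have hζp : IsPrimitiveRoot ζ N := by
    refine IsPrimitiveRoot.of_map_of_injective (f := T) ?_ T.injective
    rw [hζ]
    exact Complex.isPrimitiveRoot_exp N hN0.ne'
  have hFE : F.map (algebraMap K E) = (F.map (algebraMap K L)).map ι := by
    rw [hKE, Polynomial.map_map]
  have hev : ∀ y : L, (F.map (algebraMap K E)).eval (ι y) = ι ((F.map (algebraMap K L)).eval y) := by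
    intro y
    rw [hFE, eval_map ι, eval₂_hom]
  -- the roots of unity
  choose u hu1 hu2 using fun i => exact_angle s₁ (hk0 i) (hb i).2.1 (hb i).2.2
  have hTe : ∀ i, T (ζ ^ (u i * (N / k i))) = Complex.exp ((2 * π * u i / (k i : ℂ)) * Complex.I) := by
    intro i
    rw [map_pow, hζ, ← Complex.exp_nat_mul]
    congr 1
    obtain ⟨q, hq⟩ := hkN i
    have hq0 : 0 < q := by
      rcases Nat.eq_zero_or_pos q with h | h
      · rw [h, mul_zero] at hq
        omega
      · exact h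
    rw [hq, Nat.mul_div_cancel_left _ (hk0 i)]
    have h1 : (k i : ℂ) ≠ 0 := Nat.cast_ne_zero.2 (hk0 i).ne'
    have h2 : (q : ℂ) ≠ 0 := Nat.cast_ne_zero.2 hq0.ne'
    push_cast
    field_simp
  have hprim : ∀ i, IsPrimitiveRoot (ζ ^ (u i * (N / k i))) (k i) := by
    intro i
    obtain ⟨q, hq⟩ := hkN i
    have hq0 : 0 < q := by
      rcases Nat.eq_zero_or_pos q with h | h
      · rw [h, mul_zero] at hq
        omega
      · exact h
    have h1 : N / k i = q := by rw [hq, Nat.mul_div_cancel_left _ (hk0 i)]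
    rw [h1, mul_comm, pow_mul]
    exact (hζp.pow hN0 (by rw [hq, mul_comm])).pow_of_coprime _ (hu1 i)
  have hval : ∀ i, (F.map (algebraMap K E)).eval (ι (b i)) =
      ζ ^ (u i * (N / k i)) + (ζ ^ (u i * (N / k i)))⁻¹ := by
    intro i
    apply T.injective
    rw [hev, hT, hu2, map_add, map_inv₀, hTe, ← Complex.exp_neg, Complex.cos, mul_div_cancel₀ _ two_ne_zero, neg_mul]
  refine hmain E N ζ hN0 hζp r (fun i => ι (b i)) k (fun i => ζ ^ (u i * (N / k i)))
    (fun i => ⟨(hb i).1, hkN i, hprim i, hval i⟩) (fun i j hij => ⟨fun h => (hbne i j hij).1 ?_, fun h0 h =>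
      (hbne i j hij).2 h0 ?_⟩) a a' (fun s => ?_)
  · rw [hev, hev] at h
    exact ι.injective h
  · rw [hev, hev, ← map_neg] at h
    exact ι.injective h
  · have h1 : (s.1.comp ι).comp (algebraMap K L) = σ := by
      rw [RingHom.comp_assoc]
      exact s.2
    have h2 := ha ⟨s.1.comp ι, h1⟩
    have h3 : -algebraMap K E (F.coeff 1) - ι (b 0) = ι (-algebraMap K L (F.coeff 1) - b 0) := by
      rw [map_sub, map_neg]
      rfl
    rw [h3]
    exact h2

/-- **Special points of all large levels.** -/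
theorem strong_gen.{u, v, w} (hNSQ : S_NSQG.{u, v}) (hSPG : S_SPG.{u, v}) (hWIN : S_WIN) (hDET : S_DET.{v})
    (K : Type u) [Field K] [NumberField K] (F : K[X]) (hF1 : F.Monic) (hdeg : F.natDegree = 2)
    (hF : ∀ i, IsIntegral ℤ (F.coeff i)) (hsq : Squarefree (F ^ 2 - 4)) (σ : K →+* ℂ) :
    ∃ k₀ : ℕ, ∀ (L : Type v) [Field L] [NumberField L] [Algebra K L] (r : ℕ) (b : Fin (r + 1) → L)
      (k : Fin (r + 1) → ℕ),
      (∀ i, k₀ ≤ k i ∧ (Chebyshev.C L (k i)).eval ((F.map (algebraMap K L)).eval (b i)) = 2 ∧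
        ∀ m : ℕ, 0 < m → m < k i → (Chebyshev.C L m).eval ((F.map (algebraMap K L)).eval (b i)) ≠ 2) →
      (∀ i j, i ≠ j → (F.map (algebraMap K L)).eval (b i) ≠ (F.map (algebraMap K L)).eval (b j) ∧
        (F.coeff 1 ^ 2 = 4 * F.coeff 0 →
          (F.map (algebraMap K L)).eval (b i) ≠ -(F.map (algebraMap K L)).eval (b j))) →
      ∀ b' : L, b' = -algebraMap K L (F.coeff 1) - b 0 →
      b' ≠ b 0 ∧ (F.map (algebraMap K L)).eval b' = (F.map (algebraMap K L)).eval (b 0) ∧
      (∃ N : ℕ, 0 < N ∧ ∀ i, (Fin.cons b' b : Fin (r + 2) → L) i ∈ Sp F L N) ∧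
      (∀ (M : Type w) [Field M] [Algebra (PRing (F.map (algebraMap K L))) M]
        [IsFractionRing (PRing (F.map (algebraMap K L))) M]
        (f : POpen (F.map (algebraMap K L)) (Fin.cons b' b : Fin (r + 2) → L) →+* M)
        (_ : ∀ a : PRing (F.map (algebraMap K L)),
          f (toP (F.map (algebraMap K L)) (Fin.cons b' b : Fin (r + 2) → L) a) = algebraMap _ M a),
        LinearIndependent ℚ fun i : Fin (r + 1) =>
          KQ.map 2 f (symb (pent (F.map (algebraMap K L)) (Fin.cons b' b : Fin (r + 2) → L) i.succ 0))) ∧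
      ∃ (s : Fin (r + 1) → (L →+* ℂ))
        (Γ : Fin (r + 1) → Torus (POpen (F.map (algebraMap K L)) (Fin.cons b' b : Fin (r + 2) → L)) 1),
        Function.Injective s ∧ (∀ i, (s i).comp (algebraMap K L) = σ) ∧
        (∀ i t (y : L), (Γ i).e t (pcst (F.map (algebraMap K L)) (Fin.cons b' b : Fin (r + 2) → L) y) = s i y) ∧
        (Matrix.of fun i j : Fin (r + 1) => (Γ i).reg
          (symb (pent (F.map (algebraMap K L)) (Fin.cons b' b : Fin (r + 2) → L) j.succ 0))).det ≠ 0 := by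
  classical
  obtain ⟨η, φ₀, ε, B, X, S⟩ := exists_sys (hF1.map σ) two_pos (by rw [hF1.natDegree_map, hdeg])
    (Pool.Agent.N76.EC.not_crit' hsq σ (by norm_num)) (Pool.Agent.N76.EC.not_crit' hsq σ (by norm_num))
  obtain ⟨l, k₀, hk₀, hmain⟩ := gen_indep hNSQ hSPG hWIN K F hF1 hdeg hF hsq σ S
  refine ⟨k₀, fun L _ _ _ r b k hb hbne b' hb' => ?_⟩
  obtain ⟨⟨s₁, hs₁⟩⟩ := Em_nonempty L σ
  have hk3 : ∀ i, 3 ≤ k i := fun i => hk₀.trans (hb i).1
  have hk0 : ∀ i, 0 < k i := fun i => by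
    have := hk3 i
    omega
  set N : ℕ := ∏ i, k i with hN
  have hN0 : 0 < N := Finset.prod_pos fun i _ => hk0 i
  have hkN : ∀ i, k i ∣ N := fun i => Finset.dvd_prod_of_mem k (Finset.mem_univ i)
  have hb'F : (F.map (algebraMap K L)).eval b' = (F.map (algebraMap K L)).eval (b 0) := by
    rw [eval_quad (hF1.map _) (by rw [hF1.natDegree_map, hdeg]), eval_quad (hF1.map _)
      (by rw [hF1.natDegree_map, hdeg]), coeff_map, coeff_map, hb']
    ring
  have hb'ne : b' ≠ b 0 := by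
    intro h
    have h1 := hmain L r b k hb hbne (Pi.single 0 1) (-1) (fun s => by
      rw [Finset.sum_eq_single 0, Pi.single_eq_same, ← hb', h]
      · ring
      · intro j _ hj
        rw [Pi.single_eq_of_ne hj, zero_mul]
      · intro h
        exact absurd (Finset.mem_univ _) h) 0
    rw [Pi.single_eq_same, if_pos rfl] at h1
    norm_num at h1
  have hSp0 : ∀ i, b i ∈ Sp F L N := by
    intro i
    obtain ⟨u, hu⟩ := special_angle s₁ (hk0 i) (hb i).2.1
    obtain ⟨q, hq⟩ := hkN i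
    have hq0 : 0 < q := by
      rcases Nat.eq_zero_or_pos q with h | h
      · rw [h, mul_zero] at hq
        omega
      · exact h
    refine ⟨angle_special s₁ hN0 (u := u * q) ?_, fun h => ?_⟩
    · rw [hu, hq]
      congr 2
      have h1 : (k i : ℂ) ≠ 0 := Nat.cast_ne_zero.2 (hk0 i).ne'
      have h2 : (q : ℂ) ≠ 0 := Nat.cast_ne_zero.2 hq0.ne'
      push_cast
      field_simp
    · have h3 : ((F.map (algebraMap K L)).eval (b i) - 2) * ((F.map (algebraMap K L)).eval (b i) + 2) = 0 := by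
        linear_combination h
      have h4 := hk3 i
      rcases mul_eq_zero.1 h3 with h5 | h5
      · refine (hb i).2.2 1 one_pos (by omega) ?_
        rw [sub_eq_zero.1 h5]
        exact Chebyshev.C_eval_two L 1
      · refine (hb i).2.2 2 two_pos (by omega) ?_
        rw [eq_neg_of_add_eq_zero_left h5]
        norm_num
  have hSp : ∀ i, (Fin.cons b' b : Fin (r + 2) → L) i ∈ Sp F L N := by
    intro i
    refine Fin.cases ?_ (fun i => ?_) i
    · rw [Fin.cons_zero]
      have h1 := hSp0 0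
      refine ⟨?_, ?_⟩
      · rw [hb'F]
        exact h1.1
      · rw [hb'F]
        exact h1.2
    · rw [Fin.cons_succ]
      exact hSp0 i
  have hKL : FiniteDimensional K L := FiniteDimensional.right ℚ K L
  -- the vectors
  have hind : LinearIndependent ℝ fun (i : Fin (r + 1)) (s : Em L σ) =>
      P (X l) (Zp η) (s.1 ((Fin.cons b' b : Fin (r + 2) → L) i.succ)) -
        P (X l) (Zp η) (s.1 ((Fin.cons b' b : Fin (r + 2) → L) 0)) := by
    simp only [Fin.cons_succ, Fin.cons_zero]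
    rw [Fintype.linearIndependent_iff]
    intro c hc
    have h1 := hmain L r b k hb hbne c (-∑ i, c i) (fun s => by
      have h2 := congrFun hc s
      rw [Finset.sum_apply] at h2
      simp only [Pi.smul_apply, smul_eq_mul, Pi.zero_apply, mul_sub, Finset.sum_sub_distrib] at h2
      rw [← Finset.sum_mul] at h2
      rw [← hb']
      linarith)
    have h2 : ∑ i, c i = c 0 := by
      refine Finset.sum_eq_single 0 (fun j _ hj => ?_) (fun h => absurd (Finset.mem_univ _) h)
      rw [h1 j, if_neg hj]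
    have h3 := h1 0
    rw [if_pos rfl, h2] at h3
    intro i
    by_cases hi : i = 0
    · rw [hi]
      linarith
    · rw [h1 i, if_neg hi]
  have hindQ : LinearIndependent ℚ fun i : Fin (r + 1) =>
      vv σ X η ((Fin.cons b' b : Fin (r + 2) → L) i.succ) - vv σ X η ((Fin.cons b' b : Fin (r + 2) → L) 0) := by
    have h1 : LinearIndependent ℚ fun (i : Fin (r + 1)) (s : Em L σ) =>
        P (X l) (Zp η) (s.1 ((Fin.cons b' b : Fin (r + 2) → L) i.succ)) -
          P (X l) (Zp η) (s.1 ((Fin.cons b' b : Fin (r + 2) → L) 0)) := by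
      refine hind.restrict_scalars ?_
      intro a b hab
      simpa using hab
    exact LinearIndependent.of_comp (LinearMap.funLeft ℚ ℝ fun s : Em L σ => ((s, l) : Em L σ × Fin 2)) h1
  refine ⟨hb'ne, hb'F, ⟨N, hN0, hSp⟩, fun M _ _ _ f hf => S.classes_independent hN0 hSp hindQ M f hf, ?_⟩
  have hfin : Finite (Em L σ) := inferInstance
  obtain ⟨e, he, hdet⟩ := hDET (Em L σ) (r + 1) _ hind
  choose Γ hΓ1 hΓ2 using fun i : Fin (r + 1) => exists_loop' S (e i) hN0 _ hSp l
  refine ⟨fun i => (e i).1, Γ, fun i j hij => he (Subtype.ext hij), fun i => (e i).2, hΓ1, ?_⟩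
  have h1 : (Matrix.of fun i j : Fin (r + 1) => (Γ i).reg
      (symb (pent (F.map (algebraMap K L)) (Fin.cons b' b : Fin (r + 2) → L) j.succ 0))) =
      Matrix.of fun i j : Fin (r + 1) => P (X l) (Zp η) ((e i).1 ((Fin.cons b' b : Fin (r + 2) → L) j.succ)) -
        P (X l) (Zp η) ((e i).1 ((Fin.cons b' b : Fin (r + 2) → L) 0)) := by
    ext i j
    rw [Matrix.of_apply, Matrix.of_apply, hΓ2]
  rw [h1]
  exact hdet

end Pool.Agent.N76.RG
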