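import Pool.Agent.N76.RG.Stm3
import Pool.Agent.Helper781.CycHouse.House
import Pool.Agent.N695.CY.Sparse

set_option autoImplicit false

/-!
# Loxton's theorem for integral elements of `ℚ(ζ)` with bounded conjugates
-/

namespace Pool.Agent.N76.RG

open Polynomial IntermediateField Module
open Pool.Agent.Helper781.CycHouse

theorem loxq.{v} : S_LOXQ.{v} := by
  classical
  intro B
  obtain ⟨k, hk⟩ := exists_nat_ge (2 * B ^ 2)
  obtain ⟨L, hL⟩ := loxton k
  refine ⟨L, ?_⟩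
  intro N hN E _ _ ζ hζ y hy hyi hB S
  have hζ' : IsPrimitiveRoot (S ζ) N := hζ.map_of_injective S.injective
  have hmem : S y ∈ IntermediateField.adjoin ℚ {S ζ} := by
    have h1 : S.toRatAlgHom y ∈ (ℚ⟮ζ⟯).map S.toRatAlgHom := ⟨y, hy, rfl⟩
    rw [IntermediateField.adjoin_map, Set.image_singleton] at h1
    exact h1
  have hint : IsIntegral ℤ (S y) := hyi.map S.toIntAlgHom
  obtain ⟨f, hf⟩ := int_of_field hN hζ' (S y) hint hmem
  have hyf : y = aeval ζ f := by
    apply S.injective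
    rw [← hf]
    exact (map_aeval_int S ζ f).symm
  have hz : ∀ z : ℂ, IsPrimitiveRoot z N → ‖aeval z f‖ ≤ B := by
    intro z hz
    have h1 : z ∈ (minpoly ℚ ζ).rootSet ℂ := by
      rw [mem_rootSet, ← cyclotomic_eq_minpoly_rat hζ hN]
      refine ⟨cyclotomic_ne_zero N ℚ, ?_⟩
      rw [cyclotomic_eq_minpoly_rat hz hN]
      exact minpoly.aeval ℚ z
    rw [← Algebra.IsAlgebraic.range_eval_eq_rootSet_minpoly ℂ ζ] at h1
    obtain ⟨τ, hτ⟩ := h1
    have hτ' : τ ζ = z := hτ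
    have h2 := hB (τ : E →+* ℂ)
    rw [hyf] at h2
    have h3 : (τ : E →+* ℂ) (aeval ζ f) = aeval ((τ : E →+* ℂ) ζ) f :=
      map_aeval_int (τ : E →+* ℂ) ζ f
    rw [h3] at h2
    have h4 : (τ : E →+* ℂ) ζ = z := hτ'
    rwa [h4] at h2
  have hmean : mean N f ≤ (k : ℝ) / 2 := by
    have := mean_le_sq hN f hz
    linarith
  obtain ⟨s, hs1, hs2, hs3⟩ := hL N hN f hmean (S ζ) hζ'
  obtain ⟨A, w, -, hw, hsum⟩ := Pool.Agent.N695.CY.len_fin L s hs1 hs2
  refine ⟨fun i => if i ∈ A then w i else 0, fun i => ?_, ?_⟩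
  · change RU (if i ∈ A then w i else 0)
    by_cases hi : i ∈ A
    · rw [if_pos hi]; exact Or.inr (hw i)
    · rw [if_neg hi]; exact Or.inl rfl
  · rw [← hf, ← hs3, ← hsum, Finset.sum_ite_mem, Finset.univ_inter]

end Pool.Agent.N76.RG
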