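import Pool.Agent.N76.RG.Stm3

set_option autoImplicit false

/-!
# RG/NSQG (helper247, project RG of helper76): independence of the quadratic extensions, all levels

From TRC (traces), LOXQ (Loxton's theorem) and TOR (torsion points).
-/

namespace Pool.Agent.N76.RG

open Polynomial IntermediateField Module
open scoped Real

namespace NsqG

/-- Loxton's theorem over a number field -/
private lemma loxk.{u, v} (h1 : S_TRC.{u, v}) (h2 : S_LOXQ.{v}) (K : Type u) [Field K] [NumberField K]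
    (σ : K →+* ℂ) (B : ℝ) : ∃ (M : ℕ) (θ : Fin M → ℂ), ∀ (N : ℕ), 0 < N →
      ∀ (E : Type v) [Field E] [NumberField E] [Algebra K E] (ζ : E), IsPrimitiveRoot ζ N →
      ∀ S : E →+* ℂ, S.comp (algebraMap K E) = σ → ∀ y ∈ K⟮ζ⟯, IsIntegral ℤ y →
      (∀ τ : E →+* ℂ, ‖τ y‖ ≤ B) → ∃ z : Fin M → ℂ, (∀ i, RU (z i)) ∧ S y = ∑ i, θ i * z i := by
  obtain ⟨m, θ', C, hT⟩ := h1 K σ
  obtain ⟨M', hL⟩ := h2 (C * B)
  refine ⟨m * M', fun i => θ' (finProdFinEquiv.symm i).1,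
    fun N hN E _ _ _ ζ hζ S hS y hy hyi hyB => ?_⟩
  obtain ⟨x, hx1, hx2, hx3, hx4⟩ := hT N hN E ζ hζ S hS y hy hyi B hyB
  have h5 : ∀ j, ∃ z : Fin M' → ℂ, (∀ i, RU (z i)) ∧ S (x j) = ∑ i, z i := fun j =>
    hL N hN E ζ hζ (x j) (hx1 j) (hx2 j) (hx3 j) S
  choose z hz1 hz2 using h5
  refine ⟨fun i => z (finProdFinEquiv.symm i).1 (finProdFinEquiv.symm i).2, fun i => hz1 _ _, ?_⟩
  rw [hx4, Equiv.sum_comp finProdFinEquiv.symm (fun p : Fin m × Fin M' => θ' p.1 * z p.1 p.2),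
    Fintype.sum_prod_type]
  refine Finset.sum_congr rfl fun j _ => ?_
  rw [hz2, Finset.mul_sum]

/-- roots of unity of large order avoid a finite set, and so do their squares -/
private lemma avoid (Z : Set ℂ) (hZ : Z.Finite) : ∃ N₁ : ℕ, ∀ (n : ℕ) (ζ : ℂ), IsPrimitiveRoot ζ n →
    N₁ ≤ n → ζ ∉ Z ∧ ζ ^ 2 ∉ Z := by
  obtain ⟨A, hA⟩ := (hZ.image orderOf).bddAbove
  refine ⟨2 * A + 1, fun n ζ hζ hn => ⟨fun h => ?_, fun h => ?_⟩⟩
  · have h1 : orderOf ζ ≤ A := hA ⟨ζ, h, rfl⟩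
    rw [← hζ.eq_orderOf] at h1
    omega
  · have h1 : orderOf (ζ ^ 2) ≤ A := hA ⟨ζ ^ 2, h, rfl⟩
    have h2 : ζ ^ (2 * orderOf (ζ ^ 2)) = 1 := by rw [pow_mul, pow_orderOf_eq_one]
    have h3 := hζ.dvd_of_pow_eq_one _ h2
    have h4 : 0 < orderOf (ζ ^ 2) := by
      rw [orderOf_pos_iff, isOfFinOrder_iff_pow_eq_one]
      exact ⟨n, by omega, by rw [← pow_mul, mul_comm, pow_mul, hζ.pow_eq_one, one_pow]⟩
    have := Nat.le_of_dvd (by omega) h3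
    omega

private lemma facts {K E : Type*} [Field K] [NumberField K] [Field E] [NumberField E] [Algebra K E] (w : K)
    (hw4 : IsIntegral ℤ (4 * w)) (M : ℝ) (hM : ∀ t : K →+* ℂ, ‖t w‖ ≤ M) (n : ℕ) (hn : 0 < n) (η d : E)
    (hη : IsPrimitiveRoot η n) (hd : d ^ 2 = 4 * (η + η⁻¹ - algebraMap K E w)) :
    IsIntegral ℤ d ∧ (∀ τ : E →+* ℂ, ‖τ d‖ ^ 2 ≤ 4 * (2 + M)) ∧
    (∀ S : E →+* ℂ, (S d / 2) ^ 2 = S η + (S η)⁻¹ - S (algebraMap K E w)) := by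
  have hwint : IsIntegral ℤ (4 * algebraMap K E w) := by
    have h3 := hw4.map (algebraMap K E).toIntAlgHom
    have h4 : (algebraMap K E).toIntAlgHom (4 * w) = 4 * algebraMap K E w := by
      show algebraMap K E (4 * w) = _
      rw [map_mul]
      congr 1
      exact map_ofNat _ 4
    rwa [h4] at h3
  refine ⟨?_, ?_, ?_⟩
  · refine IsIntegral.of_pow (n := 2) (by norm_num) ?_
    rw [hd, mul_sub]
    refine IsIntegral.sub ?_ hwint
    have h3 : IsIntegral ℤ (4 : E) := by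
      have := isIntegral_algebraMap (R := ℤ) (A := E) (x := 4)
      simpa using this
    exact h3.mul ((hη.isIntegral hn).add (hη.inv.isIntegral hn))
  · intro τ
    have h3 : ‖τ η‖ = 1 :=
      Complex.norm_eq_one_of_pow_eq_one (by rw [← map_pow, hη.pow_eq_one, map_one]) hn.ne'
    have h6 : (4 : ℂ) = τ 4 := (map_ofNat τ 4).symm
    have h7 : τ d ^ 2 = 4 * (τ η + (τ η)⁻¹ - τ (algebraMap K E w)) := by
      rw [← map_pow, hd, map_mul, map_sub, map_add, map_inv₀, ← h6]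
    have h4 : ‖τ η + (τ η)⁻¹ - τ (algebraMap K E w)‖ ≤ 2 + M := by
      calc _ ≤ ‖τ η + (τ η)⁻¹‖ + ‖τ (algebraMap K E w)‖ := norm_sub_le _ _
        _ ≤ (‖τ η‖ + ‖(τ η)⁻¹‖) + M := add_le_add (norm_add_le _ _) (hM (τ.comp (algebraMap K E)))
        _ = 2 + M := by rw [norm_inv, h3]; norm_num
    have h5 : ‖(4 : ℂ)‖ = 4 := by norm_num
    rw [← norm_pow, h7, norm_mul, h5]
    linarith
  · intro S
    have h6 : (4 : ℂ) = S 4 := (map_ofNat S 4).symm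
    have h4 : S d ^ 2 = 4 * (S η + (S η)⁻¹ - S (algebraMap K E w)) := by
      rw [← map_pow, hd, map_mul, map_sub, map_add, map_inv₀, ← h6]
    rw [div_pow, h4]
    ring

private lemma core.{u, v} (h1 : S_TRC.{u, v}) (h2 : S_LOXQ.{v}) (h3 : S_TOR) (K : Type u) [Field K]
    [NumberField K] (w : K) (hw : w ^ 2 ≠ 4) (hw4 : IsIntegral ℤ (4 * w)) (M : ℝ)
    (hM : ∀ t : K →+* ℂ, ‖t w‖ ≤ M) (σ : K →+* ℂ) :
    ∃ N₀ : ℕ, ∀ (N : ℕ), 0 < N → ∀ (E : Type v) [Field E] [NumberField E] [Algebra K E] (ζ : E),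
    IsPrimitiveRoot ζ N → ∀ (S : E →+* ℂ), S.comp (algebraMap K E) = σ →
    ∀ (n n' : ℕ) (η η' d d' : E), N₀ ≤ n → N₀ ≤ n' → IsPrimitiveRoot η n → IsPrimitiveRoot η' n' →
    d ^ 2 = 4 * (η + η⁻¹ - algebraMap K E w) → d' ^ 2 = 4 * (η' + η'⁻¹ - algebraMap K E w) →
    d ∉ K⟮ζ⟯ ∧ (η' + η'⁻¹ ≠ η + η⁻¹ → (w = 0 → η' + η'⁻¹ ≠ -(η + η⁻¹)) → d * d' ∉ K⟮ζ⟯) := by
  have hM0 : 0 ≤ M := (norm_nonneg _).trans (hM σ)
  obtain ⟨m, θ, hL⟩ := loxk h1 h2 K σ (4 * (2 + M))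
  have hσw : (σ w) ^ 2 ≠ 4 := by
    intro h
    apply hw
    apply σ.injective
    rw [map_pow, h]
    exact (map_ofNat σ 4).symm
  obtain ⟨Z₁, hZ₁, hT₁⟩ := h3 (σ w) m (fun i => θ i / 2) hσw
  obtain ⟨Z₂, hZ₂, hT₂⟩ := h3 (σ w) m (fun i => θ i / 4) hσw
  have hT₃ : ∃ Z₃ : Set ℂ, Z₃.Finite ∧ (w ≠ 0 → ∀ ζ : ℂ, (∃ n : ℕ, 0 < n ∧ ζ ^ n = 1) → ζ ∉ Z₃ →
      ∀ z : Fin m → ℂ, (∀ i, RU (z i)) →
      (∑ i, θ i / 4 * z i) ^ 2 ≠ ζ + ζ⁻¹ - ((σ w) ^ 2 - 2)) := by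
    by_cases hw0 : w = 0
    · exact ⟨∅, Set.finite_empty, fun h => absurd hw0 h⟩
    · obtain ⟨Z₃, hZ₃, hT₃⟩ := h3 ((σ w) ^ 2 - 2) m (fun i => θ i / 4) (by
        intro h
        have h4 : (σ w) ^ 2 * ((σ w) ^ 2 - 4) = 0 := by linear_combination h
        rcases mul_eq_zero.1 h4 with h5 | h5
        · refine hw0 (σ.injective ?_)
          rw [map_zero]
          exact (pow_eq_zero_iff two_ne_zero).1 h5
        · exact hσw (sub_eq_zero.1 h5))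
      exact ⟨Z₃, hZ₃, fun _ ζ hζ hζZ z hz => (hT₃ ζ hζ hζZ z hz).1⟩
  obtain ⟨Z₃, hZ₃, hT₃⟩ := hT₃
  obtain ⟨A, hA⟩ := avoid (Z₁ ∪ Z₂ ∪ Z₃) ((hZ₁.union hZ₂).union hZ₃)
  refine ⟨A + 1, fun N hN E _ _ _ ζ hζ S hS n n' η η' d d' hn hn' hη hη' hd hd' => ?_⟩
  have hSw : S (algebraMap K E w) = σ w := by rw [← hS]; rfl
  have first : ∀ (n : ℕ) (η d : E), A + 1 ≤ n → IsPrimitiveRoot η n →
      d ^ 2 = 4 * (η + η⁻¹ - algebraMap K E w) → d ∉ K⟮ζ⟯ := by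
    intro n η d hn hη hd hdK
    have hn0 : 0 < n := by omega
    obtain ⟨i1, b1, s1⟩ := facts w hw4 M hM n hn0 η d hη hd
    obtain ⟨z, hz, hSz⟩ := hL N hN E ζ hζ S hS d hdK i1 (fun τ => by
      have := b1 τ
      nlinarith [norm_nonneg (τ d)])
    have hZ := (hA n (S η) (hη.map_of_injective S.injective) (by omega)).1
    refine (hT₁ (S η) ⟨n, hn0, by rw [← map_pow, hη.pow_eq_one, map_one]⟩
      (fun h => hZ (Or.inl (Or.inl h))) z hz).1 ?_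
    have h8 : ∑ i, θ i / 2 * z i = S d / 2 := by
      rw [hSz, Finset.sum_div]
      exact Finset.sum_congr rfl fun i _ => by ring
    rw [h8, s1 S, hSw]
  refine ⟨first n η d hn hη hd, fun hne hne0 hK => ?_⟩
  have hn0 : 0 < n := by omega
  have hn0' : 0 < n' := by omega
  obtain ⟨i1, b1, s1⟩ := facts w hw4 M hM n hn0 η d hη hd
  obtain ⟨i2, b2, s2⟩ := facts w hw4 M hM n' hn0' η' d' hη' hd'
  have hd'0 : d' ≠ 0 := fun h => first n' η' d' hn' hη' hd' (h ▸ zero_mem _)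
  have hs' : S η' + (S η')⁻¹ ≠ σ w := by
    intro h
    have h6 := s2 S
    rw [hSw, h, sub_self] at h6
    have h7 := (pow_eq_zero_iff two_ne_zero).1 h6
    apply hd'0
    apply S.injective
    rw [map_zero]
    linear_combination 2 * h7
  obtain ⟨z, hz, hSz⟩ := hL N hN E ζ hζ S hS (d * d') hK (i1.mul i2) (fun τ => by
    rw [map_mul, norm_mul]
    have h6 := b1 τ
    have h7 := b2 τ
    nlinarith [sq_nonneg (‖τ d‖ - ‖τ d'‖)])
  have hsum : ∑ i, θ i / 4 * z i = S (d * d') / 4 := by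
    rw [hSz, Finset.sum_div]
    exact Finset.sum_congr rfl fun i _ => by ring
  have hprod : (∑ i, θ i / 4 * z i) ^ 2 = (S η + (S η)⁻¹ - σ w) * (S η' + (S η')⁻¹ - σ w) := by
    rw [hsum, ← hSw, ← s1 S, ← s2 S, map_mul]
    ring
  have hZ := hA n (S η) (hη.map_of_injective S.injective) (by omega)
  have hp : S η ^ n = 1 := by rw [← map_pow, hη.pow_eq_one, map_one]
  have hp' : S η' ^ n' = 1 := by rw [← map_pow, hη'.pow_eq_one, map_one]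
  have hη0 : S η ≠ 0 := by
    intro h
    rw [h, zero_pow hn0.ne'] at hp
    exact zero_ne_one hp
  rcases (hT₂ (S η) ⟨n, hn0, hp⟩ (fun h => hZ.1 (Or.inl (Or.inr h))) z hz).2 (S η') ⟨n', hn0', hp'⟩ hs' hprod
    with h8 | h8
  · apply hne
    apply S.injective
    rw [map_add, map_add, map_inv₀, map_inv₀]
    exact h8
  · have hw0 : w ≠ 0 := fun h0 => hne0 h0 (S.injective (by
      rw [map_neg, map_add, map_add, map_inv₀, map_inv₀]; exact h8))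
    refine hT₃ hw0 ((S η) ^ 2) ⟨n, hn0, by rw [← pow_mul, mul_comm, pow_mul, hp, one_pow]⟩
      (fun h => hZ.2 (Or.inr h)) (fun i => Complex.I * z i) (fun i => ?_) ?_
    · rcases hz i with h | ⟨k, hk, hk'⟩
      · left
        rw [h, mul_zero]
      · right
        refine ⟨4 * k, by omega, ?_⟩
        rw [mul_pow, pow_mul, Complex.I_pow_four, one_pow, one_mul, mul_comm 4 k, pow_mul, hk', one_pow]
    · have h9 : ∑ i, θ i / 4 * (Complex.I * z i) = Complex.I * ∑ i, θ i / 4 * z i := by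
        rw [Finset.mul_sum]
        exact Finset.sum_congr rfl fun i _ => by ring
      rw [h9, mul_pow, Complex.I_sq, hprod, h8]
      field_simp
      ring

end NsqG

/-- NSQG: independence of the quadratic extensions, all levels -/
theorem nsqg.{u, v} (h1 : S_TRC.{u, v}) (h2 : S_LOXQ.{v}) (h3 : S_TOR) : S_NSQG.{u, v} := by
  intro K _ _ w hw hw4
  obtain ⟨M, hM⟩ : ∃ M : ℝ, ∀ t : K →+* ℂ, ‖t w‖ ≤ M := by
    obtain ⟨M, hM⟩ := (Set.finite_range fun t : K →+* ℂ => ‖t w‖).bddAbove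
    exact ⟨M, fun t => hM ⟨t, rfl⟩⟩
  choose N₁ hN₁ using fun σ : K →+* ℂ => NsqG.core h1 h2 h3 K w hw hw4 M hM σ
  obtain ⟨N₀, hN₀⟩ := (Set.finite_range N₁).bddAbove
  refine ⟨N₀, fun N hN E _ _ _ ζ hζ n n' η η' d d' hn hn' _ _ hη hη' hd hd' => ?_⟩
  obtain ⟨S⟩ : Nonempty (E →+* ℂ) := inferInstance
  have h5 : N₁ (S.comp (algebraMap K E)) ≤ N₀ := hN₀ ⟨_, rfl⟩
  exact hN₁ (S.comp (algebraMap K E)) N hN E ζ hζ S rfl n n' η η' d d' (h5.trans hn) (h5.trans hn') hη hη' hd hd'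

end Pool.Agent.N76.RG
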