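import Pool.Agent.N76.RG.Stm3
import Pool.Agent.N76.RG.Irr

set_option autoImplicit false

/-!
# Project RG, leaf SPG (helper985): conjugates of special values in a given window, all levels
-/

namespace Pool.Agent.N76.RG

open Polynomial IntermediateField Module
open scoped Real

theorem spg_exp (N : ℕ) (hN : N ≠ 0) (i m : ℕ) (j : ℤ)
    (h : (j : ZMod N) = ((i * m : ℕ) : ZMod N)) :
    Complex.exp (2 * π * Complex.I * (i / N)) ^ m =
      Complex.exp (((2 * π * j / N : ℝ) : ℂ) * Complex.I) := by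
  have hNc : (N : ℂ) ≠ 0 := by exact_mod_cast hN
  have h1 : ((j : ℤ) : ZMod N) = (((i * m : ℕ) : ℤ) : ZMod N) := by
    rw [h, Int.cast_natCast]
  rw [ZMod.intCast_eq_intCast_iff_dvd_sub] at h1
  obtain ⟨r, hr⟩ := h1
  have hr' : (i : ℂ) * m = j + N * r := by
    have h2 := congrArg (Int.cast : ℤ → ℂ) hr
    push_cast at h2
    linear_combination h2
  rw [← Complex.exp_nat_mul]
  have e : (m : ℂ) * (2 * π * Complex.I * (i / N)) =
      ((2 * π * j / N : ℝ) : ℂ) * Complex.I + r * (2 * π * Complex.I) := by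
    push_cast
    field_simp
    linear_combination hr'
  rw [e, Complex.exp_add, Complex.exp_int_mul_two_pi_mul_I, mul_one]

theorem spg.{u, v} (h : S_EQD) : S_SPG.{u, v} := by
  intro K _ _ α δ hδ
  obtain ⟨N₀, hN₀⟩ := h (finrank ℚ K) α δ hδ
  refine ⟨max N₀ 1, fun N hN E _ _ _ s₁ η hη => ?_⟩
  have hN1 : 0 < N := lt_of_lt_of_le one_pos ((le_max_right _ _).trans hN)
  have hNz : NeZero N := ⟨hN1.ne'⟩
  -- the cyclotomic extension
  have hcyc : IsCyclotomicExtension {N} K K⟮η⟯ := hη.intermediateField_adjoin_isCyclotomicExtension K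
  have hgal : IsGalois K K⟮η⟯ := IsCyclotomicExtension.isGalois {N} K K⟮η⟯
  have hfd : FiniteDimensional K K⟮η⟯ := IsCyclotomicExtension.finiteDimensional {N} K K⟮η⟯
  have hgen : IsPrimitiveRoot (AdjoinSimple.gen K η) N :=
    IsPrimitiveRoot.of_map_of_injective (f := algebraMap K⟮η⟯ E)
      (by rw [AdjoinSimple.algebraMap_gen]; exact hη) (algebraMap K⟮η⟯ E).injective
  let φ : (K⟮η⟯ ≃ₐ[K] K⟮η⟯) →* (ZMod N)ˣ := hgen.autToPow K
  have hφ : Function.Injective φ := hgen.autToPow_injective K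
  have hcard : Nat.card φ.range = finrank K K⟮η⟯ := by
    rw [← IsGalois.card_aut_eq_finrank, ← Nat.card_congr (MonoidHom.ofInjective hφ).toEquiv]
  have htot : N.totient ≤ finrank ℚ K * Nat.card φ.range := by
    rw [hcard, irr_finrank_eq N hη]
    refine Nat.le_of_dvd ?_ (irr_totient_dvd K N)
    have : FiniteDimensional K (CyclotomicField N K) :=
      IsCyclotomicExtension.finiteDimensional {N} K _
    exact Nat.mul_pos finrank_pos finrank_pos
  -- the root in `ℂ`
  have hη' : IsPrimitiveRoot (s₁ η) N := hη.map_of_injective s₁.injective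
  obtain ⟨i, _, hcop, hi⟩ := (Complex.isPrimitiveRoot_iff _ N hN1.ne').1 hη'
  obtain ⟨w, ⟨g, hg⟩, j, hj, hwin⟩ := hN₀ N ((le_max_left _ _).trans hN) φ.range htot
    (ZMod.unitOfCoprime i hcop)
  -- the embedding
  letI : Algebra K⟮η⟯ ℂ :=
    ((s₁.comp (algebraMap K⟮η⟯ E)).comp (g : K⟮η⟯ →+* K⟮η⟯)).toAlgebra
  have halg : ∀ a : K⟮η⟯, algebraMap K⟮η⟯ ℂ a = s₁ (algebraMap K⟮η⟯ E (g a)) := fun a => rfl
  have hscal : IsScalarTower ℚ K E := IsScalarTower.of_algebraMap_eq' (RingHom.ext_rat _ _)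
  have hfin : FiniteDimensional K E := Module.Finite.of_restrictScalars_finite ℚ K E
  have halgK : Algebra.IsAlgebraic K E := Algebra.IsAlgebraic.of_finite K E
  have halgL : Algebra.IsAlgebraic K⟮η⟯ E := Algebra.IsAlgebraic.tower_top (K := K) K⟮η⟯
  let s : E →ₐ[K⟮η⟯] ℂ := IsAlgClosed.lift
  have hs : ∀ a : K⟮η⟯, s (algebraMap K⟮η⟯ E a) = s₁ (algebraMap K⟮η⟯ E (g a)) := fun a =>
    (s.commutes a).trans (halg a)
  have hsη : s η = s₁ η ^ ((w : (ZMod N)ˣ) : ZMod N).val := by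
    have h1 := hs (AdjoinSimple.gen K η)
    have h2 : g (AdjoinSimple.gen K η) = AdjoinSimple.gen K η ^ ((w : (ZMod N)ˣ) : ZMod N).val := by
      rw [← hg]
      exact (hgen.autToPow_spec K g).symm
    rw [h2, map_pow, AdjoinSimple.algebraMap_gen, map_pow] at h1
    exact h1
  have hsη' : s η = Complex.exp (((2 * π * j / N : ℝ) : ℂ) * Complex.I) := by
    rw [hsη, ← hi]
    apply spg_exp N hN1.ne'
    rw [hj, Nat.cast_mul, ZMod.natCast_zmod_val, ZMod.coe_unitOfCoprime]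
  refine ⟨s.toRingHom, 2 * π * j / N, ?_, hwin, ?_⟩
  · ext a
    have h1 := hs (algebraMap K K⟮η⟯ a)
    rw [g.commutes, ← IsScalarTower.algebraMap_apply K K⟮η⟯ E] at h1
    exact h1
  · show s (η + η⁻¹) = _
    rw [map_add, map_inv₀, hsη', Complex.two_cos, ← Complex.exp_neg]
    congr 2
    ring

end Pool.Agent.N76.RG
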