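import Pool.Agent.N76.RG.Stm3
import Pool.Agent.N695.CY.Struct

set_option autoImplicit false

/-!
# Project RK, leaf TOR (helper111): torsion points

Square roots of `ζ + ζ⁻¹ - w` and of `(ζ + ζ⁻¹ - w) (ζ' + ζ'⁻¹ - w)` which are linear combinations of
`M` roots of unity with fixed coefficients: by the structure theorem for torsion points of `Pool.Agent.N695.CY.Struct`
such points for infinitely many `ζ` give identities of Laurent polynomials, which contradict `S_ZER`.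
-/

namespace Pool.Agent.N76.RG

open scoped LaurentPolynomial

namespace Tor

open Finset Pool.Agent.N695.CY

/-- a root of unity -/
def Rt (z : ℂ) : Prop := ∃ n : ℕ, 0 < n ∧ z ^ n = 1

lemma Rt.ne {z : ℂ} (h : Rt z) : z ≠ 0 := by
  obtain ⟨n, hn, h⟩ := h
  rintro rfl
  rw [zero_pow hn.ne'] at h
  exact zero_ne_one h

/-- torsion points on a hypersurface: the coordinate `j₀` is in a finite set or the hypersurface contains
the coset of a one-parameter group through the point which moves the coordinate `j₀` -/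
theorem stru {J : Type} [Fintype J] [DecidableEq J] (G : MvPolynomial J ℂ) (j₀ : J) :
    ∃ Z : Set ℂ, Z.Finite ∧ ∀ z : J → ℂ, (∀ j, Rt (z j)) → MvPolynomial.eval z G = 0 → z j₀ ∉ Z →
      ∃ k : J → ℤ, k j₀ ≠ 0 ∧ ∀ t : ℂ, t ≠ 0 → MvPolynomial.eval (fun j => z j * t ^ k j) G = 0 := by
  obtain ⟨C, hC, h1, h2⟩ := structure_thm (fun _ : Unit => G)
  refine ⟨(fun c : (J → ℂ) × (J → J → ℤ) => c.1 j₀) '' C, hC.image _, fun z hz hG hZ => ?_⟩
  choose n hn hzn using hz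
  have hsol : IsSol z := by
    refine ⟨2, 0, z, ∏ j, n j, by norm_num, by norm_num, prod_pos fun j _ => hn j, fun j => ?_, fun j => ?_⟩
    · rw [← prod_erase_mul univ n (mem_univ j), mul_comm, pow_mul, hzn, one_pow]
    · simp
  obtain ⟨c, hc, σ, hσ, hzc⟩ := h2 z hsol fun _ => hG
  have hex : ∃ a, c.2 a j₀ ≠ 0 := by
    by_contra hcon
    push Not at hcon
    apply hZ
    refine ⟨c, hc, ?_⟩
    rw [hzc j₀]
    simp [hcon]
  obtain ⟨a, ha⟩ := hex
  refine ⟨c.2 a, ha, fun t ht => ?_⟩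
  have h3 := (h1 c hc).2 (fun b => if b = a then σ b * t else σ b) (fun b => by
    split_ifs
    · exact mul_ne_zero (hσ b) ht
    · exact hσ b) ()
  have h4 : (fun j => z j * t ^ c.2 a j) =
      fun j => c.1 j * ∏ b, (if b = a then σ b * t else σ b) ^ c.2 b j := by
    funext j
    rw [hzc j, mul_assoc]
    congr 1
    have h5 : ∀ b, (if b = a then σ b * t else σ b) ^ c.2 b j =
        σ b ^ c.2 b j * (if b = a then t ^ c.2 b j else 1) := by
      intro b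
      split_ifs
      · rw [mul_zpow]
      · rw [mul_one]
    rw [prod_congr rfl fun b _ => h5 b, prod_mul_distrib, prod_ite_eq' univ a]
    simp
  rw [h4]
  exact h3

/-- a Laurent polynomial with all nonzero numbers as zeros is zero -/
theorem lau (P : ℂ[T;T⁻¹]) (h : ∀ t : ℂˣ, LaurentPolynomial.eval₂ (RingHom.id ℂ) t P = 0) : P = 0 := by
  obtain ⟨n, f, hf⟩ := P.exists_T_pow
  have h1 : ∀ t : ℂ, t ≠ 0 → f.eval t = 0 := by
    intro t ht
    have h2 : LaurentPolynomial.eval₂ (RingHom.id ℂ) (Units.mk0 t ht) (Polynomial.toLaurent f) = 0 := by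
      rw [hf, map_mul, h, zero_mul]
    rw [LaurentPolynomial.eval₂_toLaurent] at h2
    exact h2
  have h2 : f = 0 := by
    refine Polynomial.eq_zero_of_infinite_isRoot f ?_
    refine Set.Infinite.mono (s := ({0}ᶜ : Set ℂ)) (fun t ht => h1 t ht) ?_
    exact Set.Finite.infinite_compl (Set.finite_singleton 0)
  rw [h2, map_zero] at hf
  have h3 := LaurentPolynomial.isUnit_T (R := ℂ) (n : ℤ)
  exact (h3.mul_left_eq_zero.1 hf.symm)

/-- equality of Laurent polynomials from the values -/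
theorem lau_eq (P Q : ℂ[T;T⁻¹])
    (h : ∀ t : ℂˣ, LaurentPolynomial.eval₂ (RingHom.id ℂ) t P = LaurentPolynomial.eval₂ (RingHom.id ℂ) t Q) :
    P = Q := by
  rw [← sub_eq_zero]
  refine lau _ fun t => ?_
  rw [map_sub, h t, sub_self]

/-- the Laurent polynomial `∑ θ_i z_i T ^ k_i` -/
noncomputable def FF {M : ℕ} (θ z : Fin M → ℂ) (k : Fin M → ℤ) : ℂ[T;T⁻¹] :=
  ∑ i, LaurentPolynomial.C (θ i * z i) * LaurentPolynomial.T (k i)

/-- `x T ^ a + x⁻¹ T ^ (-a) - w` -/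
noncomputable def HH (w x : ℂ) (a : ℤ) : ℂ[T;T⁻¹] :=
  LaurentPolynomial.C x * LaurentPolynomial.T a + LaurentPolynomial.C x⁻¹ * LaurentPolynomial.T (-a) -
    LaurentPolynomial.C w

lemma FF_eval {M : ℕ} (θ z : Fin M → ℂ) (k : Fin M → ℤ) (t : ℂˣ) :
    LaurentPolynomial.eval₂ (RingHom.id ℂ) t (FF θ z k) = ∑ i, θ i * (z i * (t : ℂ) ^ k i) := by
  unfold FF
  rw [map_sum]
  refine sum_congr rfl fun i _ => ?_
  rw [LaurentPolynomial.eval₂_C_mul_T, RingHom.id_apply, Units.val_zpow_eq_zpow_val, mul_assoc]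

lemma HH_eval (w x : ℂ) (a : ℤ) (t : ℂˣ) :
    LaurentPolynomial.eval₂ (RingHom.id ℂ) t (HH w x a) =
      x * (t : ℂ) ^ a + (x * (t : ℂ) ^ a)⁻¹ - w := by
  unfold HH
  rw [map_sub, map_add, LaurentPolynomial.eval₂_C_mul_T, LaurentPolynomial.eval₂_C_mul_T,
    LaurentPolynomial.eval₂_C, RingHom.id_apply, RingHom.id_apply, RingHom.id_apply,
    Units.val_zpow_eq_zpow_val, Units.val_zpow_eq_zpow_val, mul_inv, zpow_neg]

section poly

variable {M : ℕ} (w : ℂ) (θ : Fin M → ℂ)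

/-- `∑ θ_i Z_i` -/
noncomputable def lin : MvPolynomial (Fin M ⊕ Bool) ℂ :=
  ∑ i, MvPolynomial.C (θ i) * MvPolynomial.X (Sum.inl i)

/-- `X ^ 2 + 1 - w X` -/
noncomputable def qq (b : Bool) : MvPolynomial (Fin M ⊕ Bool) ℂ :=
  MvPolynomial.X (Sum.inr b) ^ 2 + 1 - MvPolynomial.C w * MvPolynomial.X (Sum.inr b)

lemma lin_eval (v : Fin M ⊕ Bool → ℂ) :
    MvPolynomial.eval v (lin θ) = ∑ i, θ i * v (Sum.inl i) := by
  simp [lin]

lemma qq_eval (v : Fin M ⊕ Bool → ℂ) (b : Bool) :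
    MvPolynomial.eval v (qq (M := M) w b) = v (Sum.inr b) ^ 2 + 1 - w * v (Sum.inr b) := by
  simp [qq]

end poly

lemma qdiv {w x y : ℂ} (hx : x ≠ 0) : y * x = x ^ 2 + 1 - w * x ↔ y = x + x⁻¹ - w := by
  constructor
  · intro h
    field_simp
    linear_combination h
  · intro h
    rw [h]
    field_simp

lemma qdiv2 {w x x' y : ℂ} (hx : x ≠ 0) (hx' : x' ≠ 0) :
    y * x * x' = (x ^ 2 + 1 - w * x) * (x' ^ 2 + 1 - w * x') ↔ y = (x + x⁻¹ - w) * (x' + x'⁻¹ - w) := by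
  constructor
  · intro h
    field_simp
    linear_combination h
  · intro h
    rw [h]
    field_simp

/-- case (a) -/
theorem caseA (h : S_ZER.{0}) (w : ℂ) (hw : w ^ 2 ≠ 4) {M : ℕ} (θ : Fin M → ℂ) :
    ∃ Z : Set ℂ, Z.Finite ∧ ∀ ζ : ℂ, Rt ζ → ζ ∉ Z → ∀ z : Fin M → ℂ, (∀ i, Rt (z i)) →
      (∑ i, θ i * z i) ^ 2 ≠ ζ + ζ⁻¹ - w := by
  obtain ⟨Z, hZ, H⟩ := stru (lin θ ^ 2 * MvPolynomial.X (Sum.inr true) - qq w true) (Sum.inr true)
  refine ⟨Z, hZ, fun ζ hζ hζZ z hz heq => ?_⟩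
  obtain ⟨k, hk, hk'⟩ := H (Sum.elim z fun _ => ζ) (by rintro (i | b); exacts [hz i, hζ]) (by
    rw [map_sub, map_mul, map_pow, lin_eval, qq_eval, MvPolynomial.eval_X, sub_eq_zero]
    exact (qdiv hζ.ne).2 heq) hζZ
  have hFF : FF θ z (fun i => k (Sum.inl i)) ^ 2 = HH w ζ (k (Sum.inr true)) := by
    refine lau_eq _ _ fun t => ?_
    rw [map_pow, FF_eval, HH_eval]
    have h1 := hk' t t.ne_zero
    rw [map_sub, map_mul, map_pow, lin_eval, qq_eval, MvPolynomial.eval_X, sub_eq_zero] at h1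
    exact (qdiv (mul_ne_zero hζ.ne (zpow_ne_zero _ t.ne_zero))).1 h1
  exact (h ℂ w ζ 1 (k (Sum.inr true)) 1 _ hw hζ.ne one_ne_zero hk one_ne_zero).1 hFF

/-- case (b) -/
theorem caseB (h : S_ZER.{0}) (w : ℂ) (hw : w ^ 2 ≠ 4) {M : ℕ} (θ : Fin M → ℂ) :
    ∃ Z : Set ℂ, Z.Finite ∧ ∀ ζ : ℂ, Rt ζ → ζ ∉ Z → ∀ z : Fin M → ℂ, (∀ i, Rt (z i)) →
      ∀ ζ' : ℂ, Rt ζ' → ζ' + ζ'⁻¹ ≠ w →
      (∑ i, θ i * z i) ^ 2 = (ζ + ζ⁻¹ - w) * (ζ' + ζ'⁻¹ - w) →
      ζ' + ζ'⁻¹ = ζ + ζ⁻¹ ∨ ζ' + ζ'⁻¹ = -(ζ + ζ⁻¹) := by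
  obtain ⟨Z, hZ, H⟩ := stru (lin θ ^ 2 * MvPolynomial.X (Sum.inr true) * MvPolynomial.X (Sum.inr false) -
    qq w true * qq w false) (Sum.inr true)
  refine ⟨Z, hZ, fun ζ hζ hζZ z hz ζ' hζ' hne heq => ?_⟩
  obtain ⟨k, hk, hk'⟩ := H (Sum.elim z fun b => if b = true then ζ else ζ') (by
    rintro (i | (_ | _))
    · exact hz i
    · exact hζ'
    · exact hζ) (by
    rw [map_sub, map_mul, map_mul, map_pow, map_mul, lin_eval, qq_eval, qq_eval, MvPolynomial.eval_X,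
      MvPolynomial.eval_X, sub_eq_zero]
    exact (qdiv2 hζ.ne hζ'.ne).2 heq) hζZ
  have hFF : FF θ z (fun i => k (Sum.inl i)) ^ 2 =
      HH w ζ (k (Sum.inr true)) * HH w ζ' (k (Sum.inr false)) := by
    refine lau_eq _ _ fun t => ?_
    rw [map_pow, map_mul, FF_eval, HH_eval, HH_eval]
    have h1 := hk' t t.ne_zero
    rw [map_sub, map_mul, map_mul, map_pow, map_mul, lin_eval, qq_eval, qq_eval, MvPolynomial.eval_X,
      MvPolynomial.eval_X, sub_eq_zero] at h1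
    exact (qdiv2 (mul_ne_zero hζ.ne (zpow_ne_zero _ t.ne_zero))
      (mul_ne_zero hζ'.ne (zpow_ne_zero _ t.ne_zero))).1 h1
  by_cases hl : k (Sum.inr false) = 0
  · exfalso
    have hκ : ζ' + ζ'⁻¹ - w ≠ 0 := sub_ne_zero.2 hne
    obtain ⟨lam, hlam⟩ := IsAlgClosed.exists_pow_nat_eq (ζ' + ζ'⁻¹ - w) (n := 2) (by norm_num)
    have hlam0 : lam ≠ 0 := by
      rintro rfl
      rw [zero_pow (by norm_num)] at hlam
      exact hκ hlam.symm
    have h2 : (LaurentPolynomial.C lam⁻¹ * FF θ z (fun i => k (Sum.inl i))) ^ 2 =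
        HH w ζ (k (Sum.inr true)) := by
      refine lau_eq _ _ fun t => ?_
      have h3 := congrArg (LaurentPolynomial.eval₂ (RingHom.id ℂ) t) hFF
      rw [map_pow, map_mul, HH_eval w ζ', hl, zpow_zero, mul_one, ← hlam] at h3
      rw [map_pow, map_mul, LaurentPolynomial.eval₂_C, RingHom.id_apply, mul_pow, h3]
      field_simp
    exact (h ℂ w ζ 1 (k (Sum.inr true)) 1 _ hw hζ.ne one_ne_zero hk one_ne_zero).1 h2
  · exact (h ℂ w ζ ζ' (k (Sum.inr true)) (k (Sum.inr false)) _ hw hζ.ne hζ'.ne hk hl).2 hFF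

/-- zero coordinates -/
lemma ru_split {M : ℕ} (θ z : Fin M → ℂ) (hz : ∀ i, RU (z i)) :
    ∃ (A : Finset (Fin M)) (z' : Fin M → ℂ), (∀ i, Rt (z' i)) ∧
      ∑ i, θ i * z i = ∑ i, (if i ∈ A then θ i else 0) * z' i := by
  classical
  refine ⟨univ.filter fun i => z i ≠ 0, fun i => if z i ≠ 0 then z i else 1, fun i => ?_, ?_⟩
  · by_cases h : z i = 0
    · simp only [h, ne_eq, not_true_eq_false, if_false]
      exact ⟨1, one_pos, one_pow _⟩
    · simp only [ne_eq, h, not_false_eq_true, if_true]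
      exact (hz i).resolve_left h
  · refine sum_congr rfl fun i _ => ?_
    by_cases h : z i = 0 <;> simp [h]

end Tor

/-- TOR -/
theorem tor (h : S_ZER.{0}) : S_TOR := by
  classical
  intro w M θ hw
  choose ZA hZA HA using fun A : Finset (Fin M) => Tor.caseA h w hw fun i => if i ∈ A then θ i else 0
  choose ZB hZB HB using fun A : Finset (Fin M) => Tor.caseB h w hw fun i => if i ∈ A then θ i else 0
  refine ⟨(⋃ A, ZA A) ∪ ⋃ A, ZB A, (Set.finite_iUnion hZA).union (Set.finite_iUnion hZB), ?_⟩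
  intro ζ hζ hζZ z hz
  obtain ⟨A, z', hz', hsum⟩ := Tor.ru_split θ z hz
  have h1 : ζ ∉ ZA A := fun hm => hζZ (Or.inl (Set.mem_iUnion.2 ⟨A, hm⟩))
  have h2 : ζ ∉ ZB A := fun hm => hζZ (Or.inr (Set.mem_iUnion.2 ⟨A, hm⟩))
  rw [hsum]
  exact ⟨HA A ζ hζ h1 z' hz', fun ζ' hζ' hne heq => HB A ζ hζ h2 z' hz' ζ' hζ' hne heq⟩

end Pool.Agent.N76.RG
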