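import Pool.Agent.N76.RG.Stm3

/-!
# RK/TRC: elements of `K(ζ)` are fixed linear combinations of bounded integral elements of `ℚ(ζ)`
(helper264). The coefficients are those of the interpolation polynomials of subsets of the conjugates of
a primitive element; the elements are traces.
-/

set_option autoImplicit false

namespace Pool.Agent.N76.RG

open Polynomial IntermediateField Module
open scoped Real

namespace TRC

universe v

/-- number of embeddings and bound for the trace -/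
theorem bnd {F M E : Type v} [Field F] [Field M] [Field E] [CharZero F] [Algebra F M] [Algebra M E]
    [Algebra F E] [IsScalarTower F M E] [FiniteDimensional F M] [Algebra.IsAlgebraic M E]
    (pb : PowerBasis F M) (g : ℤ[X]) (g0 : g.Monic) (ga : aeval pb.gen g = 0) (A : ℝ) (hA1 : 1 ≤ A)
    (hA : ∀ z : ℂ, aeval z g = 0 → ‖z‖ ≤ A) (y : M) (B : ℝ)
    (hB : ∀ τ : E →+* ℂ, ‖τ (algebraMap M E y)‖ ≤ B) (j : ℕ) (hj : j ≤ g.natDegree) (τ : E →+* ℂ) :
    ‖τ (algebraMap F E (Algebra.trace F M (pb.gen ^ j * y)))‖ ≤ g.natDegree * A ^ g.natDegree * B := by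
  classical
  let _ : Algebra F ℂ := (τ.comp (algebraMap F E)).toAlgebra
  have hB0 : 0 ≤ B := (norm_nonneg _).trans (hB τ)
  have h1 : τ (algebraMap F E (Algebra.trace F M (pb.gen ^ j * y))) =
      ∑ s : M →ₐ[F] ℂ, s (pb.gen ^ j * y) :=
      trace_eq_sum_embeddings (K := F) (L := M) (x := pb.gen ^ j * y) ℂ
  have hgen : ∀ s : M →ₐ[F] ℂ, aeval (s pb.gen) g = 0 := by
    intro s
    have : aeval (s.toRingHom pb.gen) g = s.toRingHom (aeval pb.gen g) := by
      rw [aeval_def, aeval_def, hom_eval₂]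
      congr 1
      exact RingHom.ext_int _ _
    rw [ga, map_zero] at this
    exact this
  have hy : ∀ s : M →ₐ[F] ℂ, ‖s y‖ ≤ B := by
    intro s
    let _ : Algebra M ℂ := s.toRingHom.toAlgebra
    let t : E →ₐ[M] ℂ := IsAlgClosed.lift
    have := hB t.toRingHom
    have e : t.toRingHom (algebraMap M E y) = s y := t.commutes y
    rwa [e] at this
  have hcard : Fintype.card (M →ₐ[F] ℂ) ≤ g.natDegree := by
    have h2 : (Finset.univ.image fun s : M →ₐ[F] ℂ => s pb.gen) ⊆ (g.map (algebraMap ℤ ℂ)).roots.toFinset := by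
      intro z hz
      obtain ⟨s, _, rfl⟩ := Finset.mem_image.1 hz
      rw [Multiset.mem_toFinset, mem_roots (g0.map _).ne_zero, IsRoot.def, eval_map_algebraMap]
      exact hgen s
    have h3 := Finset.card_le_card h2
    rw [Finset.card_image_of_injective _ (fun s s' h => pb.algHom_ext h), Finset.card_univ] at h3
    refine h3.trans ((Multiset.toFinset_card_le _).trans ((card_roots' _).trans ?_))
    exact natDegree_map_le
  rw [h1]
  calc ‖∑ s : M →ₐ[F] ℂ, s (pb.gen ^ j * y)‖ ≤ ∑ s : M →ₐ[F] ℂ, ‖s (pb.gen ^ j * y)‖ := norm_sum_le _ _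
    _ ≤ ∑ s : M →ₐ[F] ℂ, A ^ g.natDegree * B := by
        refine Finset.sum_le_sum fun s _ => ?_
        rw [map_mul, map_pow, norm_mul, norm_pow]
        have h5 : ‖s pb.gen‖ ^ j ≤ A ^ g.natDegree :=
          (pow_le_pow_left₀ (norm_nonneg _) (hA _ (hgen s)) j).trans (pow_le_pow_right₀ hA1 hj)
        exact mul_le_mul h5 (hy s) (norm_nonneg _) (by positivity)
    _ = Fintype.card (M →ₐ[F] ℂ) * (A ^ g.natDegree * B) := by
        rw [Finset.sum_const, Finset.card_univ, nsmul_eq_mul]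
    _ ≤ g.natDegree * (A ^ g.natDegree * B) := by
        refine mul_le_mul_of_nonneg_right (by exact_mod_cast hcard) (by positivity)
    _ = _ := by ring

/-- the interpolation coefficients -/
noncomputable def hh (R : Finset ℂ) : ℂ[X] := ∏ r ∈ R, (X - C r)

theorem rep {F M E : Type v} [Field F] [Field M] [Field E] [CharZero F] [Algebra F M] [Algebra M E]
    [Algebra F E] [IsScalarTower F M E] [FiniteDimensional F M]
    (pb : PowerBasis F M) (g : ℤ[X]) (g0 : g.Monic) (ga : aeval pb.gen g = 0) (y : M) (S : E →+* ℂ) :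
    ∃ R ∈ ((g.map (algebraMap ℤ ℂ)).roots.toFinset).powerset,
      S (algebraMap M E y) = ∑ j ∈ Finset.range g.natDegree,
        ((hh R).coeff j / (hh R).eval (S (algebraMap M E pb.gen))) *
          S (algebraMap F E (Algebra.trace F M (pb.gen ^ j * y))) := by
  classical
  let _ : Algebra F ℂ := (S.comp (algebraMap F E)).toAlgebra
  let s0 : M →ₐ[F] ℂ := { S.comp (algebraMap M E) with
    commutes' := fun x => by
      show S (algebraMap M E (algebraMap F M x)) = S (algebraMap F E x)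
      rw [← IsScalarTower.algebraMap_apply] }
  have hs0 : ∀ x, s0 x = S (algebraMap M E x) := fun x => rfl
  have hgen : ∀ s : M →ₐ[F] ℂ, aeval (s pb.gen) g = 0 := by
    intro s
    have : aeval (s.toRingHom pb.gen) g = s.toRingHom (aeval pb.gen g) := by
      rw [aeval_def, aeval_def, hom_eval₂]
      congr 1
      exact RingHom.ext_int _ _
    rw [ga, map_zero] at this
    exact this
  have hsub : (Finset.univ.image fun s : M →ₐ[F] ℂ => s pb.gen) ⊆ (g.map (algebraMap ℤ ℂ)).roots.toFinset := by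
    intro z hz
    obtain ⟨s, _, rfl⟩ := Finset.mem_image.1 hz
    rw [Multiset.mem_toFinset, mem_roots (g0.map _).ne_zero, IsRoot.def, eval_map_algebraMap]
    exact hgen s
  set R0 := (Finset.univ.image fun s : M →ₐ[F] ℂ => s pb.gen) with hR0
  have hmem0 : s0 pb.gen ∈ R0 := Finset.mem_image_of_mem _ (Finset.mem_univ _)
  refine ⟨R0.erase (s0 pb.gen), Finset.mem_powerset.2 ((Finset.erase_subset _ _).trans hsub), ?_⟩
  set R := R0.erase (s0 pb.gen) with hR
  have hcard : R.card < g.natDegree := by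
    have h1 : R0.card ≤ g.natDegree :=
      (Finset.card_le_card hsub).trans ((Multiset.toFinset_card_le _).trans ((card_roots' _).trans
        natDegree_map_le))
    have h2 : R.card < R0.card := Finset.card_erase_lt_of_mem hmem0
    omega
  have hdeg : (hh R).natDegree < g.natDegree := by
    have : (hh R).natDegree = R.card := by
      unfold hh
      rw [natDegree_prod_of_monic _ _ (fun r _ => monic_X_sub_C r)]
      simp
    omega
  have hne : (hh R).eval (s0 pb.gen) ≠ 0 := by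
    unfold hh
    rw [eval_prod]
    refine Finset.prod_ne_zero_iff.2 fun r hr => ?_
    rw [eval_sub, eval_X, eval_C, sub_ne_zero]
    exact fun h => (Finset.ne_of_mem_erase hr) h.symm
  have hz : ∀ s : M →ₐ[F] ℂ, s ≠ s0 → (hh R).eval (s pb.gen) = 0 := by
    intro s hs
    unfold hh
    rw [eval_prod]
    refine Finset.prod_eq_zero (i := s pb.gen) ?_ (by simp)
    rw [hR, Finset.mem_erase]
    exact ⟨fun h => hs (pb.algHom_ext h), Finset.mem_image_of_mem _ (Finset.mem_univ _)⟩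
  have htr : ∀ j, S (algebraMap F E (Algebra.trace F M (pb.gen ^ j * y))) =
      ∑ s : M →ₐ[F] ℂ, s pb.gen ^ j * s y := by
    intro j
    have h1 : S (algebraMap F E (Algebra.trace F M (pb.gen ^ j * y))) =
      ∑ s : M →ₐ[F] ℂ, s (pb.gen ^ j * y) :=
      trace_eq_sum_embeddings (K := F) (L := M) (x := pb.gen ^ j * y) ℂ
    rw [h1]
    refine Finset.sum_congr rfl fun s _ => ?_
    rw [map_mul, map_pow]
  simp only [htr, ← hs0]
  have h1 : ∑ j ∈ Finset.range g.natDegree, ((hh R).coeff j / (hh R).eval (s0 pb.gen)) *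
      ∑ s : M →ₐ[F] ℂ, s pb.gen ^ j * s y =
      ∑ s : M →ₐ[F] ℂ, ((hh R).eval (s pb.gen)) / (hh R).eval (s0 pb.gen) * s y := by
    simp only [Finset.mul_sum]
    rw [Finset.sum_comm]
    refine Finset.sum_congr rfl fun s _ => ?_
    rw [eval_eq_sum_range' hdeg (s pb.gen), Finset.sum_div, Finset.sum_mul]
    refine Finset.sum_congr rfl fun j _ => ?_
    ring
  rw [h1, Finset.sum_eq_single s0]
  · rw [div_self hne, one_mul]
  · intro s _ hs
    rw [hz s hs]; simp
  · intro h; exact absurd (Finset.mem_univ _) h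

theorem prim.{u} (K : Type u) [Field K] [NumberField K] : ∃ α : K, IsIntegral ℤ α ∧ ℚ⟮α⟯ = ⊤ := by
  obtain ⟨α, hα⟩ := Field.exists_primitive_element ℚ K
  have halg : IsAlgebraic ℤ α :=
    (IsFractionRing.isAlgebraic_iff ℤ ℚ K).2 (Algebra.IsAlgebraic.isAlgebraic (R := ℚ) α)
  obtain ⟨n, hn, hi⟩ := halg.exists_integral_multiple
  refine ⟨n • α, hi, ?_⟩
  rw [eq_top_iff, ← hα, adjoin_simple_le_iff]
  have h1 : n • α ∈ ℚ⟮n • α⟯ := mem_adjoin_simple_self ℚ _
  have h2 : algebraMap ℚ K ((n : ℚ)⁻¹) * (n • α) = α := by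
    have : (n : K) ≠ 0 := by exact_mod_cast hn
    rw [zsmul_eq_mul, map_inv₀, map_intCast, inv_mul_cancel_left₀ this]
  have h3 := mul_mem (IntermediateField.algebraMap_mem ℚ⟮n • α⟯ ((n : ℚ)⁻¹)) h1
  rwa [h2] at h3

theorem sub.{u} (K : Type u) (E : Type v) [Field K] [NumberField K] [Field E] [NumberField E] [Algebra K E]
    (α : K) (hα : ℚ⟮α⟯ = ⊤) (ζ : E) (y : E) (hy : y ∈ K⟮ζ⟯) :
    y ∈ (ℚ⟮ζ⟯)⟮algebraMap K E α⟯ := by
  have h1 : ∀ x : K, algebraMap K E x ∈ (ℚ⟮ζ⟯)⟮algebraMap K E α⟯ := by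
    intro x
    have hx : x ∈ ℚ⟮α⟯ := by rw [hα]; trivial
    induction hx using IntermediateField.adjoin_induction with
    | mem x hx =>
      rw [Set.mem_singleton_iff] at hx
      rw [hx]; exact mem_adjoin_simple_self _ _
    | algebraMap x =>
      rw [eq_ratCast, map_ratCast]
      exact SubfieldClass.ratCast_mem _ x
    | add x y _ _ h1 h2 => rw [map_add]; exact add_mem h1 h2
    | mul x y _ _ h1 h2 => rw [map_mul]; exact mul_mem h1 h2
    | inv x _ h => rw [map_inv₀]; exact inv_mem h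
  induction hy using IntermediateField.adjoin_induction with
  | mem x hx =>
    rw [Set.mem_singleton_iff] at hx
    rw [hx]
    exact IntermediateField.algebraMap_mem _ (⟨ζ, mem_adjoin_simple_self ℚ ζ⟩ : ℚ⟮ζ⟯)
  | algebraMap x => exact h1 x
  | add x y _ _ h1 h2 => exact add_mem h1 h2
  | mul x y _ _ h1 h2 => exact mul_mem h1 h2
  | inv x _ h => exact inv_mem h

theorem main.{u} : S_TRC.{u, v} := by
  classical
  intro K _ _ σ
  obtain ⟨α, hαi, hα⟩ := prim K
  set g := minpoly ℤ α with hg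
  have g0 : g.Monic := minpoly.monic hαi
  set T := ((g.map (algebraMap ℤ ℂ)).roots.toFinset).powerset with hT
  set A : ℝ := 1 + ∑ z ∈ (g.map (algebraMap ℤ ℂ)).roots.toFinset, ‖z‖ with hA
  have hA1 : 1 ≤ A := by
    have : 0 ≤ ∑ z ∈ (g.map (algebraMap ℤ ℂ)).roots.toFinset, ‖z‖ := Finset.sum_nonneg fun z _ => norm_nonneg z
    linarith
  have hAb : ∀ z : ℂ, aeval z g = 0 → ‖z‖ ≤ A := by
    intro z hz
    have hm : z ∈ (g.map (algebraMap ℤ ℂ)).roots.toFinset := by
      rw [Multiset.mem_toFinset, mem_roots (g0.map _).ne_zero, IsRoot.def, eval_map_algebraMap]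
      exact hz
    have := Finset.single_le_sum (f := fun z : ℂ => ‖z‖) (fun z _ => norm_nonneg z) hm
    linarith
  let e := Fintype.equivFin (↥T × Fin g.natDegree)
  refine ⟨Fintype.card (↥T × Fin g.natDegree),
    fun k => (hh (e.symm k).1).coeff (e.symm k).2 / (hh (e.symm k).1).eval (σ α),
    g.natDegree * A ^ g.natDegree, ?_⟩
  intro N hN E _ _ _ ζ hζ S hS y hy hyi B hB
  have hyM := sub K E α hα ζ y hy
  have hB0 : 0 ≤ B := (norm_nonneg _).trans (hB S)
  have : FiniteDimensional ℚ⟮ζ⟯ E := FiniteDimensional.right ℚ ℚ⟮ζ⟯ E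
  set a := algebraMap K E α with ha
  have hai : IsIntegral ℚ⟮ζ⟯ a := IsIntegral.of_finite _ _
  let pb : PowerBasis ℚ⟮ζ⟯ (ℚ⟮ζ⟯)⟮a⟯ := IntermediateField.adjoin.powerBasis hai
  have hgen : algebraMap (ℚ⟮ζ⟯)⟮a⟯ E pb.gen = a := by
    show algebraMap (ℚ⟮ζ⟯)⟮a⟯ E (IntermediateField.adjoin.powerBasis hai).gen = a
    rw [IntermediateField.adjoin.powerBasis_gen, AdjoinSimple.algebraMap_gen]
  have ga : aeval pb.gen g = 0 := by
    apply (algebraMap (ℚ⟮ζ⟯)⟮a⟯ E).injective
    rw [← aeval_algebraMap_apply, hgen, map_zero, ha, aeval_algebraMap_apply, hg, minpoly.aeval, map_zero]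
  let yM : (ℚ⟮ζ⟯)⟮a⟯ := ⟨y, hyM⟩
  have hyM' : algebraMap (ℚ⟮ζ⟯)⟮a⟯ E yM = y := rfl
  have hyMi : IsIntegral ℤ yM := by
    rw [← isIntegral_algebraMap_iff (algebraMap (ℚ⟮ζ⟯)⟮a⟯ E).injective]
    exact hyi
  have hgi : IsIntegral ℤ pb.gen := by
    rw [← isIntegral_algebraMap_iff (algebraMap (ℚ⟮ζ⟯)⟮a⟯ E).injective, hgen]
    exact hαi.map (algebraMap K E).toIntAlgHom
  obtain ⟨R, hR, hrep⟩ := rep pb g g0 ga yM S
  have hSa : S (algebraMap (ℚ⟮ζ⟯)⟮a⟯ E pb.gen) = σ α := by
    rw [hgen, ← hS]; rfl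
  rw [hyM', hSa] at hrep
  refine ⟨fun k => if ((e.symm k).1 : Finset ℂ) = R then
    algebraMap ℚ⟮ζ⟯ E (Algebra.trace ℚ⟮ζ⟯ (ℚ⟮ζ⟯)⟮a⟯ (pb.gen ^ ((e.symm k).2 : ℕ) * yM)) else 0, ?_, ?_, ?_, ?_⟩
  · intro k
    dsimp only
    split_ifs
    · exact SetLike.coe_mem _
    · exact zero_mem _
  · intro k
    dsimp only
    split_ifs
    · exact (Algebra.isIntegral_trace ((hgi.pow _).mul hyMi)).map (algebraMap ℚ⟮ζ⟯ E).toIntAlgHom
    · exact isIntegral_zero
  · intro k τ
    dsimp only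
    split_ifs
    · exact bnd pb g g0 ga A hA1 hAb yM B hB _ (e.symm k).2.2.le τ
    · rw [map_zero, norm_zero]; positivity
  · rw [hrep, ← e.sum_comp, Fintype.sum_prod_type]
    simp only [Equiv.symm_apply_apply]
    rw [Finset.sum_eq_single (⟨R, hR⟩ : ↥T)]
    · rw [Finset.sum_range]
      refine Finset.sum_congr rfl fun j _ => ?_
      simp
    · intro R' _ hR'
      refine Finset.sum_eq_zero fun j _ => ?_
      have : ¬ ((R' : Finset ℂ) = R) := fun h => hR' (Subtype.ext h)
      rw [if_neg this, map_zero, mul_zero]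
    · intro h; exact absurd (Finset.mem_univ _) h

end TRC

/-- TRC -/
theorem trc.{u, v} : S_TRC.{u, v} := TRC.main.{v, u}

end Pool.Agent.N76.RG
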