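import Pool.Agent.N76.RG.All
import Pool.Agent.N76.RG.Fin6
import Pool.Agent.N76.RG.Trc
import Pool.Agent.N76.RG.LoxQ
import Pool.Agent.N76.RG.Tor
import Pool.Agent.N76.RG.NsqG
import Pool.Agent.N76.RG.Eqd
import Pool.Agent.N76.RG.Spg

set_option autoImplicit false

/-!
# Real independence of the regulators of elliptic curves `z + 1/z = F(x)`, all levels: the theorems
-/

namespace Pool.Agent.N76.RG

theorem t_nsqg.{u, v} : S_NSQG.{u, v} := nsqg trc loxq (tor zer)
theorem t_spg.{u, v} : S_SPG.{u, v} := spg eqd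

end Pool.Agent.N76.RG
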