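import Pool.Agent.N76.RG.Stm

set_option autoImplicit false

/-!
# RG/CNT: the angles `2 π u / p ^ k` with `u` prime to `p` in a window (helper863)
-/

namespace Pool.Agent.N76.RG

open scoped Real

/-- CNT: the angles in a window -/
theorem cnt : S_CNT := by
  intro p α δ hp hδ hα _
  have hp2 : (2 : ℝ) ≤ p := by exact_mod_cast hp.two_le
  have hp0 : (0 : ℝ) < p := by linarith
  have hpi := Real.pi_pos
  have hα0 : 0 < α := by linarith
  obtain ⟨k₀, hk₀⟩ := pow_unbounded_of_one_lt (4 * π * p / δ) (by linarith : (1 : ℝ) < p)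
  refine ⟨δ / (4 * π * p), k₀, by positivity, fun k hk => ?_⟩
  have hP : 4 * π * p / δ < (p : ℝ) ^ k := hk₀.trans_le (pow_le_pow_right₀ (by linarith) hk)
  generalize hPe : (p : ℝ) ^ k = P at hP ⊢
  have hPpos : 0 < P := by
    rw [← hPe]
    positivity
  obtain ⟨w, hw⟩ : ∃ w : ℝ, w = P * δ / (2 * π) := ⟨_, rfl⟩
  obtain ⟨c, hc⟩ : ∃ c : ℝ, c = P * α / (2 * π) := ⟨_, rfl⟩
  have hw0 : 0 < w := by rw [hw]; positivity
  have hc0 : 0 < c := by rw [hc]; positivity
  obtain ⟨m, hm⟩ : ∃ m : ℕ, m = ⌊w / p⌋₊ := ⟨_, rfl⟩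
  obtain ⟨L, hL⟩ : ∃ L : ℕ, L = ⌊c / p⌋₊ := ⟨_, rfl⟩
  refine ⟨(Finset.range m).image (fun i => p * (L + i) + 1), ?_, ?_⟩
  · rw [Finset.card_image_of_injective _ ?_, Finset.card_range]
    · have h1 : w / p - 1 < m := by
        rw [hm]
        exact Nat.sub_one_lt_floor _
      have h2 : w / p = 2 * (δ / (4 * π * p) * P) := by
        rw [hw]
        field_simp
        ring
      have h3 : 1 ≤ δ / (4 * π * p) * P := by
        rw [div_lt_iff₀ hδ] at hP
        rw [div_mul_eq_mul_div, le_div_iff₀ (by positivity)]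
        linarith
      linarith
    · intro i j hij
      have h4 : p * (L + i) = p * (L + j) := Nat.succ_injective hij
      have h5 := Nat.eq_of_mul_eq_mul_left hp.pos h4
      omega
  · intro u hu
    obtain ⟨i, hi, rfl⟩ := Finset.mem_image.1 hu
    refine ⟨fun h => ?_, ?_⟩
    · have h6 := (Nat.dvd_add_right (Dvd.intro (L + i) rfl)).1 h
      exact hp.one_lt.ne' (Nat.dvd_one.1 h6)
    · have hb : |((p * (L + i) + 1 : ℕ) : ℝ) - c| < w := by
        push_cast
        have hL1 : (L : ℝ) * p ≤ c := by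
          rw [← le_div_iff₀ hp0, hL]
          exact Nat.floor_le (by positivity)
        have hL2 : c < (L + 1) * p := by
          rw [← div_lt_iff₀ hp0, hL]
          exact Nat.lt_floor_add_one _
        have hm1 : (m : ℝ) * p ≤ w := by
          rw [← le_div_iff₀ hp0, hm]
          exact Nat.floor_le (by positivity)
        have hi' : (i : ℝ) + 1 ≤ m := by exact_mod_cast Finset.mem_range.1 hi
        have hi0 : (0 : ℝ) ≤ i := Nat.cast_nonneg i
        have h7 : ((i : ℝ) + 1) * p ≤ w := (mul_le_mul_of_nonneg_right hi' hp0.le).trans hm1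
        have h8 : 0 ≤ (i : ℝ) * p := by positivity
        rw [abs_lt]
        constructor <;> nlinarith
      have e : 2 * π * ((p * (L + i) + 1 : ℕ) : ℝ) / P - α =
          2 * π / P * (((p * (L + i) + 1 : ℕ) : ℝ) - c) := by
        rw [hc]
        field_simp
      rw [e, abs_mul, abs_of_pos (by positivity : 0 < 2 * π / P)]
      have h9 : 2 * π / P * w = δ := by
        rw [hw]
        field_simp
      rw [← h9]
      exact mul_lt_mul_of_pos_left hb (by positivity)

end Pool.Agent.N76.RG
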