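import Pool.Agent.N76.RG.Emb

/-!
# The sign characters on the embeddings are linearly independent: second form

Variation of `Emb.lean` (helper826): the functions may have vanishing odd parts.
-/

set_option autoImplicit false

namespace Pool.Agent.N76.RG

/-- abstract form: a group `G` acting, with signs -/
theorem emb_core2.{w} {G : Type*} [Group G] (ι : Type w) [Fintype ι] (χ : ι → (G →* ℝ))
    (h1 : ∀ i, χ i ≠ 1) (hi : Function.Injective χ) (e ψ : ι → ℝ) (a : ι → ℝ)
    (h : ∀ g : G, ∑ i, a i * (e i + ψ i * χ i g) = 0) : ∀ i, a i * ψ i = 0 := by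
  classical
  have hli := linearIndependent_monoidHom G ℝ
  let F : Option ι → (G →* ℝ) := fun o => o.elim 1 χ
  have hF : Function.Injective F := by
    intro x y hxy
    cases x with
    | none =>
      cases y with
      | none => rfl
      | some j => exact absurd hxy.symm (h1 j)
    | some i =>
      cases y with
      | none => exact absurd hxy (h1 i)
      | some j => exact congrArg some (hi hxy)
  have hl2 := hli.comp F hF
  rw [Fintype.linearIndependent_iff] at hl2
  let c : Option ι → ℝ := fun o => o.elim (∑ i, a i * e i) (fun i => a i * ψ i)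
  have hc := hl2 c (by
    funext g
    have hg := h g
    rw [Finset.sum_apply, Fintype.sum_option]
    simp only [Pi.smul_apply, Function.comp_apply, smul_eq_mul, c, F, Option.elim_none, Option.elim_some,
      MonoidHom.one_apply, Pi.zero_apply]
    rw [← hg, mul_one, ← Finset.sum_add_distrib]
    refine Finset.sum_congr rfl fun i _ => ?_
    ring)
  exact fun i => hc (some i)

theorem emb2.{u, v, w} (K : Type u) (L : Type v) [Field K] [Field L] [CharZero K] [Algebra K L]
    [FiniteDimensional K L] (s₁ : L →+* ℂ) (ι : Type w) [Fintype ι] (d : ι → L)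
    (hd2 : ∀ i, d i ^ 2 ∈ (algebraMap K L).range) (hd : ∀ i, d i ∉ (algebraMap K L).range)
    (hdd : ∀ i j, i ≠ j → d i * d j ∉ (algebraMap K L).range) (e ψ : ι → ℝ)
    (A : {s : L →+* ℂ // s.comp (algebraMap K L) = s₁.comp (algebraMap K L)} → ι → ℝ)
    (hA : ∀ s i, (s.1 (d i) = s₁ (d i) → A s i = e i + ψ i) ∧ (s.1 (d i) = -s₁ (d i) → A s i = e i - ψ i))
    (a : ι → ℝ) (h : ∀ s, ∑ i, a i * A s i = 0) : ∀ i, a i * ψ i = 0 := by
  classical
  have : CharZero L := charZero_of_injective_algebraMap (algebraMap K L).injective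
  have : CharZero (AlgebraicClosure L) :=
    charZero_of_injective_algebraMap (algebraMap L (AlgebraicClosure L)).injective
  have : Algebra.IsAlgebraic K (AlgebraicClosure L) := Algebra.IsAlgebraic.trans K L (AlgebraicClosure L)
  have : IsAlgClosure K (AlgebraicClosure L) := ⟨inferInstance, inferInstance⟩
  have : IsGalois K (AlgebraicClosure L) := inferInstance
  let _ : Algebra L ℂ := s₁.toAlgebra
  let S : AlgebraicClosure L →ₐ[L] ℂ := IsAlgClosed.lift
  have hS : ∀ x : L, S (algebraMap L (AlgebraicClosure L) x) = s₁ x := fun x => S.commutes x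
  let D : ι → AlgebraicClosure L := fun i => algebraMap L (AlgebraicClosure L) (d i)
  have hinj : Function.Injective (algebraMap L (AlgebraicClosure L)) :=
    (algebraMap L (AlgebraicClosure L)).injective
  have hd0 : ∀ i, d i ≠ 0 := fun i h => hd i (by rw [h]; exact Subring.zero_mem _)
  have hD0 : ∀ i, D i ≠ 0 := fun i h => hd0 i (hinj (by rw [map_zero]; exact h))
  have hDn : ∀ i, D i ≠ -D i := fun i h => hD0 i (self_eq_neg.1 h)
  have htower : ∀ x : K, algebraMap K (AlgebraicClosure L) x
      = algebraMap L (AlgebraicClosure L) (algebraMap K L x) := fun x =>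
    IsScalarTower.algebraMap_apply K L (AlgebraicClosure L) x
  have hD : ∀ (g : AlgebraicClosure L ≃ₐ[K] AlgebraicClosure L) i, g (D i) = D i ∨ g (D i) = -D i := by
    intro g i
    obtain ⟨c, hc⟩ := hd2 i
    have h1 : (D i) ^ 2 = algebraMap K (AlgebraicClosure L) c := by
      rw [htower, hc, map_pow]
    have h2 : g (D i) ^ 2 = D i ^ 2 := by rw [← map_pow, h1, AlgEquiv.commutes]
    exact sq_eq_sq_iff_eq_or_eq_neg.1 h2
  have hfix : ∀ x : L, (∀ g : AlgebraicClosure L ≃ₐ[K] AlgebraicClosure L,
      g (algebraMap L (AlgebraicClosure L) x) = algebraMap L (AlgebraicClosure L) x) →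
      x ∈ (algebraMap K L).range := by
    intro x hx
    have h1 := (InfiniteGalois.mem_range_algebraMap_iff_fixed (k := K)
      (algebraMap L (AlgebraicClosure L) x)).2 hx
    obtain ⟨c, hc⟩ := h1
    exact ⟨c, hinj (by rw [← htower]; exact hc)⟩
  let χ : ι → ((AlgebraicClosure L ≃ₐ[K] AlgebraicClosure L) →* ℝ) := fun i =>
    { toFun := fun g => if g (D i) = D i then 1 else -1
      map_one' := by simp
      map_mul' := by
        intro g h
        have hgh : (g * h) (D i) = g (h (D i)) := rfl
        rw [hgh]
        rcases hD g i with hg | hg <;> rcases hD h i with hh | hh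
        · rw [hh, hg, if_pos rfl]; ring
        · rw [hh, map_neg, hg, if_neg (hDn i).symm, if_pos rfl]; ring
        · rw [hh, hg, if_neg (hDn i).symm, if_pos rfl]; ring
        · rw [hh, map_neg, hg, neg_neg, if_neg (hDn i).symm, if_pos rfl]; ring }
  have hχ : ∀ i g, χ i g = if g (D i) = D i then 1 else -1 := fun i g => rfl
  have hχ1 : ∀ i, χ i ≠ 1 := by
    intro i h
    refine hd i (hfix (d i) fun g => ?_)
    rcases hD g i with hg | hg
    · exact hg
    · exfalso
      have h1 := hχ i g
      rw [h, hg, if_neg (hDn i).symm, MonoidHom.one_apply] at h1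
      norm_num at h1
  have hχi : Function.Injective χ := by
    intro i j hij
    by_contra hne
    refine hdd i j hne (hfix (d i * d j) fun g => ?_)
    rw [map_mul, map_mul]
    change g (D i) * g (D j) = D i * D j
    have h1 := hχ i g
    have h2 := hχ j g
    rw [hij, h2] at h1
    rcases hD g i with hg | hg <;> rcases hD g j with hh | hh
    · rw [hg, hh]
    · exfalso
      rw [hg, hh, if_neg (hDn j).symm, if_pos rfl] at h1
      norm_num at h1
    · exfalso
      rw [hg, hh, if_neg (hDn i).symm, if_pos rfl] at h1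
      norm_num at h1
    · rw [hg, hh, neg_mul_neg]
  let sg : (AlgebraicClosure L ≃ₐ[K] AlgebraicClosure L) →
      {s : L →+* ℂ // s.comp (algebraMap K L) = s₁.comp (algebraMap K L)} := fun g =>
    ⟨(S : AlgebraicClosure L →+* ℂ).comp ((g : AlgebraicClosure L →+* AlgebraicClosure L).comp
      (algebraMap L (AlgebraicClosure L))), by
      ext x
      change S (g (algebraMap L (AlgebraicClosure L) (algebraMap K L x))) = s₁ (algebraMap K L x)
      rw [← htower, AlgEquiv.commutes, htower, hS]⟩
  have hsg : ∀ g i, (sg g).1 (d i) = S (g (D i)) := fun g i => rfl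
  have hAg : ∀ g i, A (sg g) i = e i + ψ i * χ i g := by
    intro g i
    rcases hD g i with hg | hg
    · rw [(hA (sg g) i).1 (by rw [hsg, hg]; exact hS _), hχ, hg, if_pos rfl, mul_one]
    · rw [(hA (sg g) i).2 (by rw [hsg, hg, map_neg]; exact congrArg _ (hS _)), hχ, hg,
        if_neg (hDn i).symm]
      ring
  refine emb_core2 ι χ hχ1 hχi e ψ a fun g => ?_
  have h5 := h (sg g)
  simp only [hAg] at h5
  exact h5

end Pool.Agent.N76.RG
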