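import Pool.Agent.N76.RG.Stm
import Pool.Agent.N76.EC.Main3
import Pool.Agent.N76.EC.Hyp

set_option autoImplicit false

/-!
# Real rank of the regulators of elliptic curves: assembly
-/

namespace Pool.Agent.N76.RG

open Polynomial IntermediateField Module MeasureTheory Set
open Pool.Agent.TH826.MK (Torus symb)
open Pool.Agent.TH826.HD (PRing POpen pent toP pcst pDel)
open Pool.Agent.N76.EC
open scoped Real

/-- a monic quadratic polynomial -/
theorem eval_quad {R : Type*} [CommRing R] {F : R[X]} (hF1 : F.Monic) (hdeg : F.natDegree = 2) (x : R) :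
    F.eval x = x ^ 2 + F.coeff 1 * x + F.coeff 0 := by
  rw [eval_eq_sum_range, hdeg, Finset.sum_range_succ, Finset.sum_range_succ, Finset.sum_range_succ,
    Finset.sum_range_zero]
  have h2 : F.coeff 2 = 1 := by
    rw [← hdeg]
    exact hF1
  rw [h2]
  ring

/-- the constant `w` of `F = (X + a / 2) ^ 2 + w` -/
theorem w_ne {K : Type*} [Field K] [CharZero K] {F : K[X]} (hF1 : F.Monic) (hdeg : F.natDegree = 2)
    (hsq : Squarefree (F ^ 2 - 4)) (σ : K →+* ℂ) : (F.coeff 0 - F.coeff 1 ^ 2 / 4) ^ 2 ≠ 4 := by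
  intro h
  have h2 : F.coeff 2 = 1 := by
    rw [← hdeg]
    exact hF1
  have hF : F = X ^ 2 + C (F.coeff 1) * X + C (F.coeff 0) := by
    conv_lhs => rw [F.as_sum_range_C_mul_X_pow, hdeg, Finset.sum_range_succ, Finset.sum_range_succ,
      Finset.sum_range_succ, Finset.sum_range_zero, h2]
    simp only [pow_zero, pow_one, map_one, mul_one, one_mul, zero_add]
    ring
  have h3 : (derivative F).eval (-(F.coeff 1) / 2) = 0 := by
    have h4 := congrArg derivative hF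
    rw [h4]
    simp only [derivative_add, derivative_mul, derivative_X_pow, derivative_C, derivative_X, eval_add, eval_mul,
      eval_C, eval_X, eval_pow, eval_zero, eval_one, Nat.cast_ofNat, map_ofNat]
    norm_num
    try ring
  refine Pool.Agent.N76.EC.not_crit hsq σ (x := σ (-(F.coeff 1) / 2)) ?_ ?_
  · rw [eval₂_hom, h3, map_zero]
  · rw [eval₂_hom, ← map_pow, eval_quad hF1 hdeg, ← map_ofNat σ 4, ← h]
    congr 1
    ring

/-- values at special points are polynomials in `ξ` -/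
theorem cheb_pow {N : ℕ} (u : ℕ) :
    (Chebyshev.C ℂ (u : ℤ)).eval (2 * Complex.cos (2 * π / N)) = 2 * Complex.cos (2 * π * u / N) := by
  set z : ℂ := Complex.exp (2 * π / N * Complex.I) with hz
  have hz0 : z ≠ 0 := Complex.exp_ne_zero _
  have h1 : 2 * Complex.cos (2 * π / N) = z + z⁻¹ := by
    rw [hz, ← Complex.exp_neg, Complex.cos, mul_div_cancel₀ _ two_ne_zero, neg_mul]
  have h2 : 2 * Complex.cos (2 * π * u / N) = z ^ u + (z⁻¹) ^ u := by
    rw [inv_pow, hz, ← Complex.exp_nat_mul, ← Complex.exp_neg, Complex.cos, mul_div_cancel₀ _ two_ne_zero]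
    congr 2 <;> ring
  rw [h1, Pool.Agent.N686.PF.eval_cheb ℂ _ _ (mul_inv_cancel₀ hz0), h2]

/-- special values are powers -/
theorem special_eq {L : Type*} [Field L] (s₁ : L →+* ℂ) {N : ℕ} (hN : 0 < N) {ξ x : L}
    (hξ : s₁ ξ = 2 * Complex.cos (2 * π / N)) (hx : (Chebyshev.C L N).eval x = 2) :
    ∃ u : ℕ, x = (Chebyshev.C L (u : ℤ)).eval ξ := by
  obtain ⟨η, hη⟩ : ∃ η : ℂ, η ^ 2 - s₁ x * η + 1 = 0 := by
    obtain ⟨d, hd⟩ := IsAlgClosed.exists_pow_nat_eq ((s₁ x) ^ 2 - 4) two_pos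
    exact ⟨(s₁ x + d) / 2, by linear_combination hd / 4⟩
  have hη0 : η ≠ 0 := by
    rintro rfl
    norm_num at hη
  have hsy : s₁ x = η + η⁻¹ := by
    field_simp
    linear_combination -hη
  have h3 : η ^ N + (η⁻¹) ^ N = 2 := by
    rw [← Pool.Agent.N686.PF.eval_cheb ℂ η η⁻¹ (mul_inv_cancel₀ hη0), ← hsy, ← map_cheb', hx, map_ofNat]
  have h4 : (η ^ N - 1) * (η ^ N - 1) = 0 := by
    have h5 : η ^ N * (η⁻¹) ^ N = 1 := by rw [← mul_pow, mul_inv_cancel₀ hη0, one_pow]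
    linear_combination η ^ N * h3 - h5
  have h5 : η ^ N = 1 := by
    rcases mul_eq_zero.1 h4 with h5 | h5 <;> exact sub_eq_zero.1 h5
  have : NeZero N := ⟨hN.ne'⟩
  obtain ⟨u, -, hu⟩ := (Complex.isPrimitiveRoot_exp N hN.ne').eq_pow_of_pow_eq_one h5
  refine ⟨u, s₁.injective ?_⟩
  have h6 : 2 * Complex.cos (2 * π * u / N) = η + η⁻¹ := by
    rw [← hu, ← Complex.exp_nat_mul, ← Complex.exp_neg, Complex.cos, mul_div_cancel₀ _ two_ne_zero]
    congr 2 <;> ring
  rw [map_cheb', hξ, cheb_pow, hsy, h6]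

/-- **Real rank.** -/
theorem real_rank.{u, v} (hNSQ : S_NSQ.{u, v}) (hEMB : S_EMB.{v, v, 0}) (hDET : S_DET.{v}) (hCNT : S_CNT)
    (hWIN : S_WIN) (K : Type u) [Field K] [NumberField K] (F : K[X]) (hF1 : F.Monic) (hdeg : F.natDegree = 2)
    (hF : ∀ i, IsIntegral ℤ (F.coeff i)) (hsq : Squarefree (F ^ 2 - 4)) (σ : K →+* ℂ) (p : ℕ) (hp : p.Prime) :
    ∃ (κ : ℝ) (k₀ : ℕ), 0 < κ ∧ ∀ k ≥ k₀, ∀ (L : Type v) [Field L] [NumberField L] [Algebra K L],
      ((Chebyshev.C L (p ^ k : ℕ)).comp (F.map (algebraMap K L)) - C 2).Splits →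
      ∀ s₁ : L →+* ℂ, s₁.comp (algebraMap K L) = σ →
      ∃ (r : ℕ) (s : Fin r → (L →+* ℂ)) (b : Fin (r + 1) → L)
        (Γ : Fin r → Torus (POpen (F.map (algebraMap K L)) b) 1),
        κ * (p : ℝ) ^ k ≤ r ∧ Function.Injective s ∧ (∀ i, (s i).comp (algebraMap K L) = σ) ∧
        (∀ i (x : L), (Chebyshev.C L (p ^ k : ℕ)).eval x = 2 → s i x = s₁ x) ∧
        (∀ j, (Chebyshev.C L (p ^ k : ℕ)).eval ((F.map (algebraMap K L)).eval (b j)) = 2) ∧
        (∀ i t y, (Γ i).e t (pcst (F.map (algebraMap K L)) b y) = s i y) ∧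
        (Matrix.of fun i j : Fin r =>
          (Γ i).reg (symb (pent (F.map (algebraMap K L)) b j.succ 0))).det ≠ 0 := by
  classical
  have hπ := Real.pi_pos
  obtain ⟨η, φ₀, ε, B, X, S⟩ := exists_sys (hF1.map σ) two_pos (by rw [hF1.natDegree_map, hdeg])
    (Pool.Agent.N76.EC.not_crit' hsq σ (by norm_num)) (Pool.Agent.N76.EC.not_crit' hsq σ (by norm_num))
  obtain ⟨α, δ, l, hδ, hwin, hne⟩ := hWIN S
  set w : K := F.coeff 0 - F.coeff 1 ^ 2 / 4 with hw
  have hw4 : w ^ 2 ≠ 4 := w_ne hF1 hdeg hsq σ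
  have hwi : IsIntegral ℤ (4 * w) := by
    have h1 : 4 * w = 4 * F.coeff 0 - F.coeff 1 ^ 2 := by
      rw [hw]
      ring
    rw [h1]
    refine IsIntegral.sub (IsIntegral.mul ?_ (hF 0)) ((hF 1).pow 2)
    have h2 : (4 : K) = algebraMap ℤ K 4 := by simp
    rw [h2]
    exact isIntegral_algebraMap
  have hδ2 : 0 < δ / 2 := by linarith
  have hlo : 0 < α - δ / 2 := by
    have h1 := (hwin (α - δ / 2) (by
      rw [show α - δ / 2 - α = -(δ / 2) by ring, abs_neg, abs_of_pos hδ2]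
      linarith)).1
    have h2 := abs_lt.1 h1
    have h3 := S.h0
    linarith [h2.1]
  have hhi : α + δ / 2 < π := by
    have h1 := (hwin (α + δ / 2) (by
      rw [show α + δ / 2 - α = δ / 2 by ring, abs_of_pos hδ2]
      linarith)).1
    have h2 := abs_lt.1 h1
    have h3 := S.h1
    linarith [h2.2]
  obtain ⟨κ₀, k₁, hκ₀, hU⟩ := hCNT p α (δ / 2) hp hδ2 hlo hhi
  obtain ⟨k₂, hN⟩ := hNSQ K p w hp hw4 hwi
  obtain ⟨k₃, hk₃⟩ : ∃ k₃ : ℕ, 2 / κ₀ ≤ (p : ℝ) ^ k₃ := by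
    obtain ⟨k₃, hk₃⟩ := pow_unbounded_of_one_lt (2 / κ₀) (show (1 : ℝ) < p by exact_mod_cast hp.one_lt)
    exact ⟨k₃, hk₃.le⟩
  refine ⟨κ₀ / 2, max k₁ (max k₂ k₃), by positivity, fun k hk L _ _ _ hsplit s₁ hs₁ => ?_⟩
  have hk1 : k₁ ≤ k := (le_max_left _ _).trans hk
  have hk2 : k₂ ≤ k := ((le_max_left _ _).trans (le_max_right _ _)).trans hk
  have hk3 : k₃ ≤ k := ((le_max_right _ _).trans (le_max_right _ _)).trans hk
  obtain ⟨U, hUc, hU⟩ := hU k hk1
  have hbig : 2 ≤ κ₀ * (p : ℝ) ^ k := by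
    have h1 : (p : ℝ) ^ k₃ ≤ (p : ℝ) ^ k := pow_le_pow_right₀ (by exact_mod_cast hp.one_lt.le) hk3
    have h2 := hk₃.trans h1
    rw [div_le_iff₀ hκ₀] at h2
    linarith
  have hN0 : 0 < p ^ k := pow_pos hp.pos k
  have hpk : (0 : ℝ) < (p : ℝ) ^ k := by exact_mod_cast hN0
  set F' : L[X] := F.map (algebraMap K L) with hF'
  have hFs : ∀ s : L →+* ℂ, s.comp (algebraMap K L) = σ → F'.map s = F.map σ := fun s hs => by
    rw [hF', Polynomial.map_map, hs]
  have hdeg2 : F'.natDegree = 2 := by rw [hF', hF1.natDegree_map, hdeg]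
  have hmon' : F'.Monic := hF1.map _
  have hdeg' : 0 < F'.natDegree := by
    rw [hdeg2]
    exact two_pos
  have hev : ∀ s : L →+* ℂ, s.comp (algebraMap K L) = σ → ∀ y : L, s (F'.eval y) = (F.map σ).eval (s y) := by
    intro s hs y
    rw [← hFs s hs, eval_map s, eval₂_hom]
  -- the angles
  set a : ℕ → ℝ := fun u => 2 * π * u / (p : ℝ) ^ k with ha
  have haφ : ∀ u ∈ U, |a u - φ₀| < ε := fun u hu => (hwin _ (by
    have := (hU u hu).2
    show |2 * π * u / (p : ℝ) ^ k - α| < δ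
    linarith)).1
  have hacos : ∀ u ∈ U, 0 < Real.cos (a u) * Real.cos α := fun u hu => (hwin _ (by
    have := (hU u hu).2
    show |2 * π * u / (p : ℝ) ^ k - α| < δ
    linarith)).2
  have hane : ∀ u ∈ U, J X η B l 0 (a u) ≠ J X η B l 1 (a u) := fun u hu => hne _ (by
    have := (hU u hu).2
    show |2 * π * u / (p : ℝ) ^ k - α| < δ
    linarith)
  have hainj : ∀ u u' : ℕ, a u = a u' → u = u' := by
    intro u u' h
    simp only [ha] at h
    rw [div_left_inj' hpk.ne'] at h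
    have h1 := mul_left_cancel₀ (by positivity : (2 * π) ≠ 0) h
    exact_mod_cast h1
  have hcosa : ∀ u : ℕ, (2 : ℂ) * Complex.cos ((a u : ℝ) : ℂ) = 2 * Complex.cos (2 * π * u / (p : ℂ) ^ k) := by
    intro u
    simp only [ha]
    push_cast
    rfl
  have hcheb : ∀ u : ℕ, (Chebyshev.C ℂ (p ^ k : ℕ)).eval (2 * Complex.cos ((a u : ℝ) : ℂ)) = 2 := by
    intro u
    have h1 := cheb_cos hN0 (u : ℤ)
    have h2 : (a u : ℝ) = 2 * π * (((u : ℤ) : ℝ) / ((p ^ k : ℕ) : ℝ)) := by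
      simp only [ha]
      push_cast
      ring
    rw [h2]
    exact h1
  -- the points
  have hpt : ∀ u : {u // u ∈ U}, ∃ b : L, s₁ b = B 0 (a u : ℝ) := by
    intro u
    refine exists_point hdeg' hN0 hsplit ?_
    rw [hFs s₁ hs₁, S.Lev 0 _ (real_mem (haφ u u.2)), hcheb]
  choose bb hbb using hpt
  obtain ⟨ξ, hξ⟩ : ∃ ξ : L, s₁ ξ = 2 * Complex.cos (2 * π / (p : ℂ) ^ k) := by
    obtain ⟨c₀, hc₀⟩ : ∃ c₀ : ℂ, (F.map σ).eval c₀ = 2 * Complex.cos ((a 1 : ℝ) : ℂ) := by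
      have h1 : (F.map σ - C (2 * Complex.cos ((a 1 : ℝ) : ℂ))).degree ≠ 0 := by
        rw [degree_sub_C]
        · rw [degree_eq_natDegree (hF1.map σ).ne_zero, hF1.natDegree_map, hdeg]
          norm_num
        · rw [degree_eq_natDegree (hF1.map σ).ne_zero, hF1.natDegree_map, hdeg]
          norm_num
      obtain ⟨c₀, hc₀⟩ := IsAlgClosed.exists_root _ h1
      refine ⟨c₀, ?_⟩
      rwa [IsRoot.def, eval_sub, eval_C, sub_eq_zero] at hc₀
    obtain ⟨y, hy⟩ := exists_point (s := s₁) (x := c₀) hdeg' hN0 hsplit (by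
      rw [hFs s₁ hs₁, hc₀, hcheb])
    refine ⟨F'.eval y, ?_⟩
    rw [hev s₁ hs₁, hy, hc₀, hcosa, Nat.cast_one, mul_one]
  have hξ' : s₁ ξ = 2 * Complex.cos (2 * π / ((p ^ k : ℕ) : ℂ)) := by
    rw [hξ]
    push_cast
    rfl
  have hxval : ∀ u : {u // u ∈ U}, s₁ (F'.eval (bb u)) = 2 * Complex.cos ((a u : ℝ) : ℂ) := fun u => by
    rw [hev s₁ hs₁, hbb, S.Lev 0 _ (real_mem (haφ u u.2))]
  have hxcheb : ∀ u : {u // u ∈ U}, (Chebyshev.C L (p ^ k : ℕ)).eval (F'.eval (bb u)) = 2 := fun u => by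
    apply s₁.injective
    rw [map_cheb', hxval, hcheb, map_ofNat]
  -- polynomials in `ξ`
  have hmemcheb : ∀ u : ℤ, (Chebyshev.C L u).eval ξ ∈ K⟮ξ⟯ := by
    intro u
    have h1 : (Chebyshev.C L u).eval ξ = aeval ξ (Chebyshev.C K u) := by
      rw [aeval_def, eval₂_eq_eval_map, Chebyshev.map_C]
    rw [h1]
    exact aeval_mem_adjoin_singleton K ξ |> fun h => algebra_adjoin_le_adjoin K {ξ} h
  have hspec : ∀ x : L, (Chebyshev.C L (p ^ k : ℕ)).eval x = 2 → x ∈ K⟮ξ⟯ := by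
    intro x hx
    obtain ⟨u, hu⟩ := special_eq s₁ hN0 hξ' hx
    rw [hu]
    exact hmemcheb u
  set d : {u // u ∈ U} → L := fun u => 2 * bb u + algebraMap K L (F.coeff 1) with hd
  have hdsq : ∀ u, d u ^ 2 = 4 * (F'.eval (bb u) - algebraMap K L w) := by
    intro u
    rw [eval_quad hmon' hdeg2, hF', coeff_map, coeff_map, hw, map_sub, map_div₀, map_pow, map_ofNat]
    simp only [hd]
    ring
  have hnsq := fun u u' : {u // u ∈ U} => hN k hk2 L s₁ ξ hξ u.1 u'.1 (F'.eval (bb u)) (F'.eval (bb u')) (d u) (d u')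
    (hU u u.2).1 (hU u' u'.2).1 (by rw [hxval, hcosa]) (by rw [hxval, hcosa]) (hdsq u) (hdsq u')
  have hrange : ∀ y : L, y ∈ (algebraMap K⟮ξ⟯ L).range ↔ y ∈ K⟮ξ⟯ := by
    intro y
    constructor
    · rintro ⟨z, rfl⟩
      exact z.2
    · intro hy
      exact ⟨⟨y, hy⟩, rfl⟩
  have hd1 : ∀ u, d u ^ 2 ∈ (algebraMap K⟮ξ⟯ L).range := by
    intro u
    rw [hrange, hdsq]
    refine mul_mem ?_ (sub_mem (hspec _ (hxcheb u)) (K⟮ξ⟯.algebraMap_mem w))
    have h4 := K⟮ξ⟯.algebraMap_mem 4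
    rwa [map_ofNat] at h4
  have hd2 : ∀ u, d u ∉ (algebraMap K⟮ξ⟯ L).range := by
    intro u
    rw [hrange]
    exact (hnsq u u).1
  have hcosne : ∀ u u' : {u // u ∈ U}, u ≠ u' → Real.cos (a u) ≠ Real.cos (a u') := by
    intro u u' huu h
    apply huu
    apply Subtype.ext
    apply hainj
    have h1 := abs_lt.1 (haφ u u.2)
    have h2 := abs_lt.1 (haφ u' u'.2)
    have h3 := S.h0
    have h4 := S.h1
    refine Real.injOn_cos ⟨?_, ?_⟩ ⟨?_, ?_⟩ h <;> linarith [h1.1, h1.2, h2.1, h2.2]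
  have hd3 : ∀ u u', u ≠ u' → d u * d u' ∉ (algebraMap K⟮ξ⟯ L).range := by
    intro u u' huu
    rw [hrange]
    refine (hnsq u u').2 ?_ ?_
    · intro h
      have h1 := congrArg s₁ h
      rw [hxval, hxval] at h1
      have h2 := mul_left_cancel₀ two_ne_zero h1
      rw [← Complex.ofReal_cos, ← Complex.ofReal_cos] at h2
      exact hcosne u u' huu (Complex.ofReal_injective h2).symm
    · intro h
      have h1 := congrArg s₁ h
      rw [map_neg, hxval, hxval, ← mul_neg] at h1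
      have h2 := mul_left_cancel₀ two_ne_zero h1
      rw [← Complex.ofReal_cos, ← Complex.ofReal_cos, ← Complex.ofReal_neg] at h2
      have h3 := Complex.ofReal_injective h2
      have h4 := hacos u u.2
      have h5 := hacos u' u'.2
      rw [h3] at h5
      linarith
  -- the embeddings
  set Em := {s : L →+* ℂ // s.comp (algebraMap K⟮ξ⟯ L) = s₁.comp (algebraMap K⟮ξ⟯ L)} with hEm
  have hEσ : ∀ s : Em, s.1.comp (algebraMap K L) = σ := by
    intro s
    rw [← hs₁, IsScalarTower.algebraMap_eq K K⟮ξ⟯ L, ← RingHom.comp_assoc, ← RingHom.comp_assoc, s.2]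
  have hEx : ∀ (s : Em) (y : L), y ∈ K⟮ξ⟯ → s.1 y = s₁ y := by
    intro s y hy
    exact RingHom.congr_fun s.2 ⟨y, hy⟩
  set A : Em → {u // u ∈ U} → ℝ := fun s u => P (X l) (Zp η) (s.1 (bb u)) with hA
  have hsK : ∀ (s : Em) (y : K), s.1 (algebraMap K L y) = s₁ (algebraMap K L y) := fun s y =>
    hEx s _ (K⟮ξ⟯.algebraMap_mem y)
  have hcase : ∀ (s : Em) (u : {u // u ∈ U}), ∃ β : Fin 2, s.1 (bb u) = B β (a u : ℝ) := by
    intro s u
    have h1 := S.prodL (real_mem (haφ u u.2)) (s.1 (bb u))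
    rw [← hev s.1 (hEσ s), hEx s _ (hspec _ (hxcheb u)), hxval, sub_self] at h1
    obtain ⟨β, -, hβ⟩ := Finset.prod_eq_zero_iff.1 h1.symm
    exact ⟨β, sub_eq_zero.1 hβ⟩
  have hdne : ∀ u, d u ≠ 0 := fun u h => hd2 u (by
    rw [h]
    exact zero_mem _)
  have hsd : ∀ (s : L →+* ℂ) (u), s (d u) = 2 * s (bb u) + s (algebraMap K L (F.coeff 1)) := by
    intro s u
    simp only [hd]
    rw [map_add, map_mul, map_ofNat]
  have hA' : ∀ (s : Em) (u : {u // u ∈ U}),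
      (s.1 (d u) = s₁ (d u) → A s u = (J X η B l 0 (a u) + J X η B l 1 (a u)) / 2 +
        (J X η B l 0 (a u) - J X η B l 1 (a u)) / 2) ∧
      (s.1 (d u) = -s₁ (d u) → A s u = (J X η B l 0 (a u) + J X η B l 1 (a u)) / 2 -
        (J X η B l 0 (a u) - J X η B l 1 (a u)) / 2) := by
    intro s u
    constructor
    · intro h
      have h1 : s.1 (bb u) = s₁ (bb u) := by
        rw [hsd, hsd, hsK] at h
        exact mul_left_cancel₀ two_ne_zero (add_right_cancel h)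
      show P (X l) (Zp η) (s.1 (bb u)) = _
      rw [h1, hbb]
      unfold J
      ring
    · intro h
      obtain ⟨β, hβ⟩ := hcase s u
      have hβ1 : β = 1 := by
        by_contra hcon
        have hβ0 : β = 0 := by omega
        rw [hβ0, ← hbb] at hβ
        have h1 : s.1 (d u) = s₁ (d u) := by rw [hsd, hsd, hsK, hβ]
        rw [h1] at h
        have h2 : s₁ (d u) = 0 := self_eq_neg.1 h
        exact hdne u ((map_eq_zero s₁).1 h2)
      show P (X l) (Zp η) (s.1 (bb u)) = _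
      rw [hβ, hβ1]
      unfold J
      ring
  have hUne : U.Nonempty := by
    rw [← Finset.card_pos]
    have h1 : (0 : ℝ) < U.card := by linarith
    exact_mod_cast h1
  obtain ⟨u₀, hu₀⟩ := hUne
  have hKL : FiniteDimensional K L := FiniteDimensional.right ℚ K L
  have hfd : FiniteDimensional K⟮ξ⟯ L := inferInstance
  have hlin := hEMB K⟮ξ⟯ L s₁ {u // u ∈ U} d hd1 hd2 hd3
    (fun u => (J X η B l 0 (a u) + J X η B l 1 (a u)) / 2) (fun u => (J X η B l 0 (a u) - J X η B l 1 (a u)) / 2)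
    (fun u => by
      have := sub_ne_zero.2 (hane u u.2)
      exact div_ne_zero this two_ne_zero) A hA' ⟨u₀, hu₀⟩
  -- the number of points
  set r : ℕ := U.card - 1 with hr
  have hcard : Fintype.card {i : {u // u ∈ U} // i ≠ ⟨u₀, hu₀⟩} = r := by
    rw [Fintype.card_subtype_compl, Fintype.card_subtype_eq, Fintype.card_coe]
  set g : Fin r ≃ {i : {u // u ∈ U} // i ≠ ⟨u₀, hu₀⟩} := (Fintype.equivFinOfCardEq hcard).symm with hg
  have hfin : Finite Em := inferInstance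
  obtain ⟨e, he, hdet⟩ := hDET Em r (fun j s => A s (g j).1 - A s ⟨u₀, hu₀⟩) (hlin.comp g g.injective)
  set Y : Fin (r + 1) → {u // u ∈ U} := Fin.cons ⟨u₀, hu₀⟩ fun j => (g j).1 with hY
  have S' : ∀ i : Fin r, Sys (F'.map (e i).1) 2 η φ₀ ε B X := fun i => by
    rw [hFs _ (hEσ (e i))]
    exact S
  choose β hβ using hcase
  choose Γ hΓ1 hΓ2 using fun i : Fin r => exists_loop (S' i) (fun z : Fin (r + 1) => bb (Y z))
    (fun z => β (e i) (Y z)) (fun z => a (Y z)) (fun z => haφ _ (Y z).2) (fun z => hβ (e i) (Y z)) l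
  refine ⟨r, fun i => (e i).1, fun z => bb (Y z), Γ, ?_, ?_, fun i => hEσ (e i), fun i x hx => hEx _ _ (hspec x hx),
    fun j => hxcheb _, hΓ1, ?_⟩
  · have h1 : (r : ℝ) = U.card - 1 := by
      rw [hr, Nat.cast_sub, Nat.cast_one]
      exact Finset.card_pos.2 ⟨u₀, hu₀⟩
    rw [h1]
    linarith
  · intro i j hij
    exact he (Subtype.ext hij)
  · have h1 : (Matrix.of fun i j : Fin r => (Γ i).reg (symb (pent F' (fun z => bb (Y z)) j.succ 0))) =
        Matrix.of fun i j : Fin r => A (e i) (g j).1 - A (e i) ⟨u₀, hu₀⟩ := by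
      ext i j
      rw [Matrix.of_apply, Matrix.of_apply, hΓ2]
      unfold J
      rw [← hβ, ← hβ]
      rfl
    rw [h1]
    exact hdet

end Pool.Agent.N76.RG
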