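import Pool.Agent.N76.RG.Stm

set_option autoImplicit false

/-!
# Project RG, second part: special points of all large `p`-power levels at the same time. Statements.
-/

namespace Pool.Agent.N76.RG

open Polynomial IntermediateField Module
open scoped Real

/-- RED: a square root, over a field of the cyclotomic tower, in the tower -/
def S_RED.{u, v} : Prop := ∀ (K : Type u) [Field K] [NumberField K] (p : ℕ), p.Prime → ∃ c₀ : ℕ, ∀ k' ≥ c₀, ∀ k ≥ k',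
  ∀ (E : Type v) [Field E] [Algebra K E] (ζ : E), IsPrimitiveRoot ζ (p ^ k) → ∀ y ∈ K⟮ζ⟯,
    y ^ 2 ∈ K⟮ζ ^ p ^ (k - k')⟯ →
      y ∈ K⟮ζ ^ p ^ (k - k')⟯ ∨ (p = 2 ∧ k' < k ∧ y ∈ K⟮ζ ^ p ^ (k - (k' + 1))⟯)

/-- SQR2: squares with few components, the second exponent is arbitrary -/
def S_SQR2.{u, v} : Prop := ∀ (p c N : ℕ), p.Prime → ∃ k₀ : ℕ, ∀ k ≥ k₀, ∀ (K : Type u) (E : Type v) [Field K]
  [Field E] [CharZero E] [Algebra K E] (w : K) (ζ : E), w ^ 2 ≠ 4 → IsPrimitiveRoot ζ (p ^ k) →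
  (∀ [NeZero (p ^ (k - c))], Dir K ζ (p ^ (k - c))) → ∀ u u' : ℤ,
  (¬ (p : ℤ) ∣ u ∨ (p = 2 ∧ ¬ (4 : ℤ) ∣ u)) →
  (∀ y : E, Few K ζ (p ^ (k - c)) N y → y ^ 2 ≠ ζ ^ u + ζ ^ (-u) - algebraMap K E w) ∧
  ∀ y : E, Few K ζ (p ^ (k - c)) N y → y ≠ 0 →
    y ^ 2 = (ζ ^ u + ζ ^ (-u) - algebraMap K E w) * (ζ ^ u' + ζ ^ (-u') - algebraMap K E w) →
    ζ ^ u' + ζ ^ (-u') = ζ ^ u + ζ ^ (-u) ∨ ζ ^ u' + ζ ^ (-u') = -(ζ ^ u + ζ ^ (-u))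

/-- NSQ2: independence of the quadratic extensions, all levels at the same time -/
def S_NSQ2.{u, v} : Prop := ∀ (K : Type u) [Field K] [NumberField K] (p : ℕ) (w : K), p.Prime → w ^ 2 ≠ 4 →
  IsIntegral ℤ (4 * w) → ∃ k₀ : ℕ, ∀ (k : ℕ) (L : Type v) [Field L] [NumberField L] [Algebra K L] (s : L →+* ℂ)
  (ξ : L), s ξ = 2 * Complex.cos (2 * π / (p : ℂ) ^ k) → ∀ (u u' : ℕ) (x x' d d' : L),
  ¬ p ^ (k + 1 - k₀) ∣ u → ¬ p ^ (k + 1 - k₀) ∣ u' →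
  s x = 2 * Complex.cos (2 * π * u / (p : ℂ) ^ k) → s x' = 2 * Complex.cos (2 * π * u' / (p : ℂ) ^ k) →
  d ^ 2 = 4 * (x - algebraMap K L w) → d' ^ 2 = 4 * (x' - algebraMap K L w) →
  d ∉ K⟮ξ⟯ ∧ (x' ≠ x → x' ≠ -x → d * d' ∉ K⟮ξ⟯)

/-- SPR: conjugates of special values in a given window -/
def S_SPR.{u, v} : Prop := ∀ (K : Type u) [Field K] [NumberField K] (p : ℕ) (α δ : ℝ), p.Prime → 0 < δ →
  ∃ k₀ : ℕ, ∀ k ≥ k₀, ∀ (L : Type v) [Field L] [NumberField L] [Algebra K L] (s₁ : L →+* ℂ) (x : L) (u : ℕ),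
    ¬ p ∣ u → s₁ x = 2 * Complex.cos (2 * π * u / (p : ℂ) ^ k) → ∃ (s : L →+* ℂ) (β : ℝ),
      s.comp (algebraMap K L) = s₁.comp (algebraMap K L) ∧ |β - α| < δ ∧ s x = 2 * Complex.cos β

end Pool.Agent.N76.RG
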