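import Pool.Agent.N76.RG.Fin
import Pool.Agent.N76.RG.Stm2
import Pool.Agent.N76.RG.Emb2
import Pool.Agent.N76.EC.LG2

set_option autoImplicit false

/-!
# Independence over `ℝ` of the regulators of special points of all large `p`-power levels: assembly
-/

namespace Pool.Agent.N76.RG

open Polynomial IntermediateField Module MeasureTheory Set
open Pool.Agent.TH826.MK (KQ Torus symb)
open Pool.Agent.TH826.HD (PRing POpen pent toP pcst pDel)
open Pool.Agent.TH826.UH (pr NZ mkS mkS_e mkS_reg PtS)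
open Pool.Agent.N76.EC
open scoped Real

/-- special values are cosines of rational angles -/
theorem special_angle {L : Type*} [Field L] (s₁ : L →+* ℂ) {N : ℕ} (hN : 0 < N) {x : L}
    (hx : (Chebyshev.C L N).eval x = 2) : ∃ u : ℕ, s₁ x = 2 * Complex.cos (2 * π * u / N) := by
  obtain ⟨η, hη⟩ : ∃ η : ℂ, η ^ 2 - s₁ x * η + 1 = 0 := by
    obtain ⟨d, hd⟩ := IsAlgClosed.exists_pow_nat_eq ((s₁ x) ^ 2 - 4) two_pos
    exact ⟨(s₁ x + d) / 2, by linear_combination hd / 4⟩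
  have hη0 : η ≠ 0 := by
    rintro rfl
    norm_num at hη
  have hsy : s₁ x = η + η⁻¹ := by
    field_simp
    linear_combination -hη
  have h3 : η ^ N + (η⁻¹) ^ N = 2 := by
    rw [← Pool.Agent.N686.PF.eval_cheb ℂ η η⁻¹ (mul_inv_cancel₀ hη0), ← hsy, ← map_cheb', hx, map_ofNat]
  have h4 : (η ^ N - 1) * (η ^ N - 1) = 0 := by
    have h5 : η ^ N * (η⁻¹) ^ N = 1 := by rw [← mul_pow, mul_inv_cancel₀ hη0, one_pow]
    linear_combination η ^ N * h3 - h5
  have h5 : η ^ N = 1 := by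
    rcases mul_eq_zero.1 h4 with h5 | h5 <;> exact sub_eq_zero.1 h5
  have : NeZero N := ⟨hN.ne'⟩
  obtain ⟨u, -, hu⟩ := (Complex.isPrimitiveRoot_exp N hN.ne').eq_pow_of_pow_eq_one h5
  refine ⟨u, ?_⟩
  rw [hsy, ← hu, ← Complex.exp_nat_mul, ← Complex.exp_neg, Complex.cos, mul_div_cancel₀ _ two_ne_zero]
  congr 2 <;> ring

/-- cosines of rational angles are special -/
theorem angle_special {L : Type*} [Field L] (s₁ : L →+* ℂ) {N : ℕ} (hN : 0 < N) {x : L} {u : ℕ}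
    (hx : s₁ x = 2 * Complex.cos (2 * π * u / N)) : (Chebyshev.C L N).eval x = 2 := by
  apply s₁.injective
  rw [map_cheb', hx, map_ofNat]
  have h1 := cheb_cos hN (u : ℤ)
  have h2 : ((2 * π * (((u : ℤ) : ℝ) / (N : ℝ)) : ℝ) : ℂ) = 2 * π * u / N := by
    push_cast
    ring
  rw [h2] at h1
  exact h1

/-- **A loop over the embedding `s`**, general special points -/
theorem exists_loop' {K : Type*} [Field K] {F : K[X]} {n r : ℕ} {σ : K →+* ℂ} {η φ₀ ε : ℝ}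
    {B : Fin n → ℂ → ℂ} {X : Fin n → ℝ → ℂ} (S : Sys (F.map σ) n η φ₀ ε B X) {L : Type*} [Field L] [Algebra K L]
    (s : Em L σ) {N : ℕ} (hN : 0 < N) (b : Fin r → L) (hb : ∀ m, b m ∈ Sp F L N) (l : Fin n) :
    ∃ Γ : Torus (POpen (F.map (algebraMap K L)) b) 1,
      (∀ t (y : L), Γ.e t (pcst (F.map (algebraMap K L)) b y) = s.1 y) ∧
      ∀ m k, Γ.reg (symb (pent (F.map (algebraMap K L)) b m k)) =
        P (X l) (Zp η) (s.1 (b m)) - P (X l) (Zp η) (s.1 (b k)) := by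
  have heq : ∀ t, Zp η t ^ 2 - (F.map (algebraMap K L)).eval₂ s.1 (X l t) * Zp η t + 1 = 0 := by
    intro t
    rw [← eval_map, Polynomial.map_map, s.2, S.Xev]
    have h1 : Zp η t * (Zp η t)⁻¹ = 1 := mul_inv_cancel₀ (Zp_ne_zero η t)
    rw [← Zp_add_inv]
    linear_combination -h1
  have hP : ∀ t, PtS s.1 (F.map (algebraMap K L)) b (X l t) (Zp η t) := by
    intro t
    exact ⟨heq t, fun m => S.avoid_Sp s hN (hb m) l t⟩
  refine ⟨mkS (S.loop l).hX (nz_Zp η).smooth (S.loop l).perX (Zp_add_one η) hP, fun t y => ?_, fun m k => ?_⟩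
  · rw [mkS_e, PtS.evA_pcst]
  · rw [mkS_reg (S.loop l).hX (nz_Zp η)]
    rfl

/-- a special value of exact level `p ^ k` -/
theorem level_angle {L : Type*} [Field L] (s₁ : L →+* ℂ) {p k : ℕ} (hp : p.Prime) (hk : 1 ≤ k) {x : L}
    (h1 : (Chebyshev.C L (p ^ k : ℕ)).eval x = 2) (h2 : (Chebyshev.C L (p ^ (k - 1) : ℕ)).eval x ≠ 2) :
    ∃ u : ℕ, ¬ p ∣ u ∧ s₁ x = 2 * Complex.cos (2 * π * u / (p : ℂ) ^ k) := by
  obtain ⟨u, hu⟩ := special_angle s₁ (pow_pos hp.pos k) h1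
  rw [Nat.cast_pow] at hu
  refine ⟨u, ?_, hu⟩
  rintro ⟨t, rfl⟩
  apply h2
  refine angle_special s₁ (pow_pos hp.pos (k - 1)) (u := t) ?_
  rw [hu]
  congr 2
  have hp0 : (p : ℂ) ≠ 0 := Nat.cast_ne_zero.2 hp.ne_zero
  have h3 : (p : ℂ) ^ k = p * (p : ℂ) ^ (k - 1) := by
    rw [← pow_succ']
    congr 1
    omega
  rw [h3]
  push_cast
  field_simp

/-- higher levels -/
theorem level_mono {L : Type*} [Field L] (s₁ : L →+* ℂ) {p a b : ℕ} (hp : p.Prime) (hab : a ≤ b) {x : L}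
    (h1 : (Chebyshev.C L (p ^ a : ℕ)).eval x = 2) : (Chebyshev.C L (p ^ b : ℕ)).eval x = 2 := by
  obtain ⟨u, hu⟩ := special_angle s₁ (pow_pos hp.pos a) h1
  refine angle_special s₁ (pow_pos hp.pos b) (u := u * p ^ (b - a)) ?_
  rw [hu]
  congr 2
  have hp0 : (p : ℂ) ≠ 0 := Nat.cast_ne_zero.2 hp.ne_zero
  have h3 : (p : ℂ) ^ b = (p : ℂ) ^ a * (p : ℂ) ^ (b - a) := by
    rw [← pow_add]
    congr 1
    omega
  push_cast
  rw [h3]
  field_simp

/-- for odd `p` the negative of a special value of level `p ^ a` is not special of a level `p ^ b` -/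
theorem neg_level {L : Type*} [Field L] (s₁ : L →+* ℂ) {p a : ℕ} (hp : p.Prime) (h2 : p ≠ 2) {x : L}
    (h1 : (Chebyshev.C L (p ^ a : ℕ)).eval x = 2) : (Chebyshev.C L (p ^ a : ℕ)).eval (-x) ≠ 2 := by
  obtain ⟨u, hu⟩ := special_angle s₁ (pow_pos hp.pos a) h1
  intro h3
  have h4 := congrArg s₁ h3
  rw [map_cheb', map_neg, map_ofNat] at h4
  have h5 := congrArg s₁ h1
  rw [map_cheb', map_ofNat] at h5
  set z : ℂ := Complex.exp ((2 * π * u / ((p ^ a : ℕ) : ℂ)) * Complex.I) with hz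
  have hz0 : z ≠ 0 := Complex.exp_ne_zero _
  have h6 : s₁ x = z + z⁻¹ := by
    rw [hu, hz, ← Complex.exp_neg, Complex.cos, mul_div_cancel₀ _ two_ne_zero, neg_mul]
  rw [h6, Pool.Agent.N686.PF.eval_cheb ℂ _ _ (mul_inv_cancel₀ hz0)] at h5
  have h7 : -(z + z⁻¹) = (-z) + (-z)⁻¹ := by
    rw [inv_neg]
    ring
  rw [h6, h7, Pool.Agent.N686.PF.eval_cheb ℂ _ _ (mul_inv_cancel₀ (neg_ne_zero.2 hz0))] at h4
  have hodd : Odd (p ^ a) := (hp.odd_of_ne_two h2).pow
  rw [inv_neg, hodd.neg_pow, hodd.neg_pow] at h4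
  have h8 : (4 : ℂ) = 0 := by linear_combination -h4 - h5
  norm_num at h8

/-- exact level at least `p ^ 2`: not `2` or `-2` -/
theorem level_ne_four {L : Type*} [Field L] (s₁ : L →+* ℂ) {p k : ℕ} (hp : p.Prime) (hk : 2 ≤ k) {x : L}
    (h1 : (Chebyshev.C L (p ^ k : ℕ)).eval x = 2) (h2 : (Chebyshev.C L (p ^ (k - 1) : ℕ)).eval x ≠ 2) : x ^ 2 ≠ 4 := by
  intro h
  apply h2
  have h3 : (x - 2) * (x + 2) = 0 := by linear_combination h
  rcases mul_eq_zero.1 h3 with h4 | h4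
  · refine angle_special s₁ (pow_pos hp.pos (k - 1)) (u := 0) ?_
    rw [sub_eq_zero.1 h4, map_ofNat, Nat.cast_zero, mul_zero, zero_div, Complex.cos_zero, mul_one]
  · have h5 : x = -2 := eq_neg_of_add_eq_zero_left h4
    by_cases hp2 : p = 2
    · subst hp2
      refine angle_special s₁ (pow_pos hp.pos (k - 1)) (u := 2 ^ (k - 2)) ?_
      rw [h5, map_neg, map_ofNat]
      have h6 : (2 * π * ((2 ^ (k - 2) : ℕ) : ℂ) / ((2 ^ (k - 1) : ℕ) : ℂ)) = π := by
        have h7 : (2 : ℂ) ^ (k - 1) = 2 * (2 : ℂ) ^ (k - 2) := by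
          rw [← pow_succ']
          congr 1
          omega
        push_cast
        rw [h7]
        field_simp
      rw [h6, Complex.cos_pi]
      ring
    · exfalso
      refine neg_level s₁ hp hp2 (x := 2) (a := k) ?_ (by rw [← h5]; exact h1)
      refine angle_special s₁ (pow_pos hp.pos k) (u := 0) ?_
      rw [map_ofNat, Nat.cast_zero, mul_zero, zero_div, Complex.cos_zero, mul_one]

end Pool.Agent.N76.RG
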