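import Pool.Agent.N76.RG.Fin2

set_option autoImplicit false

/-!
# Independence over `ℝ` of the regulators of special points of all large `p`-power levels: the main argument
-/

namespace Pool.Agent.N76.RG

open Polynomial IntermediateField Module MeasureTheory Set
open Pool.Agent.TH826.MK (KQ Torus symb)
open Pool.Agent.TH826.HD (PRing POpen pent toP pcst pDel)
open Pool.Agent.N76.EC
open scoped Real

/-- **The vectors of the regulators are linearly independent over `ℝ`.** -/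
theorem indep_core.{u, v} (hNSQ : S_NSQ2.{u, v}) (hSPR : S_SPR.{u, v}) (hWIN : S_WIN)
    (K : Type u) [Field K] [NumberField K] (F : K[X]) (hF1 : F.Monic) (hdeg : F.natDegree = 2)
    (hF : ∀ i, IsIntegral ℤ (F.coeff i)) (hsq : Squarefree (F ^ 2 - 4)) (σ : K →+* ℂ) (p : ℕ) (hp : p.Prime)
    {η φ₀ ε : ℝ} {B : Fin 2 → ℂ → ℂ} {X : Fin 2 → ℝ → ℂ} (S : Sys (F.map σ) 2 η φ₀ ε B X) :
    ∃ (l : Fin 2) (k₀ : ℕ), 2 ≤ k₀ ∧ ∀ (L : Type v) [Field L] [NumberField L] [Algebra K L] (r : ℕ) (b : Fin (r + 1) → L)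
      (k : Fin (r + 1) → ℕ),
      (∀ i, k₀ ≤ k i ∧ (Chebyshev.C L (p ^ k i : ℕ)).eval ((F.map (algebraMap K L)).eval (b i)) = 2 ∧
        (Chebyshev.C L (p ^ (k i - 1) : ℕ)).eval ((F.map (algebraMap K L)).eval (b i)) ≠ 2) →
      (∀ i j, i ≠ j → (F.map (algebraMap K L)).eval (b i) ≠ (F.map (algebraMap K L)).eval (b j) ∧
        (p = 2 → (F.map (algebraMap K L)).eval (b i) ≠ -(F.map (algebraMap K L)).eval (b j))) →
      ∀ (a : Fin (r + 1) → ℝ) (a' : ℝ), (∀ s : Em L σ, ∑ i, a i * P (X l) (Zp η) (s.1 (b i)) +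
        a' * P (X l) (Zp η) (s.1 (-algebraMap K L (F.coeff 1) - b 0)) = 0) →
        ∀ i, a i = if i = 0 then a' else 0 := by
  classical
  have hπ := Real.pi_pos
  obtain ⟨α, δ, l, hδ, hwin, hne⟩ := hWIN S
  set w : K := F.coeff 0 - F.coeff 1 ^ 2 / 4 with hw
  have hw4 : w ^ 2 ≠ 4 := w_ne hF1 hdeg hsq σ
  have hwi : IsIntegral ℤ (4 * w) := by
    have h1 : 4 * w = 4 * F.coeff 0 - F.coeff 1 ^ 2 := by
      rw [hw]
      ring
    rw [h1]
    refine IsIntegral.sub (IsIntegral.mul ?_ (hF 0)) ((hF 1).pow 2)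
    have h2 : (4 : K) = algebraMap ℤ K 4 := by simp
    rw [h2]
    exact isIntegral_algebraMap
  obtain ⟨k₁, hN⟩ := hNSQ K p w hp hw4 hwi
  obtain ⟨k₂, hS⟩ := hSPR K p α δ hp hδ
  refine ⟨l, max 2 (max k₁ k₂), le_max_left _ _, fun L _ _ _ r b k hb hbne a a' ha i => ?_⟩
  have hk2 : ∀ i, 2 ≤ k i := fun i => (le_max_left _ _).trans (hb i).1
  have hk1 : ∀ i, k₁ ≤ k i := fun i => ((le_max_left _ _).trans (le_max_right _ _)).trans (hb i).1
  have hk3 : ∀ i, k₂ ≤ k i := fun i => ((le_max_right _ _).trans (le_max_right _ _)).trans (hb i).1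
  set F' : L[X] := F.map (algebraMap K L) with hF'
  have hdeg2 : F'.natDegree = 2 := by rw [hF', hF1.natDegree_map, hdeg]
  have hmon' : F'.Monic := hF1.map _
  have hev : ∀ s : L →+* ℂ, s.comp (algebraMap K L) = σ → ∀ y : L, s (F'.eval y) = (F.map σ).eval (s y) := by
    intro s hs y
    have hFs : F'.map s = F.map σ := by rw [hF', Polynomial.map_map, hs]
    rw [← hFs, eval_map s, eval₂_hom]
  set x : Fin (r + 1) → L := fun i => F'.eval (b i) with hx
  obtain ⟨⟨s₁, hs₁⟩⟩ := Em_nonempty L σ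
  -- the highest level
  obtain ⟨m, -, hm⟩ := Finset.exists_max_image Finset.univ k ⟨i, Finset.mem_univ _⟩
  have hm : ∀ j, k j ≤ k m := fun j => hm j (Finset.mem_univ _)
  have hN0 : 0 < p ^ k m := pow_pos hp.pos _
  have hpC : (p : ℂ) ≠ 0 := Nat.cast_ne_zero.2 hp.ne_zero
  have hpow : ∀ j, (p : ℂ) ^ k m = (p : ℂ) ^ k j * (p : ℂ) ^ (k m - k j) := fun j => by
    rw [← pow_add]
    congr 1
    have := hm j
    omega
  -- the angles for an arbitrary embedding
  have hang : ∀ (s : L →+* ℂ) (j), ∃ u : ℕ, ¬ p ∣ u ∧ s (x j) = 2 * Complex.cos (2 * π * u / (p : ℂ) ^ k j) :=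
    fun s j => level_angle s hp (by have := hk2 j; omega) (hb j).2.1 (hb j).2.2
  choose u hu1 hu2 using hang s₁
  set U : Fin (r + 1) → ℕ := fun j => u j * p ^ (k m - k j) with hU
  have hU2 : ∀ j, s₁ (x j) = 2 * Complex.cos (2 * π * U j / (p : ℂ) ^ k m) := by
    intro j
    rw [hu2, hU, hpow j]
    congr 2
    push_cast
    field_simp
  have hU1 : ∀ j, ¬ p ^ (k m + 1 - k₁) ∣ U j := by
    intro j h
    have h1 : p ^ (k m - k j + 1) ∣ u j * p ^ (k m - k j) := by
      refine dvd_trans (pow_dvd_pow p ?_) h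
      have := hk1 j
      have := hm j
      omega
    rw [pow_succ', Nat.mul_dvd_mul_iff_right (pow_pos hp.pos _)] at h1
    exact hu1 j h1
  -- the generator
  obtain ⟨ξ, hξ⟩ : ∃ ξ : L, s₁ ξ = 2 * Complex.cos (2 * π / (p : ℂ) ^ k m) := by
    have hcop : (u m).Coprime (p ^ k m) := (Nat.Coprime.pow_right _ ((hp.coprime_iff_not_dvd.2 (hu1 m)).symm))
    obtain ⟨t, ht⟩ := Nat.exists_mul_mod_eq_one_of_coprime hcop (Nat.one_lt_pow (by have := hk2 m; omega) hp.one_lt)
    obtain ⟨q, hq⟩ : ∃ q : ℕ, u m * t = 1 + p ^ k m * q := ⟨u m * t / p ^ k m, by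
      have h1 := Nat.div_add_mod (u m * t) (p ^ k m)
      rw [ht.2] at h1
      omega⟩
    refine ⟨(Chebyshev.C L (t : ℤ)).eval (x m), ?_⟩
    rw [map_cheb', hu2]
    set z : ℂ := Complex.exp ((2 * π * u m / (p : ℂ) ^ k m) * Complex.I) with hz
    have hz0 : z ≠ 0 := Complex.exp_ne_zero _
    have h1 : 2 * Complex.cos (2 * π * u m / (p : ℂ) ^ k m) = z + z⁻¹ := by
      rw [hz, ← Complex.exp_neg, Complex.cos, mul_div_cancel₀ _ two_ne_zero, neg_mul]
    rw [h1, Pool.Agent.N686.PF.eval_cheb ℂ _ _ (mul_inv_cancel₀ hz0)]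
    have h2 : z ^ t = Complex.exp ((2 * π / (p : ℂ) ^ k m) * Complex.I) := by
      rw [hz, ← Complex.exp_nat_mul]
      have h3 : (t : ℂ) * (2 * π * u m / (p : ℂ) ^ k m * Complex.I) =
          2 * π / (p : ℂ) ^ k m * Complex.I + q * (2 * π * Complex.I) := by
        have h4 : (u m : ℂ) * t = 1 + (p : ℂ) ^ k m * q := by exact_mod_cast hq
        have h5 : (p : ℂ) ^ k m ≠ 0 := pow_ne_zero _ hpC
        field_simp
        linear_combination h4
      rw [h3, Complex.exp_periodic.nat_mul q]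
    rw [inv_pow, h2, ← Complex.exp_neg, Complex.cos, mul_div_cancel₀ _ two_ne_zero, neg_mul]
  have hspec : ∀ j, x j ∈ K⟮ξ⟯ := by
    intro j
    have h1 : x j = (Chebyshev.C L (U j : ℤ)).eval ξ := by
      apply s₁.injective
      rw [map_cheb', hξ, hU2]
      have h2 := cheb_pow (N := p ^ k m) (U j)
      rw [Nat.cast_pow] at h2
      rw [h2]
    have h3 : (Chebyshev.C L (U j : ℤ)).eval ξ = aeval ξ (Chebyshev.C K (U j : ℤ)) := by
      rw [aeval_def, eval₂_eq_eval_map, Chebyshev.map_C]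
    rw [h1, h3]
    exact algebra_adjoin_le_adjoin K {ξ} (aeval_mem_adjoin_singleton K ξ)
  set d : Fin (r + 1) → L := fun j => 2 * b j + algebraMap K L (F.coeff 1) with hd
  have hdsq : ∀ j, d j ^ 2 = 4 * (x j - algebraMap K L w) := by
    intro j
    simp only [hx, hd]
    rw [eval_quad hmon' hdeg2, hF', coeff_map, coeff_map, hw, map_sub, map_div₀, map_pow, map_ofNat]
    ring
  have hnsq := fun j j' => hN (k m) L s₁ ξ hξ (U j) (U j') (x j) (x j') (d j) (d j') (hU1 j) (hU1 j')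
    (hU2 j) (hU2 j') (hdsq j) (hdsq j')
  have hrange : ∀ y : L, y ∈ (algebraMap K⟮ξ⟯ L).range ↔ y ∈ K⟮ξ⟯ := by
    intro y
    constructor
    · rintro ⟨z, rfl⟩
      exact z.2
    · intro hy
      exact ⟨⟨y, hy⟩, rfl⟩
  have hd1 : ∀ j, d j ^ 2 ∈ (algebraMap K⟮ξ⟯ L).range := by
    intro j
    rw [hrange, hdsq]
    refine mul_mem ?_ (sub_mem (hspec j) (K⟮ξ⟯.algebraMap_mem w))
    have h4 := K⟮ξ⟯.algebraMap_mem 4
    rwa [map_ofNat] at h4
  have hd2 : ∀ j, d j ∉ (algebraMap K⟮ξ⟯ L).range := by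
    intro j
    rw [hrange]
    exact (hnsq j j).1
  have hd3 : ∀ j j', j ≠ j' → d j * d j' ∉ (algebraMap K⟮ξ⟯ L).range := by
    intro j j' hjj
    rw [hrange]
    refine (hnsq j j').2 (fun h => (hbne j j' hjj).1 h.symm) ?_
    intro h
    by_cases hp2 : p = 2
    · exact (hbne j' j hjj.symm).2 hp2 h
    · have h1 := level_mono s₁ hp (hm j) (hb j).2.1
      have h2 := level_mono s₁ hp (hm j') (hb j').2.1
      refine neg_level s₁ hp hp2 h1 ?_
      rw [← show x j' = -x j from h]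
      exact h2
  have hdne : ∀ j, d j ≠ 0 := fun j h => hd2 j (by
    rw [h]
    exact zero_mem _)
  -- the embedding which moves `x i` into the window
  obtain ⟨u', hu'1, hu'2⟩ := hang s₁ i
  obtain ⟨s₂, β, hs₂, hβ, hs₂x⟩ := hS (k i) (hk3 i) L s₁ (x i) u' hu'1 hu'2
  rw [hs₁] at hs₂
  have hβφ : |β - φ₀| < ε := (hwin β hβ).1
  have hEσ : ∀ s : {s : L →+* ℂ // s.comp (algebraMap K⟮ξ⟯ L) = s₂.comp (algebraMap K⟮ξ⟯ L)},
      s.1.comp (algebraMap K L) = σ := by
    intro s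
    rw [← hs₂, IsScalarTower.algebraMap_eq K K⟮ξ⟯ L, ← RingHom.comp_assoc, ← RingHom.comp_assoc, s.2]
  have hsa : ∀ s : L →+* ℂ, s.comp (algebraMap K L) = σ → s (algebraMap K L (F.coeff 1)) = σ (F.coeff 1) := by
    intro s hs
    exact RingHom.congr_fun hs (F.coeff 1)
  have hsd : ∀ (s : L →+* ℂ), s.comp (algebraMap K L) = σ → ∀ j, s (d j) = 2 * s (b j) + σ (F.coeff 1) := by
    intro s hs j
    simp only [hd]
    rw [map_add, map_mul, map_ofNat, hsa s hs]
  have hKL : FiniteDimensional K L := FiniteDimensional.right ℚ K L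
  have hfd : FiniteDimensional K⟮ξ⟯ L := inferInstance
  set Q : Fin (r + 1) → ℝ := fun j => P (X l) (Zp η) (s₂ (b j)) with hQ
  set Q' : Fin (r + 1) → ℝ := fun j => P (X l) (Zp η) (-s₂ (b j) - σ (F.coeff 1)) with hQ'
  set c : Fin (r + 1) → ℝ := fun j => if j = 0 then a' else 0 with hc
  have hlin := emb2 K⟮ξ⟯ L s₂ (Fin (r + 1)) d hd1 hd2 hd3 (fun j => (a j + c j) * ((Q j + Q' j) / 2))
    (fun j => (a j - c j) * ((Q j - Q' j) / 2))
    (fun s j => a j * P (X l) (Zp η) (s.1 (b j)) + c j * P (X l) (Zp η) (s.1 (-algebraMap K L (F.coeff 1) - b j)))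
    (fun s j => by
      have h0 : s.1 (-algebraMap K L (F.coeff 1) - b j) = -s.1 (b j) - σ (F.coeff 1) := by
        rw [map_sub, map_neg, hsa _ (hEσ s)]
        ring
      constructor
      · intro h
        rw [hsd _ (hEσ s), hsd _ hs₂] at h
        have h1 : s.1 (b j) = s₂ (b j) := mul_left_cancel₀ two_ne_zero (add_right_cancel h)
        show a j * P (X l) (Zp η) (s.1 (b j)) + c j * P (X l) (Zp η) (s.1 (-algebraMap K L (F.coeff 1) - b j)) = _
        rw [h0, h1]
        ring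
      · intro h
        rw [hsd _ (hEσ s), hsd _ hs₂] at h
        have h1 : s.1 (b j) = -s₂ (b j) - σ (F.coeff 1) := by
          apply mul_left_cancel₀ two_ne_zero
          linear_combination h
        have h2 : -s.1 (b j) - σ (F.coeff 1) = s₂ (b j) := by
          rw [h1]
          ring
        show a j * P (X l) (Zp η) (s.1 (b j)) + c j * P (X l) (Zp η) (s.1 (-algebraMap K L (F.coeff 1) - b j)) = _
        rw [h0, h2, h1]
        ring) (fun _ => 1) (fun s => by
      have h1 := ha ⟨s.1, hEσ s⟩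
      rw [← h1]
      simp only [one_mul, Finset.sum_add_distrib]
      congr 1
      rw [Finset.sum_eq_single 0]
      · rw [hc]
        simp only [if_true]
      · intro j _ hj
        rw [hc]
        simp only [if_neg hj, zero_mul]
      · intro h
        exact absurd (Finset.mem_univ _) h) i
  -- the two points of the fibre
  have hroot : ∀ y : ℂ, (F.map σ).eval y = 2 * Complex.cos β → ∃ q : Fin 2, y = B q β := by
    intro y hy
    have h1 := S.prodL (real_mem hβφ) y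
    rw [hy, sub_self] at h1
    obtain ⟨q, -, hq⟩ := Finset.prod_eq_zero_iff.1 h1.symm
    exact ⟨q, sub_eq_zero.1 hq⟩
  have hr1 : (F.map σ).eval (s₂ (b i)) = 2 * Complex.cos β := by
    rw [← hev s₂ hs₂, ← hs₂x]
  have hr2 : (F.map σ).eval (-s₂ (b i) - σ (F.coeff 1)) = 2 * Complex.cos β := by
    rw [← hr1, eval_quad (hF1.map σ) (by rw [hF1.natDegree_map, hdeg]), eval_quad (hF1.map σ)
      (by rw [hF1.natDegree_map, hdeg]), coeff_map, coeff_map]
    ring
  obtain ⟨q, hq⟩ := hroot _ hr1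
  obtain ⟨q', hq'⟩ := hroot _ hr2
  have hqq : q ≠ q' := by
    intro h
    rw [← h, ← hq] at hq'
    have h1 : s₂ (d i) = 0 := by
      rw [hsd s₂ hs₂]
      linear_combination -hq'
    exact hdne i ((map_eq_zero s₂).1 h1)
  have hJ : J X η B l q β ≠ J X η B l q' β := by
    have h1 := hne β hβ
    fin_cases q <;> fin_cases q'
    · exact absurd rfl hqq
    · exact h1
    · exact h1.symm
    · exact absurd rfl hqq
  have hψ : (Q i - Q' i) / 2 ≠ 0 := by
    refine div_ne_zero (sub_ne_zero.2 ?_) two_ne_zero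
    show P (X l) (Zp η) (s₂ (b i)) ≠ P (X l) (Zp η) (-s₂ (b i) - σ (F.coeff 1))
    rw [hq', hq]
    exact hJ
  simp only [one_mul] at hlin
  exact sub_eq_zero.1 ((mul_eq_zero.1 hlin).resolve_right hψ)

end Pool.Agent.N76.RG
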