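import Pool.Agent.N76.RG.Fin3

set_option autoImplicit false

/-!
# Independence over `ℝ` of the regulators of special points of all large `p`-power levels: the loops
-/

namespace Pool.Agent.N76.RG

open Polynomial IntermediateField Module MeasureTheory Set
open Pool.Agent.TH826.MK (KQ Torus symb)
open Pool.Agent.TH826.HD (PRing POpen pent toP pcst pDel)
open Pool.Agent.N76.EC
open scoped Real

/-- **Special points of all large `p`-power levels.** -/
theorem strong.{u, v, w} (hNSQ : S_NSQ2.{u, v}) (hSPR : S_SPR.{u, v}) (hWIN : S_WIN) (hDET : S_DET.{v})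
    (K : Type u) [Field K] [NumberField K] (F : K[X]) (hF1 : F.Monic) (hdeg : F.natDegree = 2)
    (hF : ∀ i, IsIntegral ℤ (F.coeff i)) (hsq : Squarefree (F ^ 2 - 4)) (σ : K →+* ℂ) (p : ℕ) (hp : p.Prime) :
    ∃ k₀ : ℕ, ∀ (L : Type v) [Field L] [NumberField L] [Algebra K L] (r : ℕ) (b : Fin (r + 1) → L)
      (k : Fin (r + 1) → ℕ),
      (∀ i, k₀ ≤ k i ∧ (Chebyshev.C L (p ^ k i : ℕ)).eval ((F.map (algebraMap K L)).eval (b i)) = 2 ∧
        (Chebyshev.C L (p ^ (k i - 1) : ℕ)).eval ((F.map (algebraMap K L)).eval (b i)) ≠ 2) →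
      (∀ i j, i ≠ j → (F.map (algebraMap K L)).eval (b i) ≠ (F.map (algebraMap K L)).eval (b j) ∧
        (p = 2 → (F.map (algebraMap K L)).eval (b i) ≠ -(F.map (algebraMap K L)).eval (b j))) →
      ∀ b' : L, b' = -algebraMap K L (F.coeff 1) - b 0 →
      b' ≠ b 0 ∧ (F.map (algebraMap K L)).eval b' = (F.map (algebraMap K L)).eval (b 0) ∧
      (∃ N : ℕ, 0 < N ∧ ∀ i, (Fin.cons b' b : Fin (r + 2) → L) i ∈ Sp F L N) ∧
      (∀ (M : Type w) [Field M] [Algebra (PRing (F.map (algebraMap K L))) M]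
        [IsFractionRing (PRing (F.map (algebraMap K L))) M]
        (f : POpen (F.map (algebraMap K L)) (Fin.cons b' b : Fin (r + 2) → L) →+* M)
        (_ : ∀ a : PRing (F.map (algebraMap K L)),
          f (toP (F.map (algebraMap K L)) (Fin.cons b' b : Fin (r + 2) → L) a) = algebraMap _ M a),
        LinearIndependent ℚ fun i : Fin (r + 1) =>
          KQ.map 2 f (symb (pent (F.map (algebraMap K L)) (Fin.cons b' b : Fin (r + 2) → L) i.succ 0))) ∧
      ∃ (s : Fin (r + 1) → (L →+* ℂ))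
        (Γ : Fin (r + 1) → Torus (POpen (F.map (algebraMap K L)) (Fin.cons b' b : Fin (r + 2) → L)) 1),
        Function.Injective s ∧ (∀ i, (s i).comp (algebraMap K L) = σ) ∧
        (∀ i t (y : L), (Γ i).e t (pcst (F.map (algebraMap K L)) (Fin.cons b' b : Fin (r + 2) → L) y) = s i y) ∧
        (Matrix.of fun i j : Fin (r + 1) => (Γ i).reg
          (symb (pent (F.map (algebraMap K L)) (Fin.cons b' b : Fin (r + 2) → L) j.succ 0))).det ≠ 0 := by
  classical
  obtain ⟨η, φ₀, ε, B, X, S⟩ := exists_sys (hF1.map σ) two_pos (by rw [hF1.natDegree_map, hdeg])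
    (Pool.Agent.N76.EC.not_crit' hsq σ (by norm_num)) (Pool.Agent.N76.EC.not_crit' hsq σ (by norm_num))
  obtain ⟨l, k₀, hk₀, hmain⟩ := indep_core hNSQ hSPR hWIN K F hF1 hdeg hF hsq σ p hp S
  refine ⟨k₀, fun L _ _ _ r b k hb hbne b' hb' => ?_⟩
  obtain ⟨⟨s₁, hs₁⟩⟩ := Em_nonempty L σ
  obtain ⟨m, -, hm⟩ := Finset.exists_max_image Finset.univ k ⟨0, Finset.mem_univ _⟩
  have hN0 : 0 < p ^ k m := pow_pos hp.pos _
  have hb'F : (F.map (algebraMap K L)).eval b' = (F.map (algebraMap K L)).eval (b 0) := by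
    rw [eval_quad (hF1.map _) (by rw [hF1.natDegree_map, hdeg]), eval_quad (hF1.map _)
      (by rw [hF1.natDegree_map, hdeg]), coeff_map, coeff_map, hb']
    ring
  have hb'ne : b' ≠ b 0 := by
    intro h
    have h1 := hmain L r b k hb hbne (Pi.single 0 1) (-1) (fun s => by
      rw [Finset.sum_eq_single 0, Pi.single_eq_same, ← hb', h]
      · ring
      · intro j _ hj
        rw [Pi.single_eq_of_ne hj, zero_mul]
      · intro h
        exact absurd (Finset.mem_univ _) h) 0
    rw [Pi.single_eq_same, if_pos rfl] at h1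
    norm_num at h1
  have hSp0 : ∀ i, b i ∈ Sp F L (p ^ k m) := fun i =>
    ⟨level_mono s₁ hp (hm i (Finset.mem_univ _)) (hb i).2.1,
      level_ne_four s₁ hp (hk₀.trans (hb i).1) (hb i).2.1 (hb i).2.2⟩
  have hSp : ∀ i, (Fin.cons b' b : Fin (r + 2) → L) i ∈ Sp F L (p ^ k m) := by
    intro i
    refine Fin.cases ?_ (fun i => ?_) i
    · rw [Fin.cons_zero]
      have h1 := hSp0 0
      refine ⟨?_, ?_⟩
      · rw [hb'F]
        exact h1.1
      · rw [hb'F]
        exact h1.2
    · rw [Fin.cons_succ]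
      exact hSp0 i
  have hKL : FiniteDimensional K L := FiniteDimensional.right ℚ K L
  -- the vectors
  have hind : LinearIndependent ℝ fun (i : Fin (r + 1)) (s : Em L σ) =>
      P (X l) (Zp η) (s.1 ((Fin.cons b' b : Fin (r + 2) → L) i.succ)) -
        P (X l) (Zp η) (s.1 ((Fin.cons b' b : Fin (r + 2) → L) 0)) := by
    simp only [Fin.cons_succ, Fin.cons_zero]
    rw [Fintype.linearIndependent_iff]
    intro c hc
    have h1 := hmain L r b k hb hbne c (-∑ i, c i) (fun s => by
      have h2 := congrFun hc s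
      rw [Finset.sum_apply] at h2
      simp only [Pi.smul_apply, smul_eq_mul, Pi.zero_apply, mul_sub, Finset.sum_sub_distrib] at h2
      rw [← Finset.sum_mul] at h2
      rw [← hb']
      linarith)
    have h2 : ∑ i, c i = c 0 := by
      refine Finset.sum_eq_single 0 (fun j _ hj => ?_) (fun h => absurd (Finset.mem_univ _) h)
      rw [h1 j, if_neg hj]
    have h3 := h1 0
    rw [if_pos rfl, h2] at h3
    intro i
    by_cases hi : i = 0
    · rw [hi]
      linarith
    · rw [h1 i, if_neg hi]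
  have hindQ : LinearIndependent ℚ fun i : Fin (r + 1) =>
      vv σ X η ((Fin.cons b' b : Fin (r + 2) → L) i.succ) - vv σ X η ((Fin.cons b' b : Fin (r + 2) → L) 0) := by
    have h1 : LinearIndependent ℚ fun (i : Fin (r + 1)) (s : Em L σ) =>
        P (X l) (Zp η) (s.1 ((Fin.cons b' b : Fin (r + 2) → L) i.succ)) -
          P (X l) (Zp η) (s.1 ((Fin.cons b' b : Fin (r + 2) → L) 0)) := by
      refine hind.restrict_scalars ?_
      intro a b hab
      simpa using hab
    exact LinearIndependent.of_comp (LinearMap.funLeft ℚ ℝ fun s : Em L σ => ((s, l) : Em L σ × Fin 2)) h1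
  refine ⟨hb'ne, hb'F, ⟨p ^ k m, hN0, hSp⟩, fun M _ _ _ f hf => S.classes_independent hN0 hSp hindQ M f hf, ?_⟩
  have hfin : Finite (Em L σ) := inferInstance
  obtain ⟨e, he, hdet⟩ := hDET (Em L σ) (r + 1) _ hind
  choose Γ hΓ1 hΓ2 using fun i : Fin (r + 1) => exists_loop' S (e i) hN0 _ hSp l
  refine ⟨fun i => (e i).1, Γ, fun i j hij => he (Subtype.ext hij), fun i => (e i).2, hΓ1, ?_⟩
  have h1 : (Matrix.of fun i j : Fin (r + 1) => (Γ i).reg
      (symb (pent (F.map (algebraMap K L)) (Fin.cons b' b : Fin (r + 2) → L) j.succ 0))) =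
      Matrix.of fun i j : Fin (r + 1) => P (X l) (Zp η) ((e i).1 ((Fin.cons b' b : Fin (r + 2) → L) j.succ)) -
        P (X l) (Zp η) ((e i).1 ((Fin.cons b' b : Fin (r + 2) → L) 0)) := by
    ext i j
    rw [Matrix.of_apply, Matrix.of_apply, hΓ2]
  rw [h1]
  exact hdet

end Pool.Agent.N76.RG
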