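import Pool.Agent.N76.RG.Stm2

set_option autoImplicit false

/-!
# Project RG, third part: special points of all large levels. Statements.
-/

namespace Pool.Agent.N76.RG

open Polynomial IntermediateField Module
open scoped Real

/-- a root of unity or zero -/
def RU (z : ℂ) : Prop := z = 0 ∨ ∃ n : ℕ, 0 < n ∧ z ^ n = 1

/-- TRC: elements of `K(ζ)` are fixed linear combinations of bounded integral elements of `ℚ(ζ)` -/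
def S_TRC.{u, v} : Prop := ∀ (K : Type u) [Field K] [NumberField K] (σ : K →+* ℂ),
  ∃ (m : ℕ) (θ : Fin m → ℂ) (C : ℝ), ∀ (N : ℕ), 0 < N → ∀ (E : Type v) [Field E] [NumberField E] [Algebra K E] (ζ : E),
    IsPrimitiveRoot ζ N → ∀ S : E →+* ℂ, S.comp (algebraMap K E) = σ → ∀ y ∈ K⟮ζ⟯, IsIntegral ℤ y →
    ∀ B : ℝ, (∀ τ : E →+* ℂ, ‖τ y‖ ≤ B) → ∃ x : Fin m → E, (∀ j, x j ∈ ℚ⟮ζ⟯) ∧ (∀ j, IsIntegral ℤ (x j)) ∧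
      (∀ j, ∀ τ : E →+* ℂ, ‖τ (x j)‖ ≤ C * B) ∧ S y = ∑ j, θ j * S (x j)

/-- LOXQ: Loxton's theorem -/
def S_LOXQ.{v} : Prop := ∀ B : ℝ, ∃ M : ℕ, ∀ (N : ℕ), 0 < N → ∀ (E : Type v) [Field E] [NumberField E] (ζ : E),
  IsPrimitiveRoot ζ N → ∀ y ∈ ℚ⟮ζ⟯, IsIntegral ℤ y → (∀ τ : E →+* ℂ, ‖τ y‖ ≤ B) → ∀ S : E →+* ℂ,
    ∃ z : Fin M → ℂ, (∀ i, RU (z i)) ∧ S y = ∑ i, z i

/-- TOR: torsion points -/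
def S_TOR : Prop := ∀ (w : ℂ) (M : ℕ) (θ : Fin M → ℂ), w ^ 2 ≠ 4 → ∃ Z : Set ℂ, Z.Finite ∧
  ∀ ζ : ℂ, (∃ n : ℕ, 0 < n ∧ ζ ^ n = 1) → ζ ∉ Z → ∀ z : Fin M → ℂ, (∀ i, RU (z i)) →
    (∑ i, θ i * z i) ^ 2 ≠ ζ + ζ⁻¹ - w ∧
    ∀ ζ' : ℂ, (∃ n : ℕ, 0 < n ∧ ζ' ^ n = 1) → ζ' + ζ'⁻¹ ≠ w →
      (∑ i, θ i * z i) ^ 2 = (ζ + ζ⁻¹ - w) * (ζ' + ζ'⁻¹ - w) →
      ζ' + ζ'⁻¹ = ζ + ζ⁻¹ ∨ ζ' + ζ'⁻¹ = -(ζ + ζ⁻¹)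

/-- NSQG: independence of the quadratic extensions, all levels -/
def S_NSQG.{u, v} : Prop := ∀ (K : Type u) [Field K] [NumberField K] (w : K), w ^ 2 ≠ 4 → IsIntegral ℤ (4 * w) →
  ∃ N₀ : ℕ, ∀ (N : ℕ), 0 < N → ∀ (E : Type v) [Field E] [NumberField E] [Algebra K E] (ζ : E), IsPrimitiveRoot ζ N →
    ∀ (n n' : ℕ) (η η' d d' : E), N₀ ≤ n → N₀ ≤ n' → n ∣ N → n' ∣ N → IsPrimitiveRoot η n → IsPrimitiveRoot η' n' →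
    d ^ 2 = 4 * (η + η⁻¹ - algebraMap K E w) → d' ^ 2 = 4 * (η' + η'⁻¹ - algebraMap K E w) →
    d ∉ K⟮ζ⟯ ∧ (η' + η'⁻¹ ≠ η + η⁻¹ → (w = 0 → η' + η'⁻¹ ≠ -(η + η⁻¹)) → d * d' ∉ K⟮ζ⟯)

/-- EQD: subgroups of bounded index of the units meet all windows -/
def S_EQD : Prop := ∀ (d : ℕ) (α δ : ℝ), 0 < δ → ∃ N₀ : ℕ, ∀ N ≥ N₀, ∀ H : Subgroup (ZMod N)ˣ,
  N.totient ≤ d * Nat.card H → ∀ u : (ZMod N)ˣ, ∃ h ∈ H, ∃ j : ℤ, (j : ZMod N) = u * h ∧ |2 * π * j / N - α| < δ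

/-- SPG: conjugates of special values in a given window, all levels -/
def S_SPG.{u, v} : Prop := ∀ (K : Type u) [Field K] [NumberField K] (α δ : ℝ), 0 < δ → ∃ N₀ : ℕ, ∀ N ≥ N₀,
  ∀ (E : Type v) [Field E] [NumberField E] [Algebra K E] (s₁ : E →+* ℂ) (η : E), IsPrimitiveRoot η N →
    ∃ (s : E →+* ℂ) (β : ℝ), s.comp (algebraMap K E) = s₁.comp (algebraMap K E) ∧ |β - α| < δ ∧
      s (η + η⁻¹) = 2 * Complex.cos β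

end Pool.Agent.N76.RG
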