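import Pool.Agent.N76.RG.Fin4
import Pool.Agent.N76.RG.Nsq
import Pool.Agent.N76.RG.Stm3

set_option autoImplicit false

/-!
# Independence over `ℝ` of the regulators of special points of all large levels: the main argument
-/

namespace Pool.Agent.N76.RG

open Polynomial IntermediateField Module MeasureTheory Set
open Pool.Agent.TH826.MK (KQ Torus symb)
open Pool.Agent.TH826.HD (PRing POpen pent toP pcst pDel)
open Pool.Agent.N76.EC
open scoped Real

/-- a special value of exact level `n` -/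
theorem exact_angle {L : Type*} [Field L] (s₁ : L →+* ℂ) {n : ℕ} (hn : 0 < n) {x : L}
    (h1 : (Chebyshev.C L n).eval x = 2) (h2 : ∀ m : ℕ, 0 < m → m < n → (Chebyshev.C L m).eval x ≠ 2) :
    ∃ u : ℕ, u.Coprime n ∧ s₁ x = 2 * Complex.cos (2 * π * u / n) := by
  obtain ⟨u, hu⟩ := special_angle s₁ hn h1
  refine ⟨u, ?_, hu⟩
  by_contra hg
  obtain ⟨g, hgdef⟩ : ∃ g, g = u.gcd n := ⟨_, rfl⟩
  have hg1 : g ≠ 1 := by
    rw [hgdef]
    exact hg
  obtain ⟨u', hu'⟩ : g ∣ u := by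
    rw [hgdef]
    exact Nat.gcd_dvd_left _ _
  obtain ⟨n', hn'⟩ : g ∣ n := by
    rw [hgdef]
    exact Nat.gcd_dvd_right _ _
  have hg0 : 0 < g := by
    rcases Nat.eq_zero_or_pos g with h | h
    · rw [h, zero_mul] at hn'
      omega
    · exact h
  have hn'0 : 0 < n' := by
    rcases Nat.eq_zero_or_pos n' with h | h
    · rw [h, mul_zero] at hn'
      omega
    · exact h
  refine h2 n' hn'0 ?_ (angle_special s₁ hn'0 (u := u') ?_)
  · rw [hn']
    have : 2 ≤ g := by omega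
    nlinarith
  · rw [hu, hu', hn']
    congr 2
    have hgC : (g : ℂ) ≠ 0 := Nat.cast_ne_zero.2 hg0.ne'
    have hnC : (n' : ℂ) ≠ 0 := Nat.cast_ne_zero.2 hn'0.ne'
    push_cast
    field_simp

/-- **The vectors of the regulators are linearly independent over `ℝ`** (over fields with enough roots of unity). -/
theorem gen_core.{u, v} (hNSQ : S_NSQG.{u, v}) (hSPG : S_SPG.{u, v}) (hWIN : S_WIN)
    (K : Type u) [Field K] [NumberField K] (F : K[X]) (hF1 : F.Monic) (hdeg : F.natDegree = 2)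
    (hF : ∀ i, IsIntegral ℤ (F.coeff i)) (hsq : Squarefree (F ^ 2 - 4)) (σ : K →+* ℂ)
    {η φ₀ ε : ℝ} {B : Fin 2 → ℂ → ℂ} {X : Fin 2 → ℝ → ℂ} (S : Sys (F.map σ) 2 η φ₀ ε B X) :
    ∃ (l : Fin 2) (k₀ : ℕ), 3 ≤ k₀ ∧ ∀ (L : Type v) [Field L] [NumberField L] [Algebra K L] (N : ℕ) (ζ : L), 0 < N →
      IsPrimitiveRoot ζ N → ∀ (r : ℕ) (b : Fin (r + 1) → L) (k : Fin (r + 1) → ℕ) (e : Fin (r + 1) → L),
      (∀ i, k₀ ≤ k i ∧ k i ∣ N ∧ IsPrimitiveRoot (e i) (k i) ∧
        (F.map (algebraMap K L)).eval (b i) = e i + (e i)⁻¹) →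
      (∀ i j, i ≠ j → (F.map (algebraMap K L)).eval (b i) ≠ (F.map (algebraMap K L)).eval (b j) ∧
        (F.coeff 1 ^ 2 = 4 * F.coeff 0 →
          (F.map (algebraMap K L)).eval (b i) ≠ -(F.map (algebraMap K L)).eval (b j))) →
      ∀ (a : Fin (r + 1) → ℝ) (a' : ℝ), (∀ s : Em L σ, ∑ i, a i * P (X l) (Zp η) (s.1 (b i)) +
        a' * P (X l) (Zp η) (s.1 (-algebraMap K L (F.coeff 1) - b 0)) = 0) →
        ∀ i, a i = if i = 0 then a' else 0 := by
  classical
  have hπ := Real.pi_pos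
  obtain ⟨α, δ, l, hδ, hwin, hne⟩ := hWIN S
  set w : K := F.coeff 0 - F.coeff 1 ^ 2 / 4 with hw
  have hw0 : w = 0 ↔ F.coeff 1 ^ 2 = 4 * F.coeff 0 := by
    rw [hw]
    constructor
    · intro h
      linear_combination -4 * h
    · intro h
      linear_combination -(1 / 4) * h
  have hw4 : w ^ 2 ≠ 4 := w_ne hF1 hdeg hsq σ
  have hwi : IsIntegral ℤ (4 * w) := by
    have h1 : 4 * w = 4 * F.coeff 0 - F.coeff 1 ^ 2 := by
      rw [hw]
      ring
    rw [h1]
    refine IsIntegral.sub (IsIntegral.mul ?_ (hF 0)) ((hF 1).pow 2)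
    have h2 : (4 : K) = algebraMap ℤ K 4 := by simp
    rw [h2]
    exact isIntegral_algebraMap
  obtain ⟨k₁, hN⟩ := hNSQ K w hw4 hwi
  obtain ⟨k₂, hS⟩ := hSPG K α δ hδ
  refine ⟨l, max 3 (max k₁ k₂), le_max_left _ _, fun L _ _ _ N ζ hN0 hζ r b k e hb hbne a a' ha i => ?_⟩
  have hk1 : ∀ i, k₁ ≤ k i := fun i => ((le_max_left _ _).trans (le_max_right _ _)).trans (hb i).1
  have hk3 : ∀ i, k₂ ≤ k i := fun i => ((le_max_right _ _).trans (le_max_right _ _)).trans (hb i).1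
  set F' : L[X] := F.map (algebraMap K L) with hF'
  have hdeg2 : F'.natDegree = 2 := by rw [hF', hF1.natDegree_map, hdeg]
  have hmon' : F'.Monic := hF1.map _
  have hev : ∀ s : L →+* ℂ, s.comp (algebraMap K L) = σ → ∀ y : L, s (F'.eval y) = (F.map σ).eval (s y) := by
    intro s hs y
    have hFs : F'.map s = F.map σ := by rw [hF', Polynomial.map_map, hs]
    rw [← hFs, eval_map s, eval₂_hom]
  set x : Fin (r + 1) → L := fun i => F'.eval (b i) with hx
  obtain ⟨⟨s₁, hs₁⟩⟩ := Em_nonempty L σ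
  have hxe : ∀ j, x j = e j + (e j)⁻¹ := fun j => (hb j).2.2.2
  have hemem : ∀ j, e j ∈ K⟮ζ⟯ := by
    intro j
    have : NeZero N := ⟨hN0.ne'⟩
    have h1 : e j ^ N = 1 := by
      obtain ⟨q, hq⟩ := (hb j).2.1
      rw [hq, pow_mul, (hb j).2.2.1.pow_eq_one, one_pow]
    obtain ⟨t, -, ht⟩ := hζ.eq_pow_of_pow_eq_one h1
    rw [← ht]
    exact pow_mem (mem_adjoin_simple_self K ζ) t
  have hspec : ∀ j, x j ∈ K⟮ζ⟯ := fun j => by
    rw [hxe]
    exact add_mem (hemem j) (inv_mem (hemem j))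
  set d : Fin (r + 1) → L := fun j => 2 * b j + algebraMap K L (F.coeff 1) with hd
  have hdsq : ∀ j, d j ^ 2 = 4 * (x j - algebraMap K L w) := by
    intro j
    simp only [hx, hd]
    rw [eval_quad hmon' hdeg2, hF', coeff_map, coeff_map, hw, map_sub, map_div₀, map_pow, map_ofNat]
    ring
  have hnsq := fun j j' => hN N hN0 L ζ hζ (k j) (k j') (e j) (e j') (d j) (d j') (hk1 j) (hk1 j') (hb j).2.1
    (hb j').2.1 (hb j).2.2.1 (hb j').2.2.1 (by rw [hdsq, hxe]) (by rw [hdsq, hxe])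
  have hrange : ∀ y : L, y ∈ (algebraMap K⟮ζ⟯ L).range ↔ y ∈ K⟮ζ⟯ := by
    intro y
    constructor
    · rintro ⟨z, rfl⟩
      exact z.2
    · intro hy
      exact ⟨⟨y, hy⟩, rfl⟩
  have hd1 : ∀ j, d j ^ 2 ∈ (algebraMap K⟮ζ⟯ L).range := by
    intro j
    rw [hrange, hdsq]
    refine mul_mem ?_ (sub_mem (hspec j) (K⟮ζ⟯.algebraMap_mem w))
    have h4 := K⟮ζ⟯.algebraMap_mem 4
    rwa [map_ofNat] at h4
  have hd2 : ∀ j, d j ∉ (algebraMap K⟮ζ⟯ L).range := by
    intro j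
    rw [hrange]
    exact (hnsq j j).1
  have hd3 : ∀ j j', j ≠ j' → d j * d j' ∉ (algebraMap K⟮ζ⟯ L).range := by
    intro j j' hjj
    rw [hrange]
    refine (hnsq j j').2 (fun h => (hbne j j' hjj).1 ?_) (fun h0 h => (hbne j' j hjj.symm).2 (hw0.1 h0) ?_)
    · show x j = x j'
      rw [hxe, hxe, h]
    · show x j' = -x j
      rw [hxe, hxe, h]
  have hdne : ∀ j, d j ≠ 0 := fun j h => hd2 j (by
    rw [h]
    exact zero_mem _)
  -- the embedding which moves `x i` into the window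
  obtain ⟨s₂, β, hs₂, hβ, hs₂x⟩ := hS (k i) (hk3 i) L s₁ (e i) (hb i).2.2.1
  rw [← hxe] at hs₂x
  rw [hs₁] at hs₂
  have hβφ : |β - φ₀| < ε := (hwin β hβ).1
  have hEσ : ∀ s : {s : L →+* ℂ // s.comp (algebraMap K⟮ζ⟯ L) = s₂.comp (algebraMap K⟮ζ⟯ L)},
      s.1.comp (algebraMap K L) = σ := by
    intro s
    rw [← hs₂, IsScalarTower.algebraMap_eq K K⟮ζ⟯ L, ← RingHom.comp_assoc, ← RingHom.comp_assoc, s.2]
  have hsa : ∀ s : L →+* ℂ, s.comp (algebraMap K L) = σ → s (algebraMap K L (F.coeff 1)) = σ (F.coeff 1) := by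
    intro s hs
    exact RingHom.congr_fun hs (F.coeff 1)
  have hsd : ∀ (s : L →+* ℂ), s.comp (algebraMap K L) = σ → ∀ j, s (d j) = 2 * s (b j) + σ (F.coeff 1) := by
    intro s hs j
    simp only [hd]
    rw [map_add, map_mul, map_ofNat, hsa s hs]
  have hKL : FiniteDimensional K L := FiniteDimensional.right ℚ K L
  have hfd : FiniteDimensional K⟮ζ⟯ L := inferInstance
  set Q : Fin (r + 1) → ℝ := fun j => P (X l) (Zp η) (s₂ (b j)) with hQ
  set Q' : Fin (r + 1) → ℝ := fun j => P (X l) (Zp η) (-s₂ (b j) - σ (F.coeff 1)) with hQ'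
  set c : Fin (r + 1) → ℝ := fun j => if j = 0 then a' else 0 with hc
  have hlin := emb2 K⟮ζ⟯ L s₂ (Fin (r + 1)) d hd1 hd2 hd3 (fun j => (a j + c j) * ((Q j + Q' j) / 2))
    (fun j => (a j - c j) * ((Q j - Q' j) / 2))
    (fun s j => a j * P (X l) (Zp η) (s.1 (b j)) + c j * P (X l) (Zp η) (s.1 (-algebraMap K L (F.coeff 1) - b j)))
    (fun s j => by
      have h0 : s.1 (-algebraMap K L (F.coeff 1) - b j) = -s.1 (b j) - σ (F.coeff 1) := by
        rw [map_sub, map_neg, hsa _ (hEσ s)]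
        ring
      constructor
      · intro h
        rw [hsd _ (hEσ s), hsd _ hs₂] at h
        have h1 : s.1 (b j) = s₂ (b j) := mul_left_cancel₀ two_ne_zero (add_right_cancel h)
        show a j * P (X l) (Zp η) (s.1 (b j)) + c j * P (X l) (Zp η) (s.1 (-algebraMap K L (F.coeff 1) - b j)) = _
        rw [h0, h1]
        ring
      · intro h
        rw [hsd _ (hEσ s), hsd _ hs₂] at h
        have h1 : s.1 (b j) = -s₂ (b j) - σ (F.coeff 1) := by
          apply mul_left_cancel₀ two_ne_zero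
          linear_combination h
        have h2 : -s.1 (b j) - σ (F.coeff 1) = s₂ (b j) := by
          rw [h1]
          ring
        show a j * P (X l) (Zp η) (s.1 (b j)) + c j * P (X l) (Zp η) (s.1 (-algebraMap K L (F.coeff 1) - b j)) = _
        rw [h0, h2, h1]
        ring) (fun _ => 1) (fun s => by
      have h1 := ha ⟨s.1, hEσ s⟩
      rw [← h1]
      simp only [one_mul, Finset.sum_add_distrib]
      congr 1
      rw [Finset.sum_eq_single 0]
      · rw [hc]
        simp only [if_true]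
      · intro j _ hj
        rw [hc]
        simp only [if_neg hj, zero_mul]
      · intro h
        exact absurd (Finset.mem_univ _) h) i
  -- the two points of the fibre
  have hroot : ∀ y : ℂ, (F.map σ).eval y = 2 * Complex.cos β → ∃ q : Fin 2, y = B q β := by
    intro y hy
    have h1 := S.prodL (real_mem hβφ) y
    rw [hy, sub_self] at h1
    obtain ⟨q, -, hq⟩ := Finset.prod_eq_zero_iff.1 h1.symm
    exact ⟨q, sub_eq_zero.1 hq⟩
  have hr1 : (F.map σ).eval (s₂ (b i)) = 2 * Complex.cos β := by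
    rw [← hev s₂ hs₂, ← hs₂x]
  have hr2 : (F.map σ).eval (-s₂ (b i) - σ (F.coeff 1)) = 2 * Complex.cos β := by
    rw [← hr1, eval_quad (hF1.map σ) (by rw [hF1.natDegree_map, hdeg]), eval_quad (hF1.map σ)
      (by rw [hF1.natDegree_map, hdeg]), coeff_map, coeff_map]
    ring
  obtain ⟨q, hq⟩ := hroot _ hr1
  obtain ⟨q', hq'⟩ := hroot _ hr2
  have hqq : q ≠ q' := by
    intro h
    rw [← h, ← hq] at hq'
    have h1 : s₂ (d i) = 0 := by
      rw [hsd s₂ hs₂]
      linear_combination -hq'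
    exact hdne i ((map_eq_zero s₂).1 h1)
  have hJ : J X η B l q β ≠ J X η B l q' β := by
    have h1 := hne β hβ
    fin_cases q <;> fin_cases q'
    · exact absurd rfl hqq
    · exact h1
    · exact h1.symm
    · exact absurd rfl hqq
  have hψ : (Q i - Q' i) / 2 ≠ 0 := by
    refine div_ne_zero (sub_ne_zero.2 ?_) two_ne_zero
    show P (X l) (Zp η) (s₂ (b i)) ≠ P (X l) (Zp η) (-s₂ (b i) - σ (F.coeff 1))
    rw [hq', hq]
    exact hJ
  simp only [one_mul] at hlin
  exact sub_eq_zero.1 ((mul_eq_zero.1 hlin).resolve_right hψ)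

end Pool.Agent.N76.RG
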