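import Pool.Agent.N76.EC.Rig

set_option autoImplicit false

/-!
# Project RG: real rank of the regulators of elliptic curves in the tower of special points. Statements.
-/

namespace Pool.Agent.N76.RG

open Polynomial IntermediateField Module
open Pool.Agent.N76.EC (Sys J)
open scoped Real LaurentPolynomial

/-- the elements of degree `j` mod `M` in `K(ζ)`, graded by the powers of `ζ` over `K(ζ ^ M)` -/
def Hm (K : Type*) {E : Type*} [Field K] [Field E] [Algebra K E] (ζ : E) (M : ℕ) (j : ZMod M) : Set E :=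
  {x | ∃ a ∈ K⟮ζ ^ M⟯, x = a * ζ ^ j.val}

/-- the grading is direct -/
def Dir (K : Type*) {E : Type*} [Field K] [Field E] [Algebra K E] (ζ : E) (M : ℕ) [NeZero M] : Prop :=
  ∀ f : ZMod M → E, (∀ j, f j ∈ Hm K ζ M j) → ∑ j, f j = 0 → ∀ j, f j = 0

/-- `y` is a sum of at most `N` homogeneous elements -/
def Few (K : Type*) {E : Type*} [Field K] [Field E] [Algebra K E] (ζ : E) (M N : ℕ) (y : E) : Prop :=
  ∃ (R : Finset (ZMod M)) (f : ZMod M → E), R.card ≤ N ∧ (∀ j, f j ∈ Hm K ζ M j) ∧ y = ∑ j ∈ R, f j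

/-- IRR: the cyclotomic tower over a number field is of degree `p` in all high levels -/
def S_IRR.{u, v} : Prop := ∀ (K : Type u) [Field K] [NumberField K] (p : ℕ), p.Prime → ∃ c₀ : ℕ, 2 ≤ c₀ ∧ ∀ c ≥ c₀,
  ∀ k ≥ c, ∀ (E : Type v) [Field E] [Algebra K E] (ζ : E), IsPrimitiveRoot ζ (p ^ k) →
    LinearIndependent K⟮ζ ^ p ^ (k - c)⟯ fun j : Fin (p ^ (k - c)) => ζ ^ (j : ℕ)

/-- INT: bounded denominators of the coefficients of integral elements -/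
def S_INT.{u, v} : Prop := ∀ (K : Type u) [Field K] [NumberField K] (p : ℕ), p.Prime → ∃ c₀ : ℕ, 2 ≤ c₀ ∧ ∀ c ≥ c₀,
  ∃ D : ℕ, 0 < D ∧ ∀ k ≥ c, ∀ (E : Type v) [Field E] [NumberField E] [Algebra K E] (ζ : E),
    IsPrimitiveRoot ζ (p ^ k) → ∀ α : Fin (p ^ (k - c)) → E, (∀ j, α j ∈ K⟮ζ ^ p ^ (k - c)⟯) →
    IsIntegral ℤ (∑ j, α j * ζ ^ (j : ℕ)) → ∀ j, IsIntegral ℤ ((D : E) * α j)

/-- CMP: integral elements of `K(ζ)` all of whose conjugates are at most `B` have few components -/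
def S_CMP.{u, v} : Prop := ∀ (K : Type u) [Field K] [NumberField K] (p : ℕ), p.Prime → ∃ c : ℕ, ∀ B : ℝ, ∃ N : ℕ,
  ∀ k ≥ c, ∀ (E : Type v) [Field E] [NumberField E] [Algebra K E] (ζ : E), IsPrimitiveRoot ζ (p ^ k) →
    (∀ [NeZero (p ^ (k - c))], Dir K ζ (p ^ (k - c))) ∧
    ∀ y ∈ K⟮ζ⟯, IsIntegral ℤ y → (∀ τ : E →+* ℂ, ‖τ y‖ ≤ B) → Few K ζ (p ^ (k - c)) N y

/-- DIR: simultaneous approximation -/
def S_DIR : Prop := ∀ N : ℕ, ∃ M₀ : ℕ, ∀ M ≥ M₀, ∀ R : Finset (ZMod M), R.card ≤ N →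
  ∃ v : ℕ, 0 < v ∧ v < M ∧ ∀ r ∈ R, 8 * |((v : ZMod M) * r).valMinAbs| < M

/-- POL: a graded identity gives an identity of Laurent polynomials -/
def S_POL.{u, v} : Prop := ∀ (K : Type u) (E : Type v) [Field K] [Field E] [Algebra K E] (ζ : E) (M : ℕ) [NeZero M],
  ζ ≠ 0 → Dir K ζ M → ∀ (R : Finset (ZMod M)) (f : ZMod M → E), (∀ j, f j ∈ Hm K ζ M j) →
  ∀ (n : ℕ) (m : Fin n → ℤ) (g : Fin n → E), (∀ i, g i ∈ Hm K ζ M (m i : ZMod M)) →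
  (∑ j ∈ R, f j) ^ 2 = ∑ i, g i →
  ∀ v : ZMod M, (∀ j ∈ R, 4 * |(v * j).valMinAbs| < M) → (∀ i, 2 * |(v * (m i : ZMod M)).valMinAbs| < M) →
  (∑ j ∈ R, (LaurentPolynomial.C (f j) * LaurentPolynomial.T (v * j).valMinAbs : E[T;T⁻¹])) ^ 2 =
    ∑ i, LaurentPolynomial.C (g i) * LaurentPolynomial.T (v * (m i : ZMod M)).valMinAbs

/-- ZER: zeros of `x T^a + x⁻¹ T^(-a) - c` -/
def S_ZER.{u} : Prop := ∀ (E : Type u) [Field E] [CharZero E] (c x x' : E) (a b : ℤ) (F : E[T;T⁻¹]), c ^ 2 ≠ 4 →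
  x ≠ 0 → x' ≠ 0 → a ≠ 0 → b ≠ 0 →
  (F ^ 2 ≠ LaurentPolynomial.C x * LaurentPolynomial.T a + LaurentPolynomial.C x⁻¹ * LaurentPolynomial.T (-a)
    - LaurentPolynomial.C c) ∧
  (F ^ 2 = (LaurentPolynomial.C x * LaurentPolynomial.T a + LaurentPolynomial.C x⁻¹ * LaurentPolynomial.T (-a)
      - LaurentPolynomial.C c) * (LaurentPolynomial.C x' * LaurentPolynomial.T b +
      LaurentPolynomial.C x'⁻¹ * LaurentPolynomial.T (-b) - LaurentPolynomial.C c) →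
    x' + x'⁻¹ = x + x⁻¹ ∨ x' + x'⁻¹ = -(x + x⁻¹))

/-- SQR: squares with few components -/
def S_SQR.{u, v} : Prop := ∀ (p c N : ℕ), p.Prime → ∃ k₀ : ℕ, ∀ k ≥ k₀, ∀ (K : Type u) (E : Type v) [Field K] [Field E]
  [CharZero E] [Algebra K E] (w : K) (ζ : E), w ^ 2 ≠ 4 → IsPrimitiveRoot ζ (p ^ k) →
  (∀ [NeZero (p ^ (k - c))], Dir K ζ (p ^ (k - c))) → ∀ u u' : ℤ, ¬ (p : ℤ) ∣ u → ¬ (p : ℤ) ∣ u' →
  (∀ y : E, Few K ζ (p ^ (k - c)) N y → y ^ 2 ≠ ζ ^ u + ζ ^ (-u) - algebraMap K E w) ∧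
  ∀ y : E, Few K ζ (p ^ (k - c)) N y →
    y ^ 2 = (ζ ^ u + ζ ^ (-u) - algebraMap K E w) * (ζ ^ u' + ζ ^ (-u') - algebraMap K E w) →
    ζ ^ u' + ζ ^ (-u') = ζ ^ u + ζ ^ (-u) ∨ ζ ^ u' + ζ ^ (-u') = -(ζ ^ u + ζ ^ (-u))

/-- NSQ: independence of the quadratic extensions -/
def S_NSQ.{u, v} : Prop := ∀ (K : Type u) [Field K] [NumberField K] (p : ℕ) (w : K), p.Prime → w ^ 2 ≠ 4 →
  IsIntegral ℤ (4 * w) → ∃ k₀ : ℕ, ∀ k ≥ k₀, ∀ (L : Type v) [Field L] [NumberField L] [Algebra K L] (s : L →+* ℂ)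
  (ξ : L), s ξ = 2 * Complex.cos (2 * π / (p : ℂ) ^ k) → ∀ (u u' : ℕ) (x x' d d' : L), ¬ p ∣ u → ¬ p ∣ u' →
  s x = 2 * Complex.cos (2 * π * u / (p : ℂ) ^ k) → s x' = 2 * Complex.cos (2 * π * u' / (p : ℂ) ^ k) →
  d ^ 2 = 4 * (x - algebraMap K L w) → d' ^ 2 = 4 * (x' - algebraMap K L w) →
  d ∉ K⟮ξ⟯ ∧ (x' ≠ x → x' ≠ -x → d * d' ∉ K⟮ξ⟯)

/-- EMB: the sign characters are linearly independent on the embeddings -/
def S_EMB.{u, v, w} : Prop := ∀ (K : Type u) (L : Type v) [Field K] [Field L] [CharZero K] [Algebra K L]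
  [FiniteDimensional K L] (s₁ : L →+* ℂ) (ι : Type w) [Fintype ι] [DecidableEq ι] (d : ι → L),
  (∀ i, d i ^ 2 ∈ (algebraMap K L).range) → (∀ i, d i ∉ (algebraMap K L).range) →
  (∀ i j, i ≠ j → d i * d j ∉ (algebraMap K L).range) → ∀ (e ψ : ι → ℝ), (∀ i, ψ i ≠ 0) →
  ∀ A : {s : L →+* ℂ // s.comp (algebraMap K L) = s₁.comp (algebraMap K L)} → ι → ℝ,
  (∀ s i, (s.1 (d i) = s₁ (d i) → A s i = e i + ψ i) ∧ (s.1 (d i) = -s₁ (d i) → A s i = e i - ψ i)) →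
  ∀ i₀ : ι, LinearIndependent ℝ fun (i : {i : ι // i ≠ i₀}) s => A s i - A s i₀

/-- DET: a nonvanishing minor -/
def S_DET.{u} : Prop := ∀ (S : Type u) [Finite S] (r : ℕ) (f : Fin r → S → ℝ), LinearIndependent ℝ f →
  ∃ e : Fin r → S, Function.Injective e ∧ (Matrix.of fun i j => f j (e i)).det ≠ 0

/-- CNT: the angles in a window -/
def S_CNT : Prop := ∀ (p : ℕ) (α δ : ℝ), p.Prime → 0 < δ → 0 < α - δ → α + δ < π → ∃ (κ : ℝ) (k₀ : ℕ), 0 < κ ∧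
  ∀ k ≥ k₀, ∃ U : Finset ℕ, κ * (p : ℝ) ^ k ≤ U.card ∧ ∀ u ∈ U, ¬ p ∣ u ∧ |2 * π * u / (p : ℝ) ^ k - α| < δ

/-- WIN: a window in which the regulators separate the two points of the fibre -/
def S_WIN : Prop := ∀ {G : ℂ[X]} {η φ₀ ε : ℝ} {L : Fin 2 → ℂ → ℂ} {X : Fin 2 → ℝ → ℂ} (_ : Sys G 2 η φ₀ ε L X),
  ∃ (α δ : ℝ) (l : Fin 2), 0 < δ ∧ (∀ β, |β - α| < δ → |β - φ₀| < ε ∧ 0 < Real.cos β * Real.cos α) ∧
    ∀ β, |β - α| < δ → J X η L l 0 β ≠ J X η L l 1 β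

end Pool.Agent.N76.RG
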